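import Mathlib

set_option autoImplicit false

/-! # The Coxeter group `[∞,3,4,6]` and its integral reflection representation -/

namespace Pool.Agent.H93.KT

open Matrix

/-- Cartan integers. -/
def Ca : Matrix (Fin 5) (Fin 5) ℤ :=
  !![2,-4,0,0,0; -2,2,-1,0,0; 0,-1,2,-2,0; 0,0,-1,2,-3; 0,0,0,-1,2]

/-- Gram matrix of the simple roots. -/
def Gr : Matrix (Fin 5) (Fin 5) ℤ :=
  !![1,-2,0,0,0; -2,2,-1,0,0; 0,-1,2,-2,0; 0,0,-2,4,-6; 0,0,0,-6,12]

/-- The Coxeter matrix (`0` means `∞`). -/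
def Mx : CoxeterMatrix (Fin 5) where
  M := !![1,0,2,2,2; 0,1,3,2,2; 2,3,1,4,2; 2,2,4,1,6; 2,2,2,6,1]
  isSymm := by decide
  diagonal := by decide
  off_diagonal := by
    intro i j h
    fin_cases i <;> fin_cases j <;> first | exact absurd rfl h | decide

/-- The Coxeter group. -/
abbrev W : Type := Mx.Group

/-- Its Coxeter system. -/
abbrev cs : CoxeterSystem Mx W := Mx.toCoxeterSystem

/-- The matrices of the simple reflections in the basis of the simple roots:
`sᵢ αⱼ = αⱼ - Ca i j αᵢ`. -/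
def Sm (i : Fin 5) : Matrix (Fin 5) (Fin 5) ℤ :=
  Matrix.of fun k j => (if k = j then 1 else 0) - (if k = i then Ca i j else 0)

lemma Sm_liftable : Mx.IsLiftable Sm := by
  intro i j
  fin_cases i <;> fin_cases j <;> decide +kernel

/-- The integral representation. -/
def rhoZ : W →* Matrix (Fin 5) (Fin 5) ℤ := cs.lift ⟨Sm, Sm_liftable⟩

lemma rhoZ_simple (i : Fin 5) : rhoZ (cs.simple i) = Sm i := by
  unfold rhoZ; exact cs.lift_apply_simple _ _

lemma Sm_gram (i : Fin 5) : (Sm i)ᵀ * Gr * Sm i = Gr := by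
  fin_cases i <;> decide +kernel

lemma rhoZ_gram (w : W) : (rhoZ w)ᵀ * Gr * rhoZ w = Gr := by
  induction w using cs.simple_induction with
  | simple i => rw [rhoZ_simple]; exact Sm_gram i
  | one => simp
  | mul w w' h h' =>
    rw [map_mul, Matrix.transpose_mul]
    calc (rhoZ w')ᵀ * (rhoZ w)ᵀ * Gr * (rhoZ w * rhoZ w')
        = (rhoZ w')ᵀ * ((rhoZ w)ᵀ * Gr * rhoZ w) * rhoZ w' := by
          simp only [Matrix.mul_assoc]
      _ = Gr := by rw [h, h']

end Pool.Agent.H93.KT
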