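import Pool.Agent.H93.KT.Bil
import Pool.Agent.H93.KT.IntRep

set_option autoImplicit false

/-! # The simple roots in `ℝ⁵`, the action of `W` (complete, no sorry) -/

namespace Pool.Agent.H93.KT

open Filter Topology

/-- The simple roots. -/
noncomputable def al (i : Fin 5) : V :=
  ![![0, 0, 1, 0, 0], ![0, 0, -2, 0, √2], ![-1, -√3, 0, √6 / 2, √2 / 2], ![2, 0, 0, 0, 0],
    ![-3, √3, 0, 0, 0]] i

lemma sq2 : √2 * √2 = (2 : ℝ) := Real.mul_self_sqrt (by norm_num)
lemma sq3 : √3 * √3 = (3 : ℝ) := Real.mul_self_sqrt (by norm_num)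
lemma sq6 : √6 * √6 = (6 : ℝ) := Real.mul_self_sqrt (by norm_num)

lemma B_al (i j : Fin 5) : B (al i) (al j) = (Gr i j : ℝ) := by
  have h2 := sq2
  have h3 := sq3
  have h6 := sq6
  fin_cases i <;> fin_cases j <;> simp [B, al, Gr] <;> nlinarith [h2, h3, h6]

/-- Chamber coordinates: `X i x = - B x (al i)`. -/
noncomputable def X (i : Fin 5) (x : V) : ℝ := - B x (al i)

lemma eq_zero_of_X {x : V} (h : ∀ i, X i x = 0) : x = 0 := by
  have h0 := h 0
  have h1 := h 1
  have h2 := h 2
  have h3 := h 3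
  have h4 := h 4
  simp [X, B, al] at h0 h1 h2 h3 h4
  have s2 : (0 : ℝ) < √2 := by positivity
  have s3 : (0 : ℝ) < √3 := by positivity
  have s6 : (0 : ℝ) < √6 := by positivity
  have e0 : x 0 = 0 := by linarith
  have e1 : x 1 = 0 := by
    rw [e0] at h4
    have : x 1 * √3 = 0 := by linarith
    exact (mul_eq_zero.1 this).resolve_right s3.ne'
  have e4 : x 4 = 0 := by
    rw [h0] at h1
    have : x 4 * √2 = 0 := by linarith
    exact (mul_eq_zero.1 this).resolve_right s2.ne'
  have e3 : x 3 = 0 := by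
    rw [e0, e1, e4] at h2
    have : x 3 * √6 = 0 := by linarith
    exact (mul_eq_zero.1 this).resolve_right s6.ne'
  ext i
  fin_cases i <;> simp [e0, e1, h0, e3, e4]

/-- `6` times the inverse of the Gram matrix. -/
def Gi : Matrix (Fin 5) (Fin 5) ℤ :=
  !![-10,-8,4,8,4; -8,-4,2,4,2; 4,2,-4,-8,-4; 8,4,-8,-10,-5; 4,2,-4,-5,-2]

lemma Gi_mul : Gi * Gr = 6 • (1 : Matrix (Fin 5) (Fin 5) ℤ) := by decide +kernel

/-- Root coordinates. -/
noncomputable def rt (x : V) (i : Fin 5) : ℝ := - (∑ j, (Gi i j : ℝ) * X j x) / 6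

/-- The vector with given root coordinates. -/
noncomputable def cmb (r : Fin 5 → ℝ) : V := ∑ i, r i • al i

lemma X_cmb (r : Fin 5 → ℝ) (j : Fin 5) : X j (cmb r) = - ∑ i, r i * (Gr i j : ℝ) := by
  unfold X cmb
  rw [B_sum_left]
  congr 1
  exact Finset.sum_congr rfl fun i _ => by rw [B_smul_left, B_al]

lemma B_cmb (x : V) (r : Fin 5 → ℝ) : B x (cmb r) = - ∑ i, r i * X i x := by
  unfold cmb X
  rw [B_sum_right, ← Finset.sum_neg_distrib]
  exact Finset.sum_congr rfl fun i _ => by rw [B_smul_right]; ring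

lemma Gr_symm (i j : Fin 5) : Gr i j = Gr j i := by
  fin_cases i <;> fin_cases j <;> rfl

lemma rt_cmb (r : Fin 5 → ℝ) : rt (cmb r) = r := by
  ext i
  unfold rt
  simp_rw [X_cmb]
  have h : ∀ k, ∑ j, (Gi i j : ℝ) * (Gr k j : ℝ) = if i = k then 6 else 0 := by
    intro k
    have h1 : (Gi * Gr) i k = (6 • (1 : Matrix (Fin 5) (Fin 5) ℤ)) i k := by rw [Gi_mul]
    rw [Matrix.mul_apply] at h1
    have h2 : ∑ j, Gi i j * Gr k j = if i = k then 6 else 0 := by
      rw [← Finset.sum_congr rfl fun j _ => by rw [Gr_symm k j], h1]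
      simp [Matrix.smul_apply, Matrix.one_apply]
    have h3 := congrArg (fun z : ℤ => (z : ℝ)) h2
    simp only [Int.cast_sum, Int.cast_mul] at h3
    rw [h3]
    split_ifs <;> norm_num
  have h2 : ∑ j, (Gi i j : ℝ) * -∑ k, r k * (Gr k j : ℝ) = - (6 * r i) := by
    calc ∑ j, (Gi i j : ℝ) * -∑ k, r k * (Gr k j : ℝ)
        = - ∑ j, ∑ k, r k * ((Gi i j : ℝ) * (Gr k j : ℝ)) := by
          rw [← Finset.sum_neg_distrib]
          refine Finset.sum_congr rfl fun j _ => ?_
          rw [mul_neg, Finset.mul_sum]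
          congr 1
          exact Finset.sum_congr rfl fun k _ => by ring
      _ = - ∑ k, r k * ∑ j, (Gi i j : ℝ) * (Gr k j : ℝ) := by
          rw [Finset.sum_comm]
          congr 1
          exact Finset.sum_congr rfl fun k _ => by rw [Finset.mul_sum]
      _ = - (6 * r i) := by
          simp_rw [h]
          simp [mul_comm]
  rw [h2]; ring

lemma cmb_rt (x : V) : cmb (rt x) = x := by
  have h : cmb (rt x) - x = 0 := by
    apply eq_zero_of_X
    intro i
    have h1 : X i (cmb (rt x) - x) = X i (cmb (rt x)) - X i x := by simp [X]; ring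
    rw [h1, X_cmb]
    have h2 : ∀ k, ∑ j, (Gr j i : ℝ) * (Gi j k : ℝ) = if i = k then 6 else 0 := by
      intro k
      have e : ∀ i k : Fin 5, ∑ j, Gr j i * Gi j k = if i = k then 6 else 0 := by decide +kernel
      have h3 := congrArg (fun z : ℤ => (z : ℝ)) (e i k)
      simp only [Int.cast_sum, Int.cast_mul] at h3
      rw [h3]
      split_ifs <;> norm_num
    have h4 : ∑ j, rt x j * (Gr j i : ℝ) = - X i x := by
      unfold rt
      calc ∑ j, -(∑ k, (Gi j k : ℝ) * X k x) / 6 * (Gr j i : ℝ)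
          = - (∑ j, ∑ k, ((Gr j i : ℝ) * (Gi j k : ℝ)) * X k x) / 6 := by
            rw [neg_div, Finset.sum_div, ← Finset.sum_neg_distrib]
            refine Finset.sum_congr rfl fun j _ => ?_
            rw [neg_div, neg_mul]
            congr 1
            rw [Finset.sum_div, Finset.sum_mul, Finset.sum_div]
            exact Finset.sum_congr rfl fun k _ => by ring
        _ = - (∑ k, (∑ j, (Gr j i : ℝ) * (Gi j k : ℝ)) * X k x) / 6 := by
            rw [Finset.sum_comm]
            congr 2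
            exact Finset.sum_congr rfl fun k _ => by rw [Finset.sum_mul]
        _ = - X i x := by
            simp_rw [h2]
            simp
            ring
    rw [h4]; ring
  exact sub_eq_zero.1 h

/-- Root coordinates as a linear equivalence. -/
noncomputable def psi : (Fin 5 → ℝ) ≃ₗ[ℝ] V where
  toFun := cmb
  invFun := rt
  left_inv := rt_cmb
  right_inv := cmb_rt
  map_add' r s := by simp [cmb, add_smul, Finset.sum_add_distrib]
  map_smul' a r := by simp [cmb, mul_smul, Finset.smul_sum]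

@[simp] lemma psi_apply (r : Fin 5 → ℝ) : psi r = cmb r := rfl

@[simp] lemma psi_symm_apply (x : V) : psi.symm x = rt x := rfl

/-- Real matrices of the representation. -/
noncomputable def rhoR : W →* Matrix (Fin 5) (Fin 5) ℝ :=
  ((Int.castRingHom ℝ).mapMatrix : Matrix (Fin 5) (Fin 5) ℤ →+* Matrix (Fin 5) (Fin 5) ℝ).toMonoidHom.comp
    rhoZ

lemma rhoR_apply (w : W) (i j : Fin 5) : rhoR w i j = (rhoZ w i j : ℝ) := rfl

/-- The action on `V` as a monoid homomorphism to endomorphisms. -/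
noncomputable def actE : W →* Module.End ℝ V where
  toFun w := psi.toLinearMap ∘ₗ (Matrix.toLin' (rhoR w)) ∘ₗ psi.symm.toLinearMap
  map_one' := by
    rw [map_one, Matrix.toLin'_one]
    apply LinearMap.ext
    intro x
    simp [cmb_rt]
  map_mul' w w' := by
    rw [map_mul, Matrix.toLin'_mul]
    apply LinearMap.ext
    intro x
    simp [rt_cmb]

/-- The action of `W` on `V`. -/
noncomputable def act : W →* (V ≃ₗ[ℝ] V) :=
  (LinearMap.GeneralLinearGroup.generalLinearEquiv ℝ V).toMonoidHom.comp actE.toHomUnits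

lemma act_apply (w : W) (x : V) : act w x = cmb ((rhoR w).mulVec (rt x)) := rfl

lemma act_mul (w w' : W) (x : V) : act (w * w') x = act w (act w' x) := by
  rw [map_mul]; rfl

@[simp] lemma act_one (x : V) : act 1 x = x := by rw [map_one]; rfl

@[simp] lemma act_inv_act (w : W) (x : V) : act w⁻¹ (act w x) = x := by
  rw [← act_mul]; simp

@[simp] lemma act_act_inv (w : W) (x : V) : act w (act w⁻¹ x) = x := by
  rw [← act_mul]; simp

lemma rt_act (w : W) (x : V) (i : Fin 5) : rt (act w x) i = ∑ j, (rhoZ w i j : ℝ) * rt x j := by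
  rw [act_apply, rt_cmb]; rfl

lemma rt_al (j : Fin 5) : rt (al j) = Pi.single j 1 := by
  have h : al j = cmb (Pi.single j 1) := by
    unfold cmb
    rw [Finset.sum_eq_single j]
    · simp
    · intro i _ hi; simp [hi]
    · simp
  rw [h, rt_cmb]

lemma act_al (w : W) (j : Fin 5) : act w (al j) = ∑ i, (rhoZ w i j : ℝ) • al i := by
  rw [act_apply, rt_al]
  unfold cmb
  refine Finset.sum_congr rfl fun i _ => ?_
  congr 1
  simp [Matrix.mulVec_single, rhoR_apply]

lemma B_eq_rt (x y : V) : B x y = ∑ i, ∑ j, rt x i * (Gr i j : ℝ) * rt y j := by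
  conv_lhs => rw [← cmb_rt x, ← cmb_rt y]
  unfold cmb
  rw [B_sum_left]
  refine Finset.sum_congr rfl fun i _ => ?_
  rw [B_sum_right]
  refine Finset.sum_congr rfl fun j _ => ?_
  rw [B_smul_left, B_smul_right, B_al]; ring

lemma B_act (w : W) (x y : V) : B (act w x) (act w y) = B x y := by
  have key : (rhoR w).transpose * Gr.map (Int.castRingHom ℝ) * rhoR w = Gr.map (Int.castRingHom ℝ) := by
    have h := congrArg (fun M : Matrix (Fin 5) (Fin 5) ℤ => M.map (Int.castRingHom ℝ)) (rhoZ_gram w)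
    simp only [Matrix.map_mul] at h
    exact h
  have h : ∀ x y : V, B x y = dotProduct (rt x) ((Gr.map (Int.castRingHom ℝ)).mulVec (rt y)) := by
    intro x y
    rw [B_eq_rt]
    simp only [dotProduct, Matrix.mulVec, Finset.mul_sum, Matrix.map_apply]
    refine Finset.sum_congr rfl fun i _ => Finset.sum_congr rfl fun j _ => ?_
    simp; ring
  have e : ∀ x : V, rt (act w x) = (rhoR w).mulVec (rt x) := by
    intro x; rw [act_apply, rt_cmb]
  rw [h, h, e, e, Matrix.mulVec_mulVec, Matrix.dotProduct_mulVec, Matrix.vecMul_mulVec,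
    ← Matrix.dotProduct_mulVec, ← Matrix.mul_assoc, key]

lemma B_act_left (w : W) (x y : V) : B (act w x) y = B x (act w⁻¹ y) := by
  rw [← B_act w x (act w⁻¹ y), act_act_inv]

lemma B_act_right (w : W) (x y : V) : B x (act w y) = B (act w⁻¹ x) y := by
  rw [← B_act w (act w⁻¹ x) y, act_act_inv]

lemma act_simple (i : Fin 5) (x : V) :
    act (cs.simple i) x = x + (2 * X i x / (Gr i i : ℝ)) • al i := by
  have hG : ∀ j, (Gr i i : ℝ) * (Ca i j : ℝ) = 2 * (Gr j i : ℝ) := by
    have e : ∀ i j : Fin 5, Gr i i * Ca i j = 2 * Gr j i := by decide +kernel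
    intro j; exact_mod_cast e i j
  have hii : (Gr i i : ℝ) ≠ 0 := by
    have e : ∀ i : Fin 5, Gr i i ≠ 0 := by decide +kernel
    exact_mod_cast e i
  have h1 : rt (act (cs.simple i) x) = rt x - (∑ j, (Ca i j : ℝ) * rt x j) • Pi.single i 1 := by
    ext k
    rw [rt_act, rhoZ_simple]
    simp only [Sm, Matrix.of_apply, Pi.sub_apply, Pi.smul_apply, smul_eq_mul]
    by_cases hk : k = i
    · subst hk
      simp [sub_mul, Finset.sum_sub_distrib]
    · simp [hk]
  have h2 : ∑ j, (Ca i j : ℝ) * rt x j = - (2 * X i x / (Gr i i : ℝ)) := by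
    have h3 : X i x = - ∑ j, rt x j * (Gr j i : ℝ) := by
      conv_lhs => rw [← cmb_rt x]
      rw [X_cmb]
    rw [h3]
    field_simp
    rw [Finset.sum_mul, Finset.mul_sum]
    refine Finset.sum_congr rfl fun j _ => ?_
    linear_combination rt x j * hG j
  have h4 : act (cs.simple i) x = cmb (rt (act (cs.simple i) x)) := (cmb_rt _).symm
  rw [h4, h1, h2]
  have h5 : cmb (rt x - (-(2 * X i x / (Gr i i : ℝ))) • Pi.single i 1)
      = psi (rt x) - (-(2 * X i x / (Gr i i : ℝ))) • psi (Pi.single i 1) := by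
    rw [← map_smul, ← map_sub]; rfl
  rw [h5, psi_apply, psi_apply, cmb_rt]
  have h6 : cmb (Pi.single i 1) = al i := by rw [← rt_al, cmb_rt]
  rw [h6]
  module

lemma act_AdS (w : W) {x : V} (hx : x ∈ AdS) : act w x ∈ AdS := by
  unfold AdS at *
  simp only [Set.mem_ofPred_eq] at *
  rw [B_act, hx]

end Pool.Agent.H93.KT
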