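import Pool.Agent.H93.KT.Defs

set_option autoImplicit false

/-! # Elementary properties of the form `B` (complete, no sorry) -/

namespace Pool.Agent.H93.KT

open Filter Topology

lemma B_comm (x y : V) : B x y = B y x := by unfold B; ring

@[simp] lemma B_add_left (x y z : V) : B (x + y) z = B x z + B y z := by
  unfold B; simp only [Pi.add_apply]; ring

@[simp] lemma B_add_right (x y z : V) : B z (x + y) = B z x + B z y := by
  unfold B; simp only [Pi.add_apply]; ring

@[simp] lemma B_sub_left (x y z : V) : B (x - y) z = B x z - B y z := by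
  unfold B; simp only [Pi.sub_apply]; ring

@[simp] lemma B_sub_right (x y z : V) : B z (x - y) = B z x - B z y := by
  unfold B; simp only [Pi.sub_apply]; ring

@[simp] lemma B_smul_left (a : ℝ) (x z : V) : B (a • x) z = a * B x z := by
  unfold B; simp only [Pi.smul_apply, smul_eq_mul]; ring

@[simp] lemma B_smul_right (a : ℝ) (x z : V) : B z (a • x) = a * B z x := by
  unfold B; simp only [Pi.smul_apply, smul_eq_mul]; ring

@[simp] lemma B_neg_left (x z : V) : B (-x) z = - B x z := by
  unfold B; simp only [Pi.neg_apply]; ring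

@[simp] lemma B_neg_right (x z : V) : B z (-x) = - B z x := by
  unfold B; simp only [Pi.neg_apply]; ring

@[simp] lemma B_zero_left (z : V) : B 0 z = 0 := by simp [B]

@[simp] lemma B_zero_right (z : V) : B z 0 = 0 := by simp [B]

lemma B_sum_left {ι : Type*} (s : Finset ι) (f : ι → V) (z : V) :
    B (∑ i ∈ s, f i) z = ∑ i ∈ s, B (f i) z := by
  classical
  induction s using Finset.induction_on with
  | empty => simp
  | insert a s ha ih => rw [Finset.sum_insert ha, Finset.sum_insert ha, B_add_left, ih]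

lemma B_sum_right {ι : Type*} (s : Finset ι) (f : ι → V) (z : V) :
    B z (∑ i ∈ s, f i) = ∑ i ∈ s, B z (f i) := by
  rw [B_comm, B_sum_left]
  exact Finset.sum_congr rfl fun i _ => B_comm _ _

@[simp] lemma om_add_right (x y z : V) : om z (x + y) = om z x + om z y := by
  unfold om; simp only [Pi.add_apply]; ring

@[simp] lemma om_add_left (x y z : V) : om (x + y) z = om x z + om y z := by
  unfold om; simp only [Pi.add_apply]; ring

@[simp] lemma om_sub_right (x y z : V) : om z (x - y) = om z x - om z y := by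
  unfold om; simp only [Pi.sub_apply]; ring

@[simp] lemma om_smul_right (a : ℝ) (x z : V) : om z (a • x) = a * om z x := by
  unfold om; simp only [Pi.smul_apply, smul_eq_mul]; ring

@[simp] lemma om_smul_left (a : ℝ) (x z : V) : om (a • x) z = a * om x z := by
  unfold om; simp only [Pi.smul_apply, smul_eq_mul]; ring

@[simp] lemma om_neg_right (x z : V) : om z (-x) = - om z x := by
  unfold om; simp only [Pi.neg_apply]; ring

@[simp] lemma om_neg_left (x z : V) : om (-x) z = - om x z := by
  unfold om; simp only [Pi.neg_apply]; ring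

@[simp] lemma om_self (x : V) : om x x = 0 := by unfold om; ring

lemma om_antisymm (x y : V) : om x y = - om y x := by unfold om; ring

/-- The bilinear form as a continuous bilinear map. -/
noncomputable def BL : V →L[ℝ] V →L[ℝ] ℝ :=
  LinearMap.toContinuousLinearMap
    { toFun := fun x => LinearMap.toContinuousLinearMap
        { toFun := fun y => B x y
          map_add' := fun y z => B_add_right y z x
          map_smul' := fun a y => B_smul_right a y x }
      map_add' := fun x y => by ext z; simp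
      map_smul' := fun a x => by ext z; simp }

@[simp] lemma BL_apply (x y : V) : BL x y = B x y := rfl

@[fun_prop] lemma continuous_B {α : Type*} [TopologicalSpace α] {f g : α → V} (hf : Continuous f)
    (hg : Continuous g) : Continuous fun a => B (f a) (g a) := by
  unfold B; fun_prop

@[fun_prop] lemma continuous_om {α : Type*} [TopologicalSpace α] {f g : α → V} (hf : Continuous f)
    (hg : Continuous g) : Continuous fun a => om (f a) (g a) := by
  unfold om; fun_prop

lemma tendsto_B {α : Type*} {l : Filter α} {f g : α → V} {x y : V} (hf : Tendsto f l (𝓝 x))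
    (hg : Tendsto g l (𝓝 y)) : Tendsto (fun a => B (f a) (g a)) l (𝓝 (B x y)) := by
  have h : Continuous fun p : V × V => B p.1 p.2 := by fun_prop
  exact (h.tendsto (x, y)).comp (hf.prodMk_nhds hg)

lemma tendsto_om {α : Type*} {l : Filter α} {f g : α → V} {x y : V} (hf : Tendsto f l (𝓝 x))
    (hg : Tendsto g l (𝓝 y)) : Tendsto (fun a => om (f a) (g a)) l (𝓝 (om x y)) := by
  have h : Continuous fun p : V × V => om p.1 p.2 := by fun_prop
  exact (h.tendsto (x, y)).comp (hf.prodMk_nhds hg)

lemma isClosed_AdS : IsClosed AdS := by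
  unfold AdS
  exact isClosed_eq (by fun_prop) continuous_const

lemma hasDerivAt_B_left {c : ℝ → V} {X : V} {s : ℝ} (h : HasDerivAt c X s) (y : V) :
    HasDerivAt (fun s => B (c s) y) (B X y) s := by
  have h1 : HasFDerivAt (fun x : V => B x y) ((BL.flip) y) (c s) := ((BL.flip) y).hasFDerivAt
  exact h1.comp_hasDerivAt s h

lemma hasDerivAt_B_right {c : ℝ → V} {X : V} {s : ℝ} (h : HasDerivAt c X s) (y : V) :
    HasDerivAt (fun s => B y (c s)) (B y X) s := by
  have h1 : HasFDerivAt (fun x : V => B y x) (BL y) (c s) := (BL y).hasFDerivAt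
  exact h1.comp_hasDerivAt s h

lemma abs_B_le (x y : V) : |B x y| ≤ 5 * ‖x‖ * ‖y‖ := by
  have h : ∀ i, |x i * y i| ≤ ‖x‖ * ‖y‖ := by
    intro i
    rw [abs_mul]
    exact mul_le_mul (by simpa using norm_le_pi_norm x i) (by simpa using norm_le_pi_norm y i)
      (abs_nonneg _) (norm_nonneg _)
  have h0 := abs_le.1 (h 0)
  have h1 := abs_le.1 (h 1)
  have h2 := abs_le.1 (h 2)
  have h3 := abs_le.1 (h 3)
  have h4 := abs_le.1 (h 4)
  unfold B
  rw [abs_le]
  constructor <;> linarith [h0.1, h0.2, h1.1, h1.2, h2.1, h2.2, h3.1, h3.2, h4.1, h4.2]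

/-- The dual vector for `B`: `B x (flipB x) = ∑ x i ^ 2`. -/
def flipB (x : V) : V := ![x 0, x 1, x 2, - x 3, - x 4]

lemma flipB_flipB (x : V) : flipB (flipB x) = x := by
  ext i; fin_cases i <;> simp [flipB]

lemma norm_flipB_le (x : V) : ‖flipB x‖ ≤ ‖x‖ := by
  rw [pi_norm_le_iff_of_nonneg (norm_nonneg _)]
  intro i
  fin_cases i
  · simpa [flipB] using norm_le_pi_norm x 0
  · simpa [flipB] using norm_le_pi_norm x 1
  · simpa [flipB] using norm_le_pi_norm x 2
  · simpa [flipB] using norm_le_pi_norm x 3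
  · simpa [flipB] using norm_le_pi_norm x 4

lemma norm_flipB (x : V) : ‖flipB x‖ = ‖x‖ := by
  apply le_antisymm (norm_flipB_le x)
  have := norm_flipB_le (flipB x)
  rwa [flipB_flipB] at this

lemma sum_sq_ge (x : V) : ‖x‖ ^ 2 ≤ x 0 ^ 2 + x 1 ^ 2 + x 2 ^ 2 + x 3 ^ 2 + x 4 ^ 2 := by
  have h0 := sq_nonneg (x 0)
  have h1 := sq_nonneg (x 1)
  have h2 := sq_nonneg (x 2)
  have h3 := sq_nonneg (x 3)
  have h4 := sq_nonneg (x 4)
  have h : ‖x‖ ≤ √(x 0 ^ 2 + x 1 ^ 2 + x 2 ^ 2 + x 3 ^ 2 + x 4 ^ 2) := by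
    rw [pi_norm_le_iff_of_nonneg (Real.sqrt_nonneg _)]
    intro i
    rw [Real.norm_eq_abs]
    apply Real.abs_le_sqrt
    fin_cases i <;> simp <;> linarith
  calc ‖x‖ ^ 2 ≤ (√(x 0 ^ 2 + x 1 ^ 2 + x 2 ^ 2 + x 3 ^ 2 + x 4 ^ 2)) ^ 2 := by gcongr
    _ = _ := Real.sq_sqrt (by positivity)

lemma B_flipB_ge (x : V) : ‖x‖ ^ 2 ≤ B x (flipB x) := by
  have h1 : B x (flipB x) = x 0 ^ 2 + x 1 ^ 2 + x 2 ^ 2 + x 3 ^ 2 + x 4 ^ 2 := by
    simp [B, flipB]; ring
  rw [h1]; exact sum_sq_ge x

lemma B_nondeg {x : V} (h : ∀ y, B x y = 0) : x = 0 := by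
  have := B_flipB_ge x
  rw [h] at this
  have h2 : ‖x‖ = 0 := by nlinarith [norm_nonneg x]
  exact norm_eq_zero.1 h2

end Pool.Agent.H93.KT
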