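import Pool.Agent.H93.KT.Ob

set_option autoImplicit false

/-! MODULE Cell.  Explicit geometry of the chamber: `x = pst x + fut x`, with
`B (pst x) (pst x) = -(2a²+5b²+c²+8ab+4ac+5bc)/3` for `(a,b,c) = (X 2 x, X 3 x, X 4 x)`,
`B (fut x) (fut x) = -(5u²+2v²+8uv)/3` for `(u,v) = (X 0 x, X 1 x)`,
`B (pst x) (fut y) = (2u+v)(a+2b+c)/3` (all from `B_Vd`).
`2 a²+5b²+c²+8ab+4ac+5bc ≥ (a+2b+c)²` and `(2u+v)² ≤ (4/5)(5u²+2v²+8uv)` for nonnegative entries.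
For `B_Qm_le`: write `P = √(-B(pst x)(pst x))`, `F = √(-B(fut x)(fut x))`, `b = B(pst x)(fut x)/(PF) ≤ 2/√5`;
`1 = P²+F²-2bPF` gives `F ≤ bP+1`; reverse Cauchy–Schwarz in the (2,1)-space `x 2 = x 4 = 0` (future cone
`x 3 > 0`) gives `B (pst x) p ≤ -P`; `B (fut x) p ≤ (2/√5) F`; so `B x p ≤ 2/√5 ≤ 9/10`.
For `exists_Qm_gt` take `p = pst x / P`: `B x p = -(P - bF)` and `(P-bF)² = 1-(1-b²)F² < 1`. -/

namespace Pool.Agent.H93.KT

lemma X_pst (i : Fin 5) (x : V) : X i (pst x) = if i = 0 ∨ i = 1 then 0 else X i x := by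
  unfold pst
  rw [X_add, X_add, X_smul, X_smul, X_smul, X_Vd, X_Vd, X_Vd]
  fin_cases i <;> simp

lemma X_fut (i : Fin 5) (x : V) : X i (fut x) = if i = 0 ∨ i = 1 then X i x else 0 := by
  unfold fut
  rw [X_add, X_smul, X_smul, X_Vd, X_Vd]
  fin_cases i <;> simp

lemma pst_0 (x : V) : pst x 0 = -(X 3 x) / 2 := by simp [pst, Vd]; ring
lemma pst_1 (x : V) : pst x 1 = -(√3 / 2 * X 3 x + √3 / 3 * X 4 x) := by simp [pst, Vd]; ring
lemma pst_2 (x : V) : pst x 2 = 0 := by simp [pst, Vd]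
lemma pst_3 (x : V) : pst x 3 = √6 / 3 * (X 2 x + 2 * X 3 x + X 4 x) := by simp [pst, Vd]; ring
lemma pst_4 (x : V) : pst x 4 = 0 := by simp [pst, Vd]
lemma fut_0 (x : V) : fut x 0 = 0 := by simp [fut, Vd]
lemma fut_1 (x : V) : fut x 1 = 0 := by simp [fut, Vd]
lemma fut_2 (x : V) : fut x 2 = - X 0 x := by simp [fut, Vd]
lemma fut_3 (x : V) : fut x 3 = -(√6 / 6 * (2 * X 0 x + X 1 x)) := by simp [fut, Vd]; ring
lemma fut_4 (x : V) : fut x 4 = √2 / 2 * (2 * X 0 x + X 1 x) := by simp [fut, Vd]; ring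

theorem B_pst_fut (x y : V) :
    B (pst x) (fut y) = (2 * X 0 y + X 1 y) * (X 2 x + 2 * X 3 x + X 4 x) / 3 := by
  have h6 := sq6
  unfold B
  rw [pst_0, pst_1, pst_2, pst_3, pst_4, fut_0, fut_1, fut_2, fut_3, fut_4]
  linear_combination (X 2 x + 2 * X 3 x + X 4 x) * (2 * X 0 y + X 1 y) / 18 * h6

lemma B_pst (x y : V) : B (pst x) (pst y) = -(2 * X 2 x * X 2 y + 5 * X 3 x * X 3 y + X 4 x * X 4 y
    + 4 * (X 2 x * X 3 y + X 3 x * X 2 y) + 2 * (X 2 x * X 4 y + X 4 x * X 2 y)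
    + 5 / 2 * (X 3 x * X 4 y + X 4 x * X 3 y)) / 3 := by
  have h6 := sq6
  have h3 := sq3
  unfold B
  rw [pst_0, pst_1, pst_2, pst_3, pst_4, pst_0, pst_1, pst_2, pst_3, pst_4]
  linear_combination (-(X 2 x + 2 * X 3 x + X 4 x) * (X 2 y + 2 * X 3 y + X 4 y) / 9) * h6
    + ((1 / 2 * X 3 x + 1 / 3 * X 4 x) * (1 / 2 * X 3 y + 1 / 3 * X 4 y)) * h3

lemma B_fut (x y : V) : B (fut x) (fut y) = -(5 * X 0 x * X 0 y + 2 * X 1 x * X 1 y
    + 4 * (X 0 x * X 1 y + X 1 x * X 0 y)) / 3 := by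
  have h6 := sq6
  have h2 := sq2
  unfold B
  rw [fut_0, fut_1, fut_2, fut_3, fut_4, fut_0, fut_1, fut_2, fut_3, fut_4]
  linear_combination (-(2 * X 0 x + X 1 x) * (2 * X 0 y + X 1 y) / 36) * h6
    - ((2 * X 0 x + X 1 x) * (2 * X 0 y + X 1 y) / 4) * h2

theorem pst_le {x : V} (hx : x ∈ Ch) :
    (X 2 x + 2 * X 3 x + X 4 x) ^ 2 ≤ -(3 * B (pst x) (pst x)) := by
  have h2 := hx 2
  have h3 := hx 3
  have h4 := hx 4
  rw [B_pst]
  nlinarith [mul_nonneg h2 h3, mul_nonneg h2 h4, mul_nonneg h3 h4]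

theorem fut_le {x : V} (hx : x ∈ Ch) :
    (2 * X 0 x + X 1 x) ^ 2 ≤ -(12 / 5 * B (fut x) (fut x)) := by
  have h0 := hx 0
  have h1 := hx 1
  rw [B_fut]
  nlinarith [mul_nonneg h0 h1]

lemma B_expand (x : V) : B x x = B (pst x) (pst x) + B (fut x) (fut x) + 2 * B (pst x) (fut x) := by
  conv_lhs => rw [← pst_add_fut x]
  rw [B_add_left, B_add_right, B_add_right, B_comm (fut x) (pst x)]
  ring

lemma k1_aux {a b c u v : ℝ} (h2 : 0 ≤ a) (h3 : 0 ≤ b) (h4 : 0 ≤ c) (h0 : 0 ≤ u) (h1 : 0 ≤ v) :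
    b ^ 2 / 4 + 3 * (b / 2 + c / 3) ^ 2 + u ^ 2 + 6 * ((a + 2 * b + c) / 3 - (2 * u + v) / 6) ^ 2 +
      2 * ((2 * u + v) / 2) ^ 2 ≤ 3 * (a + 2 * b + c) ^ 2 + 2 * (2 * u + v) ^ 2 := by
  have hM : 0 ≤ a + 2 * b + c := by positivity
  have hN : 0 ≤ 2 * u + v := by positivity
  have t1 : b ^ 2 / 4 + 3 * (b / 2 + c / 3) ^ 2 ≤ (a + 2 * b + c) ^ 2 := by
    have e : (a + 2 * b + c) ^ 2 - (b ^ 2 / 4 + 3 * (b / 2 + c / 3) ^ 2)
      = a * a + 3 * (b * b) + 2 / 3 * (c * c) + 4 * (a * b) + 2 * (a * c) + 3 * (b * c) := by ring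
    have : 0 ≤ a * a + 3 * (b * b) + 2 / 3 * (c * c) + 4 * (a * b) + 2 * (a * c) + 3 * (b * c) := by
      positivity
    linarith
  have t2 : u ^ 2 ≤ (2 * u + v) ^ 2 / 4 := by
    have e : (2 * u + v) ^ 2 / 4 - u ^ 2 = u * v + v * v / 4 := by ring
    have : 0 ≤ u * v + v * v / 4 := by positivity
    linarith
  have t3 : 6 * ((a + 2 * b + c) / 3 - (2 * u + v) / 6) ^ 2 ≤
      2 / 3 * (a + 2 * b + c) ^ 2 + (2 * u + v) ^ 2 / 6 := by
    have := mul_nonneg hM hN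
    have e : 2 / 3 * (a + 2 * b + c) ^ 2 + (2 * u + v) ^ 2 / 6 -
      6 * ((a + 2 * b + c) / 3 - (2 * u + v) / 6) ^ 2
      = 2 / 3 * ((a + 2 * b + c) * (2 * u + v)) := by ring
    linarith
  have t4 := sq_nonneg (a + 2 * b + c)
  have t5 := sq_nonneg (2 * u + v)
  have t6 : 2 * ((2 * u + v) / 2) ^ 2 = (2 * u + v) ^ 2 / 2 := by ring
  linarith

lemma coord_pf (x : V) (i : Fin 5) : x i = pst x i + fut x i := by
  conv_lhs => rw [← pst_add_fut x]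
  simp

lemma sum_sq_coord {x : V} (hx : x ∈ Ch) : x 0 ^ 2 + x 1 ^ 2 + x 2 ^ 2 + x 3 ^ 2 + x 4 ^ 2 ≤
      3 * (X 2 x + 2 * X 3 x + X 4 x) ^ 2 + 2 * (2 * X 0 x + X 1 x) ^ 2 := by
  have q2 : √2 ^ 2 = 2 := Real.sq_sqrt (by norm_num)
  have q3 : √3 ^ 2 = 3 := Real.sq_sqrt (by norm_num)
  have q6 : √6 ^ 2 = 6 := Real.sq_sqrt (by norm_num)
  have s0 : x 0 ^ 2 = X 3 x ^ 2 / 4 := by rw [coord_pf x 0, pst_0, fut_0]; ring
  have s1 : x 1 ^ 2 = 3 * (X 3 x / 2 + X 4 x / 3) ^ 2 := by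
    rw [coord_pf x 1, pst_1, fut_1]; linear_combination (X 3 x / 2 + X 4 x / 3) ^ 2 * q3
  have s2 : x 2 ^ 2 = X 0 x ^ 2 := by rw [coord_pf x 2, pst_2, fut_2]; ring
  have s3 : x 3 ^ 2 = 6 * ((X 2 x + 2 * X 3 x + X 4 x) / 3 - (2 * X 0 x + X 1 x) / 6) ^ 2 := by
    rw [coord_pf x 3, pst_3, fut_3]
    linear_combination ((X 2 x + 2 * X 3 x + X 4 x) / 3 - (2 * X 0 x + X 1 x) / 6) ^ 2 * q6
  have s4 : x 4 ^ 2 = 2 * ((2 * X 0 x + X 1 x) / 2) ^ 2 := by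
    rw [coord_pf x 4, pst_4, fut_4]
    linear_combination ((2 * X 0 x + X 1 x) / 2) ^ 2 * q2
  rw [s0, s1, s2, s3, s4]
  exact k1_aux (hx 2) (hx 3) (hx 4) (hx 0) (hx 1)

theorem Ch_neg : ∃ c : ℝ, 0 < c ∧ ∀ x ∈ Ch, c * ‖x‖ ^ 2 ≤ - B x x := by
  refine ⟨1 / 100, by norm_num, fun x hx => ?_⟩
  have hp := pst_le hx
  have hf := fut_le hx
  have hT := B_pst_fut x x
  have hB := B_expand x
  have hs := sum_sq_ge x
  have k1 := sum_sq_coord hx
  generalize X 2 x + 2 * X 3 x + X 4 x = M at *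
  generalize 2 * X 0 x + X 1 x = N at *
  have k2 : M ^ 2 / 10 + N ^ 2 / 10 ≤ -(3 * B x x) := by
    rw [hB, hT]
    nlinarith [sq_nonneg (M * 9 - N * 10)]
  have k3 := sq_nonneg M
  have k4 := sq_nonneg N
  linarith

theorem isCompact_ChAdS : IsCompact (Ch ∩ AdS) := by
  obtain ⟨c, hc, h⟩ := Ch_neg
  refine Metric.isCompact_of_isClosed_isBounded (isClosed_Ch.inter isClosed_AdS) ?_
  refine (Metric.isBounded_closedBall (x := (0 : V)) (r := √(1 / c))).subset ?_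
  rintro x ⟨hx, hA⟩
  rw [mem_closedBall_zero_iff]
  apply Real.le_sqrt_of_sq_le
  have := h x hx
  rw [show B x x = -1 from hA] at this
  rw [le_div_iff₀ hc]
  linarith

theorem isCompact_Qm : IsCompact Qm := by
  have : Qm = (Ch ∩ AdS) ∩ {x | X 0 x = 0 ∧ X 1 x = 0} := by
    ext x; simp [Qm]; tauto
  rw [this]
  exact isCompact_ChAdS.inter_right ((isClosed_eq (continuous_X 0) continuous_const).inter
    (isClosed_eq (continuous_X 1) continuous_const))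

theorem isCompact_Qp : IsCompact Qp := by
  have : Qp = (Ch ∩ AdS) ∩ ({x | X 2 x = 0} ∩ ({x | X 3 x = 0} ∩ {x | X 4 x = 0})) := by
    ext x; simp [Qp]; tauto
  rw [this]
  exact isCompact_ChAdS.inter_right ((isClosed_eq (continuous_X 2) continuous_const).inter
    ((isClosed_eq (continuous_X 3) continuous_const).inter
    (isClosed_eq (continuous_X 4) continuous_const)))

theorem Qm_nonempty : Qm.Nonempty := by
  refine ⟨√3 • Vd 4, ?_, ?_, ?_, ?_⟩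
  · intro i
    rw [X_smul, X_Vd]
    split_ifs <;> positivity
  · change B _ _ = -1
    rw [B_smul_left, B_smul_right, B_Vd]
    have h : Gi 4 4 = -2 := rfl
    have : (Gi 4 4 : ℝ) = -2 := by rw [h]; norm_num
    rw [this]
    nlinarith [sq3]
  · rw [X_smul, X_Vd]; simp
  · rw [X_smul, X_Vd]; simp

theorem Qp_nonempty : Qp.Nonempty := by
  refine ⟨(√6 / 2) • Vd 1, ?_, ?_, ?_, ?_, ?_⟩
  · intro i
    rw [X_smul, X_Vd]
    split_ifs <;> positivity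
  · change B _ _ = -1
    rw [B_smul_left, B_smul_right, B_Vd]
    have h : Gi 1 1 = -4 := rfl
    have : (Gi 1 1 : ℝ) = -4 := by rw [h]; norm_num
    rw [this]
    nlinarith [sq6]
  · rw [X_smul, X_Vd]; simp
  · rw [X_smul, X_Vd]; simp
  · rw [X_smul, X_Vd]; simp

lemma pst_eq_of_Qm {p : V} (hp : p ∈ Qm) : pst p = p := by
  have h := pst_add_fut p
  have : fut p = 0 := by unfold fut; rw [hp.2.2.1, hp.2.2.2]; simp
  rwa [this, add_zero] at h

lemma fut_eq_of_Qp {p : V} (hp : p ∈ Qp) : fut p = p := by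
  have h := pst_add_fut p
  have : pst p = 0 := by unfold pst; rw [hp.2.2.1, hp.2.2.2.1, hp.2.2.2.2]; simp
  rwa [this, zero_add] at h

theorem Qm_pos {p : V} (hp : p ∈ Qm) : 0 < X 2 p + X 3 p + X 4 p := by
  have h2 := hp.1 2
  have h3 := hp.1 3
  have h4 := hp.1 4
  by_contra hc
  push Not at hc
  have e2 : X 2 p = 0 := by linarith
  have e3 : X 3 p = 0 := by linarith
  have e4 : X 4 p = 0 := by linarith
  have h1 : B p p = -1 := hp.2.1
  rw [← pst_eq_of_Qm hp, B_pst, e2, e3, e4] at h1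
  norm_num at h1

theorem Qp_pos {p : V} (hp : p ∈ Qp) : 0 < X 0 p + X 1 p := by
  have h0 := hp.1 0
  have h1 := hp.1 1
  by_contra hc
  push Not at hc
  have e0 : X 0 p = 0 := by linarith
  have e1 : X 1 p = 0 := by linarith
  have h : B p p = -1 := hp.2.1
  rw [← fut_eq_of_Qp hp, B_fut, e0, e1] at h
  norm_num at h

theorem Qm_coord {p : V} (hp : p ∈ Qm) : p 2 = 0 ∧ p 4 = 0 ∧ 0 < p 3 := by
  have h := pst_eq_of_Qm hp
  have hpos := Qm_pos hp
  have h2 := hp.1 2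
  have h3 := hp.1 3
  have h4 := hp.1 4
  refine ⟨?_, ?_, ?_⟩
  · rw [← h, pst_2]
  · rw [← h, pst_4]
  · rw [← h, pst_3]
    have : 0 < X 2 p + 2 * X 3 p + X 4 p := by linarith
    positivity

/-- sizes: `P² = -B (pst x) (pst x)` etc. -/
lemma pst_neg {x : V} (hx : x ∈ Ch) (h1 : 0 < X 2 x + X 3 x + X 4 x) :
    0 < -B (pst x) (pst x) := by
  have := pst_le hx
  have h2 := hx 2
  have h3 := hx 3
  have h4 := hx 4
  have : 0 < (X 2 x + 2 * X 3 x + X 4 x) ^ 2 := by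
    have : 0 < X 2 x + 2 * X 3 x + X 4 x := by linarith
    positivity
  linarith

lemma fut_neg {x : V} (hx : x ∈ Ch) (h0 : 0 < X 0 x + X 1 x) :
    0 < -B (fut x) (fut x) := by
  have := fut_le hx
  have h2 := hx 0
  have h3 := hx 1
  have : 0 < (2 * X 0 x + X 1 x) ^ 2 := by
    have : 0 < 2 * X 0 x + X 1 x := by linarith
    positivity
  linarith

lemma pst_nonpos {x : V} (hx : x ∈ Ch) : 0 ≤ -B (pst x) (pst x) := by
  have := pst_le hx
  nlinarith [sq_nonneg (X 2 x + 2 * X 3 x + X 4 x)]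

lemma fut_nonpos {x : V} (hx : x ∈ Ch) : 0 ≤ -B (fut x) (fut x) := by
  have := fut_le hx
  nlinarith [sq_nonneg (2 * X 0 x + X 1 x)]

lemma T_nonneg {x y : V} (hx : x ∈ Ch) (hy : y ∈ Ch) : 0 ≤ B (pst x) (fut y) := by
  rw [B_pst_fut]
  have h0 := hy 0
  have h1 := hy 1
  have h2 := hx 2
  have h3 := hx 3
  have h4 := hx 4
  positivity

lemma T_sq_le {x y : V} (hx : x ∈ Ch) (hy : y ∈ Ch) :
    B (pst x) (fut y) ^ 2 ≤ 4 / 5 * (B (pst x) (pst x) * B (fut y) (fut y)) := by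
  have hp := pst_le hx
  have hf := fut_le hy
  rw [B_pst_fut]
  have := mul_le_mul hp hf (sq_nonneg _) (by linarith [pst_nonpos hx])
  nlinarith

lemma mem_Qm_smul {x : V} {P : ℝ} (hx : x ∈ Ch) (hP : 0 < P) (hP2 : P ^ 2 = -B (pst x) (pst x)) :
    P⁻¹ • pst x ∈ Qm := by
  refine ⟨fun i => ?_, ?_, ?_, ?_⟩
  · rw [X_smul, X_pst]
    have := hx i
    split_ifs
    · simp
    · positivity
  · change B _ _ = -1
    rw [B_smul_left, B_smul_right, show B (pst x) (pst x) = -P ^ 2 by linarith]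
    field_simp
  · rw [X_smul, X_pst]; simp
  · rw [X_smul, X_pst]; simp

lemma mem_Qp_smul {x : V} {F : ℝ} (hx : x ∈ Ch) (hF : 0 < F) (hF2 : F ^ 2 = -B (fut x) (fut x)) :
    F⁻¹ • fut x ∈ Qp := by
  refine ⟨fun i => ?_, ?_, ?_, ?_, ?_⟩
  · rw [X_smul, X_fut]
    have := hx i
    split_ifs
    · positivity
    · simp
  · change B _ _ = -1
    rw [B_smul_left, B_smul_right, show B (fut x) (fut x) = -F ^ 2 by linarith]
    field_simp
  · rw [X_smul, X_fut]; simp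
  · rw [X_smul, X_fut]; simp
  · rw [X_smul, X_fut]; simp

theorem exists_Qm_gt {x : V} (hx : x ∈ Ch) (hA : x ∈ AdS) (h0 : 0 < X 0 x + X 1 x)
    (h1 : 0 < X 2 x + X 3 x + X 4 x) : ∃ p ∈ Qm, -1 < B x p := by
  have hp := pst_neg hx h1
  have hf := fut_neg hx h0
  set P := √(-B (pst x) (pst x)) with hPdef
  have hP : 0 < P := Real.sqrt_pos.mpr hp
  have hP2 : P ^ 2 = -B (pst x) (pst x) := Real.sq_sqrt hp.le
  refine ⟨P⁻¹ • pst x, mem_Qm_smul hx hP hP2, ?_⟩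
  have hT := T_sq_le hx hx
  have hT0 := T_nonneg hx hx
  have hB := B_expand x
  rw [show B x x = -1 from hA] at hB
  have e : B x (pst x) = -P ^ 2 + B (pst x) (fut x) := by
    have e' : B x (pst x) = B (pst x + fut x) (pst x) := by rw [pst_add_fut]
    rw [e', B_add_left, B_comm (fut x) (pst x)]
    linarith
  rw [B_smul_right, e]
  set T := B (pst x) (fut x)
  set f := -B (fut x) (fut x) with hfd
  have hff : B (fut x) (fut x) = -f := by rw [hfd]; ring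
  have hpp : B (pst x) (pst x) = -P ^ 2 := by linarith
  rw [hpp, hff] at hT hB
  have key : (P ^ 2 - T) ^ 2 < P ^ 2 := by
    have : (P ^ 2 - T) ^ 2 = P ^ 2 - P ^ 2 * f + T ^ 2 := by
      nlinarith
    have : 0 < P ^ 2 * f := by positivity
    nlinarith
  have k2 : P ^ 2 - T < P := lt_of_pow_lt_pow_left₀ 2 hP.le key
  rw [inv_mul_eq_div, lt_div_iff₀ hP]
  linarith

theorem exists_Qp_gt {x : V} (hx : x ∈ Ch) (hA : x ∈ AdS) (h0 : 0 < X 0 x + X 1 x)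
    (h1 : 0 < X 2 x + X 3 x + X 4 x) : ∃ p ∈ Qp, -1 < B x p := by
  have hp := pst_neg hx h1
  have hf := fut_neg hx h0
  set F := √(-B (fut x) (fut x)) with hFdef
  have hF : 0 < F := Real.sqrt_pos.mpr hf
  have hF2 : F ^ 2 = -B (fut x) (fut x) := Real.sq_sqrt hf.le
  refine ⟨F⁻¹ • fut x, mem_Qp_smul hx hF hF2, ?_⟩
  have hT := T_sq_le hx hx
  have hT0 := T_nonneg hx hx
  have hB := B_expand x
  rw [show B x x = -1 from hA] at hB
  have e : B x (fut x) = -F ^ 2 + B (pst x) (fut x) := by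
    have e' : B x (fut x) = B (pst x + fut x) (fut x) := by rw [pst_add_fut]
    rw [e', B_add_left]
    linarith
  rw [B_smul_right, e]
  set T := B (pst x) (fut x)
  set f := -B (pst x) (pst x) with hfd
  have hff : B (pst x) (pst x) = -f := by rw [hfd]; ring
  have hpp : B (fut x) (fut x) = -F ^ 2 := by linarith
  rw [hpp, hff] at hT hB
  have key : (F ^ 2 - T) ^ 2 < F ^ 2 := by
    have : (F ^ 2 - T) ^ 2 = F ^ 2 - F ^ 2 * f + T ^ 2 := by
      nlinarith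
    have : 0 < F ^ 2 * f := by positivity
    nlinarith
  have k2 : F ^ 2 - T < F := lt_of_pow_lt_pow_left₀ 2 hF.le key
  rw [inv_mul_eq_div, lt_div_iff₀ hF]
  linarith

/-- reverse Cauchy–Schwarz in the past block -/
lemma rev_pst {x p : V} {P : ℝ} (hx : x ∈ Ch) (hP2 : P ^ 2 = -B (pst x) (pst x))
    (hp : p ∈ Qm) : B (pst x) p ≤ -P := by
  obtain ⟨p2, p4, p3⟩ := Qm_coord hp
  have hA : B p p = -1 := hp.2.1
  have x3 : 0 ≤ pst x 3 := by
    rw [pst_3]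
    have h2 := hx 2
    have h3 := hx 3
    have h4 := hx 4
    positivity
  unfold B at hP2 hA ⊢
  rw [pst_2, pst_4] at hP2
  rw [p2, p4] at hA
  rw [pst_2, pst_4]
  set x0 := pst x 0
  set x1 := pst x 1
  set x3' := pst x 3
  have key : |P + (x0 * p 0 + x1 * p 1)| ≤ x3' * p 3 := by
    apply abs_le_of_sq_le_sq _ (by positivity)
    have e : (x3' * p 3) ^ 2 = (P ^ 2 + (x0 ^ 2 + x1 ^ 2)) * (1 + (p 0 ^ 2 + p 1 ^ 2)) := by
      have e1 : x3' ^ 2 = P ^ 2 + (x0 ^ 2 + x1 ^ 2) := by linarith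
      have e2 : p 3 ^ 2 = 1 + (p 0 ^ 2 + p 1 ^ 2) := by linarith
      rw [mul_pow, e1, e2]
    rw [e]
    nlinarith [sq_nonneg (P * p 0 - x0), sq_nonneg (P * p 1 - x1), sq_nonneg (x0 * p 1 - x1 * p 0)]
  have := (abs_le.mp key).2
  linarith

/-- reverse Cauchy–Schwarz in the future block -/
lemma rev_fut {x q : V} {F : ℝ} (hx : x ∈ Ch) (hF2 : F ^ 2 = -B (fut x) (fut x))
    (hq : q ∈ Qp) : B (fut x) q ≤ -F := by
  have hA : B q q = -1 := hq.2.1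
  rw [← fut_eq_of_Qp hq] at hA ⊢
  rw [B_fut] at hA hF2 ⊢
  have a0 := hx 0
  have a1 := hx 1
  have b0 := hq.1 0
  have b1 := hq.1 1
  set u := X 0 x
  set v := X 1 x
  set u' := X 0 q
  set v' := X 1 q
  have key : |F| ≤ (5 * u * u' + 2 * v * v' + 4 * (u * v' + v * u')) / 3 := by
    apply abs_le_of_sq_le_sq _ (by positivity)
    have e : F ^ 2 = F ^ 2 * 1 := by ring
    have e1 : (1 : ℝ) = (5 * u' * u' + 2 * v' * v' + 4 * (u' * v' + v' * u')) / 3 := by linarith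
    have e2 : F ^ 2 = (5 * u * u + 2 * v * v + 4 * (u * v + v * u)) / 3 := by linarith
    rw [e, e1, e2]
    nlinarith [sq_nonneg (u * v' - v * u')]
  have := (abs_le.mp key).2
  linarith

lemma kap_le : √(4 / 5) ≤ (9 / 10 : ℝ) := by
  rw [Real.sqrt_le_left (by norm_num)]; norm_num

lemma kap_sq : √(4 / 5 : ℝ) ^ 2 = 4 / 5 := Real.sq_sqrt (by norm_num)

lemma T_le {x y : V} {P F : ℝ} (hx : x ∈ Ch) (hy : y ∈ Ch) (hP : 0 ≤ P) (hF : 0 ≤ F)
    (hP2 : P ^ 2 = -B (pst x) (pst x)) (hF2 : F ^ 2 = -B (fut y) (fut y)) :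
    B (pst x) (fut y) ≤ √(4 / 5) * (P * F) := by
  have hT := T_sq_le hx hy
  refine (abs_le.mp (abs_le_of_sq_le_sq ?_ (by positivity))).2
  rw [mul_pow, kap_sq, mul_pow, hP2, hF2]
  linarith

theorem B_Qm_le {x p : V} (hx : x ∈ Ch) (hA : x ∈ AdS) (hp : p ∈ Qm) : B x p ≤ 9 / 10 := by
  set P := √(-B (pst x) (pst x)) with hPdef
  have hP : 0 ≤ P := Real.sqrt_nonneg _
  have hP2 : P ^ 2 = -B (pst x) (pst x) := Real.sq_sqrt (pst_nonpos hx)
  set F := √(-B (fut x) (fut x)) with hFdef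
  have hF : 0 ≤ F := Real.sqrt_nonneg _
  have hF2 : F ^ 2 = -B (fut x) (fut x) := Real.sq_sqrt (fut_nonpos hx)
  have h1 := rev_pst hx hP2 hp
  have h2 : B (pst p) (fut x) ≤ √(4 / 5) * (1 * F) := by
    apply T_le hp.1 hx zero_le_one hF _ hF2
    rw [pst_eq_of_Qm hp, show B p p = -1 from hp.2.1]; norm_num
  have h3 := T_le hx hx hP hF hP2 hF2
  rw [pst_eq_of_Qm hp] at h2
  have hB := B_expand x
  rw [show B x x = -1 from hA] at hB
  have e : B x p = B (pst x) p + B p (fut x) := by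
    conv_lhs => rw [← pst_add_fut x]
    rw [B_add_left, B_comm (fut x) p]
  rw [e]
  have hk := kap_le
  have hk2 := kap_sq
  set k := √(4 / 5 : ℝ)
  have hk0 : 0 ≤ k := Real.sqrt_nonneg _
  have h4 : F - k * P ≤ 1 := by
    refine (abs_le.mp (abs_le_of_sq_le_sq ?_ zero_le_one)).2
    nlinarith [sq_nonneg P]
  nlinarith

theorem B_Qp_le {x p : V} (hx : x ∈ Ch) (hA : x ∈ AdS) (hp : p ∈ Qp) : B x p ≤ 9 / 10 := by
  set P := √(-B (pst x) (pst x)) with hPdef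
  have hP : 0 ≤ P := Real.sqrt_nonneg _
  have hP2 : P ^ 2 = -B (pst x) (pst x) := Real.sq_sqrt (pst_nonpos hx)
  set F := √(-B (fut x) (fut x)) with hFdef
  have hF : 0 ≤ F := Real.sqrt_nonneg _
  have hF2 : F ^ 2 = -B (fut x) (fut x) := Real.sq_sqrt (fut_nonpos hx)
  have h1 := rev_fut hx hF2 hp
  have h2 : B (pst x) (fut p) ≤ √(4 / 5) * (P * 1) := by
    apply T_le hx hp.1 hP zero_le_one hP2
    rw [fut_eq_of_Qp hp, show B p p = -1 from hp.2.1]; norm_num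
  have h3 := T_le hx hx hP hF hP2 hF2
  rw [fut_eq_of_Qp hp] at h2
  have hB := B_expand x
  rw [show B x x = -1 from hA] at hB
  have e : B x p = B (pst x) p + B (fut x) p := by
    conv_lhs => rw [← pst_add_fut x]
    rw [B_add_left]
  rw [e]
  have hk := kap_le
  have hk2 := kap_sq
  set k := √(4 / 5 : ℝ)
  have hk0 : 0 ≤ k := Real.sqrt_nonneg _
  have h4 : P - k * F ≤ 1 := by
    refine (abs_le.mp (abs_le_of_sq_le_sq ?_ zero_le_one)).2
    nlinarith [sq_nonneg F]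
  nlinarith

theorem B_Qm_Qp {p q : V} (hp : p ∈ Qm) (hq : q ∈ Qp) : 0 < B p q ∧ B p q ≤ 9 / 10 := by
  constructor
  · rw [← pst_eq_of_Qm hp, ← fut_eq_of_Qp hq, B_pst_fut]
    have h1 := Qm_pos hp
    have h2 := Qp_pos hq
    have a2 := hp.1 2
    have a3 := hp.1 3
    have a4 := hp.1 4
    have b0 := hq.1 0
    have b1 := hq.1 1
    have : 0 < X 2 p + 2 * X 3 p + X 4 p := by linarith
    have : 0 < 2 * X 0 q + X 1 q := by linarith
    positivity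
  · exact B_Qp_le hp.1 hp.2.1 hq

/-- two points of the same cell are never timelike related -/
theorem B_Qm_Qm {p q : V} (hp : p ∈ Qm) (hq : q ∈ Qm) : B p q ≤ -1 := by
  have h := rev_pst (x := p) (P := 1) hp.1 (by
    rw [pst_eq_of_Qm hp, show B p p = -1 from hp.2.1]; norm_num) hq
  rwa [pst_eq_of_Qm hp] at h

theorem B_Qp_Qp {p q : V} (hp : p ∈ Qp) (hq : q ∈ Qp) : B p q ≤ -1 := by
  have h := rev_fut (x := p) (F := 1) hp.1 (by
    rw [fut_eq_of_Qp hp, show B p p = -1 from hp.2.1]; norm_num) hq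
  rwa [fut_eq_of_Qp hp] at h

theorem om_Qm {x p : V} (hx : x ∈ Ch) (h0 : 0 < X 0 x + X 1 x) (hp : p ∈ Qm) : om x p < 0 := by
  obtain ⟨p2, p4, p3⟩ := Qm_coord hp
  have e : x 4 = √2 / 2 * (2 * X 0 x + X 1 x) := by
    conv_lhs => rw [← pst_add_fut x]
    rw [Pi.add_apply, pst_4, fut_4, zero_add]
  have a0 := hx 0
  have a1 := hx 1
  have : 0 < 2 * X 0 x + X 1 x := by linarith
  have h4 : 0 < x 4 := by rw [e]; positivity
  unfold om
  rw [p4]
  nlinarith [mul_pos h4 p3]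

theorem om_Qp {x q : V} (hx : x ∈ Ch) (h1 : 0 < X 2 x + X 3 x + X 4 x) (hq : q ∈ Qp) :
    0 < om x q := by
  have e4 : x 4 = √2 / 2 * (2 * X 0 x + X 1 x) := by
    conv_lhs => rw [← pst_add_fut x]
    rw [Pi.add_apply, pst_4, fut_4, zero_add]
  have e3 : x 3 = √6 / 3 * (X 2 x + 2 * X 3 x + X 4 x) - √6 / 6 * (2 * X 0 x + X 1 x) := by
    conv_lhs => rw [← pst_add_fut x]
    rw [Pi.add_apply, pst_3, fut_3]
    ring
  have q3 : q 3 = -(√6 / 6 * (2 * X 0 q + X 1 q)) := by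
    conv_lhs => rw [← fut_eq_of_Qp hq]
    rw [fut_3]
  have q4 : q 4 = √2 / 2 * (2 * X 0 q + X 1 q) := by
    conv_lhs => rw [← fut_eq_of_Qp hq]
    rw [fut_4]
  have h2 := Qp_pos hq
  have a2 := hx 2
  have a3 := hx 3
  have a4 := hx 4
  have b0 := hq.1 0
  have b1 := hq.1 1
  have hM : 0 < X 2 x + 2 * X 3 x + X 4 x := by linarith
  have hN : 0 < 2 * X 0 q + X 1 q := by linarith
  have e : om x q = √6 / 3 * (X 2 x + 2 * X 3 x + X 4 x) * (√2 / 2 * (2 * X 0 q + X 1 q)) := by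
    unfold om
    rw [e4, e3, q3, q4]
    ring
  rw [e]
  positivity

end Pool.Agent.H93.KT
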