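import Pool.Agent.H93.KT.Growth

set_option autoImplicit false

/-! MODULE Cover.
`exists_act_mem_Ch`: the function `w ↦ B (act w x) rho0 = B x (act w⁻¹ rho0)` attains its maximum on `W`
(`growth`, `finite_act`, `nrm_inv_le`); at a maximum `w`, comparing with `simple i * w`:
`B (act (simple i) y) rho0 = B y rho0 + (2 X i y / Gr i i) B (al i) rho0 = B y rho0 - (2 X i y/Gr i i) X i rho0`,
so `X i y ≥ 0`.
`chamber_locally_finite`: if `act w x ∈ Ch` then `B (act w x) rho0 ≥ B x rho0` (write `x = act w⁻¹ (act w x)` and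
use `dom_left`), so `- ε nrm w⁻¹ ≥ B x (act w⁻¹ rho0) ≥ B x rho0`.
`proper_bound`: `-5‖act w x‖‖rho0‖ ≤ B (act w x) rho0 = B x (act w⁻¹ rho0) ≤ - ε nrm w⁻¹`. -/

namespace Pool.Agent.H93.KT

open Filter Topology

private lemma Cover_exists_max {x : V} (hx : x ∈ Cop) :
    ∃ w : W, ∀ w' : W, B x (act w' rho0) ≤ B x (act w rho0) := by
  obtain ⟨ε, hε, h⟩ := growth hx
  have h := h.self_of_nhds
  let C : ℝ := - B x rho0 / ε
  have hfin := finite_act C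
  let S : Set (V ≃ₗ[ℝ] V) := {γ : V ≃ₗ[ℝ] V | ∃ w : W, γ = act w ∧ nrm w ≤ C}
  have hS : S.Finite := hfin
  have hle : ∀ w : W, B x rho0 ≤ B x (act w rho0) → act w ∈ S := by
    intro w hw
    refine ⟨w, rfl, ?_⟩
    have h1 := h w
    rw [le_div_iff₀ hε]
    linarith
  have hne : S.Nonempty := ⟨act 1, hle 1 (by rw [act_one])⟩
  obtain ⟨γ, hγ, hmax⟩ := Set.exists_max_image S (fun γ => B x (γ rho0)) hS hne
  obtain ⟨w, rfl, hw⟩ := hγ
  refine ⟨w, fun w' => ?_⟩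
  by_cases hw' : B x rho0 ≤ B x (act w' rho0)
  · exact hmax _ (hle w' hw')
  · have h2 := hmax _ (hle 1 (by rw [act_one]))
    simp only [act_one] at h2
    linarith [not_le.1 hw']

theorem exists_act_mem_Ch {x : V} (hx : x ∈ Cop) : ∃ w : W, act w x ∈ Ch := by
  obtain ⟨w, hw⟩ := Cover_exists_max hx
  refine ⟨w⁻¹, fun i => ?_⟩
  have h1 := hw (w * (cs.simple i)⁻¹)
  have h2 : B x (act (w * (cs.simple i)⁻¹) rho0) = B (act (cs.simple i) (act w⁻¹ x)) rho0 := by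
    rw [B_act_right, ← act_mul]
    congr 2
    group
  have h3 : B x (act w rho0) = B (act w⁻¹ x) rho0 := by rw [B_act_right]
  rw [h2, h3, act_simple, B_add_left, B_smul_left] at h1
  have h4 : B (al i) rho0 = - X i rho0 := by unfold X; rw [B_comm]; ring
  rw [h4] at h1
  have h5 := rho0_X i
  have h6 : (0 : ℝ) < (Gr i i : ℝ) := by
    have e : ∀ i : Fin 5, 0 < Gr i i := by decide +kernel
    exact_mod_cast e i
  have h7 : 0 ≤ (2 * X i (act w⁻¹ x) / (Gr i i : ℝ)) * X i rho0 := by linarith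
  have h8 : 0 ≤ 2 * X i (act w⁻¹ x) / (Gr i i : ℝ) := nonneg_of_mul_nonneg_left h7 h5
  have h9 : 0 ≤ 2 * X i (act w⁻¹ x) := by
    have := mul_nonneg h8 h6.le
    rwa [div_mul_cancel₀ _ h6.ne'] at this
  linarith

theorem chamber_locally_finite {x0 : V} (h : x0 ∈ Cop) :
    ∃ C : ℝ, ∀ᶠ x in 𝓝 x0, ∀ w : W, act w x ∈ Ch → nrm w ≤ C := by
  obtain ⟨ε, hε, hg⟩ := growth h
  obtain ⟨C, hC, hinv⟩ := nrm_inv_le
  have hcont : Continuous fun x : V => B x rho0 := by fun_prop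
  have h1 : ∀ᶠ x in 𝓝 x0, B x0 rho0 - 1 < B x rho0 :=
    hcont.continuousAt.eventually (lt_mem_nhds (by linarith))
  refine ⟨C * (-(B x0 rho0 - 1) / ε), ?_⟩
  filter_upwards [hg, h1] with x hx hx1 w hw
  have h2 := dom_left hw rho0_mem_Ch w⁻¹
  rw [act_inv_act] at h2
  have h3 : B (act w x) rho0 = B x (act w⁻¹ rho0) := B_act_left w x rho0
  rw [h3] at h2
  have h4 := hx w⁻¹
  have h5 : nrm w⁻¹ ≤ -(B x0 rho0 - 1) / ε := by
    rw [le_div_iff₀ hε]; linarith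
  have h6 := hinv w⁻¹
  rw [inv_inv] at h6
  exact h6.trans (mul_le_mul_of_nonneg_left h5 hC.le)

theorem proper_bound {K : Set V} (hK : IsCompact K) (hKC : K ⊆ Cop) :
    ∃ C : ℝ, ∀ x ∈ K, ∀ w : W, nrm w ≤ C * ‖act w x‖ := by
  obtain ⟨ε, hε, hg⟩ := growth_compact hK hKC
  obtain ⟨C, hC, hinv⟩ := nrm_inv_le
  refine ⟨C * (5 * ‖rho0‖ / ε), fun x hx w => ?_⟩
  have h1 := hg x hx w⁻¹
  have h3 : B (act w x) rho0 = B x (act w⁻¹ rho0) := B_act_left w x rho0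
  rw [← h3] at h1
  have h2 := (abs_le.1 (abs_B_le (act w x) rho0)).1
  have h4 : nrm w⁻¹ ≤ 5 * ‖rho0‖ / ε * ‖act w x‖ := by
    rw [div_mul_eq_mul_div, le_div_iff₀ hε]; linarith
  have h6 := hinv w⁻¹
  rw [inv_inv] at h6
  calc nrm w ≤ C * nrm w⁻¹ := h6
    _ ≤ C * (5 * ‖rho0‖ / ε * ‖act w x‖) := mul_le_mul_of_nonneg_left h4 hC.le
    _ = _ := by ring

end Pool.Agent.H93.KT
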