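import Pool.Agent.H93.KT.Bil

set_option autoImplicit false

/-! MODULE Curv.  Second order conditions at an extremum of a function on a hypersurface.
With `φ = graphMap θ`, `x = φ u`, `T i = d1 φ i u`, `B (φ w) (φ w) = -1` gives `B (T i) x = 0` and
`B (d2 φ i j u) x = - B (T i) (T j)`; hence `d2 φ i j u = ∑ k, Γ k • T k + hMat i j • ν + gMat i j • x`
(`T 0, T 1, T 2, ν, x` is a basis of `V`: a vector orthogonal to all of them is `0` as `gMat` is positive
definite).  `D²(G∘φ)(v,v) = G'' (dφ v) (dφ v) + G' (d²φ (v,v))`, and `G'` vanishes on the `T k`. -/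

namespace Pool.Agent.H93.KT

open Filter Topology

/-- the tangent vector `dφ_u v` -/
noncomputable def tv (φ : R3 → V) (u v : R3) : V := ∑ i, v i • d1 φ i u

/-- the first and second fundamental forms as quadratic forms -/
noncomputable def gq (φ : R3 → V) (u v : R3) : ℝ := B (tv φ u v) (tv φ u v)
noncomputable def hq (φ : R3 → V) (u : R3) (ν : V) (v : R3) : ℝ :=
  ∑ i, ∑ j, v i * v j * hMat φ u ν i j

theorem gq_eq (φ : R3 → V) (u v : R3) : gq φ u v = ∑ i, ∑ j, v i * v j * gMat φ u i j := by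
  unfold gq tv
  rw [B_sum_left]
  refine Finset.sum_congr rfl fun i _ => ?_
  rw [B_sum_right]
  refine Finset.sum_congr rfl fun j _ => ?_
  rw [B_smul_left, B_smul_right]
  simp only [gMat, Matrix.of_apply]
  ring

theorem graphMap_AdS (θ : R3 → ℝ) (u : R3) : graphMap θ u ∈ AdS := by
  have h : (0 : ℝ) ≤ 1 + u 0 ^ 2 + u 1 ^ 2 + u 2 ^ 2 := by positivity
  have hs := Real.sq_sqrt h
  have hc := Real.cos_sq_add_sin_sq (θ u)
  show B (graphMap θ u) (graphMap θ u) = -1
  have e : B (graphMap θ u) (graphMap θ u) = u 0 * u 0 + u 1 * u 1 + u 2 * u 2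
      - √(1 + u 0 ^ 2 + u 1 ^ 2 + u 2 ^ 2) ^ 2 * (Real.cos (θ u) ^ 2 + Real.sin (θ u) ^ 2) := by
    simp only [B, graphMap, Matrix.cons_val]
    ring
  rw [e, hs, hc]
  ring

theorem pr_graphMap (θ : R3 → ℝ) (u : R3) : pr (graphMap θ u) = u := by
  ext i
  fin_cases i <;> simp [pr, graphMap]

/-- `graphMap θ` is `C²` where `θ` is -/
theorem Curv_contDiffAt {θ : R3 → ℝ} {u : R3} (hθ : ContDiffAt ℝ 2 θ u) :
    ContDiffAt ℝ 2 (graphMap θ) u := by
  have hc : ∀ i : Fin 3, ContDiffAt ℝ 2 (fun w : R3 => w i) u := fun i => by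
    exact (contDiff_apply ℝ ℝ i).contDiffAt
  have hr : ContDiffAt ℝ 2 (fun w : R3 => √(1 + w 0 ^ 2 + w 1 ^ 2 + w 2 ^ 2)) u := by
    apply ContDiffAt.sqrt
    · exact (((contDiffAt_const).add ((hc 0).pow 2)).add ((hc 1).pow 2)).add ((hc 2).pow 2)
    · positivity
  rw [contDiffAt_pi]
  intro i
  fin_cases i
  · simpa [graphMap] using hc 0
  · simpa [graphMap] using hc 1
  · simpa [graphMap] using hc 2
  · simpa [graphMap] using hr.mul hθ.cos
  · simpa [graphMap] using hr.mul hθ.sin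

theorem Curv_tv_eq (φ : R3 → V) (u v : R3) : tv φ u v = fderiv ℝ φ u v := by
  unfold tv d1
  conv_rhs => rw [pi_eq_sum_univ' v]
  rw [map_sum]
  refine Finset.sum_congr rfl fun i _ => ?_
  rw [map_smul]

theorem Curv_B_fderiv {θ : R3 → ℝ} {u : R3} (hθ : DifferentiableAt ℝ (graphMap θ) u) (v : R3) :
    B (graphMap θ u) (fderiv ℝ (graphMap θ) u v) = 0 := by
  have h1 : HasFDerivAt (fun w => BL (graphMap θ w) (graphMap θ w)) _ u :=
    (BL.hasFDerivAt_of_bilinear hθ.hasFDerivAt hθ.hasFDerivAt)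
  have h2 : (fun w => BL (graphMap θ w) (graphMap θ w)) = fun _ => (-1 : ℝ) := by
    ext w
    exact graphMap_AdS θ w
  rw [h2] at h1
  have h3 := h1.unique (hasFDerivAt_const (-1 : ℝ) u)
  have h4 := congrArg (fun L : R3 →L[ℝ] ℝ => L v) h3
  simp at h4
  have h5 := B_comm (fderiv ℝ (graphMap θ) u v) (graphMap θ u)
  linarith

theorem B_tv_self {θ : R3 → ℝ} {u : R3} (hθ : ContDiffAt ℝ 2 θ u) (v : R3) :
    B (graphMap θ u) (tv (graphMap θ) u v) = 0 := by
  rw [Curv_tv_eq]
  exact Curv_B_fderiv ((Curv_contDiffAt hθ).differentiableAt (by norm_num)) v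

/-- the second derivative, as a bilinear map -/
theorem Curv_fderiv_fderiv {θ : R3 → ℝ} {u : R3} (hθ : ContDiffAt ℝ 2 θ u) :
    HasFDerivAt (fderiv ℝ (graphMap θ)) (fderiv ℝ (fderiv ℝ (graphMap θ)) u) u := by
  have h : ContDiffAt ℝ 1 (fderiv ℝ (graphMap θ)) u :=
    (Curv_contDiffAt hθ).fderiv_right (by norm_num)
  exact (h.differentiableAt (by norm_num)).hasFDerivAt

theorem Curv_d2_eq {θ : R3 → ℝ} {u : R3} (hθ : ContDiffAt ℝ 2 θ u) (i j : Fin 3) :
    d2 (graphMap θ) i j u =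
      fderiv ℝ (fderiv ℝ (graphMap θ)) u (Pi.single j 1) (Pi.single i 1) := by
  have h := (Curv_fderiv_fderiv hθ).clm_apply
    (hasFDerivAt_const (Pi.single i (1 : ℝ) : R3) u)
  have h' : HasFDerivAt (d1 (graphMap θ) i) _ u := h
  unfold d2
  rw [h'.fderiv]
  simp

theorem hMat_symm {θ : R3 → ℝ} {u : R3} (hθ : ContDiffAt ℝ 2 θ u) (ν : V) :
    (hMat (graphMap θ) u ν).IsSymm := by
  have hs : IsSymmSndFDerivAt ℝ (graphMap θ) u :=
    (Curv_contDiffAt hθ).isSymmSndFDerivAt (by simp)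
  ext i j
  simp only [Matrix.transpose_apply, hMat, Matrix.of_apply]
  rw [Curv_d2_eq hθ, Curv_d2_eq hθ, hs]

/-- five vectors: the tangent vectors, the normal vector and the position vector -/
noncomputable def Curv_frame (φ : R3 → V) (u : R3) (ν : V) : Fin 3 ⊕ Fin 2 → V :=
  Sum.elim (fun i => d1 φ i u) ![ν, φ u]

theorem Curv_B_d1 {θ : R3 → ℝ} {u : R3} (hθ : ContDiffAt ℝ 2 θ u) (i : Fin 3) :
    B (graphMap θ u) (d1 (graphMap θ) i u) = 0 :=
  Curv_B_fderiv ((Curv_contDiffAt hθ).differentiableAt (by norm_num)) _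

theorem Curv_frame_li {θ : R3 → ℝ} {u : R3} (hθ : ContDiffAt ℝ 2 θ u) {ν : V}
    (hν : IsNormal (graphMap θ) u ν) (hg : (gMat (graphMap θ) u).PosDef) :
    LinearIndependent ℝ (Curv_frame (graphMap θ) u ν) := by
  rw [Fintype.linearIndependent_iff]
  intro a ha
  obtain ⟨hν1, hν2, hν3, hν4⟩ := hν
  have hx : B (graphMap θ u) (graphMap θ u) = -1 := graphMap_AdS θ u
  have e : ∑ k, a k • Curv_frame (graphMap θ) u ν k =
      tv (graphMap θ) u (fun i => a (Sum.inl i)) + (a (Sum.inr 0) • ν +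
        a (Sum.inr 1) • graphMap θ u) := by
    rw [Fintype.sum_sum_type]
    simp [Curv_frame, tv, Fin.sum_univ_two]
  rw [e] at ha
  have t1 : B (tv (graphMap θ) u (fun i => a (Sum.inl i))) ν = 0 := by
    unfold tv
    rw [B_sum_left]
    exact Finset.sum_eq_zero fun i _ => by rw [B_smul_left, hν3, mul_zero]
  have t2 := B_tv_self hθ (fun i => a (Sum.inl i))
  rw [B_comm] at t2
  have hb : a (Sum.inr 0) = 0 := by
    have := congrArg (fun z => B z ν) ha
    simp only [B_add_left, B_smul_left, t1, hν1, hν2, B_zero_left] at this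
    linarith
  have hc : a (Sum.inr 1) = 0 := by
    have := congrArg (fun z => B z (graphMap θ u)) ha
    simp only [B_add_left, B_smul_left, t2, hx, hb, B_zero_left] at this
    linarith
  rw [hb, hc] at ha
  simp only [zero_smul, add_zero] at ha
  have hq0 : gq (graphMap θ) u (fun i => a (Sum.inl i)) = 0 := by
    unfold gq
    rw [ha]
    simp
  have hz : (fun i => a (Sum.inl i)) = (0 : R3) := by
    by_contra hne
    have hpos := hg.dotProduct_mulVec_pos hne
    rw [gq_eq] at hq0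
    have e2 : star (fun i => a (Sum.inl i)) ⬝ᵥ (gMat (graphMap θ) u).mulVec
        (fun i => a (Sum.inl i)) =
        ∑ i, ∑ j, a (Sum.inl i) * a (Sum.inl j) * gMat (graphMap θ) u i j := by
      simp only [dotProduct, Matrix.mulVec, Pi.star_apply, star_trivial]
      refine Finset.sum_congr rfl fun i _ => ?_
      rw [Finset.mul_sum]
      refine Finset.sum_congr rfl fun j _ => by ring
    rw [e2, hq0] at hpos
    exact lt_irrefl _ hpos
  intro k
  rcases k with i | i
  · exact congrFun hz i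
  · fin_cases i
    · exact hb
    · exact hc

theorem Curv_eq_zero {θ : R3 → ℝ} {u : R3} (hθ : ContDiffAt ℝ 2 θ u) {ν : V}
    (hν : IsNormal (graphMap θ) u ν) (hg : (gMat (graphMap θ) u).PosDef) {Z : V}
    (h0 : B (graphMap θ u) Z = 0) (h1 : B ν Z = 0) (h2 : ∀ i, B (d1 (graphMap θ) i u) Z = 0) :
    Z = 0 := by
  apply B_nondeg
  intro y
  have hli := Curv_frame_li hθ hν hg
  have hspan : Submodule.span ℝ (Set.range (Curv_frame (graphMap θ) u ν)) = ⊤ := by
    apply hli.span_eq_top_of_card_eq_finrank'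
    simp
  have hy : y ∈ Submodule.span ℝ (Set.range (Curv_frame (graphMap θ) u ν)) := by
    rw [hspan]; trivial
  refine Submodule.span_induction ?_ ?_ ?_ ?_ hy
  · rintro _ ⟨k, rfl⟩
    rw [B_comm]
    rcases k with i | i
    · exact h2 i
    · fin_cases i
      · exact h1
      · exact h0
  · simp
  · intro x y _ _ hx hy
    rw [B_add_right, hx, hy, add_zero]
  · intro a x _ hx
    rw [B_smul_right, hx, mul_zero]

/-- every vector `B`-orthogonal to `x = φ u` and to `ν` is tangent -/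
theorem exists_tv {θ : R3 → ℝ} {u : R3} (hθ : ContDiffAt ℝ 2 θ u) {ν : V}
    (hν : IsNormal (graphMap θ) u ν) (hg : (gMat (graphMap θ) u).PosDef) {Y : V}
    (h0 : B (graphMap θ u) Y = 0) (h1 : B ν Y = 0) : ∃ v : R3, Y = tv (graphMap θ) u v := by
  have hdet : IsUnit (gMat (graphMap θ) u).det := hg.det_pos.ne'.isUnit
  let b : R3 := fun i => B (d1 (graphMap θ) i u) Y
  let v : R3 := (gMat (graphMap θ) u)⁻¹.mulVec b
  refine ⟨v, ?_⟩
  have hgv : (gMat (graphMap θ) u).mulVec v = b := by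
    show (gMat (graphMap θ) u).mulVec ((gMat (graphMap θ) u)⁻¹.mulVec b) = b
    rw [Matrix.mulVec_mulVec, Matrix.mul_nonsing_inv _ hdet, Matrix.one_mulVec]
  have hz : Y - tv (graphMap θ) u v = 0 := by
    apply Curv_eq_zero hθ hν hg
    · rw [B_sub_right, h0, B_tv_self hθ, sub_zero]
    · have t1 : B ν (tv (graphMap θ) u v) = 0 := by
        unfold tv
        rw [B_sum_right]
        exact Finset.sum_eq_zero fun i _ => by rw [B_smul_right, B_comm, hν.2.2.1, mul_zero]
      rw [B_sub_right, h1, t1, sub_zero]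
    · intro i
      have e : B (d1 (graphMap θ) i u) (tv (graphMap θ) u v) =
          (gMat (graphMap θ) u).mulVec v i := by
        unfold tv
        rw [B_sum_right]
        simp only [Matrix.mulVec, dotProduct, gMat, Matrix.of_apply]
        exact Finset.sum_congr rfl fun j _ => by rw [B_smul_right]; ring
      rw [B_sub_right, e, hgv]
      exact sub_self _
  exact sub_eq_zero.1 hz

/-- second derivatives in the frame -/
theorem Curv_B_d2 {θ : R3 → ℝ} {u : R3} (hθ : ContDiffAt ℝ 2 θ u) (i j : Fin 3) :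
    B (graphMap θ u) (d2 (graphMap θ) i j u) = - gMat (graphMap θ) u i j := by
  have hd : HasFDerivAt (graphMap θ) (fderiv ℝ (graphMap θ) u) u :=
    ((Curv_contDiffAt hθ).differentiableAt (by norm_num)).hasFDerivAt
  have h := (Curv_fderiv_fderiv hθ).clm_apply
    (hasFDerivAt_const (Pi.single i (1 : ℝ) : R3) u)
  have h' : HasFDerivAt (d1 (graphMap θ) i) _ u := h
  have hb : HasFDerivAt (fun w => BL (graphMap θ w) (d1 (graphMap θ) i w)) _ u :=
    BL.hasFDerivAt_of_bilinear hd h'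
  have hev : ∀ᶠ w in 𝓝 u, ContDiffAt ℝ 2 (graphMap θ) w :=
    (Curv_contDiffAt hθ).eventually (by simp)
  have hz : (fun w => BL (graphMap θ w) (d1 (graphMap θ) i w)) =ᶠ[𝓝 u] fun _ => (0 : ℝ) := by
    filter_upwards [hev] with w hw
    exact Curv_B_fderiv (hw.differentiableAt (by norm_num)) _
  have h3 := (hb.congr_of_eventuallyEq hz.symm).unique (hasFDerivAt_const (0 : ℝ) u)
  have h4 := congrArg (fun L : R3 →L[ℝ] ℝ => L (Pi.single j 1)) h3
  rw [Curv_d2_eq hθ]
  simp at h4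
  have e : gMat (graphMap θ) u i j =
      B (fderiv ℝ (graphMap θ) u (Pi.single j 1)) (d1 (graphMap θ) i u) := by
    rw [B_comm]; rfl
  rw [e]
  linarith

theorem Curv_d2_frame {θ : R3 → ℝ} {u : R3} (hθ : ContDiffAt ℝ 2 θ u) {ν : V}
    (hν : IsNormal (graphMap θ) u ν) (hg : (gMat (graphMap θ) u).PosDef) (i j : Fin 3) :
    ∃ w : R3, d2 (graphMap θ) i j u = tv (graphMap θ) u w +
      (hMat (graphMap θ) u ν i j • ν + gMat (graphMap θ) u i j • graphMap θ u) := by
  have hx : B (graphMap θ u) (graphMap θ u) = -1 := graphMap_AdS θ u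
  have hνx : B ν (graphMap θ u) = 0 := by rw [B_comm]; exact hν.2.1
  obtain ⟨w, hw⟩ := exists_tv hθ hν hg
    (Y := d2 (graphMap θ) i j u - (hMat (graphMap θ) u ν i j • ν +
      gMat (graphMap θ) u i j • graphMap θ u))
    (by
      rw [B_sub_right, B_add_right, B_smul_right, B_smul_right, Curv_B_d2 hθ, hx, hν.2.1]
      ring)
    (by
      rw [B_sub_right, B_add_right, B_smul_right, B_smul_right, hν.1, hνx]
      have : hMat (graphMap θ) u ν i j = - B ν (d2 (graphMap θ) i j u) := by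
        rw [B_comm]; rfl
      rw [this]
      ring)
  exact ⟨w, by rw [← hw]; abel⟩

/-- (G1) for a local minimum -/
theorem second_order_min {θ : R3 → ℝ} {u : R3} (hθ : ContDiffAt ℝ 2 θ u) {ν : V}
    (hν : IsNormal (graphMap θ) u ν) (hg : (gMat (graphMap θ) u).PosDef)
    {G : V → ℝ} {G' : V → V →L[ℝ] ℝ} {G'' : V →L[ℝ] V →L[ℝ] ℝ}
    (h1 : ∀ z, HasFDerivAt G (G' z) z) (h2 : HasFDerivAt G' G'' (graphMap θ u))
    (hmin : ∀ᶠ w in 𝓝 u, G (graphMap θ u) ≤ G (graphMap θ w)) :
    (∀ v, G' (graphMap θ u) (tv (graphMap θ) u v) = 0) ∧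
    ∀ v, 0 ≤ G'' (tv (graphMap θ) u v) (tv (graphMap θ) u v) +
      hq (graphMap θ) u ν v * G' (graphMap θ u) ν +
      gq (graphMap θ) u v * G' (graphMap θ u) (graphMap θ u) := by
  have hC := Curv_contDiffAt hθ
  have hd : HasFDerivAt (graphMap θ) (fderiv ℝ (graphMap θ) u) u :=
    (hC.differentiableAt (by norm_num)).hasFDerivAt
  have hev : ∀ᶠ w in 𝓝 u, ContDiffAt ℝ 2 (graphMap θ) w := hC.eventually (by simp)
  have hlm : IsLocalMin (fun w => G (graphMap θ w)) u := hmin
  have hcomp : HasFDerivAt (fun w => G (graphMap θ w))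
      ((G' (graphMap θ u)).comp (fderiv ℝ (graphMap θ) u)) u := (h1 _).comp u hd
  have hT : ∀ v, G' (graphMap θ u) (tv (graphMap θ) u v) = 0 := by
    intro v
    have h3 := hlm.hasFDerivAt_eq_zero hcomp
    have h4 := congrArg (fun L : R3 →L[ℝ] ℝ => L v) h3
    rw [Curv_tv_eq]
    simpa using h4
  refine ⟨hT, fun v => ?_⟩
  -- the function along the line
  set ψ : ℝ → R3 := fun t => u + t • v with hψ
  have hψ0 : ψ 0 = u := by simp [hψ]
  have hψd : ∀ t, HasDerivAt ψ v t := by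
    intro t
    have := ((hasDerivAt_id t).smul_const v).const_add u
    simpa [hψ] using this
  have hψc : Tendsto ψ (𝓝 0) (𝓝 u) := by
    have := (hψd 0).continuousAt.tendsto
    rwa [hψ0] at this
  set f : ℝ → ℝ := fun t => G (graphMap θ (ψ t)) with hf
  have hf1 : ∀ᶠ t in 𝓝 (0 : ℝ), HasDerivAt f
      (G' (graphMap θ (ψ t)) (fderiv ℝ (graphMap θ) (ψ t) v)) t := by
    filter_upwards [hψc.eventually hev] with t ht
    have hd' : HasFDerivAt (graphMap θ) (fderiv ℝ (graphMap θ) (ψ t)) (ψ t) :=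
      (ht.differentiableAt (by norm_num)).hasFDerivAt
    have h3 : HasDerivAt (fun s => graphMap θ (ψ s)) (fderiv ℝ (graphMap θ) (ψ t) v) t :=
      hd'.comp_hasDerivAt t (hψd t)
    exact (h1 (graphMap θ (ψ t))).comp_hasDerivAt t h3
  have hf1' : deriv f =ᶠ[𝓝 0]
      fun t => G' (graphMap θ (ψ t)) (fderiv ℝ (graphMap θ) (ψ t) v) := by
    filter_upwards [hf1] with t ht using ht.deriv
  -- second derivative
  have hg1 : HasDerivAt (fun s => graphMap θ (ψ s)) (fderiv ℝ (graphMap θ) u v) 0 := by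
    have hd' : HasFDerivAt (graphMap θ) (fderiv ℝ (graphMap θ) u) (ψ 0) := by rw [hψ0]; exact hd
    exact hd'.comp_hasDerivAt 0 (hψd 0)
  have hG1 : HasDerivAt (fun s => G' (graphMap θ (ψ s)))
      (G'' (fderiv ℝ (graphMap θ) u v)) 0 := by
    have h2' : HasFDerivAt G' G'' (graphMap θ (ψ 0)) := by rw [hψ0]; exact h2
    exact h2'.comp_hasDerivAt 0 hg1
  have hF1 : HasDerivAt (fun s => fderiv ℝ (graphMap θ) (ψ s) v)
      (fderiv ℝ (fderiv ℝ (graphMap θ)) u v v) 0 := by
    have h3 : HasFDerivAt (fderiv ℝ (graphMap θ)) (fderiv ℝ (fderiv ℝ (graphMap θ)) u) (ψ 0) := by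
      rw [hψ0]; exact Curv_fderiv_fderiv hθ
    have h4 : HasDerivAt (fun s => fderiv ℝ (graphMap θ) (ψ s))
        (fderiv ℝ (fderiv ℝ (graphMap θ)) u v) 0 := h3.comp_hasDerivAt 0 (hψd 0)
    have h5 := h4.clm_apply (hasDerivAt_const (0 : ℝ) v)
    simpa using h5
  have hsec : HasDerivAt (fun t => G' (graphMap θ (ψ t)) (fderiv ℝ (graphMap θ) (ψ t) v))
      (G'' (fderiv ℝ (graphMap θ) u v) (fderiv ℝ (graphMap θ) u v) +
        G' (graphMap θ u) (fderiv ℝ (fderiv ℝ (graphMap θ)) u v v)) 0 := by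
    have h5 := hG1.clm_apply hF1
    simpa [hψ0] using h5
  have hdd : deriv (deriv f) 0 = G'' (fderiv ℝ (graphMap θ) u v) (fderiv ℝ (graphMap θ) u v) +
        G' (graphMap θ u) (fderiv ℝ (fderiv ℝ (graphMap θ)) u v v) := by
    rw [hf1'.deriv_eq]
    exact hsec.deriv
  have hfmin : IsLocalMin f 0 := by
    have h3 : ∀ᶠ t in 𝓝 (0 : ℝ), G (graphMap θ u) ≤ G (graphMap θ (ψ t)) :=
      hψc.eventually hmin
    show ∀ᶠ t in 𝓝 (0 : ℝ), f 0 ≤ f t
    have h4 : f 0 = G (graphMap θ u) := by simp only [hf, hψ0]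
    rw [h4]
    exact h3
  have hnn : 0 ≤ deriv (deriv f) 0 := by
    by_contra hneg
    rw [not_le] at hneg
    have hfd : deriv f 0 = 0 := hfmin.deriv_eq_zero
    have hfc : ContinuousAt f 0 := hf1.self_of_nhds.continuousAt
    have hfmax : IsLocalMax f 0 := isLocalMax_of_deriv_deriv_neg hneg hfd hfc
    have hconst : f =ᶠ[𝓝 0] fun _ => f 0 := by
      filter_upwards [hfmin, hfmax] with t ht1 ht2
      exact le_antisymm ht2 ht1
    have h3 : deriv f =ᶠ[𝓝 0] deriv fun _ : ℝ => f 0 := hconst.deriv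
    rw [h3.deriv_eq] at hneg
    simp at hneg
  rw [hdd] at hnn
  -- expand the second derivative in the frame
  have hexp : fderiv ℝ (fderiv ℝ (graphMap θ)) u v v =
      ∑ i, ∑ j, (v i * v j) • d2 (graphMap θ) i j u := by
    have hv : v = ∑ i, v i • (Pi.single i (1 : ℝ) : R3) := by
      ext k
      simp [Finset.sum_apply, Pi.single_apply]
    conv_lhs => rw [hv]
    simp only [map_sum, map_smul, sum_apply, smul_apply]
    refine Finset.sum_congr rfl fun i _ => ?_
    rw [Finset.smul_sum]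
    refine Finset.sum_congr rfl fun j _ => ?_
    rw [Curv_d2_eq hθ, smul_smul]
  have hG2 : G' (graphMap θ u) (fderiv ℝ (fderiv ℝ (graphMap θ)) u v v) =
      hq (graphMap θ) u ν v * G' (graphMap θ u) ν +
      gq (graphMap θ) u v * G' (graphMap θ u) (graphMap θ u) := by
    rw [hexp, gq_eq, hq, map_sum]
    simp only [map_sum, map_smul, smul_eq_mul, Finset.sum_mul]
    rw [← Finset.sum_add_distrib]
    refine Finset.sum_congr rfl fun i _ => ?_
    rw [← Finset.sum_add_distrib]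
    refine Finset.sum_congr rfl fun j _ => ?_
    obtain ⟨w, hw⟩ := Curv_d2_frame hθ hν hg i j
    rw [hw, map_add, map_add, map_smul, map_smul, hT w]
    simp only [smul_eq_mul]
    ring
  rw [Curv_tv_eq]
  rw [hG2] at hnn
  linarith

end Pool.Agent.H93.KT
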