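import Pool.Agent.H93.KT.Lor1

set_option autoImplicit false

/-! MODULE Curve.  From curves defined on `ℝ` to inextensible curves of an open subset of `AdS`.
`cauchy_curve`: `J = {s | ∀ τ ∈ uIcc 0 s, n τ ∈ U}` is an open interval containing `0` (U is open in AdS and
`n τ ∈ AdS`).  Reparametrise `J` by `ℝ` (`C¹`, positive derivative): `a + (b-a)/(1+exp(-u))`, `a + exp u`,
`b - exp (-u)`, `u`.  A finite end point of `J` is not in `U`, an infinite one has no limit by hypothesis. -/

namespace Pool.Agent.H93.KT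

open Filter Topology

/-- an open interval is the range of a `C¹` function with positive derivative -/
lemma cv_param {J : Set ℝ} (hJ : IsOpen J) (hJc : J.OrdConnected) (h0 : J.Nonempty) :
    ∃ φ : ℝ → ℝ, ContDiff ℝ 1 φ ∧ (∀ u, 0 < deriv φ u) ∧ Set.range φ = J := by
  classical
  by_cases hb : BddAbove J
  · have hbn : sSup J ∉ J := by
      intro h
      obtain ⟨ε, hε, hB⟩ := Metric.isOpen_iff.1 hJ _ h
      have h1 : sSup J + ε / 2 ∈ J := hB (by
        rw [Metric.mem_ball, Real.dist_eq]
        rw [add_sub_cancel_left, abs_of_pos (by linarith)]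
        linarith)
      have h2 := le_csSup hb h1
      linarith
    by_cases ha : BddBelow J
    · have han : sInf J ∉ J := by
        intro h
        obtain ⟨ε, hε, hB⟩ := Metric.isOpen_iff.1 hJ _ h
        have h1 : sInf J - ε / 2 ∈ J := hB (by
          rw [Metric.mem_ball, Real.dist_eq]
          rw [sub_sub_cancel_left, abs_neg, abs_of_pos (by linarith)]
          linarith)
        have h2 := csInf_le ha h1
        linarith
      have hJe : J = Set.Ioo (sInf J) (sSup J) := by
        apply Set.Subset.antisymm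
        · intro x hx
          exact ⟨lt_of_le_of_ne (csInf_le ha hx) (fun h => han (h ▸ hx)),
            lt_of_le_of_ne (le_csSup hb hx) (fun h => hbn (h ▸ hx))⟩
        · intro x hx
          obtain ⟨y, hy, hyx⟩ := exists_lt_of_csInf_lt h0 hx.1
          obtain ⟨z, hz, hxz⟩ := exists_lt_of_lt_csSup h0 hx.2
          exact hJc.out hy hz ⟨hyx.le, hxz.le⟩
      have hlt : sInf J < sSup J := by
        obtain ⟨x, hx⟩ := h0
        rw [hJe] at hx
        exact hx.1.trans hx.2
      refine ⟨fun u => sInf J + (sSup J - sInf J) * Real.sigmoid u, ?_, ?_, ?_⟩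
      · exact contDiff_const.add (contDiff_const.mul
          (contDiff_sigmoid.of_le (by simp)))
      · intro u
        have h1 := ((Real.hasDerivAt_sigmoid u).const_mul (sSup J - sInf J)).const_add (sInf J)
        rw [h1.deriv]
        have h2 := Real.sigmoid_pos u
        have h3 := Real.sigmoid_lt_one u
        have h4 : 0 < 1 - Real.sigmoid u := by linarith
        have h5 : 0 < sSup J - sInf J := by linarith
        positivity
      · conv_rhs => rw [hJe]
        ext x
        constructor
        · rintro ⟨u, rfl⟩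
          have h2 := Real.sigmoid_pos u
          have h3 := Real.sigmoid_lt_one u
          constructor
          · have : 0 < (sSup J - sInf J) * Real.sigmoid u := mul_pos (by linarith) h2
            simp only
            linarith
          · have : (sSup J - sInf J) * Real.sigmoid u < (sSup J - sInf J) * 1 :=
              mul_lt_mul_of_pos_left h3 (by linarith)
            simp only
            linarith
        · intro hx
          have h1 : (x - sInf J) / (sSup J - sInf J) ∈ Set.Ioo (0 : ℝ) 1 := by
            constructor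
            · exact div_pos (by linarith [hx.1]) (by linarith)
            · rw [div_lt_one (by linarith)]
              linarith [hx.2]
          rw [← Real.range_sigmoid] at h1
          obtain ⟨u, hu⟩ := h1
          refine ⟨u, ?_⟩
          simp only
          rw [hu]
          have h5 : sSup J - sInf J ≠ 0 := by linarith
          field_simp
          ring
    · have hJe : J = Set.Iio (sSup J) := by
        apply Set.Subset.antisymm
        · intro x hx
          exact lt_of_le_of_ne (le_csSup hb hx) (fun h => hbn (h ▸ hx))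
        · intro x hx
          obtain ⟨z, hz, hxz⟩ := exists_lt_of_lt_csSup h0 hx
          rw [not_bddBelow_iff] at ha
          obtain ⟨y, hy, hyx⟩ := ha x
          exact hJc.out hy hz ⟨hyx.le, hxz.le⟩
      refine ⟨fun u => sSup J - Real.exp (-u), ?_, ?_, ?_⟩
      · exact contDiff_const.sub (Real.contDiff_exp.comp contDiff_neg)
      · intro u
        have h1 : HasDerivAt (fun u : ℝ => sSup J - Real.exp (-u)) (-(Real.exp (-u) * (-1))) u :=
          ((hasDerivAt_neg u).exp).const_sub _
        rw [h1.deriv]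
        have := Real.exp_pos (-u)
        linarith
      · conv_rhs => rw [hJe]
        ext x
        constructor
        · rintro ⟨u, rfl⟩
          have := Real.exp_pos (-u)
          simp only [Set.mem_Iio]
          linarith
        · intro hx
          refine ⟨-Real.log (sSup J - x), ?_⟩
          simp only [neg_neg]
          rw [Real.exp_log (by have : x < sSup J := hx; linarith)]
          ring
  · by_cases ha : BddBelow J
    · have han : sInf J ∉ J := by
        intro h
        obtain ⟨ε, hε, hB⟩ := Metric.isOpen_iff.1 hJ _ h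
        have h1 : sInf J - ε / 2 ∈ J := hB (by
          rw [Metric.mem_ball, Real.dist_eq]
          rw [sub_sub_cancel_left, abs_neg, abs_of_pos (by linarith)]
          linarith)
        have h2 := csInf_le ha h1
        linarith
      have hJe : J = Set.Ioi (sInf J) := by
        apply Set.Subset.antisymm
        · intro x hx
          exact lt_of_le_of_ne (csInf_le ha hx) (fun h => han (h ▸ hx))
        · intro x hx
          obtain ⟨y, hy, hyx⟩ := exists_lt_of_csInf_lt h0 hx
          rw [not_bddAbove_iff] at hb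
          obtain ⟨z, hz, hxz⟩ := hb x
          exact hJc.out hy hz ⟨hyx.le, hxz.le⟩
      refine ⟨fun u => sInf J + Real.exp u, ?_, ?_, ?_⟩
      · exact contDiff_const.add Real.contDiff_exp
      · intro u
        rw [((Real.hasDerivAt_exp u).const_add (sInf J)).deriv]
        exact Real.exp_pos u
      · conv_rhs => rw [hJe]
        ext x
        constructor
        · rintro ⟨u, rfl⟩
          have := Real.exp_pos u
          simp only [Set.mem_Ioi]
          linarith
        · intro hx
          refine ⟨Real.log (x - sInf J), ?_⟩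
          simp only
          rw [Real.exp_log (by have : sInf J < x := hx; linarith)]
          ring
    · refine ⟨id, contDiff_id, fun u => by simp, ?_⟩
      rw [Set.range_id]
      symm
      rw [Set.eq_univ_iff_forall]
      intro x
      rw [not_bddBelow_iff] at ha
      rw [not_bddAbove_iff] at hb
      obtain ⟨y, hy, hyx⟩ := ha x
      obtain ⟨z, hz, hxz⟩ := hb x
      exact hJc.out hy hz ⟨hyx.le, hxz.le⟩

theorem cauchy_curve {U S : Set V} (hU : OpenInAdS U) (hS : IsCauchy U S) {n : ℝ → V}
    (hn : ContDiff ℝ 1 n) (hA : ∀ s, n s ∈ AdS ∧ FutureCausal (n s) (deriv n s)) (h0 : n 0 ∈ U)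
    (hlim : ∀ x, ¬ Tendsto n atTop (𝓝 x) ∧ ¬ Tendsto n atBot (𝓝 x)) :
    ∃! s, n s ∈ S ∧ ∀ τ ∈ Set.uIcc 0 s, n τ ∈ U := by
  classical
  obtain ⟨O, hO, hUO⟩ := hU
  have hmem : ∀ s, n s ∈ U ↔ n s ∈ O := by
    intro s
    rw [hUO]
    exact ⟨fun h => h.1, fun h => ⟨h, (hA s).1⟩⟩
  have hopen : IsOpen {s | n s ∈ U} := by
    have h1 : {s | n s ∈ U} = n ⁻¹' O := by
      ext s
      exact hmem s
    rw [h1]
    exact hO.preimage hn.continuous
  set J : Set ℝ := {s | ∀ τ ∈ Set.uIcc 0 s, n τ ∈ U} with hJdef
  have h0J : (0 : ℝ) ∈ J := by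
    intro τ hτ
    rw [Set.uIcc_self, Set.mem_singleton_iff] at hτ
    rw [hτ]
    exact h0
  have hJU : ∀ s ∈ J, n s ∈ U := fun s hs => hs s Set.right_mem_uIcc
  have hJc : J.OrdConnected := by
    constructor
    intro a ha b hb x hx τ hτ
    rcases le_total 0 x with h | h
    · rw [Set.uIcc_of_le h] at hτ
      apply hb
      rw [Set.uIcc_of_le (h.trans hx.2)]
      exact ⟨hτ.1, hτ.2.trans hx.2⟩
    · rw [Set.uIcc_of_ge h] at hτ
      apply ha
      rw [Set.uIcc_of_ge (hx.1.trans h)]
      exact ⟨hx.1.trans hτ.1, hτ.2⟩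
  have hJo : IsOpen J := by
    rw [Metric.isOpen_iff]
    intro s hs
    obtain ⟨ε, hε, hB⟩ := Metric.isOpen_iff.1 hopen s (hJU s hs)
    refine ⟨ε, hε, fun x hx τ hτ => ?_⟩
    by_cases hτs : τ ∈ Set.uIcc 0 s
    · exact hs τ hτs
    · apply hB
      rw [Metric.mem_ball, Real.dist_eq] at hx ⊢
      have hx' := abs_lt.1 hx
      rw [abs_lt]
      rcases Set.mem_uIcc.1 hτ with h1 | h1 <;> rw [Set.mem_uIcc, not_or, not_and_or, not_and_or]
        at hτs <;> rcases hτs with ⟨h2 | h2, h3 | h3⟩ <;> push Not at h2 h3 <;>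
        constructor <;> linarith [h1.1, h1.2]
  obtain ⟨φ, hφ, hφ', hr⟩ := cv_param hJo hJc ⟨0, h0J⟩
  have hmono : StrictMono φ := strictMono_of_deriv_pos hφ'
  have hφJ : ∀ u, φ u ∈ J := fun u => by rw [← hr]; exact ⟨u, rfl⟩
  have hφd : Differentiable ℝ φ := hφ.differentiable (by norm_num)
  have hnd : Differentiable ℝ n := hn.differentiable (by norm_num)
  have hder : ∀ u, deriv (n ∘ φ) u = deriv φ u • deriv n (φ u) := by
    intro u
    exact ((hnd (φ u)).hasDerivAt.scomp u (hφd u).hasDerivAt).deriv
  -- end points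
  have htop : ∀ x ∈ U, ¬ Tendsto (n ∘ φ) atTop (𝓝 x) := by
    intro x hx ht
    by_cases hb : BddAbove J
    · have h1 : Tendsto φ atTop (𝓝 (sSup J)) := by
        rw [← hr]
        exact tendsto_atTop_ciSup hmono.monotone (by rw [hr]; exact hb)
      have h2 : Tendsto (n ∘ φ) atTop (𝓝 (n (sSup J))) := (hn.continuous.tendsto _).comp h1
      have h3 : n (sSup J) = x := tendsto_nhds_unique h2 ht
      have h4 : sSup J ∈ J := by
        intro τ hτ
        have h5 : (0 : ℝ) ≤ sSup J := le_csSup hb h0J
        rw [Set.uIcc_of_le h5] at hτ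
        rcases eq_or_lt_of_le hτ.2 with h6 | h6
        · rw [h6, h3]
          exact hx
        · obtain ⟨z, hz, hτz⟩ := exists_lt_of_lt_csSup ⟨0, h0J⟩ h6
          exact hz τ (by rw [Set.uIcc_of_le (hτ.1.trans hτz.le)]; exact ⟨hτ.1, hτz.le⟩)
      obtain ⟨ε, hε, hB⟩ := Metric.isOpen_iff.1 hJo _ h4
      have h7 : sSup J + ε / 2 ∈ J := hB (by
        rw [Metric.mem_ball, Real.dist_eq, add_sub_cancel_left, abs_of_pos (by linarith)]
        linarith)
      have h8 := le_csSup hb h7
      linarith
    · apply (hlim x).1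
      rw [not_bddAbove_iff] at hb
      intro W hW
      have h1 := ht hW
      rw [mem_map, mem_atTop_sets] at h1
      obtain ⟨u₀, hu₀⟩ := h1
      rw [mem_map, mem_atTop_sets]
      refine ⟨φ u₀, fun s hs => ?_⟩
      obtain ⟨z, hz, hsz⟩ := hb s
      have h2 : s ∈ J := hJc.out (hφJ u₀) hz ⟨hs, hsz.le⟩
      rw [← hr] at h2
      obtain ⟨u, rfl⟩ := h2
      exact hu₀ u (hmono.le_iff_le.1 hs)
  have hbot : ∀ x ∈ U, ¬ Tendsto (n ∘ φ) atBot (𝓝 x) := by
    intro x hx ht
    by_cases hb : BddBelow J
    · have h1 : Tendsto φ atBot (𝓝 (sInf J)) := by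
        rw [← hr]
        exact tendsto_atBot_ciInf hmono.monotone (by rw [hr]; exact hb)
      have h2 : Tendsto (n ∘ φ) atBot (𝓝 (n (sInf J))) := (hn.continuous.tendsto _).comp h1
      have h3 : n (sInf J) = x := tendsto_nhds_unique h2 ht
      have h4 : sInf J ∈ J := by
        intro τ hτ
        have h5 : sInf J ≤ 0 := csInf_le hb h0J
        rw [Set.uIcc_of_ge h5] at hτ
        rcases eq_or_lt_of_le hτ.1 with h6 | h6
        · rw [← h6, h3]
          exact hx
        · obtain ⟨z, hz, hτz⟩ := exists_lt_of_csInf_lt ⟨0, h0J⟩ h6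
          exact hz τ (by rw [Set.uIcc_of_ge (hτz.le.trans hτ.2)]; exact ⟨hτz.le, hτ.2⟩)
      obtain ⟨ε, hε, hB⟩ := Metric.isOpen_iff.1 hJo _ h4
      have h7 : sInf J - ε / 2 ∈ J := hB (by
        rw [Metric.mem_ball, Real.dist_eq, sub_sub_cancel_left, abs_neg, abs_of_pos (by linarith)]
        linarith)
      have h8 := csInf_le hb h7
      linarith
    · apply (hlim x).2
      rw [not_bddBelow_iff] at hb
      intro W hW
      have h1 := ht hW
      rw [mem_map, mem_atBot_sets] at h1
      obtain ⟨u₀, hu₀⟩ := h1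
      rw [mem_map, mem_atBot_sets]
      refine ⟨φ u₀, fun s hs => ?_⟩
      obtain ⟨z, hz, hsz⟩ := hb s
      have h2 : s ∈ J := hJc.out hz (hφJ u₀) ⟨hsz.le, hs⟩
      rw [← hr] at h2
      obtain ⟨u, rfl⟩ := h2
      exact hu₀ u (hmono.le_iff_le.1 hs)
  have hin : InextCausal U (n ∘ φ) := by
    refine ⟨hn.comp hφ, fun u => ⟨hJU _ (hφJ u), ?_⟩, fun x hx => ⟨htop x hx, hbot x hx⟩⟩
    rw [hder u]
    obtain ⟨h1, h2, h3⟩ := (hA (φ u)).2
    refine ⟨?_, ?_, ?_⟩
    · rw [B_smul_right]
      have h4 : B ((n ∘ φ) u) (deriv n (φ u)) = 0 := h1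
      rw [h4, mul_zero]
    · rw [B_smul_right, B_smul_left]
      have h4 : 0 ≤ deriv φ u * deriv φ u := mul_self_nonneg _
      nlinarith
    · rw [om_smul_right]
      exact mul_pos (hφ' u) h3
  obtain ⟨u, hu, huniq⟩ := hS.2 _ hin
  refine ⟨φ u, ⟨hu, hφJ u⟩, ?_⟩
  rintro s ⟨hs1, hs2⟩
  have hsJ : s ∈ J := hs2
  rw [← hr] at hsJ
  obtain ⟨u', rfl⟩ := hsJ
  rw [huniq u' hs1]

/-- timelike geodesics -/
theorem cauchy_geod {U S : Set V} (hU : OpenInAdS U) (hS : IsCauchy U S) {x X : V} (hx : x ∈ U)
    (h0 : B x X = 0) (h1 : B X X = -1) (ho : 0 < om x X) :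
    ∃! τ : ℝ, Real.cos τ • x + Real.sin τ • X ∈ S ∧
      ∀ σ ∈ Set.uIcc 0 τ, Real.cos σ • x + Real.sin σ • X ∈ U := by
  have hxA : B x x = -1 := by
    obtain ⟨O, _, rfl⟩ := hU
    exact hx.2
  have h0' : B X x = 0 := by rw [B_comm]; exact h0
  have hd : ∀ s, HasDerivAt (fun τ : ℝ => Real.cos τ • x + Real.sin τ • X)
      ((-Real.sin s) • x + Real.cos s • X) s := by
    intro s
    exact ((Real.hasDerivAt_cos s).smul_const x).add ((Real.hasDerivAt_sin s).smul_const X)
  have hperiod : ∀ (σ : ℝ) (k : ℕ), (fun τ : ℝ => Real.cos τ • x + Real.sin τ • X)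
      (σ + k * (2 * Real.pi)) = Real.cos σ • x + Real.sin σ • X := by
    intro σ k
    simp only
    rw [Real.cos_add_nat_mul_two_pi, Real.sin_add_nat_mul_two_pi]
  have hperiod' : ∀ (σ : ℝ) (k : ℕ), (fun τ : ℝ => Real.cos τ • x + Real.sin τ • X)
      (σ - k * (2 * Real.pi)) = Real.cos σ • x + Real.sin σ • X := by
    intro σ k
    simp only
    rw [Real.cos_sub_nat_mul_two_pi, Real.sin_sub_nat_mul_two_pi]
  have hcontra : ∀ y : V, (∀ σ : ℝ, Real.cos σ • x + Real.sin σ • X = y) → False := by
    intro y hy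
    have h2 := hy 0
    have h3 := hy Real.pi
    rw [Real.cos_zero, Real.sin_zero, one_smul, zero_smul, add_zero] at h2
    rw [Real.cos_pi, Real.sin_pi, zero_smul, add_zero, ← h2] at h3
    have h4 : B ((-1 : ℝ) • x) x = B x x := by rw [h3]
    rw [B_smul_left, hxA] at h4
    norm_num at h4
  have h2pi : (0 : ℝ) < 2 * Real.pi := by positivity
  have htk : Tendsto (fun k : ℕ => (k : ℝ) * (2 * Real.pi)) atTop atTop :=
    tendsto_natCast_atTop_atTop.atTop_mul_const h2pi
  refine cauchy_curve hU hS (n := fun τ : ℝ => Real.cos τ • x + Real.sin τ • X) ?_ ?_ ?_ ?_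
  · exact (Real.contDiff_cos.smul contDiff_const).add (Real.contDiff_sin.smul contDiff_const)
  · intro s
    rw [(hd s).deriv]
    have hcs := Real.sin_sq_add_cos_sq s
    refine ⟨?_, ?_, ?_, ?_⟩
    · change B (Real.cos s • x + Real.sin s • X) (Real.cos s • x + Real.sin s • X) = -1
      simp only [B_add_left, B_add_right, B_smul_left, B_smul_right, hxA, h0, h0', h1]
      linear_combination -hcs
    · simp only [B_add_left, B_add_right, B_smul_left, B_smul_right, hxA, h0, h0', h1]
      ring
    · simp only [B_add_left, B_add_right, B_smul_left, B_smul_right, hxA, h0, h0', h1]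
      nlinarith
    · simp only [om_add_left, om_add_right, om_smul_left, om_smul_right, om_self]
      have h5 : om X x = - om x X := om_antisymm X x
      rw [h5]
      nlinarith
  · simp only [Real.cos_zero, Real.sin_zero, one_smul, zero_smul, add_zero]
    exact hx
  · intro y
    constructor
    · intro ht
      apply hcontra y
      intro σ
      have h2 : Tendsto (fun k : ℕ => σ + (k : ℝ) * (2 * Real.pi)) atTop atTop :=
        tendsto_atTop_add_const_left _ _ htk
      have h3 := ht.comp h2
      have h4 : (fun τ : ℝ => Real.cos τ • x + Real.sin τ • X) ∘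
          (fun k : ℕ => σ + (k : ℝ) * (2 * Real.pi)) =
          fun _ => Real.cos σ • x + Real.sin σ • X := by
        funext k
        exact hperiod σ k
      rw [h4] at h3
      exact tendsto_nhds_unique tendsto_const_nhds h3
    · intro ht
      apply hcontra y
      intro σ
      have h2 : Tendsto (fun k : ℕ => σ - (k : ℝ) * (2 * Real.pi)) atTop atBot := by
        have h5 : (fun k : ℕ => σ - (k : ℝ) * (2 * Real.pi)) =
            fun k : ℕ => σ + -((k : ℝ) * (2 * Real.pi)) := by
          funext k
          ring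
        rw [h5]
        exact tendsto_atBot_add_const_left _ _ (tendsto_neg_atTop_atBot.comp htk)
      have h3 := ht.comp h2
      have h4 : (fun τ : ℝ => Real.cos τ • x + Real.sin τ • X) ∘
          (fun k : ℕ => σ - (k : ℝ) * (2 * Real.pi)) =
          fun _ => Real.cos σ • x + Real.sin σ • X := by
        funext k
        exact hperiod' σ k
      rw [h4] at h3
      exact tendsto_nhds_unique tendsto_const_nhds h3

/-- future directed null geodesics -/
lemma cv_null {U S : Set V} (hU : OpenInAdS U) (hS : IsCauchy U S) {x k : V} (hx : x ∈ U)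
    (hk : k ≠ 0) (h1 : B k k = 0) (hf : FutureCausal x k) : ∃ s : ℝ, x + s • k ∈ S := by
  have hxA : B x x = -1 := by
    obtain ⟨O, _, rfl⟩ := hU
    exact hx.2
  obtain ⟨h0, _, ho⟩ := hf
  have h0' : B k x = 0 := by rw [B_comm]; exact h0
  have hd : ∀ s, HasDerivAt (fun τ : ℝ => x + τ • k) k s := by
    intro s
    have h2 := ((hasDerivAt_id s).smul_const k).const_add x
    rw [one_smul] at h2
    exact h2
  obtain ⟨i, hi⟩ : ∃ i, k i ≠ 0 := by
    by_contra h
    push Not at h
    exact hk (funext h)
  have hno : ∀ (l : Filter ℝ) [NeBot l] (y : V), Tendsto (fun τ : ℝ => |τ|) l atTop →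
      ¬ Tendsto (fun τ : ℝ => x + τ • k) l (𝓝 y) := by
    intro l _ y hl ht
    have h2 : Tendsto (fun τ : ℝ => (x + τ • k) i) l (𝓝 (y i)) :=
      ((continuous_apply i).tendsto y).comp ht
    have h3 : Tendsto (fun τ : ℝ => |((x + τ • k) i - x i) / k i|) l
        (𝓝 |(y i - x i) / k i|) := ((h2.sub_const (x i)).div_const (k i)).abs
    have h4 : (fun τ : ℝ => |((x + τ • k) i - x i) / k i|) = fun τ : ℝ => |τ| := by
      funext τ
      rw [Pi.add_apply, Pi.smul_apply, smul_eq_mul, add_sub_cancel_left, mul_div_cancel_right₀ _ hi]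
    rw [h4] at h3
    exact not_tendsto_nhds_of_tendsto_atTop hl _ h3
  obtain ⟨s, hs, _⟩ := cauchy_curve hU hS (n := fun τ : ℝ => x + τ • k) (by fun_prop) (by
    intro s
    rw [(hd s).deriv]
    refine ⟨?_, ?_, ?_, ?_⟩
    · change B (x + s • k) (x + s • k) = -1
      simp only [B_add_left, B_add_right, B_smul_left, B_smul_right, hxA, h0, h0', h1]
      ring
    · simp only [B_add_left, B_smul_left, h0, h1]
      ring
    · rw [h1]
    · simp only [om_add_left, om_smul_left, om_self, mul_zero, add_zero]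
      exact ho) (by simpa using hx)
    (fun y => ⟨hno atTop y tendsto_abs_atTop_atTop, hno atBot y tendsto_abs_atBot_atTop⟩)
  exact ⟨s, hs.1⟩

/-- null geodesics -/
theorem cauchy_null {U S : Set V} (hU : OpenInAdS U) (hS : IsCauchy U S) {x k : V} (hx : x ∈ U)
    (h0 : B x k = 0) (h1 : B k k = 0) (hk : k ≠ 0) :
    ∃ s : ℝ, x + s • k ∈ S := by
  have hxA : x ∈ AdS := by
    obtain ⟨O, _, rfl⟩ := hU
    exact hx.2
  rcases null_future hxA hk h1 h0 with h | h
  · exact cv_null hU hS hx hk h1 h
  · obtain ⟨s, hs⟩ := cv_null hU hS hx (neg_ne_zero.2 hk) (by simp [h1]) h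
    refine ⟨-s, ?_⟩
    rw [neg_smul, ← smul_neg]
    exact hs

end Pool.Agent.H93.KT
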