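import Pool.Agent.H93.KT.Curve

set_option autoImplicit false

/-! MODULE CurveN (helper13).  Lifts of curves to a spacetime `N` with developing map.
The set of `(J, c)` with `J` an open interval containing `0`, `c : J → N` a continuous lift of `n` with `c 0 = p`; two
lifts agree on the intersection (Hausdorff, local injectivity of `dev`); the union is the maximal lift on an open
interval `J`.  At a finite end of `J` the lift has no limit in `N` (a limit `q` would have `dev q = n (end)` and the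
local homeomorphism at `q` would extend the lift).  At an infinite end it has no limit because `n = dev ∘ c` has
none.  Reparametrise `J` by `ℝ` and apply the Cauchy hypothesis. -/

namespace Pool.Agent.H93.KT

open Filter Topology

namespace CN

/-- local sections along the curve `n` -/
lemma section_at {N : Type} [TopologicalSpace N] {dev : N → V}
    (ho : ∀ U : Set N, IsOpen U → OpenInAdS (dev '' U))
    (hi : ∀ p, ∃ U : Set N, IsOpen U ∧ p ∈ U ∧ Set.InjOn dev U) {n : ℝ → V} (hn : Continuous n)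
    (hA : ∀ s, n s ∈ AdS) {t : ℝ} {q : N} (hq : dev q = n t) :
    ∃ (ε : ℝ) (U : Set N) (σ : ℝ → N), 0 < ε ∧ IsOpen U ∧ q ∈ U ∧ Set.InjOn dev U ∧
      ContinuousOn σ (Set.Ioo (t - ε) (t + ε)) ∧
      (∀ s ∈ Set.Ioo (t - ε) (t + ε), σ s ∈ U ∧ dev (σ s) = n s) := by
  obtain ⟨U, hU, hqU, hinj⟩ := hi q
  obtain ⟨O, hO, hOU⟩ := ho U hU
  have h1 : n t ∈ O := by
    have : dev q ∈ dev '' U := ⟨q, hqU, rfl⟩
    rw [hOU, hq] at this
    exact this.1
  obtain ⟨ε, hε, hball⟩ := Metric.isOpen_iff.1 (hO.preimage hn) t h1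
  rw [Real.ball_eq_Ioo] at hball
  have hex : ∀ s ∈ Set.Ioo (t - ε) (t + ε), ∃ u, u ∈ U ∧ dev u = n s := by
    intro s hs
    have : n s ∈ dev '' U := by
      rw [hOU]
      exact ⟨hball hs, hA s⟩
    exact this
  classical
  set σ : ℝ → N := fun s => if h : s ∈ Set.Ioo (t - ε) (t + ε) then (hex s h).choose else q with hσ
  have hσs : ∀ s ∈ Set.Ioo (t - ε) (t + ε), σ s ∈ U ∧ dev (σ s) = n s := by
    intro s hs
    have h2 := (hex s hs).choose_spec
    simp only [hσ, hs, dif_pos]
    exact h2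
  refine ⟨ε, U, σ, hε, hU, hqU, hinj, ?_, hσs⟩
  intro s hs
  rw [ContinuousWithinAt, tendsto_def]
  intro W hW
  obtain ⟨W', hW', hW'o, hsW'⟩ := mem_nhds_iff.1 hW
  obtain ⟨O', hO', hOU'⟩ := ho (W' ∩ U) (hW'o.inter hU)
  have h3 : n s ∈ O' := by
    have : dev (σ s) ∈ dev '' (W' ∩ U) := ⟨σ s, ⟨hsW', (hσs s hs).1⟩, rfl⟩
    rw [hOU', (hσs s hs).2] at this
    exact this.1
  have h4 : n ⁻¹' O' ∈ 𝓝[Set.Ioo (t - ε) (t + ε)] s :=
    mem_nhdsWithin_of_mem_nhds ((hO'.preimage hn).mem_nhds h3)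
  filter_upwards [h4, self_mem_nhdsWithin] with r hr hr2
  have : n r ∈ dev '' (W' ∩ U) := by
    rw [hOU']
    exact ⟨hr, hA r⟩
  obtain ⟨w, hw, hwr⟩ := this
  have h5 : w = σ r := hinj hw.2 (hσs r hr2).1 (by rw [hwr, (hσs r hr2).2])
  rw [Set.mem_preimage, ← h5]
  exact hW' hw.1

/-- a lift of `n` on the open interval `I` -/
def IsL {N : Type} [TopologicalSpace N] (dev : N → V) (n : ℝ → V) (p : N) (I : Set ℝ)
    (c : ℝ → N) : Prop :=
  IsOpen I ∧ I.OrdConnected ∧ 0 ∈ I ∧ ContinuousOn c I ∧ (∀ s ∈ I, dev (c s) = n s) ∧ c 0 = p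

lemma eqOn_of_lifts {N : Type} [TopologicalSpace N] [T2Space N] {dev : N → V}
    (hi : ∀ p, ∃ U : Set N, IsOpen U ∧ p ∈ U ∧ Set.InjOn dev U) {n : ℝ → V} {I : Set ℝ}
    (hI : I.OrdConnected) {c c' : ℝ → N} (h1 : ContinuousOn c I) (h2 : ContinuousOn c' I)
    (h3 : ∀ s ∈ I, dev (c s) = n s) (h4 : ∀ s ∈ I, dev (c' s) = n s) {t : ℝ} (ht : t ∈ I)
    (h5 : c t = c' t) : Set.EqOn c c' I := by
  refine IsSeparatedMap.eqOn_of_comp_eqOn (T2Space.isSeparatedMap dev) ?_ hI.isPreconnected h1 h2 ?_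
    ht h5
  · intro x
    obtain ⟨U, hU, hx, hinj⟩ := hi x
    exact ⟨U, hU, hx, hinj⟩
  · intro s hs
    simp only [Function.comp_apply]
    rw [h3 s hs, h4 s hs]

/-- the maximal lift -/
lemma exists_max {N : Type} [TopologicalSpace N] [T2Space N] {dev : N → V}
    (ho : ∀ U : Set N, IsOpen U → OpenInAdS (dev '' U))
    (hi : ∀ p, ∃ U : Set N, IsOpen U ∧ p ∈ U ∧ Set.InjOn dev U) {n : ℝ → V} (hn : Continuous n)
    (hA : ∀ s, n s ∈ AdS) {p : N} (hp : dev p = n 0) :
    ∃ (J : Set ℝ) (c : ℝ → N), IsL dev n p J c ∧ ∀ J' c', IsL dev n p J' c' → J' ⊆ J := by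
  classical
  set J : Set ℝ := {t | ∃ I c, IsL dev n p I c ∧ t ∈ I} with hJ
  have hex : ∀ t : ℝ, t ∈ J → ∃ I c, IsL dev n p I c ∧ t ∈ I := fun t ht => ht
  choose I₀ c₀ hc₀ using hex
  set C : ℝ → N := fun t => if h : t ∈ J then c₀ t h t else p with hC
  have hag : ∀ I c, IsL dev n p I c → ∀ t ∈ I, C t = c t := by
    intro I c hIc t ht
    have htJ : t ∈ J := ⟨I, c, hIc, ht⟩
    obtain ⟨⟨g1, g2, g3, g4, g5, g6⟩, g7⟩ := hc₀ t htJ
    obtain ⟨k1, k2, k3, k4, k5, k6⟩ := hIc
    have := eqOn_of_lifts hi (n := n) (g2.inter k2) (g4.mono Set.inter_subset_left)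
      (k4.mono Set.inter_subset_right) (fun s hs => g5 s hs.1) (fun s hs => k5 s hs.2)
      (t := 0) ⟨g3, k3⟩ (by rw [g6, k6])
    have h2 := this ⟨g7, ht⟩
    simp only [hC, htJ, dif_pos]
    exact h2
  -- the trivial lift
  obtain ⟨ε, U, σ, hε, hU, hpU, hinj, hσc, hσ⟩ := section_at ho hi hn hA hp
  have hm0 : (0 : ℝ) ∈ Set.Ioo (0 - ε) (0 + ε) := ⟨by linarith, by linarith⟩
  have hσ0 : σ 0 = p := hinj (hσ 0 hm0).1 hpU (by rw [(hσ 0 hm0).2, hp])
  have hL0 : IsL dev n p (Set.Ioo (0 - ε) (0 + ε)) σ :=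
    ⟨isOpen_Ioo, Set.ordConnected_Ioo, hm0, hσc, fun s hs => (hσ s hs).2, hσ0⟩
  have hJo : IsOpen J := by
    have : J = ⋃ (Ic : {x : Set ℝ × (ℝ → N) // IsL dev n p x.1 x.2}), Ic.1.1 := by
      ext t
      simp only [hJ, Set.mem_ofPred_eq, Set.mem_iUnion]
      constructor
      · rintro ⟨I, c, h1, h2⟩
        exact ⟨⟨(I, c), h1⟩, h2⟩
      · rintro ⟨⟨⟨I, c⟩, h1⟩, h2⟩
        exact ⟨I, c, h1, h2⟩
    rw [this]
    exact isOpen_iUnion fun x => x.2.1
  have hJc : IsPreconnected J := by
    have : J = ⋃₀ {I | ∃ c, IsL dev n p I c} := by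
      ext t
      simp only [hJ, Set.mem_ofPred_eq, Set.mem_sUnion]
      constructor
      · rintro ⟨I, c, h1, h2⟩
        exact ⟨I, ⟨c, h1⟩, h2⟩
      · rintro ⟨I, ⟨c, h1⟩, h2⟩
        exact ⟨I, c, h1, h2⟩
    rw [this]
    refine isPreconnected_sUnion 0 _ ?_ ?_
    · rintro I ⟨c, hc⟩
      exact hc.2.2.1
    · rintro I ⟨c, hc⟩
      exact hc.2.1.isPreconnected
  refine ⟨J, C, ⟨hJo, hJc.ordConnected, ⟨_, _, hL0, hm0⟩, ?_, ?_, ?_⟩, ?_⟩
  · intro t ht
    obtain ⟨I, c, h1, h2⟩ := ht
    have h3 : ContinuousAt c t := h1.2.2.2.1.continuousAt (h1.1.mem_nhds h2)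
    have h4 : C =ᶠ[𝓝 t] c := by
      filter_upwards [h1.1.mem_nhds h2] with s hs
      exact hag I c h1 s hs
    exact (h3.congr h4.symm).continuousWithinAt
  · rintro t ⟨I, c, h1, h2⟩
    rw [hag I c h1 t h2]
    exact h1.2.2.2.2.1 t h2
  · rw [hag _ _ hL0 0 hm0, hσ0]
  · intro J' c' h t ht
    exact ⟨J', c', h, ht⟩

/-- the maximal lift has no limit at a finite end point -/
lemma no_limit {N : Type} [TopologicalSpace N] [T2Space N] {dev : N → V}
    (hd : Continuous dev) (ho : ∀ U : Set N, IsOpen U → OpenInAdS (dev '' U))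
    (hi : ∀ p, ∃ U : Set N, IsOpen U ∧ p ∈ U ∧ Set.InjOn dev U) {n : ℝ → V} (hn : Continuous n)
    (hA : ∀ s, n s ∈ AdS) {p : N} {J : Set ℝ} {c : ℝ → N} (hc : IsL dev n p J c)
    (hmax : ∀ J' c', IsL dev n p J' c' → J' ⊆ J) {l : Filter ℝ} [l.NeBot] {φ : ℝ → ℝ} {b : ℝ}
    (hφ : Tendsto φ l (𝓝 b)) (hφJ : ∀ u, φ u ∈ J) (hb : b ∉ J) (q : N) :
    ¬ Tendsto (fun u => c (φ u)) l (𝓝 q) := by
  intro hq
  obtain ⟨hJo, hJc, hJ0, hcc, hcd, hc0⟩ := hc
  have h1 : dev q = n b := by
    have h2 : Tendsto (fun u => dev (c (φ u))) l (𝓝 (dev q)) := (hd.tendsto q).comp hq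
    have h3 : Tendsto (fun u => dev (c (φ u))) l (𝓝 (n b)) := by
      have : (fun u => dev (c (φ u))) = fun u => n (φ u) := by
        funext u
        exact hcd _ (hφJ u)
      rw [this]
      exact (hn.tendsto b).comp hφ
    exact tendsto_nhds_unique h2 h3
  obtain ⟨ε, U, σ, hε, hU, hqU, hinj, hσc, hσ⟩ := section_at ho hi hn hA h1
  have h4 : ∀ᶠ u in l, φ u ∈ Set.Ioo (b - ε) (b + ε) :=
    hφ (Ioo_mem_nhds (by linarith) (by linarith))
  have h5 : ∀ᶠ u in l, c (φ u) ∈ U := hq (hU.mem_nhds hqU)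
  obtain ⟨u, hu1, hu2⟩ := (h4.and h5).exists
  set I : Set ℝ := Set.Ioo (b - ε) (b + ε) with hI
  have h6 : c (φ u) = σ (φ u) := hinj hu2 (hσ _ hu1).1 (by rw [hcd _ (hφJ u), (hσ _ hu1).2])
  have h7 : Set.EqOn c σ (J ∩ I) :=
    eqOn_of_lifts hi (n := n) (hJc.inter Set.ordConnected_Ioo) (hcc.mono Set.inter_subset_left)
      (hσc.mono Set.inter_subset_right) (fun s hs => hcd s hs.1) (fun s hs => (hσ s hs.2).2)
      (t := φ u) ⟨hφJ u, hu1⟩ h6
  classical
  set c' : ℝ → N := fun s => if s ∈ J then c s else σ s with hc'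
  have e1 : ∀ s ∈ J, c' s = c s := fun s hs => by simp [hc', hs]
  have e2 : ∀ s ∈ I, c' s = σ s := by
    intro s hs
    by_cases hsJ : s ∈ J
    · rw [e1 s hsJ, h7 ⟨hsJ, hs⟩]
    · simp [hc', hsJ]
  have hL : IsL dev n p (J ∪ I) c' := by
    refine ⟨hJo.union isOpen_Ioo, ?_, Or.inl hJ0, ?_, ?_, ?_⟩
    · exact (IsPreconnected.union (φ u) (hφJ u) hu1 hJc.isPreconnected
        isPreconnected_Ioo).ordConnected
    · rintro s (hs | hs)
      · have h8 : ContinuousAt c s := hcc.continuousAt (hJo.mem_nhds hs)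
        refine (h8.congr ?_).continuousWithinAt
        filter_upwards [hJo.mem_nhds hs] with r hr
        exact (e1 r hr).symm
      · have h8 : ContinuousAt σ s := hσc.continuousAt (isOpen_Ioo.mem_nhds hs)
        refine (h8.congr ?_).continuousWithinAt
        filter_upwards [isOpen_Ioo.mem_nhds hs] with r hr
        exact (e2 r hr).symm
    · rintro s (hs | hs)
      · rw [e1 s hs]; exact hcd s hs
      · rw [e2 s hs]; exact (hσ s hs).2
    · rw [e1 0 hJ0, hc0]
  exact hb (hmax _ _ hL (Or.inr ⟨by linarith, by linarith⟩))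

/-- reparametrisation of an open interval by `ℝ` -/
lemma reparam {J : Set ℝ} (hJo : IsOpen J) (hJc : J.OrdConnected) (hJ : J.Nonempty) :
    ∃ φ : ℝ → ℝ, ContDiff ℝ 1 φ ∧ (∀ u, 0 < deriv φ u) ∧ Set.range φ = J := by
  obtain ⟨t₀, ht₀⟩ := hJ
  by_cases ha : BddAbove J
  · have hbJ : sSup J ∉ J := by
      intro h
      obtain ⟨ε, hε, hball⟩ := Metric.isOpen_iff.1 hJo _ h
      rw [Real.ball_eq_Ioo] at hball
      have : sSup J + ε / 2 ∈ J := hball ⟨by linarith, by linarith⟩
      have := le_csSup ha this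
      linarith
    by_cases hb : BddBelow J
    · have haJ : sInf J ∉ J := by
        intro h
        obtain ⟨ε, hε, hball⟩ := Metric.isOpen_iff.1 hJo _ h
        rw [Real.ball_eq_Ioo] at hball
        have : sInf J - ε / 2 ∈ J := hball ⟨by linarith, by linarith⟩
        have := csInf_le hb this
        linarith
      set a := sInf J with hadef
      set b := sSup J with hbdef
      have hJeq : J = Set.Ioo a b := by
        ext t
        constructor
        · intro ht
          exact ⟨lt_of_le_of_ne (csInf_le hb ht) (fun h => haJ (h ▸ ht)),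
            lt_of_le_of_ne (le_csSup ha ht) (fun h => hbJ (h ▸ ht))⟩
        · rintro ⟨h1, h2⟩
          obtain ⟨x, hx, hxt⟩ := exists_lt_of_csInf_lt ⟨t₀, ht₀⟩ h1
          obtain ⟨y, hy, hyt⟩ := exists_lt_of_lt_csSup ⟨t₀, ht₀⟩ h2
          exact hJc.out hx hy ⟨hxt.le, hyt.le⟩
      have hab : a < b := by
        rw [hJeq] at ht₀
        exact ht₀.1.trans ht₀.2
      have hpos : ∀ u : ℝ, 0 < 1 + Real.exp (-u) := fun u => by positivity
      have hder : ∀ u : ℝ, HasDerivAt (fun u => a + (b - a) / (1 + Real.exp (-u)))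
          ((b - a) * Real.exp (-u) / (1 + Real.exp (-u)) ^ 2) u := by
        intro u
        have h1 : HasDerivAt (fun u : ℝ => 1 + Real.exp (-u)) (-Real.exp (-u)) u := by
          have := ((hasDerivAt_neg u).exp).const_add 1
          simpa using this
        have h2 := ((hasDerivAt_const u (b - a)).div h1 (hpos u).ne').const_add a
        have h3 : (b - a) * Real.exp (-u) / (1 + Real.exp (-u)) ^ 2
            = (0 * (1 + Real.exp (-u)) - (b - a) * -Real.exp (-u)) / (1 + Real.exp (-u)) ^ 2 := by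
          ring
        rw [h3]
        exact h2
      refine ⟨fun u => a + (b - a) / (1 + Real.exp (-u)), ?_, ?_, ?_⟩
      · refine contDiff_const.add (contDiff_const.div ?_ fun u => (hpos u).ne')
        exact contDiff_const.add (Real.contDiff_exp.comp contDiff_neg)
      · intro u
        rw [(hder u).deriv]
        have := hpos u
        have h2 : 0 < b - a := by linarith
        positivity
      · rw [hJeq]
        ext t
        constructor
        · rintro ⟨u, rfl⟩
          have h1 : 0 < (b - a) / (1 + Real.exp (-u)) := div_pos (by linarith) (hpos u)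
          have h2 : (b - a) / (1 + Real.exp (-u)) < b - a := by
            rw [div_lt_iff₀ (hpos u)]
            nlinarith [Real.exp_pos (-u)]
          exact ⟨by simp only; linarith, by simp only; linarith⟩
        · rintro ⟨h1, h2⟩
          have h3 : 0 < (b - t) / (t - a) := div_pos (by linarith) (by linarith)
          refine ⟨- Real.log ((b - t) / (t - a)), ?_⟩
          simp only [neg_neg]
          rw [Real.exp_log h3]
          have h4 : t - a ≠ 0 := by linarith
          have h5 : 1 + (b - t) / (t - a) = (b - a) / (t - a) := by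
            field_simp; ring
          rw [h5]
          have h6 : b - a ≠ 0 := by linarith
          field_simp
          ring
    · -- J = Iio b
      set b := sSup J with hbdef
      have hJeq : J = Set.Iio b := by
        ext t
        constructor
        · intro ht
          exact lt_of_le_of_ne (le_csSup ha ht) (fun h => hbJ (by rw [hbdef, ← h]; exact ht))
        · intro h2
          obtain ⟨y, hy, hyt⟩ := exists_lt_of_lt_csSup ⟨t₀, ht₀⟩ h2
          obtain ⟨x, hx, hxt⟩ := not_bddBelow_iff.1 hb t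
          exact hJc.out hx hy ⟨hxt.le, hyt.le⟩
      have hder : ∀ u : ℝ, HasDerivAt (fun u => b - Real.exp (-u)) (Real.exp (-u)) u := by
        intro u
        have := ((hasDerivAt_neg u).exp).const_sub b
        simpa using this
      refine ⟨fun u => b - Real.exp (-u), ?_, ?_, ?_⟩
      · exact contDiff_const.sub (Real.contDiff_exp.comp contDiff_neg)
      · intro u
        rw [(hder u).deriv]
        positivity
      · rw [hJeq]
        ext t
        constructor
        · rintro ⟨u, rfl⟩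
          have := Real.exp_pos (-u)
          show b - Real.exp (-u) < b
          linarith
        · intro h1
          have h3 : 0 < b - t := by
            have : t < b := h1
            linarith
          refine ⟨- Real.log (b - t), ?_⟩
          simp only [neg_neg]
          rw [Real.exp_log h3]
          ring
  · by_cases hb : BddBelow J
    · have haJ : sInf J ∉ J := by
        intro h
        obtain ⟨ε, hε, hball⟩ := Metric.isOpen_iff.1 hJo _ h
        rw [Real.ball_eq_Ioo] at hball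
        have : sInf J - ε / 2 ∈ J := hball ⟨by linarith, by linarith⟩
        have := csInf_le hb this
        linarith
      set a := sInf J with hadef
      have hJeq : J = Set.Ioi a := by
        ext t
        constructor
        · intro ht
          exact lt_of_le_of_ne (csInf_le hb ht) (fun h => haJ (by rw [hadef, h]; exact ht))
        · intro h1
          obtain ⟨x, hx, hxt⟩ := exists_lt_of_csInf_lt ⟨t₀, ht₀⟩ h1
          obtain ⟨y, hy, hyt⟩ := not_bddAbove_iff.1 ha t
          exact hJc.out hx hy ⟨hxt.le, hyt.le⟩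
      have hder : ∀ u : ℝ, HasDerivAt (fun u => a + Real.exp u) (Real.exp u) u := by
        intro u
        exact (Real.hasDerivAt_exp u).const_add a
      refine ⟨fun u => a + Real.exp u, ?_, ?_, ?_⟩
      · exact contDiff_const.add Real.contDiff_exp
      · intro u
        rw [(hder u).deriv]
        positivity
      · rw [hJeq]
        ext t
        constructor
        · rintro ⟨u, rfl⟩
          have := Real.exp_pos u
          show a < a + Real.exp u
          linarith
        · intro h1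
          have h3 : 0 < t - a := by
            have : a < t := h1
            linarith
          refine ⟨Real.log (t - a), ?_⟩
          simp only
          rw [Real.exp_log h3]
          ring
    · refine ⟨fun u => u, contDiff_id, ?_, ?_⟩
      · intro u
        rw [deriv_id'']
        norm_num
      · ext t
        constructor
        · rintro ⟨u, rfl⟩
          obtain ⟨x, hx, hxt⟩ := not_bddBelow_iff.1 hb u
          obtain ⟨y, hy, hyt⟩ := not_bddAbove_iff.1 ha u
          exact hJc.out hx hy ⟨hxt.le, hyt.le⟩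
        · intro _
          exact ⟨t, rfl⟩

end CN

theorem lift_curve {N : Type} [TopologicalSpace N] [T2Space N] {dev : N → V}
    (hd : Continuous dev) (ho : ∀ U : Set N, IsOpen U → OpenInAdS (dev '' U))
    (hi : ∀ p, ∃ U : Set N, IsOpen U ∧ p ∈ U ∧ Set.InjOn dev U) {S : Set N}
    (hS : ∀ c : ℝ → N, InextCausalIn dev c → ∃! s, c s ∈ S) {n : ℝ → V} (hn : ContDiff ℝ 1 n)
    (hA : ∀ s, n s ∈ AdS ∧ FutureCausal (n s) (deriv n s))
    (hlim : ∀ x, ¬ Tendsto n atTop (𝓝 x) ∧ ¬ Tendsto n atBot (𝓝 x)) {p : N} (hp : dev p = n 0) :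
    ∃ (c : ℝ → N) (s : ℝ), ContinuousOn c (Set.uIcc 0 s) ∧ (∀ τ ∈ Set.uIcc 0 s, dev (c τ) = n τ) ∧
      c 0 = p ∧ c s ∈ S := by
  obtain ⟨J, c, hL, hmax⟩ := CN.exists_max ho hi hn.continuous (fun s => (hA s).1) hp
  obtain ⟨φ, hφ1, hφ2, hφ3⟩ := CN.reparam hL.1 hL.2.1 ⟨0, hL.2.2.1⟩
  have hφJ : ∀ u, φ u ∈ J := fun u => hφ3 ▸ Set.mem_range_self u
  have hmono : StrictMono φ := strictMono_of_deriv_pos hφ2
  have hdev : (fun u => dev (c (φ u))) = fun u => n (φ u) := by
    funext u
    exact hL.2.2.2.2.1 _ (hφJ u)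
  have hder : ∀ u, HasDerivAt (fun u => n (φ u)) (deriv φ u • deriv n (φ u)) u := by
    intro u
    have h1 : HasDerivAt n (deriv n (φ u)) (φ u) :=
      ((hn.differentiable (by norm_num)) (φ u)).hasDerivAt
    have h2 : HasDerivAt φ (deriv φ u) u := ((hφ1.differentiable (by norm_num)) u).hasDerivAt
    exact h1.scomp u h2
  have hIn : InextCausalIn dev (fun u => c (φ u)) := by
    refine ⟨?_, ?_, ?_, ?_⟩
    · exact hL.2.2.2.1.comp_continuous hφ1.continuous hφJ
    · rw [hdev]
      exact hn.comp hφ1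
    · intro u
      rw [hdev, (hder u).deriv, hL.2.2.2.2.1 _ (hφJ u)]
      obtain ⟨h1, h2, h3⟩ := (hA (φ u)).2
      refine ⟨?_, ?_, ?_⟩
      · rw [B_smul_right, h1, mul_zero]
      · rw [B_smul_right, B_smul_left]
        have := hφ2 u
        nlinarith [mul_nonneg (mul_nonneg this.le this.le) (neg_nonneg.2 h2)]
      · rw [om_smul_right]
        exact mul_pos (hφ2 u) h3
    · intro q
      constructor
      · by_cases ha : BddAbove J
        · -- finite right end
          have h1 : Tendsto φ atTop (𝓝 (⨆ u, φ u)) :=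
            tendsto_atTop_ciSup hmono.monotone (by rw [hφ3]; exact ha)
          refine CN.no_limit hd ho hi hn.continuous (fun s => (hA s).1) hL hmax h1 hφJ ?_ q
          intro h
          rw [← hφ3] at h
          obtain ⟨u, hu⟩ := h
          have h2 : φ (u + 1) ≤ ⨆ u, φ u := le_ciSup (f := φ) (by rw [hφ3]; exact ha) (u + 1)
          have h3 := hmono (lt_add_one u)
          rw [hu] at h3
          exact absurd h2 (not_le.2 h3)
        · intro hq
          have h1 : Tendsto (fun u => n (φ u)) atTop (𝓝 (dev q)) := by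
            rw [← hdev]
            exact (hd.tendsto q).comp hq
          refine (hlim (dev q)).1 ?_
          rw [tendsto_def] at h1 ⊢
          intro W hW
          obtain ⟨M, hM⟩ := mem_atTop_sets.1 (h1 W hW)
          rw [mem_atTop_sets]
          refine ⟨φ M, fun s hs => ?_⟩
          obtain ⟨y, hy, hys⟩ := not_bddAbove_iff.1 ha s
          have hsJ : s ∈ J := hL.2.1.out (hφJ M) hy ⟨hs, hys.le⟩
          rw [← hφ3] at hsJ
          obtain ⟨u, rfl⟩ := hsJ
          exact hM u (hmono.le_iff_le.1 hs)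
      · by_cases ha : BddBelow J
        · have h1 : Tendsto φ atBot (𝓝 (⨅ u, φ u)) :=
            tendsto_atBot_ciInf hmono.monotone (by rw [hφ3]; exact ha)
          refine CN.no_limit hd ho hi hn.continuous (fun s => (hA s).1) hL hmax h1 hφJ ?_ q
          intro h
          rw [← hφ3] at h
          obtain ⟨u, hu⟩ := h
          have h2 : (⨅ u, φ u) ≤ φ (u - 1) := ciInf_le (f := φ) (by rw [hφ3]; exact ha) (u - 1)
          have h3 := hmono (sub_one_lt u)
          rw [hu] at h3
          exact absurd h2 (not_le.2 h3)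
        · intro hq
          have h1 : Tendsto (fun u => n (φ u)) atBot (𝓝 (dev q)) := by
            rw [← hdev]
            exact (hd.tendsto q).comp hq
          refine (hlim (dev q)).2 ?_
          rw [tendsto_def] at h1 ⊢
          intro W hW
          obtain ⟨M, hM⟩ := mem_atBot_sets.1 (h1 W hW)
          rw [mem_atBot_sets]
          refine ⟨φ M, fun s hs => ?_⟩
          obtain ⟨y, hy, hys⟩ := not_bddBelow_iff.1 ha s
          have hsJ : s ∈ J := hL.2.1.out hy (hφJ M) ⟨hys.le, hs⟩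
          rw [← hφ3] at hsJ
          obtain ⟨u, rfl⟩ := hsJ
          exact hM u (hmono.le_iff_le.1 hs)
  obtain ⟨u, hu, -⟩ := hS _ hIn
  have hsub : Set.uIcc 0 (φ u) ⊆ J := by
    intro τ hτ
    rcases Set.mem_uIcc.1 hτ with ⟨h1, h2⟩ | ⟨h1, h2⟩
    · exact hL.2.1.out hL.2.2.1 (hφJ u) ⟨h1, h2⟩
    · exact hL.2.1.out (hφJ u) hL.2.2.1 ⟨h1, h2⟩
  exact ⟨c, φ u, hL.2.2.2.1.mono hsub, fun τ hτ => hL.2.2.2.2.1 τ (hsub hτ), hL.2.2.2.2.2, hu⟩

end Pool.Agent.H93.KT
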