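import Mathlib

set_option autoImplicit false

/-! # GHMC anti-de Sitter manifolds of dimension 3+1, convex core, K-curvature: definitions

`AdS` is the quadric `B x x = -1` in `ℝ⁵` with a form `B` of signature `(3,2)`.  A GHMC AdS manifold is
presented as a quotient `M = Ω / Γ` with `Ω` an open subset of `AdS` and `Γ` a group of linear isometries. -/

namespace Pool.Agent.H93.KT

open Filter Topology

/-- The vector space `ℝ⁵`. -/
abbrev V : Type := Fin 5 → ℝ

/-- The bilinear form `x₁y₁+x₂y₂+x₃y₃-x₄y₄-x₅y₅` of signature `(3,2)`. -/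
def B (x y : V) : ℝ := x 0 * y 0 + x 1 * y 1 + x 2 * y 2 - x 3 * y 3 - x 4 * y 4

/-- Anti-de Sitter space of dimension `3+1`: the quadric `B x x = -1`; its tangent space at `x` is
`{X | B x X = 0}` and its Lorentzian metric is the restriction of `B`. -/
def AdS : Set V := {x | B x x = -1}

/-- The form giving the time orientation: a causal tangent vector `X` at `x` is future directed iff
`0 < om x X`, i.e. iff it points in the direction of increasing angle in the `(x₄,x₅)`-plane. -/
def om (x X : V) : ℝ := x 3 * X 4 - x 4 * X 3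

/-- `X` is a future directed causal tangent vector of `AdS` at `x`. -/
def FutureCausal (x X : V) : Prop := B x X = 0 ∧ B X X ≤ 0 ∧ 0 < om x X

/-- `c`, restricted to `[a,b]`, is a future directed causal `C¹` curve in `U`. -/
def CausalSeg (U : Set V) (c : ℝ → V) (a b : ℝ) : Prop :=
  ContDiff ℝ 1 c ∧ ∀ s ∈ Set.Icc a b, c s ∈ U ∧ FutureCausal (c s) (deriv c s)

/-- `c : ℝ → U` is a future directed causal `C¹` curve that is inextensible in `U`: it has no limit
in `U` in the future nor in the past. -/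
def InextCausal (U : Set V) (c : ℝ → V) : Prop :=
  ContDiff ℝ 1 c ∧ (∀ s, c s ∈ U ∧ FutureCausal (c s) (deriv c s)) ∧
    ∀ x ∈ U, ¬ Tendsto c atTop (𝓝 x) ∧ ¬ Tendsto c atBot (𝓝 x)

/-- `U` is a (relatively) open subset of `AdS`. -/
def OpenInAdS (U : Set V) : Prop := ∃ O : Set V, IsOpen O ∧ U = O ∩ AdS

/-- `S` is a Cauchy hypersurface of the open subset `U` of `AdS`: every inextensible causal curve
of `U` meets `S` exactly once. -/
def IsCauchy (U S : Set V) : Prop := S ⊆ U ∧ ∀ c, InextCausal U c → ∃! s, c s ∈ S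

/-- A spacetime `N` locally modelled on `AdS` (`N` is a topological space with a developing map
`dev : N → AdS`, a local homeomorphism through which metric and time orientation of `N` are pulled
back) that contains `Ω`: `j : Ω → N` is an isometric embedding compatible with the developing map. -/
structure IsExtension (Ω : Set V) {N : Type} [TopologicalSpace N] (dev : N → V) (j : V → N) :
    Prop where
  continuous_dev : Continuous dev
  open_dev : ∀ U : Set N, IsOpen U → OpenInAdS (dev '' U)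
  locInj : ∀ p, ∃ U : Set N, IsOpen U ∧ p ∈ U ∧ Set.InjOn dev U
  continuous_j : ContinuousOn j Ω
  dev_j : ∀ x ∈ Ω, dev (j x) = x

/-- Inextensible future directed causal `C¹` curves of a spacetime `N` with developing map `dev`. -/
def InextCausalIn {N : Type} [TopologicalSpace N] (dev : N → V) (c : ℝ → N) : Prop :=
  Continuous c ∧ ContDiff ℝ 1 (fun s => dev (c s)) ∧
    (∀ s, FutureCausal (dev (c s)) (deriv (fun s => dev (c s)) s)) ∧
    ∀ p, ¬ Tendsto c atTop (𝓝 p) ∧ ¬ Tendsto c atBot (𝓝 p)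

/-- The group `GL(5, ℝ)`. -/
abbrev G5 : Type := V ≃ₗ[ℝ] V

/-- `Γ` is a group of isometries of `AdS` preserving the time orientation. -/
def IsIsomGroup (Γ : Subgroup G5) : Prop :=
  ∀ γ ∈ Γ, (∀ x y, B (γ x) (γ y) = B x y) ∧
    ∀ x ∈ AdS, ∀ X, FutureCausal x X → FutureCausal (γ x) (γ X)

/-- The set `A` is `Γ`-invariant. -/
def Inva (Γ : Subgroup G5) (A : Set V) : Prop := ∀ γ ∈ Γ, ∀ x ∈ A, γ x ∈ A

/-- `Γ` acts freely and properly discontinuously on `Ω`. -/
def FreeProper (Γ : Subgroup G5) (Ω : Set V) : Prop :=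
  (∀ γ ∈ Γ, ∀ x ∈ Ω, γ x = x → γ = 1) ∧
    ∀ K ⊆ Ω, IsCompact K → {γ : G5 | γ ∈ Γ ∧ ∃ x ∈ K, γ x ∈ K}.Finite

/-- The quotient `S / Γ` is compact. -/
def CompactQuot (Γ : Subgroup G5) (S : Set V) : Prop :=
  ∃ K ⊆ S, IsCompact K ∧ ∀ x ∈ S, ∃ γ ∈ Γ, γ x ∈ K

/-- The spacetime `Ω` with Cauchy hypersurface `S` is maximal: `Ω` is equal to every Hausdorff
spacetime `N` locally modelled on `AdS` that contains `Ω` and in which `S` is still a Cauchy
hypersurface, i.e. is met exactly once by every inextensible causal curve of `N`. -/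
def IsMaximal (Ω S : Set V) : Prop :=
  ∀ (N : Type) [TopologicalSpace N] [T2Space N] (dev : N → V) (j : V → N),
    IsExtension Ω dev j → (∀ c : ℝ → N, InextCausalIn dev c → ∃! s, c s ∈ j '' S) →
      j '' Ω = Set.univ

/-- `M = Ω / Γ` is a globally hyperbolic maximal compact (GHMC) anti-de Sitter manifold of dimension
`3+1`, with compact Cauchy hypersurface `S / Γ`: `Γ` is a group of isometries of `AdS` preserving the
time orientation, it preserves the connected open subset `Ω` of `AdS` and acts on it freely and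
properly discontinuously; the `Γ`-invariant set `S` is a Cauchy hypersurface of `Ω` with compact
quotient; and `Ω` is maximal (universal coverings of globally hyperbolic extensions of `M` are
spacetimes `N` as in `IsMaximal`, by the developing map). -/
structure IsGHMC (Γ : Subgroup G5) (Ω S : Set V) : Prop where
  isometry : IsIsomGroup Γ
  openInAdS : OpenInAdS Ω
  connected : IsConnected Ω
  invΩ : Inva Γ Ω
  invS : Inva Γ S
  freeProper : FreeProper Γ Ω
  cauchy : IsCauchy Ω S
  compact : CompactQuot Γ S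
  maximal : IsMaximal Ω S

/-- Geodesic convexity: the geodesic segment joining two points `x, y` of `A` consists of the
points `s x + t y` (`s, t ≥ 0`) of `AdS`. -/
def GeodConvex (A : Set V) : Prop :=
  ∀ x ∈ A, ∀ y ∈ A, ∀ s t : ℝ, 0 ≤ s → 0 ≤ t → s • x + t • y ∈ AdS → s • x + t • y ∈ A

/-- `A / Γ` is a nonempty closed convex subset of `M = Ω / Γ` (`A` is its preimage in `Ω`). -/
def IsClosedConvex (Γ : Subgroup G5) (Ω A : Set V) : Prop :=
  A ⊆ Ω ∧ A.Nonempty ∧ (∃ F, IsClosed F ∧ A = F ∩ Ω) ∧ Inva Γ A ∧ GeodConvex A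

/-- `C / Γ` is the convex core of `M = Ω / Γ`: the smallest nonempty closed convex subset. -/
def IsConvexCore (Γ : Subgroup G5) (Ω C : Set V) : Prop :=
  IsClosedConvex Γ Ω C ∧ ∀ A, IsClosedConvex Γ Ω A → C ⊆ A

/-- The past of the convex core: the points of `Ω \ C` in the causal past of a point of `C`. -/
def Past (Ω C : Set V) : Set V :=
  {x | x ∈ Ω ∧ x ∉ C ∧ ∃ (c : ℝ → V) (a b : ℝ), a < b ∧ CausalSeg Ω c a b ∧ c a = x ∧ c b ∈ C}

/-! ### Spacelike hypersurfaces and their K-curvature -/

/-- The parameter space of hypersurfaces. -/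
abbrev R3 : Type := Fin 3 → ℝ

/-- Projection of `AdS` to the first three coordinates. -/
def pr (x : V) : R3 := ![x 0, x 1, x 2]

/-- The graph `x ↦ (x, r cos θ, r sin θ)`, `r = √(1+|x|²)`, of a function `θ` in the cylindrical
coordinates `(x₁,x₂,x₃,θ)` of `AdS`; `∂_θ` is timelike, so that every spacelike hypersurface of
`AdS` is locally such a graph. -/
noncomputable def graphMap (θ : R3 → ℝ) (u : R3) : V :=
  ![u 0, u 1, u 2, √(1 + u 0 ^ 2 + u 1 ^ 2 + u 2 ^ 2) * Real.cos (θ u),
    √(1 + u 0 ^ 2 + u 1 ^ 2 + u 2 ^ 2) * Real.sin (θ u)]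

/-- First partial derivatives. -/
noncomputable def d1 (φ : R3 → V) (i : Fin 3) (u : R3) : V := fderiv ℝ φ u (Pi.single i 1)

/-- Second partial derivatives. -/
noncomputable def d2 (φ : R3 → V) (i j : Fin 3) (u : R3) : V :=
  fderiv ℝ (d1 φ i) u (Pi.single j 1)

/-- First fundamental form. -/
noncomputable def gMat (φ : R3 → V) (u : R3) : Matrix (Fin 3) (Fin 3) ℝ :=
  Matrix.of fun i j => B (d1 φ i u) (d1 φ j u)

/-- Second fundamental form with respect to the normal vector `ν`. -/
noncomputable def hMat (φ : R3 → V) (u : R3) (ν : V) : Matrix (Fin 3) (Fin 3) ℝ :=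
  Matrix.of fun i j => - B (d2 φ i j u) ν

/-- `ν` is the future directed unit normal vector at `φ u` of the hypersurface parametrised by `φ`. -/
def IsNormal (φ : R3 → V) (u : R3) (ν : V) : Prop :=
  B ν ν = -1 ∧ B (φ u) ν = 0 ∧ (∀ i, B (d1 φ i u) ν = 0) ∧ 0 < om (φ u) ν

/-- `L` is, near its point `x`, a spacelike hypersurface of class `C²` of `AdS`, and its K-curvature
at `x`, i.e. `-λ₁λ₂λ₃` with `λᵢ` the eigenvalues of the second fundamental form (so
`λ₁λ₂λ₃ = det h / det g`), is equal to `κ`. -/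
def HasKCurv (L : Set V) (x : V) (κ : ℝ) : Prop :=
  ∃ θ : R3 → ℝ, ContDiffAt ℝ 2 θ (pr x) ∧ x = graphMap θ (pr x) ∧
    (∀ᶠ z in 𝓝 x, z ∈ L ↔ z = graphMap θ (pr z)) ∧
    (gMat (graphMap θ) (pr x)).PosDef ∧
    ∃ ν, IsNormal (graphMap θ) (pr x) ν ∧
      κ = - ((hMat (graphMap θ) (pr x) ν).det / (gMat (graphMap θ) (pr x)).det)

/-- `t` is a time function on the `Γ`-invariant set `P` (that is, on `P / Γ`) all of whose level sets
are spacelike Cauchy hypersurfaces of `M = Ω / Γ`, of class `C²` and of constant K-curvature.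
(A K-time is such a `t` for which, moreover, the constant increases with the value of `t`.) -/
def IsKTimeLike (Γ : Subgroup G5) (Ω P : Set V) (t : V → ℝ) : Prop :=
  ContinuousOn t P ∧ (∀ γ ∈ Γ, ∀ x ∈ P, t (γ x) = t x) ∧
  (∀ (c : ℝ → V) (a b : ℝ), a < b → CausalSeg P c a b → t (c a) < t (c b)) ∧
  ∃ k : ℝ → ℝ, ∀ x ∈ P, IsCauchy Ω {z | z ∈ P ∧ t z = t x} ∧
    HasKCurv {z | z ∈ P ∧ t z = t x} x (k (t x))

end Pool.Agent.H93.KT
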