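import Pool.Agent.H93.KT.Ob

set_option autoImplicit false

/-! MODULE Fin.  Sizes of the operators `act w` and the finiteness coming from integrality.
`act w x = ∑ i, rt x i • act w (al i)`; `act w (al j) = ∑ i, (rhoZ w i j : ℝ) • al i` (`act_al`), so a bound
on `nrm w` bounds the integers `rhoZ w i j = rt (act w (al j)) i` and leaves finitely many matrices;
`act w` is determined by `rhoZ w` (`act_apply`).  `nrm_inv_le`: `B (act w⁻¹ x) y = B x (act w y)` and
`‖z‖² ≤ B z (flipB z)`. -/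

namespace Pool.Agent.H93.KT

private lemma Fin_al_ne (i : Fin 5) : al i ≠ 0 := by
  intro h
  have h1 := B_al i i
  rw [h] at h1
  simp only [B_zero_left] at h1
  have e : ∀ i : Fin 5, Gr i i ≠ 0 := by decide +kernel
  exact e i (by exact_mod_cast h1.symm)

theorem nrm_pos (w : W) : 0 < nrm w := by
  unfold nrm
  apply Finset.sum_pos
  · intro i _
    rw [norm_pos_iff]
    intro h
    exact Fin_al_ne i ((act w).map_eq_zero_iff.1 h)
  · exact Finset.univ_nonempty

theorem nrm_congr {w w' : W} (h : act w = act w') : nrm w = nrm w' := by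
  unfold nrm; rw [h]

private lemma Fin_rt_le : ∃ D : ℝ, 0 < D ∧ ∀ (x : V) (i : Fin 5), |rt x i| ≤ D * ‖x‖ := by
  obtain ⟨D, hD, h⟩ := (LinearMap.toContinuousLinearMap psi.symm.toLinearMap).bound
  refine ⟨D, hD, fun x i => ?_⟩
  have h1 := norm_le_pi_norm (rt x) i
  have h2 := h x
  have h3 : (LinearMap.toContinuousLinearMap psi.symm.toLinearMap) x = rt x := rfl
  rw [h3] at h2
  rw [Real.norm_eq_abs] at h1
  exact h1.trans h2

theorem norm_act_le : ∃ C : ℝ, 0 < C ∧ ∀ (w : W) (x : V), ‖act w x‖ ≤ C * nrm w * ‖x‖ := by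
  obtain ⟨D, hD, h⟩ := Fin_rt_le
  refine ⟨D, hD, fun w x => ?_⟩
  have h1 : act w x = ∑ i, rt x i • act w (al i) := by
    conv_lhs => rw [← cmb_rt x]
    unfold cmb
    rw [map_sum]
    exact Finset.sum_congr rfl fun i _ => by rw [map_smul]
  rw [h1]
  calc ‖∑ i, rt x i • act w (al i)‖ ≤ ∑ i, ‖rt x i • act w (al i)‖ := norm_sum_le _ _
    _ ≤ ∑ i, (D * ‖x‖) * ‖act w (al i)‖ := by
        refine Finset.sum_le_sum fun i _ => ?_
        rw [norm_smul, Real.norm_eq_abs]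
        exact mul_le_mul_of_nonneg_right (h x i) (norm_nonneg _)
    _ = D * nrm w * ‖x‖ := by
        rw [← Finset.mul_sum]; unfold nrm; ring

private lemma Fin_norm_inv_le : ∃ C : ℝ, 0 < C ∧ ∀ (w : W) (x : V), ‖act w⁻¹ x‖ ≤ C * nrm w * ‖x‖ := by
  obtain ⟨C, hC, h⟩ := norm_act_le
  refine ⟨5 * C, by positivity, fun w x => ?_⟩
  have h1 := B_flipB_ge (act w⁻¹ x)
  have h2 : B (act w⁻¹ x) (flipB (act w⁻¹ x)) = B x (act w (flipB (act w⁻¹ x))) := by
    rw [B_act_right]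
  rw [h2] at h1
  have h3 := (le_abs_self _).trans (abs_B_le x (act w (flipB (act w⁻¹ x))))
  have h4 := h w (flipB (act w⁻¹ x))
  rw [norm_flipB] at h4
  have h5 : ‖act w⁻¹ x‖ ^ 2 ≤ 5 * ‖x‖ * (C * nrm w * ‖act w⁻¹ x‖) := by
    refine (h1.trans h3).trans ?_
    exact mul_le_mul_of_nonneg_left h4 (by positivity)
  by_cases h0 : ‖act w⁻¹ x‖ = 0
  · rw [h0]
    have := (nrm_pos w).le
    positivity
  · have hp : 0 < ‖act w⁻¹ x‖ := lt_of_le_of_ne (norm_nonneg _) (Ne.symm h0)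
    nlinarith

theorem nrm_inv_le : ∃ C : ℝ, 0 < C ∧ ∀ w : W, nrm w⁻¹ ≤ C * nrm w := by
  obtain ⟨C, hC, h⟩ := Fin_norm_inv_le
  refine ⟨∑ i, C * ‖al i‖, ?_, fun w => ?_⟩
  · apply Finset.sum_pos
    · intro i _
      have := norm_pos_iff.2 (Fin_al_ne i)
      positivity
    · exact Finset.univ_nonempty
  · rw [Finset.sum_mul]
    unfold nrm
    refine Finset.sum_le_sum fun i _ => ?_
    have h1 := h w (al i)
    unfold nrm at h1
    linarith

theorem nrm_mul_le : ∃ C : ℝ, 0 < C ∧ ∀ w w' : W, nrm (w * w') ≤ C * nrm w * nrm w' := by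
  obtain ⟨C, hC, h⟩ := norm_act_le
  refine ⟨C, hC, fun w w' => ?_⟩
  have h1 : nrm (w * w') = ∑ i, ‖act w (act w' (al i))‖ := by
    unfold nrm
    exact Finset.sum_congr rfl fun i _ => by rw [act_mul]
  have h2 : C * nrm w * nrm w' = ∑ i, C * nrm w * ‖act w' (al i)‖ := by
    rw [← Finset.mul_sum]; rfl
  rw [h1, h2]
  exact Finset.sum_le_sum fun i _ => h w _

theorem finite_act (C : ℝ) : {γ : V ≃ₗ[ℝ] V | ∃ w : W, γ = act w ∧ nrm w ≤ C}.Finite := by
  obtain ⟨D, hD, h⟩ := Fin_rt_le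
  let F : (V ≃ₗ[ℝ] V) → (Fin 5 → Fin 5 → ℝ) := fun γ i j => rt (γ (al j)) i
  have hinj : Set.InjOn F {γ : V ≃ₗ[ℝ] V | ∃ w : W, γ = act w ∧ nrm w ≤ C} := by
    intro γ _ γ' _ hγ
    have h1 : ∀ j, γ (al j) = γ' (al j) := by
      intro j
      have : rt (γ (al j)) = rt (γ' (al j)) := by
        ext i
        exact congrFun (congrFun hγ i) j
      rw [← cmb_rt (γ (al j)), this, cmb_rt]
    ext1 x
    rw [← cmb_rt x]
    unfold cmb
    rw [map_sum, map_sum]
    exact Finset.sum_congr rfl fun i _ => by rw [map_smul, map_smul, h1]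
  refine Set.Finite.of_finite_image ?_ hinj
  have hfin : (Set.univ.pi fun _ : Fin 5 => Set.univ.pi fun _ : Fin 5 =>
      ((fun z : ℤ => (z : ℝ)) '' Set.Icc (-⌈D * C⌉) ⌈D * C⌉) : Set (Fin 5 → Fin 5 → ℝ)).Finite := by
    apply Set.Finite.pi
    intro i
    apply Set.Finite.pi
    intro j
    exact (Set.finite_Icc _ _).image _
  refine hfin.subset ?_
  rintro _ ⟨γ, ⟨w, rfl, hw⟩, rfl⟩
  intro i _ j _
  refine ⟨rhoZ w i j, ?_, ?_⟩
  · have h1 : rt (act w (al j)) i = (rhoZ w i j : ℝ) := by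
      rw [rt_act, rt_al]
      rw [Finset.sum_eq_single j]
      · simp
      · intro k _ hk; simp [hk]
      · simp
    have h2 := h (act w (al j)) i
    rw [h1] at h2
    have h3 : ‖act w (al j)‖ ≤ C := by
      refine le_trans ?_ hw
      unfold nrm
      exact Finset.single_le_sum (f := fun i => ‖act w (al i)‖) (fun k _ => norm_nonneg _) (Finset.mem_univ j)
    have h4 : |(rhoZ w i j : ℝ)| ≤ D * C := h2.trans (mul_le_mul_of_nonneg_left h3 hD.le)
    have h5 : D * C ≤ (⌈D * C⌉ : ℝ) := Int.le_ceil _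
    have h6 := abs_le.1 (h4.trans h5)
    constructor
    · exact_mod_cast h6.1
    · exact_mod_cast h6.2
  · show (rhoZ w i j : ℝ) = rt (act w (al j)) i
    rw [rt_act, rt_al]
    rw [Finset.sum_eq_single j]
    · simp
    · intro k _ hk; simp [hk]
    · simp

theorem continuous_act (w : W) : Continuous (act w) :=
  (act w).toLinearMap.continuous_of_finiteDimensional

end Pool.Agent.H93.KT
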