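import Pool.Agent.H93.KT.Dominance
import Pool.Agent.H93.KT.Fin

set_option autoImplicit false

/-! MODULE Dom1.  The cones `Cbar`, `Cop`.
(O1) for `z ∈ W Ch` and `y = yl 0 = ![0,0,0,0,1] = (√2) • al 0 + (√2/2) • al 1 ∈ Ch ∩ PosCone`:
`B z (act (gg ^ n) y) ≤ 0` for all `n : ℕ`, and for `gg⁻¹`; with `yl 0 = (1/2)(lamp + lamm)`,
`gg lamp = k⁻¹ lamp`, `gg lamm = k lamm` (`k = 3+2√2`, `k⁻¹ = 3-2√2`) divide by `k ^ n` and let `n → ∞`.
(`Cbar` asks `B z (act w lamp) ≤ 0` for all `w`; use `B_act_right` to move `w`.)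
`interior_Cbar`: if the ball of radius `2δ` around `x` is in `Cbar`, test `x + (δ/‖u‖) • flipB u` for
`u = act w lamp` (`B_flipB_ge`, `norm_flipB`).  `isOpen_Cop`: `abs_B_le`.  `lamp_mem_Cbar`: `lamp` is the
limit of `(2 / k ^ n) • act (gg⁻¹ ^ n) (yl 0)`, and `Cbar` is closed and invariant, contains `yl 0`. -/

namespace Pool.Agent.H93.KT

open Filter Topology

/-! auxiliary facts -/

lemma Dom1.lamp_ne : lamp ≠ 0 := by
  intro h
  have := congrFun h 4
  simp [lamp] at this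

lemma Dom1.act_lamp_ne (w : W) : act w lamp ≠ 0 := by
  intro h
  exact Dom1.lamp_ne ((act w).map_eq_zero_iff.1 h)

lemma Dom1.norm_act_lamp_pos (w : W) : 0 < ‖act w lamp‖ := norm_pos_iff.2 (Dom1.act_lamp_ne w)

lemma Dom1.B_lamp_lamp : B lamp lamp = 0 := by simp [B, lamp]

lemma Dom1.kk : (3 + 2 * √2) * (3 - 2 * √2) = (1 : ℝ) := by
  have h2 := sq2
  nlinarith [h2]

lemma Dom1.kpos : (0 : ℝ) < 3 - 2 * √2 := by
  have h2 := sq2
  have h0 : (0 : ℝ) ≤ √2 := Real.sqrt_nonneg 2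
  nlinarith [h2]

lemma Dom1.klt : (3 - 2 * √2 : ℝ) < 1 := by
  have h2 := sq2
  have h0 : (0 : ℝ) ≤ √2 := Real.sqrt_nonneg 2
  nlinarith [h2]

lemma Dom1.gi_lamp : act gg⁻¹ lamp = (3 + 2 * √2) • lamp := by
  have h := congrArg (act gg⁻¹) gg_lamp
  rw [act_inv_act, map_smul] at h
  have h2 := congrArg (fun x : V => (3 + 2 * √2) • x) h
  simp only [smul_smul] at h2
  rw [Dom1.kk, one_smul] at h2
  exact h2.symm

lemma Dom1.gi_lamm : act gg⁻¹ lamm = (3 - 2 * √2) • lamm := by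
  have h := congrArg (act gg⁻¹) gg_lamm
  rw [act_inv_act, map_smul] at h
  have h2 := congrArg (fun x : V => (3 - 2 * √2) • x) h
  simp only [smul_smul] at h2
  rw [mul_comm (3 - 2 * √2) (3 + 2 * √2), Dom1.kk, one_smul] at h2
  exact h2.symm

lemma Dom1.gin (n : ℕ) : act (gg⁻¹ ^ n) (lamp + lamm) =
    (3 + 2 * √2) ^ n • lamp + (3 - 2 * √2) ^ n • lamm := by
  induction n with
  | zero => simp
  | succ n ih =>
    rw [pow_succ', act_mul, ih, map_add, map_smul, map_smul, Dom1.gi_lamp, Dom1.gi_lamm, smul_smul,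
      smul_smul, ← pow_succ, ← pow_succ]

lemma Dom1.yl_zero : yl 0 = (1 / 2 : ℝ) • (lamp + lamm) := by
  rw [yl_eq]; simp

lemma Dom1.yl_zero_Ch : yl 0 ∈ Ch := by
  intro i
  have h0 : (0 : ℝ) ≤ √2 := Real.sqrt_nonneg 2
  fin_cases i <;> simp [X, B, al, yl] <;> linarith

lemma Dom1.yl_zero_Pos : yl 0 ∈ PosCone := by
  have h0 : (0 : ℝ) ≤ √2 := Real.sqrt_nonneg 2
  have h2 := sq2
  have h : yl 0 = cmb ![√2, √2 / 2, 0, 0, 0] := by
    unfold cmb
    ext i
    fin_cases i <;> simp [Fin.sum_univ_five, al, yl] <;> nlinarith [h2]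
  intro i
  rw [h, rt_cmb]
  fin_cases i <;> simp <;> positivity

lemma Dom1.lim {a b : ℝ} (h : ∀ n : ℕ, (3 + 2 * √2) ^ n * a + (3 - 2 * √2) ^ n * b ≤ 0) : a ≤ 0 := by
  have hk := Dom1.kk
  have h0 : (0 : ℝ) ≤ √2 := Real.sqrt_nonneg 2
  have h1 : ∀ n : ℕ, a + ((3 - 2 * √2) ^ 2) ^ n * b ≤ 0 := by
    intro n
    have hp : (0 : ℝ) < (3 - 2 * √2) ^ n := pow_pos Dom1.kpos n
    have h2 := mul_le_mul_of_nonneg_left (h n) hp.le
    have e1 : (3 - 2 * √2) ^ n * ((3 + 2 * √2) ^ n * a + (3 - 2 * √2) ^ n * b)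
        = ((3 + 2 * √2) * (3 - 2 * √2)) ^ n * a + ((3 - 2 * √2) ^ 2) ^ n * b := by
      rw [mul_pow, ← pow_mul, mul_comm 2 n, pow_mul]; ring
    rw [e1, hk, one_pow, one_mul, mul_zero] at h2
    exact h2
  have h3 : Tendsto (fun n : ℕ => a + ((3 - 2 * √2) ^ 2) ^ n * b) atTop (𝓝 (a + 0 * b)) := by
    refine Tendsto.add tendsto_const_nhds (Tendsto.mul ?_ tendsto_const_nhds)
    refine tendsto_pow_atTop_nhds_zero_of_lt_one (by positivity) ?_
    have := Dom1.kpos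
    have := Dom1.klt
    nlinarith
  rw [zero_mul, add_zero] at h3
  exact le_of_tendsto' h3 h1

theorem act_mem_Cbar {z : V} (w : W) : act w z ∈ Cbar ↔ z ∈ Cbar := by
  constructor
  · intro h w'
    have h1 := h (w * w')
    rwa [act_mul, B_act] at h1
  · intro h w'
    rw [B_act_left, ← act_mul]
    exact h _

lemma Dom1.act_mem_Cop_aux {x : V} (w : W) (h : x ∈ Cop) : act w x ∈ Cop := by
  obtain ⟨C, hC, hle⟩ := norm_act_le
  obtain ⟨ε, hε, hx⟩ := h
  have hn := nrm_pos w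
  refine ⟨ε / (C * nrm w), by positivity, fun w' => ?_⟩
  rw [B_act_left, ← act_mul]
  refine (hx _).trans ?_
  have h1 := hle w (act (w⁻¹ * w') lamp)
  rw [← act_mul, mul_inv_cancel_left] at h1
  have h2 : ε / (C * nrm w) * ‖act w' lamp‖ ≤ ε * ‖act (w⁻¹ * w') lamp‖ := by
    rw [div_mul_eq_mul_div, div_le_iff₀ (by positivity)]
    nlinarith
  linarith

theorem act_mem_Cop {x : V} (w : W) : act w x ∈ Cop ↔ x ∈ Cop := by
  refine ⟨fun h => ?_, Dom1.act_mem_Cop_aux w⟩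
  have := Dom1.act_mem_Cop_aux w⁻¹ h
  rwa [act_inv_act] at this

theorem isClosed_Cbar : IsClosed Cbar := by
  have : Cbar = ⋂ w : W, {z | B z (act w lamp) ≤ 0} := by ext z; simp [Cbar]
  rw [this]
  exact isClosed_iInter fun w => isClosed_le (by fun_prop) continuous_const

theorem isOpen_Cop : IsOpen Cop := by
  rw [Metric.isOpen_iff]
  rintro x ⟨ε, hε, hx⟩
  refine ⟨ε / 10, by positivity, fun y hy => ⟨ε / 2, by positivity, fun w => ?_⟩⟩
  rw [Metric.mem_ball, dist_eq_norm] at hy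
  have h1 : B y (act w lamp) = B x (act w lamp) + B (y - x) (act w lamp) := by simp
  have h2 := (abs_le.1 (abs_B_le (y - x) (act w lamp))).2
  have h3 := hx w
  have h4 := norm_nonneg (act w lamp)
  rw [h1]
  nlinarith

theorem Cop_subset_Cbar : Cop ⊆ Cbar := by
  rintro x ⟨ε, hε, hx⟩ w
  refine (hx w).trans ?_
  have h4 := norm_nonneg (act w lamp)
  nlinarith

lemma Dom1.B_act_lamp_nonpos {x : V} (hx : x ∈ Ch) (w : W) : B (act w x) lamp ≤ 0 := by
  apply Dom1.lim (b := B (act w x) lamm)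
  intro n
  have h := dom_nonpos hx Dom1.yl_zero_Ch Dom1.yl_zero_Pos w (gg⁻¹ ^ n)
  rw [Dom1.yl_zero, map_smul, Dom1.gin] at h
  simp only [B_smul_right, B_add_right] at h
  linarith

theorem act_Ch_mem_Cbar {x : V} (hx : x ∈ Ch) (w : W) : act w x ∈ Cbar := by
  rw [act_mem_Cbar]
  intro w'
  rw [B_act_right]
  exact Dom1.B_act_lamp_nonpos hx _

theorem Ch_subset_Cbar : Ch ⊆ Cbar := by
  intro x hx
  simpa using act_Ch_mem_Cbar hx 1

theorem lamp_mem_Cbar : lamp ∈ Cbar := by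
  intro w
  apply Dom1.lim (b := B lamm (act w lamp))
  intro n
  have h : act (gg⁻¹ ^ n) (yl 0) ∈ Cbar := act_Ch_mem_Cbar Dom1.yl_zero_Ch _
  have h1 := h w
  rw [Dom1.yl_zero, map_smul, Dom1.gin] at h1
  simp only [B_smul_left, B_add_left] at h1
  linarith

theorem lamm_mem_Cbar : lamm ∈ Cbar := by
  rw [← act_simple0_lamp, act_mem_Cbar]
  exact lamp_mem_Cbar

theorem Cbar_add {z z' : V} (hz : z ∈ Cbar) (hz' : z' ∈ Cbar) {s t : ℝ} (hs : 0 ≤ s) (ht : 0 ≤ t) :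
    s • z + t • z' ∈ Cbar := by
  intro w
  simp only [B_add_left, B_smul_left]
  have h1 := mul_nonneg hs (neg_nonneg.2 (hz w))
  have h2 := mul_nonneg ht (neg_nonneg.2 (hz' w))
  linarith

theorem Cop_smul_add {x z : V} (hx : x ∈ Cop) (hz : z ∈ Cbar) {s t : ℝ} (hs : 0 < s) (ht : 0 ≤ t) :
    s • x + t • z ∈ Cop := by
  obtain ⟨ε, hε, hx⟩ := hx
  refine ⟨s * ε, by positivity, fun w => ?_⟩
  simp only [B_add_left, B_smul_left]
  have h1 := mul_le_mul_of_nonneg_left (hx w) hs.le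
  have h2 := mul_nonneg ht (neg_nonneg.2 (hz w))
  linarith

theorem interior_Cbar : interior Cbar ⊆ Cop := by
  intro x hx
  rw [mem_interior_iff_mem_nhds, Metric.mem_nhds_iff] at hx
  obtain ⟨δ, hδ, hb⟩ := hx
  refine ⟨δ / 2, by positivity, fun w => ?_⟩
  set u := act w lamp with hu
  have hu0 : 0 < ‖u‖ := Dom1.norm_act_lamp_pos w
  have h1 : x + (δ / 2 / ‖u‖) • flipB u ∈ Cbar := by
    apply hb
    rw [Metric.mem_ball, dist_eq_norm, add_sub_cancel_left, norm_smul, norm_flipB, Real.norm_eq_abs,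
      abs_of_pos (by positivity), div_mul_cancel₀ _ hu0.ne']
    linarith
  have h2 := h1 w
  rw [← hu] at h2
  simp only [B_add_left, B_smul_left] at h2
  have h3 := B_flipB_ge u
  rw [B_comm] at h3
  have h4 : δ / 2 / ‖u‖ * ‖u‖ ^ 2 ≤ δ / 2 / ‖u‖ * B (flipB u) u :=
    mul_le_mul_of_nonneg_left h3 (by positivity)
  have h5 : δ / 2 / ‖u‖ * ‖u‖ ^ 2 = δ / 2 * ‖u‖ := by field_simp
  linarith

theorem neg_notMem_Cbar {x : V} (hx : x ∈ Cop) : -x ∉ Cbar := by
  obtain ⟨ε, hε, hx⟩ := hx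
  intro h
  have h1 := h 1
  have h2 := hx 1
  have h3 := Dom1.norm_act_lamp_pos 1
  rw [B_neg_left] at h1
  nlinarith

theorem B_lamp_neg {x : V} (hx : x ∈ Cop) : B x lamp < 0 := by
  obtain ⟨ε, hε, hx⟩ := hx
  have h2 := hx 1
  have h3 := Dom1.norm_act_lamp_pos 1
  rw [act_one] at h2 h3
  nlinarith

theorem B_lamm_neg {x : V} (hx : x ∈ Cop) : B x lamm < 0 := by
  obtain ⟨ε, hε, hx⟩ := hx
  have h2 := hx (cs.simple 0)
  have h3 := Dom1.norm_act_lamp_pos (cs.simple 0)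
  rw [act_simple0_lamp] at h2 h3
  nlinarith

/-- a point of `Cbar` outside `Cop` is orthogonal to a nonzero null vector `k` which is negative on `Cop`
(`k` is a limit of `act w lamp / ‖act w lamp‖`). -/
theorem exists_null {z : V} (hz : z ∈ Cbar) (hz' : z ∉ Cop) :
    ∃ k : V, k ≠ 0 ∧ B k k = 0 ∧ B z k = 0 ∧ ∀ u ∈ Cop, B u k < 0 := by
  have h1 : ∀ n : ℕ, ∃ w : W, - (1 / ((n : ℝ) + 1)) * ‖act w lamp‖ < B z (act w lamp) := by
    intro n
    by_contra hcon
    push Not at hcon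
    exact hz' ⟨1 / ((n : ℝ) + 1), by positivity, hcon⟩
  choose w hw using h1
  set v : ℕ → V := fun n => ‖act (w n) lamp‖⁻¹ • act (w n) lamp with hv
  have hvs : ∀ n, v n ∈ Metric.sphere (0 : V) 1 := by
    intro n
    have := Dom1.norm_act_lamp_pos (w n)
    rw [mem_sphere_zero_iff_norm, hv]
    simp only [norm_smul, norm_inv, norm_norm]
    exact inv_mul_cancel₀ this.ne'
  obtain ⟨k, hk, φ, hφ, hlim⟩ := (isCompact_sphere (0 : V) 1).tendsto_subseq hvs
  rw [mem_sphere_zero_iff_norm] at hk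
  refine ⟨k, ?_, ?_, ?_, ?_⟩
  · intro h
    rw [h, norm_zero] at hk
    exact zero_ne_one hk
  · have h2 : ∀ n, B ((v ∘ φ) n) ((v ∘ φ) n) = 0 := by
      intro n
      simp only [hv, Function.comp_apply, B_smul_left, B_smul_right, B_act, Dom1.B_lamp_lamp, mul_zero]
    have h3 := tendsto_B hlim hlim
    simp only [h2] at h3
    exact (tendsto_nhds_unique h3 tendsto_const_nhds)
  · have h3 := tendsto_B (tendsto_const_nhds (x := z)) hlim
    have hup : B z k ≤ 0 := by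
      refine le_of_tendsto' h3 fun n => ?_
      simp only [hv, Function.comp_apply, B_smul_right]
      have := Dom1.norm_act_lamp_pos (w (φ n))
      have h4 := hz (w (φ n))
      have h5 : 0 ≤ ‖act (w (φ n)) lamp‖⁻¹ := by positivity
      nlinarith
    have hlo : 0 ≤ B z k := by
      have h6 : Tendsto (fun n => - (1 / (((φ n : ℕ) : ℝ) + 1))) atTop (𝓝 (-0)) :=
        (tendsto_one_div_add_atTop_nhds_zero_nat.comp hφ.tendsto_atTop).neg
      rw [neg_zero] at h6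
      refine le_of_tendsto_of_tendsto' h6 h3 fun n => ?_
      simp only [hv, Function.comp_apply, B_smul_right]
      have h7 := Dom1.norm_act_lamp_pos (w (φ n))
      have h4 := hw (φ n)
      have h5 : 0 < ‖act (w (φ n)) lamp‖⁻¹ := by positivity
      have h8 := mul_lt_mul_of_pos_left h4 h5
      have h9 : ‖act (w (φ n)) lamp‖⁻¹ * (-(1 / (((φ n : ℕ) : ℝ) + 1)) * ‖act (w (φ n)) lamp‖)
          = -(1 / (((φ n : ℕ) : ℝ) + 1)) := by field_simp
      rw [h9] at h8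
      exact h8.le
    exact le_antisymm hup hlo
  · rintro u ⟨ε, hε, hu⟩
    have h3 := tendsto_B (tendsto_const_nhds (x := u)) hlim
    have : B u k ≤ -ε := by
      refine le_of_tendsto' h3 fun n => ?_
      simp only [hv, Function.comp_apply, B_smul_right]
      have h7 := Dom1.norm_act_lamp_pos (w (φ n))
      have h5 : 0 < ‖act (w (φ n)) lamp‖⁻¹ := by positivity
      have h8 := mul_le_mul_of_nonneg_left (hu (w (φ n))) h5.le
      have h9 : ‖act (w (φ n)) lamp‖⁻¹ * (-ε * ‖act (w (φ n)) lamp‖) = -ε := by field_simp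
      rw [h9] at h8
      exact h8
    linarith

end Pool.Agent.H93.KT
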