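import Pool.Agent.H93.KT.Dom1

set_option autoImplicit false

/-! MODULE Qout.  `Ch ∩ Cop` has nonzero past and future parts. -/

namespace Pool.Agent.H93.KT

open Filter Topology

lemma act_simple_al (i j : Fin 5) : act (cs.simple i) (al j) = al j - (Ca i j : ℝ) • al i := by
  have hG : (Gr i i : ℝ) * (Ca i j : ℝ) = 2 * (Gr j i : ℝ) := by
    have e : ∀ i j : Fin 5, Gr i i * Ca i j = 2 * Gr j i := by decide +kernel
    exact_mod_cast e i j
  have hii := (Gr_diag_pos i).ne'
  rw [act_simple]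
  have h1 : X i (al j) = - (Gr j i : ℝ) := by unfold X; rw [B_al]
  rw [h1]
  have h2 : 2 * -(Gr j i : ℝ) / (Gr i i : ℝ) = - (Ca i j : ℝ) := by
    field_simp
    linarith
  rw [h2]
  module

/-- a hyperbolic element of the future stabiliser -/
def hh : W := cs.simple 2 * (cs.simple 3 * (cs.simple 4 * cs.simple 3))

/-- its expanded eigenvector -/
noncomputable def kk : V := (3 + √3) • al 2 + (al 4 + (3 : ℝ) • al 3)

lemma hh_kk : act hh kk = (2 + √3) • kk := by
  have h3 := sq3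
  have c1 : (Ca 3 2 : ℝ) = -1 := by simp [Ca]
  have c2 : (Ca 3 4 : ℝ) = -3 := by simp [Ca]
  have c3 : (Ca 3 3 : ℝ) = 2 := by simp [Ca]
  have c4 : (Ca 4 2 : ℝ) = 0 := by simp [Ca]
  have c5 : (Ca 4 3 : ℝ) = -1 := by simp [Ca]
  have c6 : (Ca 4 4 : ℝ) = 2 := by simp [Ca]
  have c7 : (Ca 2 2 : ℝ) = 2 := by simp [Ca]
  have c8 : (Ca 2 3 : ℝ) = -2 := by simp [Ca]
  have c9 : (Ca 2 4 : ℝ) = 0 := by simp [Ca]
  have e : act hh kk = (9 + 5 * √3) • al 2 + (2 + √3) • (al 4 + (3 : ℝ) • al 3) := by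
    unfold hh kk
    simp only [act_mul, map_add, map_smul, map_sub, act_simple_al, c1, c2, c3, c4, c5, c6, c7, c8, c9]
    module
  rw [e]
  unfold kk
  have h5 : (2 + √3) * (3 + √3) = 9 + 5 * √3 := by nlinarith [h3]
  rw [← h5]
  module

lemma hh_pow_kk (n : ℕ) : act (hh ^ n) kk = (2 + √3) ^ n • kk := by
  induction n with
  | zero => simp
  | succ n ih => rw [pow_succ', act_mul, ih, map_smul, hh_kk, smul_smul]; ring_nf

lemma B_lamp_kk : B lamp kk = - (3 + √3) * (√2 / 2) := by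
  unfold kk
  simp [B, lamp, al]
  ring

theorem Ch_Cop {x : V} (hx : x ∈ Ch) (hc : x ∈ Cop) :
    0 < X 0 x + X 1 x ∧ 0 < X 2 x + X 3 x + X 4 x := by
  constructor
  · by_contra hcon
    push Not at hcon
    have h0 := hx 0
    have h1 := hx 1
    have e0 : X 0 x = 0 := by linarith
    have e1 : X 1 x = 0 := by linarith
    have h2 := B_lamp_neg hc
    have h3 : lamp = (√2 - 1) • al 0 + (√2 / 2) • al 1 := by
      have h2 := sq2
      ext i
      fin_cases i <;> simp [lamp, al] <;> nlinarith [h2]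
    have h4 : B x lamp = - ((√2 - 1) * X 0 x + (√2 / 2) * X 1 x) := by
      rw [h3, B_add_right, B_smul_right, B_smul_right]
      unfold X; ring
    rw [h4, e0, e1] at h2
    simp at h2
  · by_contra hcon
    push Not at hcon
    have h2 := hx 2
    have h3 := hx 3
    have h4 := hx 4
    have e2 : X 2 x = 0 := by linarith
    have e3 : X 3 x = 0 := by linarith
    have e4 : X 4 x = 0 := by linarith
    have fx : ∀ i : Fin 5, X i x = 0 → act (cs.simple i) x = x := by
      intro i hi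
      rw [act_simple, hi]; simp
    have hfix : act hh x = x := by
      unfold hh
      rw [act_mul, act_mul, act_mul, fx 3 e3, fx 4 e4, fx 3 e3, fx 2 e2]
    have hfixn : ∀ n : ℕ, act (hh ^ n) x = x := by
      intro n
      induction n with
      | zero => simp
      | succ n ih => rw [pow_succ', act_mul, ih, hfix]
    obtain ⟨ε, hε, H⟩ := hc
    have hb : ∀ n : ℕ, (2 + √3) ^ n * |B lamp kk| ≤ 5 * (- B x lamp / ε) * ‖kk‖ := by
      intro n
      have h5 := H ((hh ^ n)⁻¹)
      have h6 : B x (act (hh ^ n)⁻¹ lamp) = B x lamp := by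
        rw [B_act_right, inv_inv, hfixn]
      rw [h6] at h5
      have h7 : ‖act (hh ^ n)⁻¹ lamp‖ ≤ - B x lamp / ε := by
        rw [le_div_iff₀ hε]; linarith
      have h8 : B (act (hh ^ n)⁻¹ lamp) kk = (2 + √3) ^ n * B lamp kk := by
        rw [B_act_left, inv_inv, hh_pow_kk, B_smul_right]
      have h9 := abs_B_le (act (hh ^ n)⁻¹ lamp) kk
      rw [h8, abs_mul, abs_of_pos (by positivity : (0 : ℝ) < (2 + √3) ^ n)] at h9
      calc (2 + √3) ^ n * |B lamp kk| ≤ 5 * ‖act (hh ^ n)⁻¹ lamp‖ * ‖kk‖ := h9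
        _ ≤ 5 * (- B x lamp / ε) * ‖kk‖ := by gcongr
    have hpos : 0 < |B lamp kk| := by
      rw [B_lamp_kk]
      apply abs_pos.2
      have : (0 : ℝ) < (3 + √3) * (√2 / 2) := by positivity
      linarith
    have ht : Tendsto (fun n : ℕ => (2 + √3) ^ n * |B lamp kk|) atTop atTop := by
      apply Tendsto.atTop_mul_const hpos
      apply tendsto_pow_atTop_atTop_of_one_lt
      have : (0 : ℝ) ≤ √3 := by positivity
      linarith
    obtain ⟨n, hn⟩ := (ht.eventually (eventually_gt_atTop (5 * (- B x lamp / ε) * ‖kk‖))).exists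
    exact absurd (hb n) (not_le.2 hn)

theorem Qm_notMem_Cop {p : V} (hp : p ∈ Qm) : p ∉ Cop := by
  intro h
  have := (Ch_Cop hp.1 h).1
  rw [hp.2.2.1, hp.2.2.2] at this
  simp at this

theorem Qp_notMem_Cop {p : V} (hp : p ∈ Qp) : p ∉ Cop := by
  intro h
  have := (Ch_Cop hp.1 h).2
  rw [hp.2.2.1, hp.2.2.2.1, hp.2.2.2.2] at this
  simp at this

end Pool.Agent.H93.KT
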