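import Pool.Agent.H93.KT.Growth
import Pool.Agent.H93.KT.Cell

set_option autoImplicit false

/-! MODULE Sph.  Points of the chamber with nonzero past and future parts are in `Cop`. -/

namespace Pool.Agent.H93.KT

open Filter Topology

/-- positivity on the orthogonal complement of a negative definite plane -/
lemma pos_on_compl {p f z : V} (hp : B p p < 0) (hf : B f f < 0) (hm : B p f ^ 2 < B p p * B f f)
    (h1 : B z p = 0) (h2 : B z f = 0) (hz : B z z ≤ 0) : z = 0 := by
  -- a nonzero combination with vanishing last two coordinates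
  obtain ⟨a, b, c, hne, h3, h4⟩ : ∃ a b c : ℝ, (a ≠ 0 ∨ b ≠ 0 ∨ c ≠ 0) ∧
      a * p 3 + b * f 3 + c * z 3 = 0 ∧ a * p 4 + b * f 4 + c * z 4 = 0 := by
    by_cases hd : p 3 * f 4 - p 4 * f 3 = 0
    · by_cases hp3 : p 3 = 0 ∧ p 4 = 0
      · exact ⟨1, 0, 0, Or.inl one_ne_zero, by simp [hp3.1], by simp [hp3.2]⟩
      · by_cases h3 : p 3 = 0
        · have h4 : p 4 ≠ 0 := fun h => hp3 ⟨h3, h⟩
          refine ⟨- f 4, p 4, 0, Or.inr (Or.inl h4), ?_, by ring⟩
          rw [h3] at hd ⊢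
          linarith
        · refine ⟨- f 3, p 3, 0, Or.inr (Or.inl h3), by ring, ?_⟩
          linarith
    · refine ⟨f 3 * z 4 - f 4 * z 3, p 4 * z 3 - p 3 * z 4, p 3 * f 4 - p 4 * f 3,
        Or.inr (Or.inr hd), by ring, by ring⟩
  set v : V := a • p + b • f + c • z with hv
  have hv3 : v 3 = 0 := by simpa [hv] using h3
  have hv4 : v 4 = 0 := by simpa [hv] using h4
  have e1 : B v v = v 0 * v 0 + v 1 * v 1 + v 2 * v 2 := by
    unfold B; rw [hv3, hv4]; ring
  have e2 : B v v = (a ^ 2 * B p p + 2 * a * b * B p f + b ^ 2 * B f f) + c ^ 2 * B z z := by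
    rw [hv]
    simp only [B_add_left, B_add_right, B_smul_left, B_smul_right, h1, h2, B_comm p z, B_comm f z,
      B_comm f p]
    ring
  have e3 : 0 ≤ B v v := by
    rw [e1]; nlinarith [mul_self_nonneg (v 0), mul_self_nonneg (v 1), mul_self_nonneg (v 2)]
  have e4 : a ^ 2 * B p p + 2 * a * b * B p f + b ^ 2 * B f f ≤ 0 := by
    nlinarith [sq_nonneg (a * B p p + b * B p f), sq_nonneg b, mul_nonneg (sq_nonneg b)
      (sub_nonneg.2 hm.le)]
  have e5 : c ^ 2 * B z z ≤ 0 := mul_nonpos_of_nonneg_of_nonpos (sq_nonneg _) hz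
  have e6 : B v v = 0 := by linarith
  have e7 : a ^ 2 * B p p + 2 * a * b * B p f + b ^ 2 * B f f = 0 := by linarith
  have e8 : b = 0 := by
    by_contra hb
    have hb2 : 0 < b ^ 2 := by positivity
    have : 0 < b ^ 2 * (B p p * B f f - B p f ^ 2) := mul_pos hb2 (by linarith)
    nlinarith [sq_nonneg (a * B p p + b * B p f)]
  have e9 : a = 0 := by
    rw [e8] at e7
    have h5 : a ^ 2 * B p p = 0 := by linarith
    rcases mul_eq_zero.1 h5 with h6 | h6
    · exact pow_eq_zero_iff (two_ne_zero) |>.1 h6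
    · linarith
  have hc : c ≠ 0 := by
    rcases hne with h | h | h
    · exact absurd e9 h
    · exact absurd e8 h
    · exact h
  have hv0 : v = 0 := by
    have q0 : v 0 * v 0 = 0 := by nlinarith [mul_self_nonneg (v 0), mul_self_nonneg (v 1), mul_self_nonneg (v 2)]
    have q1 : v 1 * v 1 = 0 := by nlinarith [mul_self_nonneg (v 0), mul_self_nonneg (v 1), mul_self_nonneg (v 2)]
    have q2 : v 2 * v 2 = 0 := by nlinarith [mul_self_nonneg (v 0), mul_self_nonneg (v 1), mul_self_nonneg (v 2)]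
    ext i
    fin_cases i
    · simpa using q0
    · simpa using q1
    · simpa using q2
    · simpa using hv3
    · simpa using hv4
  rw [hv, e8, e9] at hv0
  simpa [hc] using hv0

/-- boundedness of the vectors with bounded invariants -/
lemma bounded_of_inv {p f : V} (hp : B p p < 0) (hf : B f f < 0)
    (hm : B p f ^ 2 < B p p * B f f) (M : ℝ) :
    ∃ R : ℝ, ∀ z : V, |B z z| ≤ M → |B z p| ≤ M → |B z f| ≤ M → ‖z‖ ≤ R := by
  by_contra hcon
  push Not at hcon
  choose z hz1 hz2 hz3 hz4 using hcon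
  have hpos : ∀ n : ℕ, 0 < ‖z ((n : ℝ) + 1)‖ := fun n => by
    have := hz4 ((n : ℝ) + 1)
    have : (0 : ℝ) ≤ n := Nat.cast_nonneg n
    linarith [hz4 ((n : ℝ) + 1)]
  set y : ℕ → V := fun n => (‖z ((n : ℝ) + 1)‖)⁻¹ • z ((n : ℝ) + 1) with hy
  have hyn : ∀ n, y n ∈ Metric.sphere (0 : V) 1 := by
    intro n
    rw [mem_sphere_zero_iff_norm, hy]
    simp only
    rw [norm_smul, norm_inv, norm_norm, inv_mul_cancel₀ (hpos n).ne']
  obtain ⟨t, ht, φ, hφ, hlim⟩ := (isCompact_sphere (0 : V) 1).tendsto_subseq hyn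
  have hr : Tendsto (fun n : ℕ => (‖z (((φ n : ℕ) : ℝ) + 1)‖)⁻¹) atTop (𝓝 0) := by
    apply tendsto_inv_atTop_zero.comp
    apply tendsto_atTop_mono (f := fun n : ℕ => ((φ n : ℕ) : ℝ))
    · intro n
      have := hz4 (((φ n : ℕ) : ℝ) + 1)
      linarith
    · exact tendsto_natCast_atTop_atTop.comp hφ.tendsto_atTop
  have hzero : ∀ (g : ℕ → ℝ), (∀ n, |g n| ≤ M) →
      Tendsto (fun n => (‖z (((φ n : ℕ) : ℝ) + 1)‖)⁻¹ * g n) atTop (𝓝 0) := by
    intro g hg
    have h1 : Tendsto (fun n => (‖z (((φ n : ℕ) : ℝ) + 1)‖)⁻¹ * M) atTop (𝓝 0) := by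
      simpa using hr.mul_const M
    apply squeeze_zero_norm _ h1
    intro n
    rw [norm_mul, norm_inv, norm_norm, Real.norm_eq_abs]
    gcongr
    exact hg n
  have l1 : B t p = 0 := by
    have h1 := tendsto_B hlim (tendsto_const_nhds (x := p))
    have h2 := hzero (fun n => B (z (((φ n : ℕ) : ℝ) + 1)) p) (fun n => hz2 _)
    refine tendsto_nhds_unique h1 (h2.congr fun n => ?_)
    simp [hy]
  have l2 : B t f = 0 := by
    have h1 := tendsto_B hlim (tendsto_const_nhds (x := f))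
    have h2 := hzero (fun n => B (z (((φ n : ℕ) : ℝ) + 1)) f) (fun n => hz3 _)
    refine tendsto_nhds_unique h1 (h2.congr fun n => ?_)
    simp [hy]
  have l3 : B t t = 0 := by
    have h1 := tendsto_B hlim hlim
    have h2 := hr.mul (hzero (fun n => B (z (((φ n : ℕ) : ℝ) + 1)) (z (((φ n : ℕ) : ℝ) + 1)))
      (fun n => hz1 _))
    rw [mul_zero] at h2
    refine tendsto_nhds_unique h1 (h2.congr fun n => ?_)
    simp [hy]
  have := pos_on_compl hp hf hm l1 l2 l3.le
  rw [this] at ht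
  simp at ht

theorem mem_Cop_of_Ch {x : V} (hx : x ∈ Ch) (h0 : 0 < X 0 x + X 1 x)
    (h1 : 0 < X 2 x + X 3 x + X 4 x) : x ∈ Cop := by
  set p := pst x with hp
  set f := fut x with hf
  have x0 := hx 0
  have x1 := hx 1
  have x2 := hx 2
  have x3 := hx 3
  have x4 := hx 4
  have k1 := pst_le hx
  have k2 := fut_le hx
  have k3 := B_pst_fut x x
  rw [← hp] at k1 k3
  rw [← hf] at k2 k3
  have s1 : 0 < X 2 x + 2 * X 3 x + X 4 x := by linarith
  have s2 : 0 < 2 * X 0 x + X 1 x := by linarith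
  have hpp : B p p < 0 := by
    have := pow_pos s1 2
    linarith
  have hff : B f f < 0 := by
    have := pow_pos s2 2
    linarith
  have hm : B p f ^ 2 < B p p * B f f := by
    rw [k3]
    have q1 := pow_pos s1 2
    have q2 := pow_pos s2 2
    have e : ((2 * X 0 x + X 1 x) * (X 2 x + 2 * X 3 x + X 4 x) / 3) ^ 2
        = (2 * X 0 x + X 1 x) ^ 2 * (X 2 x + 2 * X 3 x + X 4 x) ^ 2 / 9 := by ring
    rw [e]
    have e2 : (2 * X 0 x + X 1 x) ^ 2 * (X 2 x + 2 * X 3 x + X 4 x) ^ 2
        ≤ (-(12 / 5 * B f f)) * (-(3 * B p p)) :=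
      mul_le_mul k2 k1 (sq_nonneg _) (by linarith)
    have e3 : 0 < B p p * B f f := mul_pos_of_neg_of_neg hpp hff
    nlinarith
  -- the parabolic subgroup
  set U : Subgroup W := Subgroup.closure {w | ∃ i, X i x = 0 ∧ w = cs.simple i} with hU
  have hXp : ∀ i, X i x = 0 → X i p = 0 := by
    intro i hi
    rw [hp]; unfold pst
    rw [X_add, X_add, X_smul, X_smul, X_smul, X_Vd, X_Vd, X_Vd]
    fin_cases i <;> simp at hi ⊢ <;> exact hi
  have hXf : ∀ i, X i x = 0 → X i f = 0 := by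
    intro i hi
    rw [hf]; unfold fut
    rw [X_add, X_smul, X_smul, X_Vd, X_Vd]
    fin_cases i <;> simp at hi ⊢ <;> exact hi
  have hfix : ∀ u ∈ U, act u p = p ∧ act u f = f := by
    intro u hu
    induction hu using Subgroup.closure_induction with
    | mem w hw =>
      obtain ⟨i, hi, rfl⟩ := hw
      rw [act_simple, act_simple, hXp i hi, hXf i hi]
      simp
    | one => simp
    | mul a b _ _ ha hb => rw [act_mul, act_mul, hb.1, hb.2]; exact ha
    | inv a _ ha =>
      constructor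
      · conv_lhs => rw [← ha.1]
        simp
      · conv_lhs => rw [← ha.2]
        simp
  have hfixx : ∀ u ∈ U, act u x = x := by
    intro u hu
    have e : x = p + f := (pst_add_fut x).symm
    rw [e, map_add, (hfix u hu).1, (hfix u hu).2]
  -- boundedness
  obtain ⟨M, hM⟩ : ∃ M : ℝ, ∀ i : Fin 5, |B (al i) (al i)| ≤ M ∧ |B (al i) p| ≤ M ∧ |B (al i) f| ≤ M := by
    refine ⟨∑ i : Fin 5, (|B (al i) (al i)| + |B (al i) p| + |B (al i) f|), fun i => ?_⟩
    have h := Finset.single_le_sum (f := fun i : Fin 5 => |B (al i) (al i)| + |B (al i) p| + |B (al i) f|)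
      (fun j _ => by positivity) (Finset.mem_univ i)
    have a1 := abs_nonneg (B (al i) (al i))
    have a2 := abs_nonneg (B (al i) p)
    have a3 := abs_nonneg (B (al i) f)
    refine ⟨?_, ?_, ?_⟩ <;> linarith
  obtain ⟨R, hR⟩ := bounded_of_inv hpp hff hm M
  have hnrm : ∀ u ∈ U, nrm u ≤ 5 * R := by
    intro u hu
    have h := hfix u hu
    unfold nrm
    calc ∑ i, ‖act u (al i)‖ ≤ ∑ _i : Fin 5, R := by
          refine Finset.sum_le_sum fun i _ => hR _ ?_ ?_ ?_
          · rw [B_act]; exact (hM i).1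
          · rw [← h.1, B_act]; exact (hM i).2.1
          · rw [← h.2, B_act]; exact (hM i).2.2
      _ = 5 * R := by simp
  -- maximisation over the finite set of operators
  have hmax : ∀ y : V, ∃ u ∈ U, ∀ u' ∈ U, B (act u' y) rho0 ≤ B (act u y) rho0 := by
    intro y
    have hfin : Set.Finite {r : ℝ | ∃ u ∈ U, r = B (act u y) rho0} := by
      apply ((finite_act (5 * R)).image (fun γ : V ≃ₗ[ℝ] V => B (γ y) rho0)).subset
      rintro r ⟨u, hu, rfl⟩
      exact ⟨act u, ⟨u, rfl, hnrm u hu⟩, rfl⟩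
    have hne : Set.Nonempty {r : ℝ | ∃ u ∈ U, r = B (act u y) rho0} := ⟨_, 1, U.one_mem, rfl⟩
    obtain ⟨r, ⟨u, hu, rfl⟩, hmax⟩ := Set.exists_max_image _ id hfin hne
    exact ⟨u, hu, fun u' hu' => hmax _ ⟨u', hu', rfl⟩⟩
  obtain ⟨C, hC, hCn⟩ := norm_act_le
  -- the radius
  obtain ⟨η, hη, hηX⟩ : ∃ η : ℝ, 0 < η ∧ ∀ i, X i x ≠ 0 → η ≤ X i x := by
    have hfin : ∀ s : Finset (Fin 5), ∃ η : ℝ, 0 < η ∧ ∀ i ∈ s, X i x ≠ 0 → η ≤ X i x := by
      intro s
      induction s using Finset.induction_on with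
      | empty => exact ⟨1, one_pos, by simp⟩
      | insert a s _ ih =>
        obtain ⟨η, hη, h⟩ := ih
        by_cases ha : X a x = 0
        · refine ⟨η, hη, fun i hi hne => ?_⟩
          rcases Finset.mem_insert.1 hi with rfl | hi
          · exact absurd ha hne
          · exact h i hi hne
        · have hpa : 0 < X a x := lt_of_le_of_ne (hx a) (Ne.symm ha)
          refine ⟨min η (X a x), lt_min hη hpa, fun i hi hne => ?_⟩
          rcases Finset.mem_insert.1 hi with rfl | hi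
          · exact min_le_right _ _
          · exact (min_le_left _ _).trans (h i hi hne)
    obtain ⟨η, hη, h⟩ := hfin Finset.univ
    exact ⟨η, hη, fun i => h i (Finset.mem_univ i)⟩
  obtain ⟨K, hK, hKX⟩ : ∃ K : ℝ, 0 < K ∧ ∀ i (z : V), |X i z| ≤ K * ‖z‖ := by
    refine ⟨∑ i : Fin 5, 5 * ‖al i‖ + 1, by positivity, fun i z => ?_⟩
    unfold X
    rw [abs_neg]
    have h := Finset.single_le_sum (f := fun i : Fin 5 => 5 * ‖al i‖)
      (fun j _ => by positivity) (Finset.mem_univ i)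
    calc |B z (al i)| ≤ 5 * ‖z‖ * ‖al i‖ := abs_B_le _ _
      _ = (5 * ‖al i‖) * ‖z‖ := by ring
      _ ≤ (∑ i : Fin 5, 5 * ‖al i‖ + 1) * ‖z‖ := by
          apply mul_le_mul_of_nonneg_right _ (norm_nonneg _)
          linarith
  have hR0 : 0 ≤ 5 * R := (nrm_pos 1).le.trans (hnrm 1 U.one_mem)
  set L : ℝ := K * (C * (5 * R)) + 1 with hL
  have hL0 : 0 < L := by positivity
  apply interior_Cbar
  rw [mem_interior_iff_mem_nhds, Metric.mem_nhds_iff]
  refine ⟨η / L, by positivity, fun y hy => ?_⟩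
  rw [mem_ball_iff_norm] at hy
  obtain ⟨u, hu, hmx⟩ := hmax y
  have hCh : act u y ∈ Ch := by
    intro i
    by_cases hi : X i x = 0
    · have hiu : cs.simple i * u ∈ U := U.mul_mem (Subgroup.subset_closure ⟨i, hi, rfl⟩) hu
      have h2 := hmx _ hiu
      rw [act_mul, act_simple, B_add_left, B_smul_left] at h2
      have h3 : B (al i) rho0 = - X i rho0 := by unfold X; rw [B_comm]; ring
      rw [h3] at h2
      have h4 := rho0_X i
      have h5 := Gr_diag_pos i
      have h6 : 0 ≤ 2 * X i (act u y) / (Gr i i : ℝ) * X i rho0 := by linarith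
      by_contra hneg
      push Not at hneg
      have : 2 * X i (act u y) / (Gr i i : ℝ) < 0 := div_neg_of_neg_of_pos (by linarith) h5
      nlinarith
    · have h2 := hηX i hi
      have h3 : X i (act u y) = X i x + X i (act u (y - x)) := by
        rw [map_sub, hfixx u hu, X_sub]; ring
      have h4 : |X i (act u (y - x))| ≤ K * (C * (5 * R) * ‖y - x‖) := by
        refine (hKX i _).trans ?_
        apply mul_le_mul_of_nonneg_left _ hK.le
        refine (hCn u _).trans ?_
        apply mul_le_mul_of_nonneg_right _ (norm_nonneg _)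
        exact mul_le_mul_of_nonneg_left (hnrm u hu) hC.le
      have h5 : K * (C * (5 * R) * ‖y - x‖) ≤ L * ‖y - x‖ := by
        rw [hL]
        nlinarith [norm_nonneg (y - x)]
      have h6 : L * ‖y - x‖ < η := by
        rw [lt_div_iff₀ hL0] at hy
        linarith
      have h7 := neg_abs_le (X i (act u (y - x)))
      rw [h3]
      linarith
  have := act_Ch_mem_Cbar hCh u⁻¹
  rwa [act_inv_act] at this

end Pool.Agent.H93.KT
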