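import Pool.Agent.H93.KT.Cover
import Pool.Agent.H93.KT.Sph
import Pool.Agent.H93.KT.Qout

set_option autoImplicit false

/-! MODULE Dom3.  First properties of `Omg = Cop ∩ AdS`. -/

namespace Pool.Agent.H93.KT

open Filter Topology

theorem zero_notMem_Cop : (0 : V) ∉ Cop := by
  intro h
  have := B_lamp_neg h
  simp at this

theorem Cop_neg {x : V} (hx : x ∈ Cop) : B x x < 0 := by
  obtain ⟨w, hw⟩ := exists_act_mem_Ch hx
  obtain ⟨c, hc, H⟩ := Ch_neg
  have h1 := H _ hw
  rw [B_act] at h1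
  have hne : act w x ≠ 0 := by
    intro h
    have : x = 0 := by
      have h2 : act w⁻¹ (act w x) = x := act_inv_act w x
      rw [h, map_zero] at h2
      exact h2.symm
    rw [this] at hx
    exact zero_notMem_Cop hx
  have h2 : 0 < ‖act w x‖ := norm_pos_iff.2 hne
  have : 0 < c * ‖act w x‖ ^ 2 := by positivity
  linarith

theorem openInAdS_Omg : OpenInAdS Omg := ⟨Cop, isOpen_Cop, rfl⟩

theorem yl0_mem_Cop : yl 0 ∈ Cop := by
  have s2 : (0 : ℝ) < √2 := by positivity
  have s6 : (0 : ℝ) < √6 := by positivity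
  have e0 : X 0 (yl 0) = 0 := by simp [X, B, al, yl]
  have e1 : X 1 (yl 0) = √2 := by simp [X, B, al, yl]
  have e2 : X 2 (yl 0) = √2 / 2 := by simp [X, B, al, yl]
  have e3 : X 3 (yl 0) = 0 := by simp [X, B, al, yl]
  have e4 : X 4 (yl 0) = 0 := by simp [X, B, al, yl]
  apply mem_Cop_of_Ch
  · intro i
    fin_cases i
    · simpa using e0.ge
    · show 0 ≤ X 1 (yl 0)
      rw [e1]; positivity
    · show 0 ≤ X 2 (yl 0)
      rw [e2]; positivity
    · simpa using e3.ge
    · simpa using e4.ge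
  · rw [e0, e1]; positivity
  · rw [e2, e3, e4]; positivity

theorem yl_mem_AdS (s : ℝ) : yl s ∈ AdS := by
  show B (yl s) (yl s) = -1
  have := Real.cosh_sq s
  simp [B, yl]
  nlinarith

theorem yl_mem_Cop (s : ℝ) : yl s ∈ Cop := by
  set m : ℝ := Real.exp (-|s|) with hm
  have hm0 : 0 < m := Real.exp_pos _
  have h1 : m ≤ Real.exp (-s) := Real.exp_le_exp.2 (by linarith [le_abs_self s])
  have h2 : m ≤ Real.exp s := Real.exp_le_exp.2 (by linarith [neg_abs_le s])
  have e : yl s = m • yl 0 + (1 : ℝ) • (((Real.exp (-s) - m) / 2) • lamp + ((Real.exp s - m) / 2) • lamm) := by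
    rw [yl_eq s, yl_eq 0]
    simp only [neg_zero, Real.exp_zero]
    module
  rw [e]
  exact Cop_smul_add yl0_mem_Cop (Cbar_add lamp_mem_Cbar lamm_mem_Cbar (by linarith) (by linarith))
    hm0 zero_le_one

theorem yl_mem (s : ℝ) : yl s ∈ Omg := ⟨yl_mem_Cop s, yl_mem_AdS s⟩

theorem Cop_smul {x : V} (hx : x ∈ Cop) {s : ℝ} (hs : 0 < s) : s • x ∈ Cop := by
  have := Cop_smul_add hx (Cop_subset_Cbar hx) hs (le_refl (0 : ℝ))
  simpa using this

theorem isConnected_Omg : IsConnected Omg := by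
  have hconv : Convex ℝ Cop := by
    intro x hx y hy a b ha hb hab
    rcases ha.lt_or_eq with h | h
    · exact Cop_smul_add hx (Cop_subset_Cbar hy) h hb
    · have hb1 : 0 < b := by rw [← h] at hab; linarith
      rw [add_comm]
      exact Cop_smul_add hy (Cop_subset_Cbar hx) hb1 ha
  have hc : IsConnected Cop := ⟨⟨_, yl_mem_Cop 0⟩, hconv.isPreconnected⟩
  have himg : Omg = (fun x : V => (√(- B x x))⁻¹ • x) '' Cop := by
    ext x
    constructor
    · rintro ⟨hx, hA⟩
      refine ⟨x, hx, ?_⟩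
      have : B x x = -1 := hA
      simp [this]
    · rintro ⟨y, hy, rfl⟩
      have h1 := Cop_neg hy
      have h2 : 0 < √(- B y y) := Real.sqrt_pos.2 (by linarith)
      refine ⟨Cop_smul hy (by positivity), ?_⟩
      show B _ _ = -1
      simp only [B_smul_left, B_smul_right]
      have h3 : √(- B y y) * √(- B y y) = - B y y := Real.mul_self_sqrt (by linarith)
      field_simp
      nlinarith
  rw [himg]
  apply hc.image
  refine ContinuousOn.smul (f := fun x : V => (√(- B x x))⁻¹) (g := fun x : V => x) ?_ ?_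
  · apply ContinuousOn.inv₀
    · exact (Real.continuous_sqrt.comp (by fun_prop)).continuousOn
    · intro x hx
      have := Cop_neg hx
      exact (Real.sqrt_pos.2 (by linarith)).ne'
  · exact continuousOn_id

theorem Omg_convex : GeodConvex Omg := by
  intro x hx y hy s t hs ht hA
  rcases hs.lt_or_eq with h | h
  · exact ⟨Cop_smul_add hx.1 (Cop_subset_Cbar hy.1) h ht, hA⟩
  · rcases ht.lt_or_eq with h' | h'
    · refine ⟨?_, hA⟩
      rw [add_comm]
      exact Cop_smul_add hy.1 (Cop_subset_Cbar hx.1) h' hs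
    · rw [← h, ← h'] at hA
      have h0 : (0 : ℝ) • x + (0 : ℝ) • y = 0 := by simp
      rw [h0] at hA
      have : B (0 : V) 0 = -1 := hA
      simp at this

theorem act_mem_AdS {x : V} (w : W) : act w x ∈ AdS ↔ x ∈ AdS := by
  show B _ _ = -1 ↔ B _ _ = -1
  rw [B_act]

theorem act_mem_Omg {x : V} (w : W) : act w x ∈ Omg ↔ x ∈ Omg := by
  unfold Omg
  rw [Set.mem_inter_iff, Set.mem_inter_iff, act_mem_Cop, act_mem_AdS]

theorem exists_Omg_Ch {x : V} (hx : x ∈ Omg) : ∃ w : W, act w x ∈ Ch ∧ act w x ∈ Omg ∧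
    0 < X 0 (act w x) + X 1 (act w x) ∧ 0 < X 2 (act w x) + X 3 (act w x) + X 4 (act w x) := by
  obtain ⟨w, hw⟩ := exists_act_mem_Ch hx.1
  have h := Ch_Cop hw ((act_mem_Cop w).2 hx.1)
  exact ⟨w, hw, (act_mem_Omg w).2 hx, h.1, h.2⟩

/-- points strictly between a point of `Cbar` and a point of `Omg` -/
theorem mem_Omg_of_combo {x z : V} (hx : x ∈ Omg) (hz : z ∈ Cbar) {s t : ℝ} (hs : 0 < s) (ht : 0 ≤ t)
    (hA : s • x + t • z ∈ AdS) : s • x + t • z ∈ Omg :=
  ⟨Cop_smul_add hx.1 hz hs ht, hA⟩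

end Pool.Agent.H93.KT
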