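import Pool.Agent.H93.KT.IntRep

set_option autoImplicit false

namespace Pool.Agent.H93.KT

open CoxeterSystem

/-- the vectors obtained by applying alternating words to a simple root -/
def av (s t : Fin 5) : ℕ → (Fin 5 → ℤ)
  | 0 => Pi.single s 1
  | k + 1 => (Sm (if Even k then t else s)).mulVec (av s t k)

lemma rhoZ_alt (s t : Fin 5) (k : ℕ) :
    (rhoZ (cs.wordProd (alternatingWord s t k))).mulVec (Pi.single s 1) = av s t k := by
  induction k with
  | zero =>
    have : cs.wordProd (alternatingWord s t 0) = 1 := by simp [alternatingWord]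
    rw [this, map_one, Matrix.one_mulVec]; rfl
  | succ k ih =>
    rw [alternatingWord_succ', wordProd_cons, map_mul, rhoZ_simple, ← Matrix.mulVec_mulVec, ih]
    rfl

lemma av_fin : ∀ s t : Fin 5, ∀ k : Fin 6, s ≠ t → k.val < Mx s t →
    ∀ i, 0 ≤ av s t k i ∧ (i ≠ s → i ≠ t → av s t k i = 0) := by
  decide +kernel

lemma Sm_mulVec (i : Fin 5) (x : Fin 5 → ℤ) (k : Fin 5) :
    (Sm i).mulVec x k = x k - (if k = i then ∑ j, Ca i j * x j else 0) := by
  simp only [Matrix.mulVec, dotProduct, Sm, Matrix.of_apply, sub_mul, Finset.sum_sub_distrib]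
  by_cases h : k = i <;> simp [h]

lemma av_inf01 (k : ℕ) : ∃ a b : ℤ, av 0 1 k = a • Pi.single 0 1 + b • Pi.single 1 1 ∧
    0 ≤ a ∧ 0 ≤ b ∧ (Even k → b ≤ a) ∧ (¬ Even k → a ≤ b) := by
  induction k with
  | zero => exact ⟨1, 0, by simp [av], by norm_num, le_rfl, fun _ => by norm_num, fun h => by simp at h⟩
  | succ k ih =>
    obtain ⟨a, b, h, ha, hb, h1, h2⟩ := ih
    by_cases hk : Even k
    · refine ⟨a, 2 * a - b, ?_, ha, by have := h1 hk; linarith, ?_, fun _ => by have := h1 hk; linarith⟩
      · simp only [av, hk, if_true]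
        ext i
        rw [Sm_mulVec, h]
        fin_cases i <;> simp [Fin.sum_univ_five, Ca]
        ring
      · intro h3; exact absurd hk (by simpa [parity_simps] using h3)
    · refine ⟨4 * b - a, b, ?_, by have := h2 hk; linarith, hb, fun _ => by have := h2 hk; linarith, ?_⟩
      · simp only [av, hk, if_false]
        ext i
        rw [Sm_mulVec, h]
        fin_cases i <;> simp [Fin.sum_univ_five, Ca]
        ring
      · intro h3; exact absurd (by simpa [parity_simps] using h3) hk

lemma av_inf10 (k : ℕ) : ∃ a b : ℤ, av 1 0 k = a • Pi.single 1 1 + b • Pi.single 0 1 ∧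
    0 ≤ a ∧ 0 ≤ b ∧ (Even k → b ≤ a) ∧ (¬ Even k → a ≤ b) := by
  induction k with
  | zero => exact ⟨1, 0, by simp [av], by norm_num, le_rfl, fun _ => by norm_num, fun h => by simp at h⟩
  | succ k ih =>
    obtain ⟨a, b, h, ha, hb, h1, h2⟩ := ih
    by_cases hk : Even k
    · refine ⟨a, 4 * a - b, ?_, ha, by have := h1 hk; linarith, ?_, fun _ => by have := h1 hk; linarith⟩
      · simp only [av, hk, if_true]
        ext i
        rw [Sm_mulVec, h]
        fin_cases i <;> simp [Fin.sum_univ_five, Ca]
        ring
      · intro h3; exact absurd hk (by simpa [parity_simps] using h3)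
    · refine ⟨2 * b - a, b, ?_, by have := h2 hk; linarith, hb, fun _ => by have := h2 hk; linarith, ?_⟩
      · simp only [av, hk, if_false]
        ext i
        rw [Sm_mulVec, h]
        fin_cases i <;> simp [Fin.sum_univ_five, Ca]
        ring
      · intro h3; exact absurd (by simpa [parity_simps] using h3) hk

lemma Mx_le : ∀ s t : Fin 5, Mx s t ≤ 6 := by
  intro s t; fin_cases s <;> fin_cases t <;> decide

lemma Mx_zero : ∀ s t : Fin 5, Mx s t = 0 → (s = 0 ∧ t = 1) ∨ (s = 1 ∧ t = 0) := by
  intro s t; fin_cases s <;> fin_cases t <;> decide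

lemma av_pos {s t : Fin 5} (hst : s ≠ t) {k : ℕ} (hk : Mx s t = 0 ∨ k + 1 ≤ Mx s t) :
    ∃ a b : ℤ, av s t k = a • Pi.single s 1 + b • Pi.single t 1 ∧ 0 ≤ a ∧ 0 ≤ b := by
  rcases hk with h0 | h1
  · rcases Mx_zero s t h0 with ⟨rfl, rfl⟩ | ⟨rfl, rfl⟩
    · obtain ⟨a, b, h, ha, hb, -⟩ := av_inf01 k
      exact ⟨a, b, h, ha, hb⟩
    · obtain ⟨a, b, h, ha, hb, -⟩ := av_inf10 k
      exact ⟨a, b, h, ha, hb⟩
  · have h6 := Mx_le s t
    have h2 := av_fin s t ⟨k, by omega⟩ hst (by simpa using h1)
    refine ⟨av s t k s, av s t k t, ?_, (h2 s).1, (h2 t).1⟩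
    ext i
    by_cases his : i = s
    · subst his; simp [hst]
    · by_cases hit : i = t
      · subst hit; simp [his]
      · have := (h2 i).2 his hit
        simp only at this
        rw [this]
        simp [his, hit]

theorem tits_pos' (w : W) (s : Fin 5) (h : cs.length (w * cs.simple s) = cs.length w + 1) :
    0 ≤ (rhoZ w).mulVec (Pi.single s 1) := by
  induction hn : cs.length w using Nat.strong_induction_on generalizing w s with
  | _ n ih =>
  subst hn
  by_cases hw : w = 1
  · subst hw
    rw [map_one, Matrix.one_mulVec]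
    intro i
    by_cases his : i = s
    · subst his; simp
    · simp [his]
  obtain ⟨t, ht⟩ := cs.exists_rightDescent_of_ne_one hw
  rw [isRightDescent_iff] at ht
  have hst : s ≠ t := by
    rintro rfl; omega
  let P : ℕ → Prop := fun k => ∃ v, w = v * cs.wordProd (alternatingWord s t k) ∧
    cs.length v + k = cs.length w
  have hP1 : P 1 := by
    refine ⟨w * cs.simple t, ?_, ht⟩
    have h1 : alternatingWord s t 1 = [t] := by simp [alternatingWord]
    rw [h1, wordProd_singleton, simple_mul_simple_cancel_right]
  have hPle : ∀ k, P k → k ≤ cs.length w := by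
    rintro k ⟨v, _, h2⟩; omega
  classical
  set k := Nat.findGreatest P (cs.length w) with hk
  have hk1 : 1 ≤ k := Nat.le_findGreatest (hPle 1 hP1) hP1
  have hPk : P k := Nat.findGreatest_spec (hPle 1 hP1) hP1
  have hPk1 : ¬ P (k + 1) := by
    intro h1
    have := Nat.le_findGreatest (hPle _ h1) h1
    omega
  obtain ⟨v, hv, hvl⟩ := hPk
  have hlt : cs.length v < cs.length w := by omega
  have hx : cs.length (v * cs.simple (if Even k then t else s)) = cs.length v + 1 := by
    by_contra hcon
    have h1 := (cs.length_mul_simple v (if Even k then t else s)).resolve_left hcon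
    apply hPk1
    refine ⟨v * cs.simple (if Even k then t else s), ?_, by omega⟩
    rw [alternatingWord_succ', wordProd_cons, ← mul_assoc, simple_mul_simple_cancel_right]
    exact hv
  have hy : cs.length (v * cs.simple (if Even k then s else t)) = cs.length v + 1 := by
    by_contra hcon
    have h1 := (cs.length_mul_simple v (if Even k then s else t)).resolve_left hcon
    obtain ⟨j, hj⟩ : ∃ j, k = j + 1 := ⟨k - 1, by omega⟩
    have h2 : (if Even k then s else t) = (if Even j then t else s) := by
      rw [hj]
      by_cases hje : Even j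
      · have : ¬ Even (j + 1) := by simp [hje, parity_simps]
        simp [hje, this]
      · have : Even (j + 1) := by simp [hje, parity_simps]
        simp [hje, this]
    rw [h2] at h1
    rw [hj, alternatingWord_succ', wordProd_cons, ← mul_assoc] at hv
    have h3 := cs.length_mul_le (v * cs.simple (if Even j then t else s))
      (cs.wordProd (alternatingWord s t j))
    rw [← hv] at h3
    have h4 := cs.length_wordProd_le (alternatingWord s t j)
    rw [length_alternatingWord] at h4
    omega
  have px := ih _ hlt v _ hx rfl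
  have py := ih _ hlt v _ hy rfl
  have pst : 0 ≤ (rhoZ v).mulVec (Pi.single s 1) ∧ 0 ≤ (rhoZ v).mulVec (Pi.single t 1) := by
    by_cases hke : Even k
    · simp only [hke, if_true] at px py; exact ⟨py, px⟩
    · simp only [hke, if_false] at px py; exact ⟨px, py⟩
  have hkm : Mx s t = 0 ∨ k + 1 ≤ Mx s t := by
    by_contra hcon
    push Not at hcon
    obtain ⟨h0, h1⟩ := hcon
    have h2 : w * cs.simple s = v * cs.wordProd (alternatingWord t s (k + 1)) := by
      rw [alternatingWord_succ, wordProd_concat, ← mul_assoc, ← hv]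
    have h0' : Mx t s ≠ 0 := by rw [Mx.symmetric]; exact h0
    have h3 := cs.not_isReduced_alternatingWord t s h0' (m := k + 1) (by rw [Mx.symmetric]; omega)
    have h4 := cs.length_wordProd_le (alternatingWord t s (k + 1))
    rw [length_alternatingWord] at h4
    have h5 : cs.length (cs.wordProd (alternatingWord t s (k + 1))) ≠ k + 1 := by
      intro h5; apply h3; unfold CoxeterSystem.IsReduced; rw [h5, length_alternatingWord]
    have h6 := cs.length_mul_le v (cs.wordProd (alternatingWord t s (k + 1)))
    rw [← h2] at h6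
    omega
  obtain ⟨a, b, hab, ha, hb⟩ := av_pos hst hkm
  conv_rhs => rw [hv]
  rw [map_mul, ← Matrix.mulVec_mulVec, rhoZ_alt, hab, Matrix.mulVec_add, Matrix.mulVec_smul,
    Matrix.mulVec_smul]
  exact add_nonneg (smul_nonneg ha pst.1) (smul_nonneg hb pst.2)

/-- Tits' theorem for the integral reflection representation of `[∞,3,4,6]`. -/
theorem tits_pos (w : W) (i : Fin 5) (h : cs.length (w * cs.simple i) = cs.length w + 1)
    (k : Fin 5) : 0 ≤ rhoZ w k i := by
  have h1 := tits_pos' w i h k
  simpa using h1

end Pool.Agent.H93.KT
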