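import Pool.Agent.H93.KT.Ob
import Pool.Agent.H93.KT.Tits

set_option autoImplicit false

/-! MODULE Dominance. -/

namespace Pool.Agent.H93.KT

open CoxeterSystem

lemma rt_add (x y : V) (i : Fin 5) : rt (x + y) i = rt x i + rt y i := by
  have h : rt (x + y) = rt x + rt y := map_add psi.symm x y
  rw [h]; rfl

lemma rt_smul (a : ℝ) (x : V) (i : Fin 5) : rt (a • x) i = a * rt x i := by
  have h : rt (a • x) = a • rt x := map_smul psi.symm a x
  rw [h]; rfl

theorem PosCone_add {x y : V} (hx : x ∈ PosCone) (hy : y ∈ PosCone) : x + y ∈ PosCone := by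
  intro i
  rw [rt_add]
  exact add_nonneg (hx i) (hy i)

theorem PosCone_smul {x : V} {a : ℝ} (ha : 0 ≤ a) (hx : x ∈ PosCone) : a • x ∈ PosCone := by
  intro i
  rw [rt_smul]
  exact mul_nonneg ha (hx i)

theorem zero_mem_PosCone : (0 : V) ∈ PosCone := by
  intro i
  have : rt (0 : V) = 0 := map_zero psi.symm
  rw [this]; simp

theorem act_al_mem_PosCone {w : W} {i : Fin 5}
    (h : cs.length (w * cs.simple i) = cs.length w + 1) : act w (al i) ∈ PosCone := by
  intro k
  rw [rt_act, rt_al]
  have h1 : ∑ j, (rhoZ w k j : ℝ) * (Pi.single i 1 : Fin 5 → ℝ) j = (rhoZ w k i : ℝ) := by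
    rw [Finset.sum_eq_single i]
    · simp
    · intro j _ hj; simp [hj]
    · simp
  rw [h1]
  exact_mod_cast tits_pos w i h k

theorem Gr_diag_pos (i : Fin 5) : (0 : ℝ) < (Gr i i : ℝ) := by
  have : 0 < Gr i i := by fin_cases i <;> decide
  exact_mod_cast this

theorem act_sub_mem_PosCone {p : V} (hp : p ∈ Ch) (w : W) : act w p - p ∈ PosCone := by
  induction hn : cs.length w using Nat.strong_induction_on generalizing w with
  | _ n ih =>
  by_cases hw : w = 1
  · subst hw
    rw [act_one, sub_self]; exact zero_mem_PosCone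
  obtain ⟨i, hi⟩ := cs.exists_rightDescent_of_ne_one hw
  rw [isRightDescent_iff] at hi
  have h1 : cs.length (w * cs.simple i) < n := by omega
  have h2 := ih _ h1 (w * cs.simple i) rfl
  have h3 : cs.length (w * cs.simple i * cs.simple i) = cs.length (w * cs.simple i) + 1 := by
    rw [simple_mul_simple_cancel_right]; omega
  have h4 := act_al_mem_PosCone h3
  have h5 : act w p = act (w * cs.simple i) p + (2 * X i p / (Gr i i : ℝ)) •
      act (w * cs.simple i) (al i) := by
    have e : act w p = act (w * cs.simple i) (act (cs.simple i) p) := by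
      rw [← act_mul, simple_mul_simple_cancel_right]
    rw [e, act_simple, map_add, map_smul]
  have h6 : act w p - p = (act (w * cs.simple i) p - p) + (2 * X i p / (Gr i i : ℝ)) •
      act (w * cs.simple i) (al i) := by rw [h5]; module
  rw [h6]
  refine PosCone_add h2 (PosCone_smul ?_ h4)
  have := hp i
  have := Gr_diag_pos i
  positivity

theorem B_nonpos_of_mem {x y : V} (hx : x ∈ Ch) (hy : y ∈ PosCone) : B x y ≤ 0 := by
  rw [B_eq_neg_sum, neg_nonpos]
  exact Finset.sum_nonneg fun i _ => mul_nonneg (hy i) (hx i)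

/-- (T1) -/
theorem dom {x p : V} (hx : x ∈ Ch) (hp : p ∈ Ch) (w : W) : B x (act w p) ≤ B x p := by
  have h := B_nonpos_of_mem hx (act_sub_mem_PosCone hp w)
  rw [B_sub_right] at h
  linarith

theorem dom_left {x p : V} (hx : x ∈ Ch) (hp : p ∈ Ch) (w : W) : B (act w x) p ≤ B x p := by
  rw [B_comm (act w x), B_comm x]
  exact dom hp hx w

/-- (T2) -/
theorem dom_nonpos {x y : V} (hx : x ∈ Ch) (hy : y ∈ Ch) (hy' : y ∈ PosCone) (w w' : W) :
    B (act w x) (act w' y) ≤ 0 := by
  have h : B (act w x) (act w' y) = B x (act (w⁻¹ * w') y) := by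
    rw [B_act_left, act_mul]
  rw [h]
  exact (dom hx hy _).trans (B_nonpos_of_mem hx hy')

end Pool.Agent.H93.KT
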