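import Mathlib

set_option autoImplicit false

namespace Pool.Agent.H93.KT

/-- If `X * F = 0` and the reduction of `F` mod `3` has nonzero determinant then `X = 0`. -/
theorem tf_cancel {n : ℕ} (X F : Matrix (Fin n) (Fin n) ℤ) (h : X * F = 0)
    (hd : (F.map (Int.castRingHom (ZMod 3))).det ≠ 0) : X = 0 := by
  have hF : F.det ≠ 0 := by
    intro h0
    apply hd
    have := RingHom.map_det (Int.castRingHom (ZMod 3)) F
    rw [h0, map_zero] at this
    exact this.symm
  have h1 : X * F * F.adjugate = 0 := by rw [h, Matrix.zero_mul]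
  rw [Matrix.mul_assoc, Matrix.mul_adjugate, Matrix.mul_smul, Matrix.mul_one] at h1
  ext i j
  have h2 := congrFun (congrFun h1 i) j
  simp only [Matrix.smul_apply, Matrix.zero_apply, smul_eq_mul, mul_eq_zero] at h2
  rcases h2 with h2 | h2
  · exact absurd h2 hF
  · simpa using h2

/-- MODULE TF.  Integer matrices congruent to `1` modulo `3` have no torsion.
PROOF (strong induction on `m`).  Case `¬ 3 ∣ m`: `(A-1) * S = 0` with `S = ∑_{k<m} A^k ≡ m • 1 (mod 3)`, so
`det S ≡ m^n ≢ 0 (mod 3)`, `det S ≠ 0`, hence `A - 1 = 0` (multiply by the adjugate of `S`).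
Case `m = 3 k`: `C = A^k ≡ 1 (mod 3)`, `C^3 = 1`, `(C-1)(C^2+C+1) = 0`, `C = 1+3E`, `C^2+C+1 = 3(1+3E+3E^2)`,
`det (1+3E+3E^2) ≡ 1 (mod 3)` so `C = 1`: apply the induction hypothesis to `k < m`. -/
theorem torsion_free_mod3 {n : ℕ} (A : Matrix (Fin n) (Fin n) ℤ)
    (h : ∀ i j, (3 : ℤ) ∣ (A - 1) i j) (m : ℕ) (hm : 0 < m) (hA : A ^ m = 1) : A = 1 := by
  set φ : Matrix (Fin n) (Fin n) ℤ →+* Matrix (Fin n) (Fin n) (ZMod 3) :=
    (Int.castRingHom (ZMod 3)).mapMatrix with hφ
  have hφapp : ∀ F : Matrix (Fin n) (Fin n) ℤ, φ F = F.map (Int.castRingHom (ZMod 3)) := by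
    intro F; rfl
  have hφ0 : ∀ F : Matrix (Fin n) (Fin n) ℤ, (∀ i j, (3 : ℤ) ∣ F i j) → φ F = 0 := by
    intro F hF
    rw [hφapp]
    ext i j
    simp only [Matrix.map_apply, Matrix.zero_apply, eq_intCast]
    exact (ZMod.intCast_zmod_eq_zero_iff_dvd _ 3).2 (hF i j)
  have hφA : φ A = 1 := by
    have := hφ0 _ h
    rw [map_sub, map_one, sub_eq_zero] at this
    exact this
  induction m using Nat.strong_induction_on with
  | _ m ih =>
    by_cases h3 : 3 ∣ m
    · obtain ⟨k, rfl⟩ := h3
      have hk : 0 < k := by omega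
      apply ih k (by omega) hk
      have hC3 : (A ^ k) ^ 3 = 1 := by
        rw [← pow_mul, mul_comm k 3]; exact hA
      have hφC : φ (A ^ k) = 1 := by rw [map_pow, hφA, one_pow]
      generalize A ^ k = C at hC3 hφC
      have hE : ∃ E : Matrix (Fin n) (Fin n) ℤ, C = 1 + 3 * E := by
        have hd : ∀ i j, (3 : ℤ) ∣ (C - 1) i j := by
          intro i j
          have h1 : φ (C - 1) = 0 := by rw [map_sub, hφC, map_one, sub_self]
          rw [hφapp] at h1
          have h2 := congrFun (congrFun h1 i) j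
          simp only [Matrix.map_apply, Matrix.zero_apply, eq_intCast] at h2
          exact (ZMod.intCast_zmod_eq_zero_iff_dvd _ 3).1 h2
        choose E hE using hd
        refine ⟨Matrix.of E, ?_⟩
        have h3 : (3 : Matrix (Fin n) (Fin n) ℤ) * Matrix.of E = (3 : ℤ) • Matrix.of E := by
          rw [zsmul_eq_mul]; norm_num
        rw [h3]
        ext i j
        have := hE i j
        simp only [Matrix.sub_apply] at this
        simp only [Matrix.add_apply, Matrix.smul_apply, Matrix.of_apply, smul_eq_mul]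
        linarith
      obtain ⟨E, rfl⟩ := hE
      set F : Matrix (Fin n) (Fin n) ℤ := 1 + 3 * E + 3 * E ^ 2 with hF
      have h4 : (3 : Matrix (Fin n) (Fin n) ℤ) * ((1 + 3 * E - 1) * F) = 0 := by
        have : (1 + 3 * E) ^ 3 - 1 = 3 * ((1 + 3 * E - 1) * F) := by
          rw [hF]; noncomm_ring
        rw [← this, hC3, sub_self]
      have h5 : (1 + 3 * E - 1) * F = 0 := by
        have h6 : (3 : ℤ) • ((1 + 3 * E - 1) * F) = 0 := by
          rw [zsmul_eq_mul]
          have : ((3 : ℤ) : Matrix (Fin n) (Fin n) ℤ) = 3 := by norm_num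
          rw [this]; exact h4
        ext i j
        have := congrFun (congrFun h6 i) j
        simp only [Matrix.smul_apply, Matrix.zero_apply, smul_eq_mul, mul_eq_zero] at this
        rcases this with h | h
        · norm_num at h
        · exact h
      have h6 : 1 + 3 * E - 1 = 0 := by
        apply tf_cancel _ F h5
        rw [← hφapp]
        have h3' : φ 3 = 0 := by
          have : (3 : Matrix (Fin n) (Fin n) ℤ) = ((3 : ℕ) : Matrix (Fin n) (Fin n) ℤ) := by norm_num
          rw [this, map_natCast]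
          have h30 : ((3 : ℕ) : ZMod 3) = 0 := by decide
          rw [← map_natCast (algebraMap (ZMod 3) (Matrix (Fin n) (Fin n) (ZMod 3))), h30, map_zero]
        have : φ F = 1 := by
          rw [hF, map_add, map_add, map_mul, map_mul, h3', map_one, zero_mul, zero_mul, add_zero,
            add_zero]
        rw [this, Matrix.det_one]
        decide
      rw [sub_eq_zero] at h6
      exact h6
    · have h1 : (A - 1) * ∑ k ∈ Finset.range m, A ^ k = 0 := by
        rw [mul_geom_sum, hA, sub_self]
      have h2 : A - 1 = 0 := by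
        apply tf_cancel _ _ h1
        rw [← hφapp, map_sum]
        simp only [map_pow, hφA, one_pow, Finset.sum_const, Finset.card_range]
        rw [Matrix.det_smul_of_tower, Matrix.det_one, nsmul_eq_mul, mul_one, Nat.cast_pow]
        have : Fact (Nat.Prime 3) := ⟨Nat.prime_three⟩
        apply pow_ne_zero
        intro h0
        exact h3 ((ZMod.natCast_eq_zero_iff m 3).1 h0)
      exact sub_eq_zero.1 h2

end Pool.Agent.H93.KT
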