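import Pool.Agent.H93.KT.Dom3
import Pool.Agent.H93.KT.TF

set_option autoImplicit false

/-! MODULE Gam.  The torsion free finite index subgroup `Γ`. -/

namespace Pool.Agent.H93.KT

/-- Reduction modulo 3 of the representation. -/
def gam_red : W →* Matrix (Fin 5) (Fin 5) (ZMod 3) :=
  ((Int.castRingHom (ZMod 3)).mapMatrix :
    Matrix (Fin 5) (Fin 5) ℤ →+* Matrix (Fin 5) (Fin 5) (ZMod 3)).toMonoidHom.comp rhoZ

lemma gam_red_eq_one (w : W) : gam_red w = 1 ↔ ∀ i j, (3 : ℤ) ∣ (rhoZ w - 1) i j := by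
  have h : ∀ i j, gam_red w i j = ((rhoZ w i j : ℤ) : ZMod 3) := fun i j => rfl
  have h1 : ∀ i j : Fin 5, (1 : Matrix (Fin 5) (Fin 5) (ZMod 3)) i j
      = (((1 : Matrix (Fin 5) (Fin 5) ℤ) i j : ℤ) : ZMod 3) := by
    intro i j
    rw [Matrix.one_apply, Matrix.one_apply]
    split_ifs <;> simp
  constructor
  · intro hw i j
    have h2 := h i j
    rw [hw, h1 i j] at h2
    rw [Matrix.sub_apply]
    exact (ZMod.intCast_eq_intCast_iff_dvd_sub _ _ 3).1 h2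
  · intro hw
    ext i j
    rw [h i j, h1 i j]
    refine ((ZMod.intCast_eq_intCast_iff_dvd_sub _ _ 3).2 ?_).symm
    have h2 := hw i j
    rwa [Matrix.sub_apply] at h2

/-- The group `Γ`: the elements of `act W` that are congruent to `1` modulo `3` on the root lattice. -/
def Gam : Subgroup (V ≃ₗ[ℝ] V) where
  carrier := {γ | ∃ w : W, γ = act w ∧ ∀ i j, (3 : ℤ) ∣ (rhoZ w - 1) i j}
  mul_mem' := by
    rintro a b ⟨w, rfl, hw⟩ ⟨w', rfl, hw'⟩
    refine ⟨w * w', by rw [map_mul], ?_⟩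
    rw [← gam_red_eq_one] at hw hw' ⊢
    rw [map_mul, hw, hw', one_mul]
  one_mem' := ⟨1, by rw [map_one], fun i j => by rw [map_one]; simp⟩
  inv_mem' := by
    rintro a ⟨w, rfl, hw⟩
    refine ⟨w⁻¹, by rw [map_inv], ?_⟩
    rw [← gam_red_eq_one] at hw ⊢
    have h1 : gam_red w⁻¹ * gam_red w = 1 := by rw [← map_mul, inv_mul_cancel, map_one]
    rwa [hw, mul_one] at h1

theorem mem_Gam {γ : V ≃ₗ[ℝ] V} : γ ∈ Gam ↔ ∃ w : W, γ = act w ∧ ∀ i j, (3 : ℤ) ∣ (rhoZ w - 1) i j :=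
  Iff.rfl

lemma gam_act_mem {w : W} (h : gam_red w = 1) : act w ∈ Gam :=
  ⟨w, rfl, (gam_red_eq_one w).1 h⟩

/-- `Γ` has finite index: finitely many representatives (one for each matrix modulo 3 in the image). -/
theorem Gam_reps : ∃ R : Finset W, ∀ w : W, ∃ r ∈ R, act (r⁻¹ * w) ∈ Gam := by
  classical
  have hfin : (Set.range gam_red).Finite := Set.toFinite _
  have h1 : ∀ M ∈ Set.range gam_red, ∃ w : W, gam_red w = M := fun M hM => hM
  choose! f hf using h1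
  refine ⟨hfin.toFinset.image f, fun w => ?_⟩
  have hw : gam_red w ∈ Set.range gam_red := ⟨w, rfl⟩
  refine ⟨f (gam_red w), Finset.mem_image.2 ⟨_, hfin.mem_toFinset.2 hw, rfl⟩, ?_⟩
  apply gam_act_mem
  have h2 : gam_red (f (gam_red w)) = gam_red w := hf _ hw
  have h3 : gam_red (f (gam_red w))⁻¹ * gam_red (f (gam_red w)) = 1 := by
    rw [← map_mul, inv_mul_cancel, map_one]
  rw [map_mul]
  rwa [h2] at h3

theorem gg_pow_mem : ∃ N : ℕ, 0 < N ∧ act (gg ^ N) ∈ Gam := by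
  let φ : W →* (Matrix (Fin 5) (Fin 5) (ZMod 3))ˣ := gam_red.toHomUnits
  refine ⟨Nat.card (Matrix (Fin 5) (Fin 5) (ZMod 3))ˣ, Nat.card_pos, ?_⟩
  apply gam_act_mem
  have h1 : φ (gg ^ Nat.card (Matrix (Fin 5) (Fin 5) (ZMod 3))ˣ) = 1 := by
    rw [map_pow]
    exact pow_card_eq_one'
  exact congrArg Units.val h1

lemma gam_rhoZ_of_act {w : W} (h : act w = 1) : rhoZ w = 1 := by
  ext i j
  have h1 : rt (act w (al j)) i = (rhoZ w i j : ℝ) := by
    rw [rt_act, rt_al]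
    rw [Finset.sum_eq_single j]
    · simp
    · intro k _ hk
      simp [hk]
    · simp
  rw [h] at h1
  have h2 : rt ((1 : V ≃ₗ[ℝ] V) (al j)) i = (Pi.single j 1 : Fin 5 → ℝ) i := by
    change rt (al j) i = _
    rw [rt_al]
  rw [h2] at h1
  rw [Matrix.one_apply]
  by_cases hij : i = j
  · subst hij
    rw [Pi.single_eq_same] at h1
    rw [if_pos rfl]
    exact_mod_cast h1.symm
  · rw [Pi.single_eq_of_ne hij] at h1
    rw [if_neg hij]
    exact_mod_cast h1.symm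

lemma gam_act_of_rhoZ {w : W} (h : rhoZ w = 1) : act w = 1 := by
  apply LinearEquiv.ext
  intro x
  have h1 : rhoR w = 1 := by
    ext i j
    rw [rhoR_apply, h, Matrix.one_apply, Matrix.one_apply]
    split_ifs <;> simp
  rw [act_apply, h1, Matrix.one_mulVec, cmb_rt]
  rfl

/-- An element of finite order is trivial (`act` is injective modulo the kernel of `rhoZ`). -/
theorem Gam_torsion_free {γ : V ≃ₗ[ℝ] V} (h : γ ∈ Gam) {m : ℕ} (hm : 0 < m) (h1 : γ ^ m = 1) :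
    γ = 1 := by
  obtain ⟨w, rfl, hw⟩ := h
  apply gam_act_of_rhoZ
  apply torsion_free_mod3 (rhoZ w) hw m hm
  rw [← map_pow]
  apply gam_rhoZ_of_act
  rw [map_pow]
  exact h1

theorem Gam_proper {K : Set V} (hKO : K ⊆ Omg) (hK : IsCompact K) :
    {γ : V ≃ₗ[ℝ] V | γ ∈ Gam ∧ ∃ x ∈ K, γ x ∈ K}.Finite := by
  obtain ⟨C, hC⟩ := proper_bound hK (fun x hx => (hKO hx).1)
  obtain ⟨R, hR⟩ := hK.isBounded.exists_norm_le
  refine (finite_act (|C| * |R|)).subset ?_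
  rintro γ ⟨⟨w, rfl, -⟩, x, hx, hwx⟩
  refine ⟨w, rfl, ?_⟩
  calc nrm w ≤ C * ‖act w x‖ := hC x hx w
    _ ≤ |C| * ‖act w x‖ := by gcongr; exact le_abs_self C
    _ ≤ |C| * |R| := by
      gcongr
      exact (hR _ hwx).trans (le_abs_self R)

theorem Gam_free {γ : V ≃ₗ[ℝ] V} (h : γ ∈ Gam) {x : V} (hx : x ∈ Omg) (h1 : γ x = x) : γ = 1 := by
  have hpow : ∀ n : ℕ, (γ ^ n) x = x := by
    intro n
    induction n with
    | zero => rfl
    | succ n ih =>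
      rw [pow_succ]
      change (γ ^ n) (γ x) = x
      rw [h1, ih]
  have hfin := Gam_proper (K := {x}) (Set.singleton_subset_iff.2 hx) isCompact_singleton
  have hmem : ∀ n : ℕ, γ ^ n ∈ {γ : V ≃ₗ[ℝ] V | γ ∈ Gam ∧ ∃ x' ∈ ({x} : Set V), γ x' ∈ ({x} : Set V)} :=
    fun n => ⟨Gam.pow_mem h n, x, rfl, hpow n⟩
  obtain ⟨a, -, b, -, hab, heq⟩ := Set.infinite_univ.exists_ne_map_eq_of_mapsTo
    (f := fun n : ℕ => γ ^ n) (fun n _ => hmem n) hfin
  have key : ∀ a b : ℕ, a < b → γ ^ a = γ ^ b → γ = 1 := by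
    intro a b hab heq
    apply Gam_torsion_free h (m := b - a) (by omega)
    have h2 : γ ^ a * γ ^ (b - a) = γ ^ a := by
      rw [← pow_add, Nat.add_sub_cancel' hab.le, heq]
    exact mul_eq_left.1 h2
  rcases lt_or_gt_of_ne hab with h2 | h2
  · exact key a b h2 heq
  · exact key b a h2 heq.symm

/-- A subset `L` of `Omg`, `Γ`-invariant, closed relative to `Omg`, contained in the union of the
`Γ`-translates of a compact subset of `Omg`, is closed in `V`. -/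
theorem isClosed_of_cocompact {L K : Set V} (hL : L ⊆ Omg) (hcl : ∃ F, IsClosed F ∧ L = F ∩ Omg)
    (hinv : ∀ γ ∈ Gam, ∀ x ∈ L, γ x ∈ L) (hK : IsCompact K) (hKO : K ⊆ Omg)
    (hcov : ∀ x ∈ L, ∃ γ ∈ Gam, γ x ∈ K) : IsClosed L := by
  obtain ⟨F, hF, rfl⟩ := hcl
  obtain ⟨C, hC⟩ := proper_bound hK (fun x hx => (hKO hx).1)
  apply isClosed_of_closure_subset
  intro x hx
  have hxF : x ∈ F := by
    have h1 : closure (F ∩ Omg) ⊆ F := closure_minimal Set.inter_subset_left hF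
    exact h1 hx
  refine ⟨hxF, ?_⟩
  let S : Set (V ≃ₗ[ℝ] V) := {γ | ∃ w : W, γ = act w ∧ nrm w ≤ |C| * (‖x‖ + 1)}
  have hS : S.Finite := finite_act _
  let K' : Set V := ⋃ γ ∈ S, γ '' K
  have hK' : IsCompact K' := by
    apply hS.isCompact_biUnion
    rintro γ ⟨w, rfl, -⟩
    exact hK.image (continuous_act w)
  have hK'O : K' ⊆ Omg := by
    intro y hy
    simp only [K', Set.mem_iUnion] at hy
    obtain ⟨γ, ⟨w, rfl, -⟩, z, hz, rfl⟩ := hy
    exact (act_mem_Omg w).2 (hKO hz)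
  by_contra hxO
  have hxK : x ∉ K' := fun h => hxO (hK'O h)
  have hopen : IsOpen (K'ᶜ ∩ Metric.ball x 1) := hK'.isClosed.isOpen_compl.inter Metric.isOpen_ball
  obtain ⟨y, ⟨hy1, hy2⟩, hy3⟩ := mem_closure_iff.1 hx _ hopen ⟨hxK, Metric.mem_ball_self one_pos⟩
  apply hy1
  obtain ⟨γ, ⟨w, rfl, -⟩, hγ⟩ := hcov y hy3
  simp only [K', Set.mem_iUnion]
  refine ⟨act w⁻¹, ⟨w⁻¹, rfl, ?_⟩, act w y, hγ, act_inv_act w y⟩
  have h2 := hC (act w y) hγ w⁻¹
  rw [act_inv_act] at h2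
  have h3 : ‖y‖ ≤ ‖x‖ + 1 := by
    have h4 : ‖y - x‖ < 1 := by rwa [← dist_eq_norm]
    calc ‖y‖ = ‖x + (y - x)‖ := by congr 1; abel
      _ ≤ ‖x‖ + ‖y - x‖ := norm_add_le _ _
      _ ≤ ‖x‖ + 1 := by linarith
  calc nrm w⁻¹ ≤ C * ‖y‖ := h2
    _ ≤ |C| * ‖y‖ := by gcongr; exact le_abs_self C
    _ ≤ |C| * (‖x‖ + 1) := by gcongr

end Pool.Agent.H93.KT
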