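import Pool.Agent.H93.KT.Dom1

set_option autoImplicit false

/-! MODULE Growth.  `rho0` is a strictly positive combination of 8 null vectors of the orbit of `λ₊` (up to
positive factors): with `μ = 1 ± √2/2`, `al 0 + μ • al 1` is a positive multiple of `lamp` (`+`: factor
`1+√2`) resp. `lamm` (`-`: factor `√2-1`), and successively applying `s₂, s₃, s₄`:
`al 0 + μ (al 1 + al 2)`, `al 0 + μ (al 1 + al 2 + al 3)`, `al 0 + μ (al 1 + al 2 + al 3 + al 4)`.
`rho0 = ∑_k c_k (…)` with all 8 coefficients positive (solve: with `c_k^±`, `∑ c = 10`, `∑ μ c = 12`,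
`∑_{k≥1} μ c = 11`, `∑_{k≥2} μ c = 10`, `∑_{k=3} μ c = 4`).  These vectors span `V`, so
`∑_j ‖act w v_j‖ ≥ c * nrm w`; hence `B x (act w rho0) = ∑ c_j B x (act w v_j) ≤ - ε c nrm w`.
Locally uniform: `x ∈ Cop` with `ε`; for `‖x' - x‖ ≤ ε/10` one has `ε/2` (`abs_B_le`). -/

namespace Pool.Agent.H93.KT

open Filter Topology

lemma Growth.s_al (i j : Fin 5) : act (cs.simple i) (al j) = al j - (Ca i j : ℝ) • al i := by
  rw [act_simple]
  have hG : (Gr i i : ℝ) * (Ca i j : ℝ) = 2 * (Gr j i : ℝ) := by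
    have e : ∀ i j : Fin 5, Gr i i * Ca i j = 2 * Gr j i := by decide +kernel
    exact_mod_cast e i j
  have hii : (Gr i i : ℝ) ≠ 0 := by
    have e : ∀ i : Fin 5, Gr i i ≠ 0 := by decide +kernel
    exact_mod_cast e i
  have hX : X i (al j) = - (Gr j i : ℝ) := by unfold X; rw [B_al]
  have h : 2 * X i (al j) / (Gr i i : ℝ) = - (Ca i j : ℝ) := by
    rw [hX, div_eq_iff hii]; linarith
  rw [h]; module

/-- `al 0 + μ • S` -/
noncomputable def Growth.nv (c : ℝ) (S : V) : V := al 0 + c • S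

noncomputable def Growth.mp : ℝ := 1 + √2 / 2
noncomputable def Growth.mm : ℝ := 1 - √2 / 2

lemma Growth.P0 : Growth.nv Growth.mp (al 1) = (1 + √2) • lamp := by
  have h2 := sq2
  ext i
  fin_cases i <;> simp [Growth.nv, Growth.mp, al, lamp] <;> nlinarith [h2]

lemma Growth.M0 : Growth.nv Growth.mm (al 1) = (√2 - 1) • lamm := by
  have h2 := sq2
  ext i
  fin_cases i <;> simp [Growth.nv, Growth.mm, al, lamm] <;> nlinarith [h2]

lemma Growth.s2 (c : ℝ) : act (cs.simple 2) (Growth.nv c (al 1)) = Growth.nv c (al 1 + al 2) := by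
  unfold Growth.nv
  rw [map_add, map_smul, Growth.s_al, Growth.s_al]
  have e0 : Ca 2 0 = 0 := rfl
  have e1 : Ca 2 1 = -1 := rfl
  rw [e0, e1]; push_cast; module

lemma Growth.s3 (c : ℝ) : act (cs.simple 3) (Growth.nv c (al 1 + al 2)) =
    Growth.nv c (al 1 + al 2 + al 3) := by
  unfold Growth.nv
  rw [map_add, map_smul, map_add, Growth.s_al, Growth.s_al, Growth.s_al]
  have e0 : Ca 3 0 = 0 := rfl
  have e1 : Ca 3 1 = 0 := rfl
  have e2 : Ca 3 2 = -1 := rfl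
  rw [e0, e1, e2]; push_cast; module

lemma Growth.s4 (c : ℝ) : act (cs.simple 4) (Growth.nv c (al 1 + al 2 + al 3)) =
    Growth.nv c (al 1 + al 2 + al 3 + al 4) := by
  unfold Growth.nv
  rw [map_add, map_smul, map_add, map_add, Growth.s_al, Growth.s_al, Growth.s_al, Growth.s_al]
  have e0 : Ca 4 0 = 0 := rfl
  have e1 : Ca 4 1 = 0 := rfl
  have e2 : Ca 4 2 = 0 := rfl
  have e3 : Ca 4 3 = -1 := rfl
  rw [e0, e1, e2, e3]; push_cast; module

/-- a nonnegative multiple of a vector of the orbit of `lamp` -/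
def Growth.Orb (v : V) : Prop := ∃ (a : ℝ) (u : W), 0 ≤ a ∧ v = a • act u lamp

lemma Growth.Orb.act {v : V} (h : Growth.Orb v) (w : W) : Growth.Orb (act w v) := by
  obtain ⟨a, u, ha, rfl⟩ := h
  exact ⟨a, w * u, ha, by rw [map_smul, act_mul]⟩

lemma Growth.oP0 : Growth.Orb (Growth.nv Growth.mp (al 1)) :=
  ⟨1 + √2, 1, by positivity, by rw [act_one, Growth.P0]⟩

lemma Growth.oM0 : Growth.Orb (Growth.nv Growth.mm (al 1)) := by
  refine ⟨√2 - 1, cs.simple 0, ?_, by rw [act_simple0_lamp, Growth.M0]⟩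
  have h2 := sq2
  have h0 : (0 : ℝ) ≤ √2 := Real.sqrt_nonneg 2
  nlinarith

lemma Growth.oP1 : Growth.Orb (Growth.nv Growth.mp (al 1 + al 2)) := by
  rw [← Growth.s2]; exact Growth.oP0.act _
lemma Growth.oM1 : Growth.Orb (Growth.nv Growth.mm (al 1 + al 2)) := by
  rw [← Growth.s2]; exact Growth.oM0.act _
lemma Growth.oP2 : Growth.Orb (Growth.nv Growth.mp (al 1 + al 2 + al 3)) := by
  rw [← Growth.s3]; exact Growth.oP1.act _
lemma Growth.oM2 : Growth.Orb (Growth.nv Growth.mm (al 1 + al 2 + al 3)) := by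
  rw [← Growth.s3]; exact Growth.oM1.act _
lemma Growth.oP3 : Growth.Orb (Growth.nv Growth.mp (al 1 + al 2 + al 3 + al 4)) := by
  rw [← Growth.s4]; exact Growth.oP2.act _
lemma Growth.oM3 : Growth.Orb (Growth.nv Growth.mm (al 1 + al 2 + al 3 + al 4)) := by
  rw [← Growth.s4]; exact Growth.oM2.act _

lemma Growth.orb_le {x v : V} {ε : ℝ} (hx : ∀ w, B x (act w lamp) ≤ -ε * ‖act w lamp‖)
    (h : Growth.Orb v) (w : W) : B x (act w v) ≤ - ε * ‖act w v‖ := by
  obtain ⟨a, u, ha, he⟩ := h.act w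
  rw [he, B_smul_right, norm_smul, Real.norm_eq_abs, abs_of_nonneg ha]
  have := mul_le_mul_of_nonneg_left (hx u) ha
  linarith

lemma Growth.rho_eq : rho0 = (1 / 2 : ℝ) • (Growth.nv Growth.mp (al 1)) +
    (1 / 2 : ℝ) • (Growth.nv Growth.mm (al 1)) +
    (1 / 2 : ℝ) • (Growth.nv Growth.mp (al 1 + al 2)) +
    (1 / 2 : ℝ) • (Growth.nv Growth.mm (al 1 + al 2)) +
    (2 + √2) • (Growth.nv Growth.mp (al 1 + al 2 + al 3)) +
    (2 - √2) • (Growth.nv Growth.mm (al 1 + al 2 + al 3)) +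
    (2 : ℝ) • (Growth.nv Growth.mp (al 1 + al 2 + al 3 + al 4)) +
    (2 : ℝ) • (Growth.nv Growth.mm (al 1 + al 2 + al 3 + al 4)) := by
  have h2 := sq2
  have h : rho0 = (10 : ℝ) • al 0 + (12 : ℝ) • al 1 + (11 : ℝ) • al 2 + (10 : ℝ) • al 3 +
      (4 : ℝ) • al 4 := by
    unfold rho0 cmb
    simp [Fin.sum_univ_five]
  have hc : (2 + √2) * Growth.mp + (2 - √2) * Growth.mm = 6 := by
    unfold Growth.mp Growth.mm; nlinarith [h2]
  have e : (2 + √2) • (Growth.nv Growth.mp (al 1 + al 2 + al 3)) +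
      (2 - √2) • (Growth.nv Growth.mm (al 1 + al 2 + al 3)) =
      (4 : ℝ) • al 0 + (6 : ℝ) • (al 1 + al 2 + al 3) := by
    rw [← hc]; unfold Growth.nv; module
  have e' : rho0 = (1 / 2 : ℝ) • (Growth.nv Growth.mp (al 1)) +
    (1 / 2 : ℝ) • (Growth.nv Growth.mm (al 1)) +
    (1 / 2 : ℝ) • (Growth.nv Growth.mp (al 1 + al 2)) +
    (1 / 2 : ℝ) • (Growth.nv Growth.mm (al 1 + al 2)) +
    ((2 + √2) • (Growth.nv Growth.mp (al 1 + al 2 + al 3)) +
    (2 - √2) • (Growth.nv Growth.mm (al 1 + al 2 + al 3))) +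
    (2 : ℝ) • (Growth.nv Growth.mp (al 1 + al 2 + al 3 + al 4)) +
    (2 : ℝ) • (Growth.nv Growth.mm (al 1 + al 2 + al 3 + al 4)) := by
    rw [e, h]
    unfold Growth.nv Growth.mp Growth.mm
    module
  rw [e']; abel

theorem rho0_X (i : Fin 5) : 0 < X i rho0 := by
  unfold rho0
  rw [X_cmb]
  fin_cases i <;> simp [Fin.sum_univ_five, Gr] <;> norm_num

theorem rho0_mem_Ch : rho0 ∈ Ch := fun i => (rho0_X i).le

theorem rho0_mem_PosCone : rho0 ∈ PosCone := by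
  intro i
  unfold rho0
  rw [rt_cmb]
  fin_cases i <;> simp

theorem B_rho0_neg : B rho0 rho0 < 0 := by
  have h : B rho0 rho0 = - ∑ i, (![10, 12, 11, 10, 4] : Fin 5 → ℝ) i * X i rho0 := by
    conv_lhs => rw [show B rho0 rho0 = B rho0 (cmb ![10, 12, 11, 10, 4]) from rfl]
    exact B_cmb _ _
  rw [h]
  simp only [Fin.sum_univ_five]
  have h0 := rho0_X 0
  have h1 := rho0_X 1
  have h2 := rho0_X 2
  have h3 := rho0_X 3
  have h4 := rho0_X 4
  simp
  linarith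

lemma Growth.aux {x : V} {ε : ℝ} (hε : 0 ≤ ε) (hx : ∀ w, B x (act w lamp) ≤ -ε * ‖act w lamp‖)
    (w : W) : B x (act w rho0) ≤ - (ε / 12) * nrm w := by
  have hs0 : (0 : ℝ) ≤ √2 := Real.sqrt_nonneg 2
  have hs2 := sq2
  have hs1 : √2 ≤ 2 := by nlinarith
  have hs3 : 1 ≤ √2 := by nlinarith
  set p0 := act w (Growth.nv Growth.mp (al 1)) with hp0
  set q0 := act w (Growth.nv Growth.mm (al 1)) with hq0
  set p1 := act w (Growth.nv Growth.mp (al 1 + al 2)) with hp1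
  set q1 := act w (Growth.nv Growth.mm (al 1 + al 2)) with hq1
  set p2 := act w (Growth.nv Growth.mp (al 1 + al 2 + al 3)) with hp2
  set q2 := act w (Growth.nv Growth.mm (al 1 + al 2 + al 3)) with hq2
  set p3 := act w (Growth.nv Growth.mp (al 1 + al 2 + al 3 + al 4)) with hp3
  set q3 := act w (Growth.nv Growth.mm (al 1 + al 2 + al 3 + al 4)) with hq3
  have bp0 := Growth.orb_le hx Growth.oP0 w
  have bq0 := Growth.orb_le hx Growth.oM0 w
  have bp1 := Growth.orb_le hx Growth.oP1 w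
  have bq1 := Growth.orb_le hx Growth.oM1 w
  have bp2 := Growth.orb_le hx Growth.oP2 w
  have bq2 := Growth.orb_le hx Growth.oM2 w
  have bp3 := Growth.orb_le hx Growth.oP3 w
  have bq3 := Growth.orb_le hx Growth.oM3 w
  rw [← hp0] at bp0
  rw [← hq0] at bq0
  rw [← hp1] at bp1
  rw [← hq1] at bq1
  rw [← hp2] at bp2
  rw [← hq2] at bq2
  rw [← hp3] at bp3
  rw [← hq3] at bq3
  have hrho : act w rho0 = (1 / 2 : ℝ) • p0 + (1 / 2 : ℝ) • q0 + (1 / 2 : ℝ) • p1 +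
      (1 / 2 : ℝ) • q1 + (2 + √2) • p2 + (2 - √2) • q2 + (2 : ℝ) • p3 + (2 : ℝ) • q3 := by
    rw [Growth.rho_eq]
    simp only [map_add, map_smul, hp0, hq0, hp1, hq1, hp2, hq2, hp3, hq3]
  have hB : B x (act w rho0) = (1 / 2 : ℝ) * B x p0 + (1 / 2 : ℝ) * B x q0 + (1 / 2 : ℝ) * B x p1 +
      (1 / 2 : ℝ) * B x q1 + (2 + √2) * B x p2 + (2 - √2) * B x q2 + (2 : ℝ) * B x p3 +
      (2 : ℝ) * B x q3 := by
    rw [hrho]; simp only [B_add_right, B_smul_right]
  -- norms of the roots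
  have hmp : 1 ≤ Growth.mp := by unfold Growth.mp; linarith
  have hmp2 : Growth.mp ≤ 2 := by unfold Growth.mp; linarith
  have n1 : ‖act w (al 1)‖ ≤ ‖p0‖ + ‖q0‖ := by
    have e : act w (al 1) = (√2)⁻¹ • (p0 - q0) := by
      rw [hp0, hq0, ← map_sub, ← map_smul]
      congr 1
      unfold Growth.nv Growth.mp Growth.mm
      rw [eq_inv_smul_iff₀ (by positivity)]
      module
    rw [e, norm_smul, norm_inv, Real.norm_eq_abs, abs_of_nonneg hs0]
    calc (√2)⁻¹ * ‖p0 - q0‖ ≤ 1 * ‖p0 - q0‖ := by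
          apply mul_le_mul_of_nonneg_right _ (norm_nonneg _)
          exact inv_le_one_of_one_le₀ hs3
      _ ≤ ‖p0‖ + ‖q0‖ := by rw [one_mul]; exact norm_sub_le _ _
  have n0 : ‖act w (al 0)‖ ≤ ‖p0‖ + 2 * (‖p0‖ + ‖q0‖) := by
    have e : act w (al 0) = p0 - Growth.mp • act w (al 1) := by
      rw [hp0, ← map_smul, ← map_sub]
      congr 1
      unfold Growth.nv
      module
    rw [e]
    refine (norm_sub_le _ _).trans ?_
    rw [norm_smul, Real.norm_eq_abs, abs_of_nonneg (by linarith)]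
    have := mul_le_mul hmp2 n1 (norm_nonneg _) (by norm_num)
    linarith
  have gen : ∀ (p q : V) (α : V), Growth.mp • act w α = p - q → ‖act w α‖ ≤ ‖p‖ + ‖q‖ := by
    intro p q α h
    have h1 : Growth.mp * ‖act w α‖ ≤ ‖p‖ + ‖q‖ := by
      calc Growth.mp * ‖act w α‖ = ‖Growth.mp • act w α‖ := by
            rw [norm_smul, Real.norm_eq_abs, abs_of_nonneg (by linarith)]
        _ ≤ ‖p‖ + ‖q‖ := by rw [h]; exact norm_sub_le _ _
    have h2 := norm_nonneg (act w α)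
    nlinarith
  have n2 : ‖act w (al 2)‖ ≤ ‖p1‖ + ‖p0‖ := by
    apply gen
    rw [hp1, hp0, ← map_sub, ← map_smul]
    congr 1
    unfold Growth.nv
    module
  have n3 : ‖act w (al 3)‖ ≤ ‖p2‖ + ‖p1‖ := by
    apply gen
    rw [hp1, hp2, ← map_sub, ← map_smul]
    congr 1
    unfold Growth.nv
    module
  have n4 : ‖act w (al 4)‖ ≤ ‖p3‖ + ‖p2‖ := by
    apply gen
    rw [hp3, hp2, ← map_sub, ← map_smul]
    congr 1
    unfold Growth.nv
    module
  have hn : nrm w ≤ 6 * (‖p0‖ + ‖q0‖ + ‖p1‖ + ‖p2‖ + ‖p3‖) := by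
    unfold nrm
    rw [Fin.sum_univ_five]
    have := norm_nonneg p0
    have := norm_nonneg q0
    have := norm_nonneg p1
    have := norm_nonneg p2
    have := norm_nonneg p3
    linarith
  have a0 := norm_nonneg p0
  have a1 := norm_nonneg q0
  have a2 := norm_nonneg p1
  have a3 := norm_nonneg q1
  have a4 := norm_nonneg p2
  have a5 := norm_nonneg q2
  have a6 := norm_nonneg p3
  have a7 := norm_nonneg q3
  have c2 : B x p2 ≤ 0 := bp2.trans (by nlinarith)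
  have c3 : B x q2 ≤ 0 := bq2.trans (by nlinarith)
  have c4 : B x q1 ≤ 0 := bq1.trans (by nlinarith)
  have c5 : B x q3 ≤ 0 := bq3.trans (by nlinarith)
  have c6 : B x p3 ≤ 0 := bp3.trans (by nlinarith)
  have d1 : (2 + √2) * B x p2 ≤ (1 / 2) * B x p2 := by nlinarith
  have d2 : (2 - √2) * B x q2 ≤ 0 := by nlinarith
  have d3 : B x (act w rho0) ≤ (1 / 2) * (B x p0 + B x q0 + B x p1 + B x p2 + B x p3) := by
    rw [hB]; linarith
  have d4 : ε / 12 * nrm w ≤ ε / 12 * (6 * (‖p0‖ + ‖q0‖ + ‖p1‖ + ‖p2‖ + ‖p3‖)) :=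
    mul_le_mul_of_nonneg_left hn (by positivity)
  linarith

theorem growth {x0 : V} (h : x0 ∈ Cop) :
    ∃ ε : ℝ, 0 < ε ∧ ∀ᶠ x in 𝓝 x0, ∀ w : W, B x (act w rho0) ≤ - ε * nrm w := by
  obtain ⟨ε, hε, hx⟩ := h
  refine ⟨ε / 2 / 12, by positivity, ?_⟩
  filter_upwards [Metric.ball_mem_nhds x0 (show 0 < ε / 10 by positivity)] with y hy
  apply Growth.aux (by positivity)
  intro w
  rw [Metric.mem_ball, dist_eq_norm] at hy
  have h1 : B y (act w lamp) = B x0 (act w lamp) + B (y - x0) (act w lamp) := by simp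
  have h2 := (abs_le.1 (abs_B_le (y - x0) (act w lamp))).2
  have h3 := hx w
  have h4 := norm_nonneg (act w lamp)
  rw [h1]
  nlinarith

theorem growth_compact {K : Set V} (hK : IsCompact K) (hKC : K ⊆ Cop) :
    ∃ ε : ℝ, 0 < ε ∧ ∀ x ∈ K, ∀ w : W, B x (act w rho0) ≤ - ε * nrm w := by
  refine hK.induction_on (p := fun S => ∃ ε : ℝ, 0 < ε ∧ ∀ x ∈ S, ∀ w : W,
    B x (act w rho0) ≤ - ε * nrm w) ?_ ?_ ?_ ?_
  · exact ⟨1, one_pos, by simp⟩
  · rintro S T hST ⟨ε, hε, h⟩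
    exact ⟨ε, hε, fun x hx => h x (hST hx)⟩
  · rintro S T ⟨ε, hε, h⟩ ⟨ε', hε', h'⟩
    refine ⟨min ε ε', lt_min hε hε', ?_⟩
    rintro x (hx | hx) w
    · have h1 := h x hx w
      have h2 := nrm_pos w
      have h3 := min_le_left ε ε'
      nlinarith
    · have h1 := h' x hx w
      have h2 := nrm_pos w
      have h3 := min_le_right ε ε'
      nlinarith
  · intro x hx
    obtain ⟨ε, hε, h⟩ := growth (hKC hx)
    exact ⟨_, mem_nhdsWithin_of_mem_nhds h, ε, hε, fun y hy => hy⟩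

end Pool.Agent.H93.KT
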