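import Pool.Agent.H93.KT.Dom3

set_option autoImplicit false

/-! MODULE Hf.  The functions `hf Qm`, `hf Qp` (`= -cos` of the past/future cosmological time). -/

namespace Pool.Agent.H93.KT

open Filter Topology

/-- A cell: a nonempty compact subset of `Ch ∩ AdS`. -/
def IsCell (Q : Set V) : Prop := IsCompact Q ∧ Q.Nonempty ∧ Q ⊆ Ch ∩ AdS

theorem isCell_Qm : IsCell Qm :=
  ⟨isCompact_Qm, Qm_nonempty, fun _ hx => ⟨hx.1, hx.2.1⟩⟩

theorem isCell_Qp : IsCell Qp :=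
  ⟨isCompact_Qp, Qp_nonempty, fun _ hx => ⟨hx.1, hx.2.1⟩⟩

/-- invariance -/
theorem hf_act (Q : Set V) (w : W) (x : V) : hf Q (act w x) = hf Q x := by
  unfold hf
  congr 1
  ext r
  constructor
  · rintro ⟨w', p, hp, rfl⟩
    exact ⟨w⁻¹ * w', p, hp, by rw [act_mul, B_act_left]⟩
  · rintro ⟨w', p, hp, rfl⟩
    exact ⟨w * w', p, hp, by rw [act_mul, B_act]⟩

/-- on the chamber the maximum is attained on the cell itself (`dom`, compactness) -/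
theorem hf_Ch {Q : Set V} (hQ : IsCell Q) {x : V} (hx : x ∈ Ch) :
    (∃ p ∈ Q, hf Q x = B x p) ∧ ∀ (w : W), ∀ p ∈ Q, B x (act w p) ≤ hf Q x := by
  obtain ⟨hc, hne, hs⟩ := hQ
  have hcont : Continuous fun p : V => B x p := by fun_prop
  obtain ⟨p0, hp0, hmax⟩ := hc.exists_isMaxOn hne hcont.continuousOn
  have hgr : IsGreatest {r | ∃ (w : W) (p : V), p ∈ Q ∧ r = B x (act w p)} (B x p0) := by
    constructor
    · exact ⟨1, p0, hp0, by rw [act_one]⟩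
    · rintro r ⟨w, p, hp, rfl⟩
      exact (dom hx (hs hp).1 w).trans (hmax hp)
  have h : hf Q x = B x p0 := hgr.csSup_eq
  refine ⟨⟨p0, hp0, h⟩, fun w p hp => ?_⟩
  rw [h]
  exact hgr.2 ⟨w, p, hp, rfl⟩

lemma Hf.le_hf_Ch {Q : Set V} (hQ : IsCell Q) {x : V} (hx : x ∈ Ch) {p : V} (hp : p ∈ Q) :
    B x p ≤ hf Q x := by
  have h := (hf_Ch hQ hx).2 1 p hp
  rwa [act_one] at h

/-- every value is bounded by `hf` -/
theorem le_hf {Q : Set V} (hQ : IsCell Q) {x : V} (hx : x ∈ Cop) (w : W) {p : V} (hp : p ∈ Q) :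
    B x (act w p) ≤ hf Q x := by
  obtain ⟨w0, hw0⟩ := exists_act_mem_Ch hx
  have h := (hf_Ch hQ hw0).2 (w0 * w) p hp
  rwa [act_mul, B_act, hf_act] at h

lemma Hf.bound {Q : Set V} (hQ : IsCell Q) : ∃ M : ℝ, 0 ≤ M ∧ ∀ p ∈ Q, ‖p‖ ≤ M := by
  obtain ⟨M, hM⟩ := hQ.1.isBounded.exists_norm_le
  obtain ⟨p, hp⟩ := hQ.2.1
  exact ⟨M, (norm_nonneg p).trans (hM p hp), hM⟩

lemma Hf.cont_aux {f : V → ℝ} {S : Set V} {x0 : V} {K : ℝ}
    (h : ∀ᶠ y in 𝓝[S] x0, ‖f y - f x0‖ ≤ K * ‖y - x0‖) : ContinuousWithinAt f S x0 := by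
  have hK : Tendsto (fun y : V => K * ‖y - x0‖) (𝓝[S] x0) (𝓝 0) := by
    have hc : Continuous fun y : V => K * ‖y - x0‖ := by fun_prop
    exact (hc.tendsto' x0 0 (by simp)).mono_left nhdsWithin_le_nhds
  exact tendsto_iff_norm_sub_tendsto_zero.2
    (squeeze_zero' (Eventually.of_forall fun _ => norm_nonneg _) h hK)

/-- continuity: near `x0 ∈ Cop` only finitely many operators `act w` with `act w x ∈ Ch` occur
(`chamber_locally_finite`, `finite_act`), so `hf Q` is the maximum of `B x ·` over a fixed compact set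
(`IsCompact.continuous_sSup` or a direct ε-argument with `abs_B_le`). -/
theorem hf_continuousOn {Q : Set V} (hQ : IsCell Q) : ContinuousOn (hf Q) Cop := by
  intro x0 hx0
  obtain ⟨M, hM0, hM⟩ := Hf.bound hQ
  obtain ⟨C1, hC1, h1⟩ := norm_act_le
  obtain ⟨C2, hC2, h2⟩ := nrm_inv_le
  obtain ⟨C, hC⟩ := chamber_locally_finite hx0
  have key : ∀ y z : V, y ∈ Cop → z ∈ Cop → (∀ w : W, act w y ∈ Ch → nrm w ≤ C) →
      hf Q y - hf Q z ≤ 5 * (C1 * (C2 * C) * M) * ‖y - z‖ := by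
    intro y z hy hz hyC
    obtain ⟨w, hw⟩ := exists_act_mem_Ch hy
    obtain ⟨p, hp, hpe⟩ := (hf_Ch hQ hw).1
    rw [hf_act, B_act_left] at hpe
    have hle := le_hf hQ hz w⁻¹ hp
    have h3 : hf Q y - hf Q z ≤ B (y - z) (act w⁻¹ p) := by
      rw [B_sub_left]; linarith
    have h4 : ‖act w⁻¹ p‖ ≤ C1 * (C2 * C) * M := by
      have h5 := h1 w⁻¹ p
      have h6 : nrm w⁻¹ ≤ C2 * C := (h2 w).trans (mul_le_mul_of_nonneg_left (hyC w hw) hC2.le)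
      calc ‖act w⁻¹ p‖ ≤ C1 * nrm w⁻¹ * ‖p‖ := h5
        _ ≤ C1 * (C2 * C) * M := by
          apply mul_le_mul (mul_le_mul_of_nonneg_left h6 hC1.le) (hM p hp) (norm_nonneg _)
          exact mul_nonneg hC1.le ((nrm_pos w⁻¹).le.trans h6)
    have h7 := (abs_le.1 (abs_B_le (y - z) (act w⁻¹ p))).2
    calc hf Q y - hf Q z ≤ B (y - z) (act w⁻¹ p) := h3
      _ ≤ 5 * ‖y - z‖ * ‖act w⁻¹ p‖ := h7
      _ ≤ 5 * ‖y - z‖ * (C1 * (C2 * C) * M) := by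
          apply mul_le_mul_of_nonneg_left h4
          positivity
      _ = 5 * (C1 * (C2 * C) * M) * ‖y - z‖ := by ring
  apply Hf.cont_aux (K := 5 * (C1 * (C2 * C) * M))
  have hC0 := hC.self_of_nhds
  filter_upwards [hC.filter_mono nhdsWithin_le_nhds, self_mem_nhdsWithin] with y hyC hy
  rw [Real.norm_eq_abs, abs_sub_le_iff]
  refine ⟨key y x0 hy hx0 hyC, ?_⟩
  have h := key x0 y hx0 hy hC0
  rwa [norm_sub_rev x0 y] at h

theorem hf_continuousOn_ChAdS {Q : Set V} (hQ : IsCell Q) : ContinuousOn (hf Q) (Ch ∩ AdS) := by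
  intro x0 hx0
  obtain ⟨M, hM0, hM⟩ := Hf.bound hQ
  have key : ∀ y z : V, y ∈ Ch → z ∈ Ch → hf Q y - hf Q z ≤ 5 * M * ‖y - z‖ := by
    intro y z hy hz
    obtain ⟨p, hp, hpe⟩ := (hf_Ch hQ hy).1
    have hle := Hf.le_hf_Ch hQ hz hp
    have h7 := (abs_le.1 (abs_B_le (y - z) p)).2
    calc hf Q y - hf Q z ≤ B (y - z) p := by rw [B_sub_left]; linarith
      _ ≤ 5 * ‖y - z‖ * ‖p‖ := h7
      _ ≤ 5 * ‖y - z‖ * M := by
          apply mul_le_mul_of_nonneg_left (hM p hp)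
          positivity
      _ = 5 * M * ‖y - z‖ := by ring
  apply Hf.cont_aux (K := 5 * M)
  filter_upwards [self_mem_nhdsWithin] with y hy
  rw [Real.norm_eq_abs, abs_sub_le_iff]
  refine ⟨key y x0 hy.1 hx0.1, ?_⟩
  have h := key x0 y hx0.1 hy.1
  rwa [norm_sub_rev x0 y] at h

/-- (H1) -/
theorem hf_Qm_bounds {x : V} (hx : x ∈ Omg) : -1 < hf Qm x ∧ hf Qm x < 1 := by
  obtain ⟨w, hCh, hO, h0, h1⟩ := exists_Omg_Ch hx
  rw [← hf_act Qm w x]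
  constructor
  · obtain ⟨p, hp, hlt⟩ := exists_Qm_gt hCh hO.2 h0 h1
    exact hlt.trans_le (Hf.le_hf_Ch isCell_Qm hCh hp)
  · obtain ⟨p, hp, hpe⟩ := (hf_Ch isCell_Qm hCh).1
    rw [hpe]
    have h := B_Qm_le hCh hO.2 hp
    linarith

theorem hf_Qp_bounds {x : V} (hx : x ∈ Omg) : -1 < hf Qp x ∧ hf Qp x < 1 := by
  obtain ⟨w, hCh, hO, h0, h1⟩ := exists_Omg_Ch hx
  rw [← hf_act Qp w x]
  constructor
  · obtain ⟨p, hp, hlt⟩ := exists_Qp_gt hCh hO.2 h0 h1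
    exact hlt.trans_le (Hf.le_hf_Ch isCell_Qp hCh hp)
  · obtain ⟨p, hp, hpe⟩ := (hf_Ch isCell_Qp hCh).1
    rw [hpe]
    have h := B_Qp_le hCh hO.2 hp
    linarith

theorem hf_Qm_on_Qm {x : V} (hx : x ∈ Qm) : hf Qm x = -1 ∧ 0 < hf Qp x := by
  have hCh : x ∈ Ch := hx.1
  have hA : B x x = -1 := hx.2.1
  constructor
  · apply le_antisymm
    · obtain ⟨p, hp, hpe⟩ := (hf_Ch isCell_Qm hCh).1
      rw [hpe]
      exact B_Qm_Qm hx hp
    · rw [← hA]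
      exact Hf.le_hf_Ch isCell_Qm hCh hx
  · obtain ⟨q, hq⟩ := Qp_nonempty
    exact (B_Qm_Qp hx hq).1.trans_le (Hf.le_hf_Ch isCell_Qp hCh hq)

theorem hf_Qp_on_Qp {x : V} (hx : x ∈ Qp) : hf Qp x = -1 ∧ 0 < hf Qm x := by
  have hCh : x ∈ Ch := hx.1
  have hA : B x x = -1 := hx.2.1
  constructor
  · apply le_antisymm
    · obtain ⟨p, hp, hpe⟩ := (hf_Ch isCell_Qp hCh).1
      rw [hpe]
      exact B_Qp_Qp hx hp
    · rw [← hA]
      exact Hf.le_hf_Ch isCell_Qp hCh hx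
  · obtain ⟨p, hp⟩ := Qm_nonempty
    have h := (B_Qm_Qp hp hx).1
    rw [B_comm] at h
    exact h.trans_le (Hf.le_hf_Ch isCell_Qm hCh hp)

end Pool.Agent.H93.KT
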