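import Pool.Agent.H93.KT.Lor1

set_option autoImplicit false

/-! MODULE Lor2.
`causal_relation`: let `N` be a future unit timelike tangent vector at `c a`, `y_ε = cos ε • c a - sin ε • N`
(in `AdS`, `B (c a) y_ε = -cos ε`, `om (c a) y_ε < 0`).  As long as `|B (c s) y_ε| < 1`, `om (c s) y_ε < 0` (it cannot
vanish, `om_ne_zero_of_timelike`) and `B (c s) y_ε` increases (`B_pos_of_past`).  For small `ε`,
`B (c s) y_ε < 1` on the compact `[a,b]`; so `B (c b) y_ε ≥ -cos ε`; let `ε → 0`.
`geod_seg`: timelike case `c τ = cos τ • x + sin τ • X` with `X = (y - cos d • x)/sin d`, `cos d = -B x y`,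
`d ∈ (0,π)`; null case `B x y = -1`: `c τ = (1-τ) • x + τ • y`, `τ ∈ [0,1]`. -/

namespace Pool.Agent.H93.KT

open Filter Topology

/-- a future directed unit timelike tangent vector at `x ∈ AdS` -/
theorem exists_unit_future {x : V} (hx : x ∈ AdS) : ∃ n : V, B x n = 0 ∧ B n n = -1 ∧ 0 < om x n := by
  have hx' : B x x = -1 := hx
  have hpos : 0 < x 3 ^ 2 + x 4 ^ 2 := by
    unfold B at hx'
    nlinarith [sq_nonneg (x 0), sq_nonneg (x 1), sq_nonneg (x 2)]
  set r := √(x 3 ^ 2 + x 4 ^ 2) with hr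
  have hr0 : 0 < r := Real.sqrt_pos.2 hpos
  have hr2 : r ^ 2 = x 3 ^ 2 + x 4 ^ 2 := Real.sq_sqrt hpos.le
  refine ⟨![0, 0, 0, - x 4 / r, x 3 / r], ?_, ?_, ?_⟩
  · simp [B]; ring
  · have : B ![0, 0, 0, - x 4 / r, x 3 / r] ![0, 0, 0, - x 4 / r, x 3 / r] =
        - ((x 3 ^ 2 + x 4 ^ 2) / r ^ 2) := by
      simp [B]; ring
    rw [this, ← hr2, div_self (by positivity)]
  · have : om x ![0, 0, 0, - x 4 / r, x 3 / r] = (x 3 ^ 2 + x 4 ^ 2) / r := by
      simp [om]; ring
    rw [this]
    positivity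

/-- comparison of a causal curve with points slightly in the past of its origin -/
theorem causal_aux {c : ℝ → V} {a b : ℝ} (hab : a ≤ b) (hc : CausalSeg AdS c a b)
    (h : ∀ s ∈ Set.Icc a b, B (c s) (c a) < 1) : ∃ y : ℝ → V, Tendsto y (𝓝[>] 0) (𝓝 (c a)) ∧
      ∀ᶠ ε in 𝓝[>] (0 : ℝ), B (c a) (y ε) = - Real.cos ε ∧
        (∀ s ∈ Set.Icc a b, - Real.cos ε ≤ B (c s) (y ε) ∧ om (c s) (y ε) < 0) ∧
        (a < b → - Real.cos ε < B (c b) (y ε)) := by
  obtain ⟨hcd, hcs⟩ := hc
  have hcc : Continuous c := hcd.continuous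
  have haI : a ∈ Set.Icc a b := ⟨le_rfl, hab⟩
  have haA : c a ∈ AdS := (hcs a haI).1
  have haB : B (c a) (c a) = -1 := haA
  obtain ⟨n, hn1, hn2, hn3⟩ := exists_unit_future haA
  have hn1' : B n (c a) = 0 := by rw [B_comm]; exact hn1
  set y : ℝ → V := fun ε => Real.cos ε • c a - Real.sin ε • n with hy
  have hyc : Continuous y := by rw [hy]; fun_prop
  have hy0 : y 0 = c a := by simp [hy]
  have hyt : Tendsto y (𝓝[>] 0) (𝓝 (c a)) := by
    rw [← hy0]
    exact (hyc.tendsto 0).mono_left nhdsWithin_le_nhds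
  refine ⟨y, hyt, ?_⟩
  -- the uniform bound `B (c s) (y ε) < 1`
  have hlt : ∀ᶠ ε in 𝓝[>] (0 : ℝ), ∀ s ∈ Set.Icc a b, B (c s) (y ε) < 1 := by
    have hcomp : IsCompact (Set.Icc a b) := isCompact_Icc
    obtain ⟨s0, hs0, hmax⟩ := hcomp.exists_isMaxOn ⟨a, haI⟩
      (f := fun s => B (c s) (c a)) (by fun_prop)
    obtain ⟨M, hM⟩ := hcomp.exists_bound_of_continuousOn hcc.continuousOn
    have hm : B (c s0) (c a) < 1 := h s0 hs0
    have hM0 : 0 ≤ M := (norm_nonneg _).trans (hM a haI)
    have ht : Tendsto (fun ε => 5 * M * ‖y ε - c a‖) (𝓝[>] 0) (𝓝 0) := by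
      have : Tendsto (fun ε => 5 * M * ‖y ε - c a‖) (𝓝[>] 0) (𝓝 (5 * M * ‖c a - c a‖)) :=
        ((hyt.sub_const (c a)).norm).const_mul (5 * M)
      simpa using this
    have hev := ht.eventually (gt_mem_nhds (by linarith : (0 : ℝ) < 1 - B (c s0) (c a)))
    filter_upwards [hev] with ε hε s hs
    have h1 : B (c s) (y ε) = B (c s) (c a) + B (c s) (y ε - c a) := by simp
    have h2 : B (c s) (c a) ≤ B (c s0) (c a) := hmax hs
    have h3 : B (c s) (y ε - c a) ≤ 5 * ‖c s‖ * ‖y ε - c a‖ :=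
      (le_abs_self _).trans (abs_B_le _ _)
    have h4 : 5 * ‖c s‖ * ‖y ε - c a‖ ≤ 5 * M * ‖y ε - c a‖ := by
      have := hM s hs
      gcongr
    linarith
  have hsmall : ∀ᶠ ε in 𝓝[>] (0 : ℝ), ε < 1 :=
    nhdsWithin_le_nhds (gt_mem_nhds (by norm_num : (0 : ℝ) < 1))
  filter_upwards [hlt, hsmall, self_mem_nhdsWithin] with ε hlt hε1 hε0
  have hε0' : 0 < ε := hε0
  have hεπ : ε < Real.pi / 2 := by linarith [Real.pi_gt_three]
  have hcos : 0 < Real.cos ε := Real.cos_pos_of_mem_Ioo ⟨by linarith, hεπ⟩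
  have hsin : 0 < Real.sin ε := Real.sin_pos_of_pos_of_lt_pi hε0' (by linarith)
  have hsc := Real.sin_sq_add_cos_sq ε
  have hcos1 : Real.cos ε < 1 := by nlinarith
  have hBa : B (c a) (y ε) = - Real.cos ε := by
    simp [hy, haB, hn1]
  have hyA : y ε ∈ AdS := by
    change B (y ε) (y ε) = -1
    simp only [hy, B_sub_left, B_sub_right, B_smul_left, B_smul_right, haB, hn1, hn2, hn1']
    linarith
  have hom : om (c a) (y ε) < 0 := by
    simp only [hy, om_sub_right, om_smul_right, om_self]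
    nlinarith [mul_pos hsin hn3]
  have hder : ∀ s, HasDerivAt (fun s => B (c s) (y ε)) (B (deriv c s) (y ε)) s := fun s =>
    hasDerivAt_B_left (hcd.differentiable one_ne_zero s).hasDerivAt (y ε)
  have hall : Set.Icc a b ⊆ {s | - Real.cos ε ≤ B (c s) (y ε) ∧ om (c s) (y ε) ≤ 0} := by
    refine IsClosed.Icc_subset_of_forall_mem_nhdsWithin ?_ ⟨hBa.ge, hom.le⟩ ?_
    · have h1 : IsClosed {s | - Real.cos ε ≤ B (c s) (y ε)} :=
        isClosed_le continuous_const (by fun_prop)
      have h2 : IsClosed {s | om (c s) (y ε) ≤ 0} := isClosed_le (by fun_prop) continuous_const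
      exact (h1.inter h2).inter isClosed_Icc
    · rintro s ⟨⟨hs1, hs2⟩, hs3⟩
      have hsI : s ∈ Set.Icc a b := ⟨hs3.1, hs3.2.le⟩
      have hb1 : -1 < B (c s) (y ε) := by linarith
      have hb2 := hlt s hsI
      have ho : om (c s) (y ε) < 0 :=
        lt_of_le_of_ne hs2 (om_ne_zero_of_timelike (hcs s hsI).1 hyA hb1 hb2)
      have hp : 0 < B (deriv c s) (y ε) := B_pos_of_past (hcs s hsI).1 hyA (hcs s hsI).2 hb1 hb2 ho
      have e1 : ∀ᶠ t in 𝓝[>] s, B (c s) (y ε) < B (c t) (y ε) := by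
        have h3 := (hasDerivAt_iff_tendsto_slope.1 (hder s)).mono_left
          (nhdsWithin_mono s (fun t (ht : s < t) => ht.ne') : 𝓝[>] s ≤ 𝓝[≠] s)
        have h4 := h3.eventually (lt_mem_nhds hp)
        filter_upwards [h4, self_mem_nhdsWithin] with t ht1 ht2
        have ht2' : 0 < t - s := sub_pos.2 ht2
        rw [slope_def_field] at ht1
        have := (div_pos_iff_of_pos_right ht2').1 ht1
        linarith
      have e2 : ∀ᶠ t in 𝓝[>] s, om (c t) (y ε) < 0 := by
        have hcont : Continuous fun t => om (c t) (y ε) := by fun_prop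
        exact nhdsWithin_le_nhds ((hcont.tendsto s).eventually (gt_mem_nhds ho))
      filter_upwards [e1, e2] with t h1 h2
      exact ⟨by linarith, h2.le⟩
  have hall' : ∀ s ∈ Set.Icc a b, - Real.cos ε ≤ B (c s) (y ε) ∧ om (c s) (y ε) < 0 := by
    intro s hs
    obtain ⟨h1, h2⟩ := hall hs
    exact ⟨h1, lt_of_le_of_ne h2 (om_ne_zero_of_timelike (hcs s hs).1 hyA (by linarith)
      (hlt s hs))⟩
  refine ⟨hBa, hall', fun hab' => ?_⟩
  have hmono : StrictMonoOn (fun s => B (c s) (y ε)) (Set.Icc a b) := by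
    refine strictMonoOn_of_deriv_pos (convex_Icc a b) (by fun_prop) fun s hs => ?_
    have hsI : s ∈ Set.Icc a b := interior_subset hs
    rw [(hder s).deriv]
    obtain ⟨h1, h2⟩ := hall' s hsI
    exact B_pos_of_past (hcs s hsI).1 hyA (hcs s hsI).2 (by linarith) (hlt s hsI) h2
  have := hmono haI ⟨hab, le_rfl⟩ hab'
  simp only at this
  rwa [hBa] at this

theorem causal_relation {c : ℝ → V} {a b : ℝ} (hab : a ≤ b) (hc : CausalSeg AdS c a b)
    (h : ∀ s ∈ Set.Icc a b, B (c s) (c a) < 1) : -1 ≤ B (c b) (c a) := by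
  obtain ⟨y, hyt, hev⟩ := causal_aux hab hc h
  have h1 : Tendsto (fun ε => B (c b) (y ε)) (𝓝[>] 0) (𝓝 (B (c b) (c a))) :=
    tendsto_B tendsto_const_nhds hyt
  have h2 : Tendsto (fun ε => - Real.cos ε) (𝓝[>] (0 : ℝ)) (𝓝 (-1)) := by
    have : Tendsto (fun ε => - Real.cos ε) (𝓝[>] (0 : ℝ)) (𝓝 (- Real.cos 0)) :=
      ((Real.continuous_cos.neg).tendsto 0).mono_left nhdsWithin_le_nhds
    simpa using this
  refine le_of_tendsto_of_tendsto h2 h1 ?_
  filter_upwards [hev] with ε hε
  exact (hε.2.1 b ⟨hab, le_rfl⟩).1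

/-- moreover the end point is not in the past -/
theorem causal_om {c : ℝ → V} {a b : ℝ} (hab : a < b) (hc : CausalSeg AdS c a b)
    (h : ∀ s ∈ Set.Icc a b, B (c s) (c a) < 1) : 0 < om (c a) (c b) := by
  obtain ⟨y, hyt, hev⟩ := causal_aux hab.le hc h
  have hrel := causal_relation hab.le hc h
  have hbI : b ∈ Set.Icc a b := ⟨hab.le, le_rfl⟩
  have haI : a ∈ Set.Icc a b := ⟨le_rfl, hab.le⟩
  have haA : c a ∈ AdS := (hc.2 a haI).1
  have hbA : c b ∈ AdS := (hc.2 b hbI).1
  have haB : B (c a) (c a) = -1 := haA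
  have hbB : B (c b) (c b) = -1 := hbA
  by_contra hneg
  push Not at hneg
  have h0 : om (c b) (c a) ≤ 0 := by
    have h1 : Tendsto (fun ε => om (c b) (y ε)) (𝓝[>] 0) (𝓝 (om (c b) (c a))) :=
      tendsto_om tendsto_const_nhds hyt
    refine le_of_tendsto h1 ?_
    filter_upwards [hev] with ε hε
    exact (hε.2.1 b hbI).2.le
  have hom : om (c a) (c b) = 0 := by
    have := om_antisymm (c a) (c b)
    linarith
  have hsymm : B (c a) (c b) = B (c b) (c a) := B_comm _ _
  rcases hrel.lt_or_eq with hlt | heq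
  · exact om_ne_zero_of_timelike haA hbA (by rw [hsymm]; exact hlt)
      (by rw [hsymm]; exact h b hbI) hom
  · have hk0 : c b - c a = 0 := by
      by_contra hk
      refine om_ne_zero (X := c b - c a) haA ?_ ?_ hk ?_
      · rw [B_sub_right, hsymm, ← heq, haB]; ring
      · simp only [B_sub_left, B_sub_right, haB, hbB, hsymm, ← heq]; norm_num
      · rw [om_sub_right, om_self, hom, sub_zero]
    have hcb : c b = c a := sub_eq_zero.1 hk0
    obtain ⟨ε, h1, -, h3⟩ := hev.exists
    have := h3 hab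
    rw [hcb, h1] at this
    exact lt_irrefl _ this

/-- the geodesic segment of `AdS` between `x` and `y` -/
def seg (x y : V) : Set V := {z | z ∈ AdS ∧ ∃ s t : ℝ, 0 ≤ s ∧ 0 ≤ t ∧ z = s • x + t • y}

theorem geod_seg {x y : V} (hx : x ∈ AdS) (hy : y ∈ AdS) (h1 : -1 ≤ B x y) (h2 : B x y < 1)
    (ho : 0 < om x y) :
    ∃ (c : ℝ → V) (a b : ℝ), a < b ∧ CausalSeg (seg x y) c a b ∧ c a = x ∧ c b = y := by
  have hx' : B x x = -1 := hx
  have hy' : B y y = -1 := hy
  have hyx : B y x = B x y := B_comm _ _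
  have hoyx : om y x = - om x y := om_antisymm _ _
  rcases h1.lt_or_eq with hlt | heq
  · -- timelike case
    set d := Real.arccos (- B x y) with hd
    have hcosd : Real.cos d = - B x y := Real.cos_arccos (by linarith) (by linarith)
    have hd0 : 0 < d := Real.arccos_pos.2 (by linarith)
    have hdπ : d < Real.pi := by
      refine lt_of_le_of_ne (Real.arccos_le_pi _) fun hπ => ?_
      rw [hπ, Real.cos_pi] at hcosd
      linarith
    have hsd : 0 < Real.sin d := Real.sin_pos_of_pos_of_lt_pi hd0 hdπ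
    have hscd := Real.sin_sq_add_cos_sq d
    set X : V := (1 / Real.sin d) • (y - Real.cos d • x) with hX
    have hxX : B x X = 0 := by
      simp only [hX, B_smul_right, B_sub_right, hx', hcosd]
      ring
    have hXx : B X x = 0 := by rw [B_comm]; exact hxX
    have hXX : B X X = -1 := by
      have : B X X = (1 / Real.sin d) ^ 2 * (- 1 + Real.cos d ^ 2) := by
        simp only [hX, B_smul_right, B_smul_left, B_sub_left, B_sub_right, hx', hy', hyx, hcosd]
        ring
      rw [this]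
      have : - 1 + Real.cos d ^ 2 = - Real.sin d ^ 2 := by linarith
      rw [this]
      field_simp
    have homX : om x X = om x y / Real.sin d := by
      simp only [hX, om_smul_right, om_sub_right, om_self]
      ring
    have homX0 : 0 < om x X := by rw [homX]; positivity
    have homXx : om X x = - om x X := om_antisymm _ _
    set c : ℝ → V := fun τ => Real.cos τ • x + Real.sin τ • X with hc
    have hcd : ContDiff ℝ 1 c := by
      rw [hc]
      exact (Real.contDiff_cos.smul contDiff_const).add (Real.contDiff_sin.smul contDiff_const)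
    have hder : ∀ τ, HasDerivAt c (-Real.sin τ • x + Real.cos τ • X) τ := fun τ =>
      ((Real.hasDerivAt_cos τ).smul_const x).add ((Real.hasDerivAt_sin τ).smul_const X)
    refine ⟨c, 0, d, hd0, ⟨hcd, fun τ hτ => ?_⟩, by simp [hc], ?_⟩
    · have hsc := Real.sin_sq_add_cos_sq τ
      rw [(hder τ).deriv]
      refine ⟨⟨?_, Real.sin (d - τ) / Real.sin d, Real.sin τ / Real.sin d, ?_, ?_, ?_⟩, ?_, ?_, ?_⟩
      · change B (c τ) (c τ) = -1
        simp only [hc, B_add_left, B_add_right, B_smul_left, B_smul_right, hx', hXx, hxX, hXX]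
        linarith
      · have : 0 ≤ Real.sin (d - τ) := Real.sin_nonneg_of_nonneg_of_le_pi
          (by linarith [hτ.2]) (by linarith [hτ.1])
        positivity
      · have : 0 ≤ Real.sin τ := Real.sin_nonneg_of_nonneg_of_le_pi hτ.1 (by linarith [hτ.2])
        positivity
      · simp only [hc, hX]
        rw [Real.sin_sub, smul_smul, smul_sub, smul_smul]
        have e : Real.cos τ • x = ((Real.sin d * Real.cos τ) / Real.sin d) • x := by
          rw [mul_comm, mul_div_assoc, div_self hsd.ne', mul_one]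
        rw [e]
        module
      · simp only [hc, B_add_left, B_add_right, B_smul_left, B_smul_right, hx', hXx, hxX, hXX]
        ring
      · simp only [B_add_left, B_add_right, B_smul_left, B_smul_right, hx', hXx, hxX, hXX]
        nlinarith
      · simp only [hc, om_add_left, om_add_right, om_smul_left, om_smul_right, om_self, homXx]
        nlinarith
    · simp only [hc, hX]
      rw [smul_smul, mul_one_div_cancel hsd.ne', one_smul]
      abel
  · -- null case
    set c : ℝ → V := fun τ => (1 - τ) • x + τ • y with hc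
    have hcd : ContDiff ℝ 1 c := by
      rw [hc]
      exact ((contDiff_const.sub contDiff_id).smul contDiff_const).add
        (contDiff_id.smul contDiff_const)
    have hder : ∀ τ, HasDerivAt c (y - x) τ := by
      intro τ
      have h := (((hasDerivAt_id τ).const_sub 1).smul_const x).add
        ((hasDerivAt_id τ).smul_const y)
      have e : (-1 : ℝ) • x + (1 : ℝ) • y = y - x := by module
      rw [e] at h
      exact h
    refine ⟨c, 0, 1, one_pos, ⟨hcd, fun τ hτ => ?_⟩, by simp [hc], by simp [hc]⟩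
    rw [(hder τ).deriv]
    refine ⟨⟨?_, 1 - τ, τ, by linarith [hτ.2], hτ.1, rfl⟩, ?_, ?_, ?_⟩
    · change B (c τ) (c τ) = -1
      simp only [hc, B_add_left, B_add_right, B_smul_left, B_smul_right, hx', hy', hyx, ← heq]
      ring
    · simp only [hc, B_add_left, B_sub_right, B_smul_left, hx', hy', hyx, ← heq]
      ring
    · simp only [B_sub_left, B_sub_right, hx', hy', hyx, ← heq]
      norm_num
    · simp only [hc, om_add_left, om_sub_right, om_smul_left, om_self, hoyx]
      nlinarith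

theorem CausalSeg_mono {U U' : Set V} {c : ℝ → V} {a b a' b' : ℝ} (h : CausalSeg U c a b)
    (hU : U ⊆ U') (ha : a ≤ a') (hb : b' ≤ b) : CausalSeg U' c a' b' :=
  ⟨h.1, fun s hs => ⟨hU (h.2 s ⟨ha.trans hs.1, hs.2.trans hb⟩).1,
    (h.2 s ⟨ha.trans hs.1, hs.2.trans hb⟩).2⟩⟩

theorem CausalSeg_act {c : ℝ → V} {a b : ℝ} (w : W) {U : Set V} (hU : U ⊆ AdS)
    (h : CausalSeg U c a b) : CausalSeg (act w '' U) (fun s => act w (c s)) a b := by
  obtain ⟨h1, h2⟩ := h
  set L : V →L[ℝ] V := LinearMap.toContinuousLinearMap (act w).toLinearMap with hL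
  have hL' : ∀ x, L x = act w x := fun x => rfl
  refine ⟨?_, fun s hs => ?_⟩
  · exact L.contDiff.comp h1
  · obtain ⟨h3, h4⟩ := h2 s hs
    refine ⟨⟨c s, h3, rfl⟩, ?_⟩
    have hd : HasDerivAt (fun s => act w (c s)) (act w (deriv c s)) s :=
      L.hasFDerivAt.comp_hasDerivAt s (h1.differentiable one_ne_zero s).hasDerivAt
    rw [hd.deriv]
    exact act_future w (hU h3) h4

end Pool.Agent.H93.KT
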