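import Pool.Agent.H93.KT.Gam
import Pool.Agent.H93.KT.Lor2

set_option autoImplicit false

/-! MODULE KCore.  (K1)-(K3): the convex core and its past.
`yl_mem_CC`: let `A` be in the family, `z ∈ A`, `gg ^ N ∈ Γ`.  `z 4 > |z 2|` (`B_lamp_neg`, `B_lamm_neg`);
`z = z' + ((z4-z2)/2) lamp + ((z4+z2)/2) lamm`, `z' = ![z0,z1,0,z3,0]` fixed by `gg`.
`u_n = s_n • act (gg^(N n)) z + t_n • act (gg⁻¹^(N n)) z` with `k = 3+2√2`,
`s_n = exp s / (k^(N n) (z4+z2))`, `t_n = exp (-s) / (k^(N n) (z4-z2))` tends to `yl s` (`yl_eq`); normalise: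
`(√(-B u_n u_n))⁻¹ • u_n ∈ A` tends to `yl s ∈ Omg`, `A` is closed in `Omg`.
`CC_core`: the intersection is nonempty (contains `yl 0`), and the other properties pass to intersections.
`pp_mem_Cbar`: on the segment, `pp 0 (-t)` (`0 ≤ t ≤ 1`) is in `Ch` (`X 0 = X 1 = X 3 = 0`, ...).  On the disc: choose `u`
in the finite group `⟨s₃, s₄⟩` (12 elements; or maximise `B (act u p) rho0` over it) with `X 3, X 4 ≥ 0` for
`act u (pp a b)`; `u` fixes `x 2 = 0, x 4 = 0, x 3` and the euclidean norm of `(x 0, x 1)`, and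
`X 2 (pp a' b') = a' + √3 b' + (√6/2) √(1+a'²+b'²) > 0` for `a'²+b'² ≤ 1/100`.
Not in `Cop`: `B p lamp = 0`.
`cc_mem_Past`: not in `CC` because `A0 = {x ∈ Omg | ∀ w, B x (act w (Vd 0)) ≤ 0}` is in the family (contains
`rho0/√(-B rho0 rho0)`: `dom_nonpos`), and for `0 ≤ s ≤ log (3+2√2)` and small `τ`, `B (cc a b s τ) (Vd 0) > 0`
(`B (pp a b) (Vd 0) = √(1+a²+b²) √6/3`); general `s`: `gg ^ m` moves `cc a b s τ` to `cc a b (s + m log(3+2√2)) τ`
and `A0` is `W`-invariant.  In the past of `yl s ∈ CC` along `τ' ↦ cc a b s τ'`, `τ' ∈ [τ, π/2]`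
(`mem_Omg_of_combo`; `om (cc τ) (cc' τ) = om (pp a b) (yl s) > 0`). -/

namespace Pool.Agent.H93.KT

open Filter Topology

/-- The convex core. -/
def CC : Set V := ⋂₀ {A | IsClosedConvex Gam Omg A}

/-! ### the translation -/

lemma kk_mul : (3 - 2 * √2) * (3 + 2 * √2) = (1 : ℝ) := by
  have := sq2; nlinarith

lemma kk_gt : (1 : ℝ) < 3 + 2 * √2 := by
  have : 0 ≤ √2 := Real.sqrt_nonneg _
  linarith

lemma gg_pow_fix {x : V} (h2 : x 2 = 0) (h4 : x 4 = 0) (m : ℕ) : act (gg ^ m) x = x := by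
  induction m with
  | zero => simp
  | succ m ih => rw [pow_succ, act_mul, gg_fix h2 h4, ih]

lemma gg_pow_lamp (m : ℕ) : act (gg ^ m) lamp = ((3 - 2 * √2) ^ m) • lamp := by
  induction m with
  | zero => simp
  | succ m ih => rw [pow_succ, act_mul, gg_lamp, map_smul, ih, smul_smul]; ring_nf

lemma gg_pow_lamm (m : ℕ) : act (gg ^ m) lamm = ((3 + 2 * √2) ^ m) • lamm := by
  induction m with
  | zero => simp
  | succ m ih => rw [pow_succ, act_mul, gg_lamm, map_smul, ih, smul_smul]; ring_nf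

/-- the part fixed by `gg` -/
def zf (z : V) : V := ![z 0, z 1, 0, z 3, 0]

lemma z_dec (z : V) : z = zf z + ((z 4 - z 2) / 2) • lamp + ((z 4 + z 2) / 2) • lamm := by
  ext i
  fin_cases i <;> simp [zf, lamp, lamm] <;> ring

lemma gg_pow_dec (z : V) (m : ℕ) : act (gg ^ m) z =
    zf z + ((z 4 - z 2) / 2 * (3 - 2 * √2) ^ m) • lamp + ((z 4 + z 2) / 2 * (3 + 2 * √2) ^ m) • lamm := by
  conv_lhs => rw [z_dec z]
  rw [map_add, map_add, map_smul, map_smul, gg_pow_lamp, gg_pow_lamm,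
    gg_pow_fix (by simp [zf]) (by simp [zf]), smul_smul, smul_smul]

lemma gg_pow_inv_dec (z : V) (m : ℕ) : act (gg ^ m)⁻¹ z =
    zf z + ((z 4 - z 2) / 2 * (3 + 2 * √2) ^ m) • lamp + ((z 4 + z 2) / 2 * (3 - 2 * √2) ^ m) • lamm := by
  have h : act (gg ^ m) (zf z + ((z 4 - z 2) / 2 * (3 + 2 * √2) ^ m) • lamp
      + ((z 4 + z 2) / 2 * (3 - 2 * √2) ^ m) • lamm) = z := by
    rw [map_add, map_add, map_smul, map_smul, gg_pow_lamp, gg_pow_lamm,
      gg_pow_fix (by simp [zf]) (by simp [zf]), smul_smul, smul_smul]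
    have e : (3 - 2 * √2) ^ m * (3 + 2 * √2) ^ m = (1 : ℝ) := by
      rw [← mul_pow, kk_mul, one_pow]
    have e1 : (z 4 - z 2) / 2 * (3 + 2 * √2) ^ m * (3 - 2 * √2) ^ m = (z 4 - z 2) / 2 := by
      linear_combination ((z 4 - z 2) / 2) * e
    have e2 : (z 4 + z 2) / 2 * (3 - 2 * √2) ^ m * (3 + 2 * √2) ^ m = (z 4 + z 2) / 2 := by
      linear_combination ((z 4 + z 2) / 2) * e
    rw [e1, e2]
    exact (z_dec z).symm
  conv_lhs => rw [← h]
  rw [act_inv_act]

lemma act_gg_pow_mem {N : ℕ} (hN : act (gg ^ N) ∈ Gam) (n : ℕ) : act (gg ^ (N * n)) ∈ Gam := by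
  rw [pow_mul, map_pow]; exact Gam.pow_mem hN n

lemma B_yl (s : ℝ) : B (yl s) (yl s) = -1 := by
  have := Real.cosh_sq s
  simp only [B, yl, Matrix.cons_val_zero, Matrix.cons_val_one, Matrix.cons_val]
  nlinarith

lemma yl_mem_of {A : Set V} (hA : IsClosedConvex Gam Omg A) (s : ℝ) : yl s ∈ A := by
  obtain ⟨hAO, ⟨z, hz⟩, ⟨F, hF, hAF⟩, hinv, hconv⟩ := hA
  have hzC : z ∈ Cop := (hAO hz).1
  have h1 : 0 < z 4 + z 2 := by
    have := B_lamp_neg hzC
    simp only [B, lamp, Matrix.cons_val_zero, Matrix.cons_val_one, Matrix.cons_val] at this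
    linarith
  have h2 : 0 < z 4 - z 2 := by
    have := B_lamm_neg hzC
    simp only [B, lamm, Matrix.cons_val_zero, Matrix.cons_val_one, Matrix.cons_val] at this
    linarith
  obtain ⟨N, hN0, hN⟩ := gg_pow_mem
  set k : ℝ := 3 + 2 * √2 with hk
  have hk1 : 1 < k := kk_gt
  have hk0 : 0 < k := by linarith
  have hkm : ∀ m : ℕ, (3 - 2 * √2) ^ m = (1 / k) ^ m := by
    intro m
    congr 1
    rw [eq_div_iff hk0.ne']
    exact kk_mul
  set q : ℝ := (1 / k) ^ N with hq
  have hq0 : 0 < q := by positivity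
  have hq1 : q < 1 := by
    apply pow_lt_one₀ (by positivity) _ hN0.ne'
    rw [div_lt_one hk0]; exact hk1
  -- the sequence
  set a : ℕ → ℝ := fun n => Real.exp s / (z 4 + z 2) * q ^ n with ha
  set b : ℕ → ℝ := fun n => Real.exp (-s) / (z 4 - z 2) * q ^ n with hb
  set u : ℕ → V := fun n => a n • act (gg ^ (N * n)) z + b n • act (gg ^ (N * n))⁻¹ z with hu
  have ha0 : ∀ n, 0 < a n := fun n => by positivity
  have hb0 : ∀ n, 0 < b n := fun n => by positivity
  have hkq : ∀ n : ℕ, q ^ n * k ^ (N * n) = 1 := by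
    intro n
    rw [hq, ← pow_mul, ← mul_pow]
    rw [one_div_mul_cancel hk0.ne', one_pow]
  have hku : ∀ n : ℕ, (1 / k) ^ (N * n) = q ^ n := by
    intro n; rw [hq, ← pow_mul]
  have huf : ∀ n, u n = (a n + b n) • zf z
      + (a n * ((z 4 - z 2) / 2) * q ^ n + Real.exp (-s) / 2) • lamp
      + (Real.exp s / 2 + b n * ((z 4 + z 2) / 2) * q ^ n) • lamm := by
    intro n
    have e1 : b n * ((z 4 - z 2) / 2 * k ^ (N * n)) = Real.exp (-s) / 2 := by
      simp only [hb]
      have := hkq n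
      field_simp
      linear_combination this
    have e2 : a n * ((z 4 + z 2) / 2 * k ^ (N * n)) = Real.exp s / 2 := by
      simp only [ha]
      have := hkq n
      field_simp
      linear_combination this
    simp only [hu]
    rw [gg_pow_dec, gg_pow_inv_dec, hkm, hku, ← e1, ← e2]
    module
  have hqn : Tendsto (fun n : ℕ => q ^ n) atTop (𝓝 0) :=
    tendsto_pow_atTop_nhds_zero_of_lt_one hq0.le hq1
  have ta : Tendsto a atTop (𝓝 0) := by simpa using hqn.const_mul (Real.exp s / (z 4 + z 2))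
  have tb : Tendsto b atTop (𝓝 0) := by simpa using hqn.const_mul (Real.exp (-s) / (z 4 - z 2))
  have tu : Tendsto u atTop (𝓝 (yl s)) := by
    have e : yl s = ((0 : ℝ) + 0) • zf z
      + ((0 : ℝ) * ((z 4 - z 2) / 2) * 0 + Real.exp (-s) / 2) • lamp
      + (Real.exp s / 2 + (0 : ℝ) * ((z 4 + z 2) / 2) * 0) • lamm := by
      rw [yl_eq]; simp
    rw [e, show u = fun n => (a n + b n) • zf z
      + (a n * ((z 4 - z 2) / 2) * q ^ n + Real.exp (-s) / 2) • lamp
      + (Real.exp s / 2 + b n * ((z 4 + z 2) / 2) * q ^ n) • lamm from funext huf]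
    refine Tendsto.add (Tendsto.add ?_ ?_) ?_
    · exact (ta.add tb).smul_const _
    · exact (((ta.mul_const _).mul hqn).add_const _).smul_const _
    · exact (((tb.mul_const _).mul hqn).const_add _).smul_const _
  have tB : Tendsto (fun n => B (u n) (u n)) atTop (𝓝 (-1)) := by
    have := tendsto_B tu tu
    rwa [B_yl] at this
  set v : ℕ → V := fun n => (√(-B (u n) (u n)))⁻¹ • u n with hv
  have tv : Tendsto v atTop (𝓝 (yl s)) := by
    have h3 : Tendsto (fun n => (√(-B (u n) (u n)))⁻¹) atTop (𝓝 1) := by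
      have h4 : Tendsto (fun n => √(-B (u n) (u n))) atTop (𝓝 1) := by
        have h5 := (Real.continuous_sqrt.tendsto 1).comp (show Tendsto (fun n => -B (u n) (u n)) atTop (𝓝 1) by
          simpa using tB.neg)
        simpa [Function.comp_def] using h5
      simpa using h4.inv₀ one_ne_zero
    have h6 := h3.smul tu
    rwa [one_smul] at h6
  have evneg : ∀ᶠ n in atTop, B (u n) (u n) < 0 := tB.eventually_lt_const (by norm_num)
  have evA : ∀ᶠ n in atTop, v n ∈ A := by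
    filter_upwards [evneg] with n hn
    have hs0 : 0 < √(-B (u n) (u n)) := Real.sqrt_pos.2 (by linarith)
    have hvA : v n ∈ AdS := by
      change B (v n) (v n) = -1
      simp only [hv, B_smul_left, B_smul_right]
      have hss : √(-B (u n) (u n)) * √(-B (u n) (u n)) = -B (u n) (u n) :=
        Real.mul_self_sqrt (by linarith)
      field_simp
      nlinarith
    have e : v n = ((√(-B (u n) (u n)))⁻¹ * a n) • act (gg ^ (N * n)) z
        + ((√(-B (u n) (u n)))⁻¹ * b n) • act (gg ^ (N * n))⁻¹ z := by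
      simp only [hv, hu, smul_add, smul_smul]
    have hm := act_gg_pow_mem hN n
    have hm' : act (gg ^ (N * n))⁻¹ ∈ Gam := by rw [map_inv]; exact Gam.inv_mem hm
    have hc := hconv _ (hinv _ hm z hz) _ (hinv _ hm' z hz) ((√(-B (u n) (u n)))⁻¹ * a n)
      ((√(-B (u n) (u n)))⁻¹ * b n) (by have := ha0 n; positivity) (by have := hb0 n; positivity)
    rw [← e] at hc
    exact hc hvA
  rw [hAF]
  refine ⟨?_, yl_mem s⟩
  apply hF.mem_of_tendsto tv
  filter_upwards [evA] with n hn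
  rw [hAF] at hn
  exact hn.1

theorem yl_mem_CC (s : ℝ) : yl s ∈ CC := by
  intro A hA
  exact yl_mem_of hA s

lemma Omg_closedConvex : IsClosedConvex Gam Omg Omg := by
  refine ⟨le_rfl, ⟨yl 0, yl_mem 0⟩, ⟨Set.univ, isClosed_univ, by simp⟩, ?_, Omg_convex⟩
  rintro γ ⟨w, rfl, -⟩ x hx
  exact (act_mem_Omg w).2 hx

theorem CC_core : IsConvexCore Gam Omg CC := by
  refine ⟨⟨?_, ⟨yl 0, yl_mem_CC 0⟩, ?_, ?_, ?_⟩, ?_⟩
  · exact Set.sInter_subset_of_mem Omg_closedConvex
  · classical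
    choose! F hF hAF using fun (A : Set V) (hA : IsClosedConvex Gam Omg A) => hA.2.2.1
    refine ⟨⋂ A ∈ {A | IsClosedConvex Gam Omg A}, F A, ?_, ?_⟩
    · exact isClosed_biInter fun A hA => hF A hA
    · ext x
      constructor
      · intro hx
        refine ⟨?_, ?_⟩
        · rw [Set.mem_iInter₂]
          intro A hA
          have : x ∈ A := hx A hA
          rw [hAF A hA] at this
          exact this.1
        · exact hx Omg Omg_closedConvex
      · rintro ⟨h1, h2⟩ A hA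
        rw [Set.mem_iInter₂] at h1
        rw [hAF A hA]
        exact ⟨h1 A hA, h2⟩
  · intro γ hγ x hx A hA
    exact hA.2.2.2.1 γ hγ x (hx A hA)
  · intro x hx y hy s t hs ht h A hA
    exact hA.2.2.2.2 x (hx A hA) y (hy A hA) s t hs ht h
  · intro A hA
    exact Set.sInter_subset_of_mem hA

theorem pp_mem_AdS (a b : ℝ) : pp a b ∈ AdS := by
  change B (pp a b) (pp a b) = -1
  have h : √(1 + a ^ 2 + b ^ 2) * √(1 + a ^ 2 + b ^ 2) = 1 + a ^ 2 + b ^ 2 :=
    Real.mul_self_sqrt (by positivity)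
  simp only [B, pp, Matrix.cons_val_zero, Matrix.cons_val_one, Matrix.cons_val]
  nlinarith

/-! ### `pp q ∈ Cbar` -/

lemma seg_Ch {t : ℝ} (h0 : -1 ≤ t) (h1 : t ≤ 0) : pp 0 t ∈ Ch := by
  have h3 : √3 ≤ √6 / 2 * √2 + 0 := by
    have := Real.sqrt_nonneg (3 : ℝ)
    have e : √6 = √2 * √3 := by
      rw [← Real.sqrt_mul (by norm_num)]; norm_num
    rw [e]
    have := sq2
    nlinarith
  have hr : √3 * (-t) ≤ √6 / 2 * √(1 + 0 ^ 2 + t ^ 2) := by
    have e1 : √3 * (-t) = √(3 * t ^ 2) := by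
      rw [Real.sqrt_mul (by norm_num), Real.sqrt_sq_eq_abs, abs_of_nonpos h1]
    have e2 : √6 / 2 * √(1 + 0 ^ 2 + t ^ 2) = √(3 / 2 * (1 + t ^ 2)) := by
      have : √6 / 2 = √(3 / 2) := by
        rw [show (3 / 2 : ℝ) = 6 / 4 by norm_num, Real.sqrt_div (by norm_num),
          show (4 : ℝ) = 2 ^ 2 by norm_num, Real.sqrt_sq (by norm_num)]
      rw [this, ← Real.sqrt_mul (by norm_num)]
      congr 1; ring
    rw [e1, e2]
    apply Real.sqrt_le_sqrt
    nlinarith
  have s3 := Real.sqrt_nonneg (3 : ℝ)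
  intro i
  fin_cases i
  · simp [X, B, al, pp]
  · simp [X, B, al, pp]
  · simp only [X, B, al, pp]
    simp
    norm_num at hr
    linarith
  · simp [X, B, al, pp]
  · simp [X, B, al, pp]
    nlinarith

/-- the vertices of a triangle -/
noncomputable def tv1 : V := ![0, -1, 0, √2, 0]
noncomputable def tv2 : V := ![√3 / 2, 1 / 2, 0, √2, 0]
noncomputable def tv3 : V := ![-(√3 / 2), 1 / 2, 0, √2, 0]

lemma tv1_mem : tv1 ∈ Cbar := by
  have h : tv1 = pp 0 (-1) := by
    ext i; fin_cases i <;> simp [tv1, pp]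
    norm_num
  rw [h]
  exact Ch_subset_Cbar (seg_Ch le_rfl (by norm_num))

lemma s3_act (x : V) : act (cs.simple 3) x = ![- x 0, x 1, x 2, x 3, x 4] := by
  rw [act_simple]
  ext i
  fin_cases i <;> simp [X, B, al, Gr] <;> ring

lemma s4_act (x : V) : act (cs.simple 4) x
    = ![x 0 - (3 * x 0 - √3 * x 1) / 2, x 1 + (√3 * (3 * x 0 - √3 * x 1)) / 6, x 2, x 3, x 4] := by
  rw [act_simple]
  ext i
  fin_cases i <;> simp [X, B, al, Gr] <;> ring

lemma tv3_mem : tv3 ∈ Cbar := by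
  have h : tv3 = act (cs.simple 4) (act (cs.simple 3) (act (cs.simple 4) tv1)) := by
    rw [s4_act, s3_act, s4_act]
    have h3 := sq3
    ext i
    fin_cases i <;> simp [tv1, tv3] <;> nlinarith
  rw [h, act_mem_Cbar, act_mem_Cbar, act_mem_Cbar]
  exact tv1_mem

lemma tv2_mem : tv2 ∈ Cbar := by
  have h : tv2 = act (cs.simple 3) tv3 := by
    rw [s3_act]
    ext i
    fin_cases i <;> simp [tv2, tv3]
  rw [h, act_mem_Cbar]
  exact tv3_mem

theorem pp_mem_Cbar {q : ℝ × ℝ} (hq : q ∈ Xi) : pp q.1 q.2 ∈ Cbar := by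
  obtain ⟨a, b⟩ := q
  rcases hq with hq | ⟨h1, h2, h3⟩
  · simp only at hq ⊢
    set r := √(1 + a ^ 2 + b ^ 2) with hr
    have hr1 : 1 ≤ r := by
      rw [hr]; apply Real.one_le_sqrt.2; nlinarith [sq_nonneg a, sq_nonneg b]
    have ha : |a| ≤ 1 / 10 := by
      apply abs_le_of_sq_le_sq _ (by norm_num); nlinarith [sq_nonneg b]
    have hb : |b| ≤ 1 / 10 := by
      apply abs_le_of_sq_le_sq _ (by norm_num); nlinarith [sq_nonneg a]
    have ha' := abs_le.1 ha
    have hb' := abs_le.1 hb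
    have s2 : √2 * √2 = (2 : ℝ) := sq2
    have s20 : 0 < √2 := by positivity
    have s3 : √3 * √3 = (3 : ℝ) := sq3
    have s30 : 0 < √3 := by positivity
    have hs3 : √3 ≤ 2 := by nlinarith
    have hs2 : √2 ≤ 2 := by nlinarith
    have hr2 : 1 / 2 ≤ r / √2 := by
      rw [le_div_iff₀ s20]; linarith
    have hra : |√3 * a| ≤ 1 / 5 := by
      rw [abs_mul, abs_of_pos s30]
      nlinarith [abs_nonneg a]
    have hra' := abs_le.1 hra
    have e : pp a b = ((r / √2 - 2 * b) / 3) • tv1 + (1 : ℝ) • (((r / √2 + b + √3 * a) / 3) • tv2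
        + ((r / √2 + b - √3 * a) / 3) • tv3) := by
      have hrr : r / √2 * √2 = r := by field_simp
      ext i
      fin_cases i
      · simp [pp, tv1, tv2, tv3]
        linear_combination (-(a / 3)) * s3
      · simp [pp, tv1, tv2, tv3]
        ring
      · simp [pp, tv1, tv2, tv3]
      · simp [pp, tv1, tv2, tv3]
        rw [← hr]
        linear_combination -hrr
      · simp [pp, tv1, tv2, tv3]
    rw [e]
    apply Cbar_add tv1_mem _ (by linarith) (by norm_num)
    exact Cbar_add tv2_mem tv3_mem (by linarith) (by linarith)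
  · simp only at h1 h2 h3 ⊢
    rw [h1]
    exact Ch_subset_Cbar (seg_Ch h2 h3)

theorem pp_notMem_Cop (a b : ℝ) : pp a b ∉ Cop := by
  intro h
  have := B_lamp_neg h
  simp [B, pp, lamp] at this

lemma yl_shift (s : ℝ) (m : ℕ) : act (gg ^ m) (yl s) = yl (s + m * Real.log (3 + 2 * √2)) := by
  have hk0 : (0 : ℝ) < 3 + 2 * √2 := by linarith [kk_gt]
  rw [yl_eq, yl_eq, map_add, map_smul, map_smul, gg_pow_lamp, gg_pow_lamm, smul_smul, smul_smul]
  have e1 : Real.exp (s + m * Real.log (3 + 2 * √2)) = Real.exp s * (3 + 2 * √2) ^ m := by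
    rw [Real.exp_add, Real.exp_nat_mul, Real.exp_log hk0]
  have e2 : Real.exp (-(s + m * Real.log (3 + 2 * √2))) = Real.exp (-s) * (3 - 2 * √2) ^ m := by
    have h : (3 - 2 * √2) = (3 + 2 * √2)⁻¹ := by
      exact eq_inv_of_mul_eq_one_left kk_mul
    rw [h, inv_pow, Real.exp_neg, e1, Real.exp_neg]
    field_simp
  rw [e1, e2]
  congr 2 <;> ring

theorem act_gg_cc (a b s τ : ℝ) (m : ℕ) :
    act (gg ^ m) (cc a b s τ) = cc a b (s + m * Real.log (3 + 2 * √2)) τ := by
  unfold cc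
  rw [map_add, map_smul, map_smul, yl_shift, gg_pow_fix (by simp [pp]) (by simp [pp])]

lemma B_pp_yl (a b s : ℝ) : B (pp a b) (yl s) = 0 := by simp [B, pp, yl]

lemma cc_mem_AdS (a b s τ : ℝ) : cc a b s τ ∈ AdS := by
  change B (cc a b s τ) (cc a b s τ) = -1
  unfold cc
  have h1 : B (pp a b) (pp a b) = -1 := pp_mem_AdS a b
  simp only [B_add_left, B_add_right, B_smul_left, B_smul_right, h1, B_yl, B_pp_yl,
    B_comm (yl s) (pp a b)]
  have := Real.sin_sq_add_cos_sq τ
  nlinarith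

theorem cc_mem_Omg {q : ℝ × ℝ} (hq : q ∈ Xi) (s : ℝ) {τ : ℝ} (h0 : 0 < τ) (h1 : τ ≤ Real.pi / 2) :
    cc q.1 q.2 s τ ∈ Omg := by
  have hs : 0 < Real.sin τ := Real.sin_pos_of_pos_of_lt_pi h0 (by linarith [Real.pi_pos])
  have hc : 0 ≤ Real.cos τ := Real.cos_nonneg_of_neg_pi_div_two_le_of_le (by linarith [Real.pi_pos]) h1
  have hA := cc_mem_AdS q.1 q.2 s τ
  unfold cc at *
  rw [add_comm] at *
  exact mem_Omg_of_combo (yl_mem s) (pp_mem_Cbar hq) hs hc hA

/-! ### the past of the core -/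

/-- an invariant closed convex set -/
def A0 : Set V := {x | x ∈ Omg ∧ ∀ w : W, B x (act w (Vd 0)) ≤ 0}

lemma Vd0_Ch : Vd 0 ∈ Ch := by
  intro i
  rw [X_Vd]
  split_ifs <;> norm_num

lemma act_A0 {x : V} (w : W) (hx : x ∈ A0) : act w x ∈ A0 := by
  refine ⟨(act_mem_Omg w).2 hx.1, fun w' => ?_⟩
  rw [B_act_left, ← act_mul]
  exact hx.2 _

lemma rho0_Cop : rho0 ∈ Cop := by
  apply mem_Cop_of_Ch rho0_mem_Ch
  · linarith [rho0_X 0, rho0_X 1]
  · linarith [rho0_X 2, rho0_X 3, rho0_X 4]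

lemma A0_closedConvex : IsClosedConvex Gam Omg A0 := by
  refine ⟨fun x hx => hx.1, ?_, ?_, ?_, ?_⟩
  · have hn := B_rho0_neg
    have hs0 : 0 < √(-B rho0 rho0) := Real.sqrt_pos.2 (by linarith)
    have hss : √(-B rho0 rho0) * √(-B rho0 rho0) = -B rho0 rho0 :=
      Real.mul_self_sqrt (by linarith)
    refine ⟨(√(-B rho0 rho0))⁻¹ • rho0, ⟨?_, ?_⟩, ?_⟩
    · have h := Cop_smul_add rho0_Cop (Cop_subset_Cbar rho0_Cop) (s := (√(-B rho0 rho0))⁻¹) (t := 0)
        (by positivity) le_rfl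
      simpa using h
    · change B _ _ = -1
      simp only [B_smul_left, B_smul_right]
      field_simp
      nlinarith
    · intro w
      rw [B_smul_left]
      have := dom_nonpos Vd0_Ch rho0_mem_Ch rho0_mem_PosCone w 1
      rw [act_one, B_comm] at this
      exact mul_nonpos_of_nonneg_of_nonpos (by positivity) this
  · refine ⟨⋂ w : W, {x | B x (act w (Vd 0)) ≤ 0}, ?_, ?_⟩
    · exact isClosed_iInter fun w => isClosed_le (by fun_prop) continuous_const
    · ext x
      simp only [A0, Set.mem_inter_iff, Set.mem_iInter, Set.mem_ofPred_eq]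
      tauto
  · rintro γ ⟨w, rfl, -⟩ x hx
    exact act_A0 w hx
  · intro x hx y hy s t hs ht h
    refine ⟨Omg_convex x hx.1 y hy.1 s t hs ht h, fun w => ?_⟩
    rw [B_add_left, B_smul_left, B_smul_left]
    have h1 := mul_nonpos_of_nonneg_of_nonpos hs (hx.2 w)
    have h2 := mul_nonpos_of_nonneg_of_nonpos ht (hy.2 w)
    linarith

lemma cc_pos_Vd0 (a b s τ : ℝ) (h0 : 0 < τ) (h1 : τ ≤ 1 / 100) (hs0 : 0 ≤ s)
    (hs1 : s ≤ Real.log (3 + 2 * √2)) : 0 < B (cc a b s τ) (Vd 0) := by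
  have hk0 : (0 : ℝ) < 3 + 2 * √2 := by linarith [kk_gt]
  have s2 := sq2
  have s20 : 0 < √2 := by positivity
  have hs2 : √2 ≤ 3 / 2 := by nlinarith
  have s6 := sq6
  have s60 : 0 < √6 := by positivity
  have hs6 : 12 / 5 ≤ √6 := by nlinarith
  have hexp : Real.exp s ≤ 6 := by
    calc Real.exp s ≤ Real.exp (Real.log (3 + 2 * √2)) := Real.exp_le_exp.2 hs1
      _ = 3 + 2 * √2 := Real.exp_log hk0
      _ ≤ 6 := by linarith
  have hexp' : Real.exp (-s) ≤ 1 := Real.exp_le_one_iff.2 (by linarith)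
  have hexp0 := Real.exp_pos s
  have hexp0' := Real.exp_pos (-s)
  have hsinh : Real.sinh s ≤ 3 := by rw [Real.sinh_eq]; linarith
  have hcosh : Real.cosh s ≤ 7 / 2 := by rw [Real.cosh_eq]; linarith
  have hcosh0 := Real.cosh_pos s
  have hsin : Real.sin τ ≤ τ := Real.sin_le h0.le
  have hsin0 : 0 < Real.sin τ := Real.sin_pos_of_pos_of_lt_pi h0 (by linarith [Real.pi_gt_three])
  have hcos : 99 / 100 ≤ Real.cos τ := by
    have := Real.one_sub_sq_div_two_le_cos (x := τ)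
    nlinarith
  set r := √(1 + a ^ 2 + b ^ 2) with hr
  have hr1 : 1 ≤ r := by
    rw [hr]; apply Real.one_le_sqrt.2; nlinarith [sq_nonneg a, sq_nonneg b]
  have e : B (cc a b s τ) (Vd 0) = Real.cos τ * (r * (√6 / 3))
      - Real.sin τ * (Real.sinh s + √2 * Real.cosh s) := by
    unfold cc
    rw [B_add_left, B_smul_left, B_smul_left]
    have e1 : B (pp a b) (Vd 0) = r * (√6 / 3) := by
      simp only [B, pp, Vd, Matrix.cons_val_zero, Matrix.cons_val_one, Matrix.cons_val]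
      rw [← hr]; ring
    have e2 : B (yl s) (Vd 0) = -(Real.sinh s + √2 * Real.cosh s) := by
      simp only [B, yl, Vd, Matrix.cons_val_zero, Matrix.cons_val_one, Matrix.cons_val]
      ring
    rw [e1, e2]; ring
  rw [e]
  have h2 : 4 / 5 ≤ r * (√6 / 3) := by nlinarith
  have h3 : (99 / 100) * (4 / 5) ≤ Real.cos τ * (r * (√6 / 3)) := by
    apply mul_le_mul hcos h2 (by norm_num) (by linarith)
  have h4 : √2 * Real.cosh s ≤ 3 / 2 * (7 / 2) := mul_le_mul hs2 hcosh hcosh0.le (by norm_num)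
  have h5 : Real.sin τ * (Real.sinh s + √2 * Real.cosh s) ≤ (1 / 100) * 9 := by
    have h6 : Real.sinh s + √2 * Real.cosh s ≤ 9 := by linarith
    calc Real.sin τ * (Real.sinh s + √2 * Real.cosh s) ≤ Real.sin τ * 9 :=
          mul_le_mul_of_nonneg_left h6 hsin0.le
      _ ≤ (1 / 100) * 9 := by linarith
  linarith

lemma cc_notMem_A0 (a b s τ : ℝ) (h0 : 0 < τ) (h1 : τ ≤ 1 / 100) : cc a b s τ ∉ A0 := by
  set l := Real.log (3 + 2 * √2) with hl
  have hl0 : 0 < l := Real.log_pos kk_gt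
  -- first for `0 ≤ s ≤ l`
  have key : ∀ s : ℝ, 0 ≤ s → s ≤ l → cc a b s τ ∉ A0 := by
    intro s hs0 hs1 h
    have h2 := cc_pos_Vd0 a b s τ h0 h1 hs0 hs1
    have h3 := h.2 1
    rw [act_one] at h3
    linarith
  intro h
  set m : ℤ := ⌊s / l⌋ with hm
  have hm1 : (m : ℝ) * l ≤ s := by
    have := Int.floor_le (s / l)
    rwa [le_div_iff₀ hl0] at this
  have hm2 : s ≤ (m : ℝ) * l + l := by
    have := (Int.lt_floor_add_one (s / l)).le
    rw [div_le_iff₀ hl0] at this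
    linarith
  rcases Int.eq_nat_or_neg m with ⟨n, hn | hn⟩
  · -- `s = s' + n l`
    have e : cc a b s τ = act (gg ^ n) (cc a b (s - n * l) τ) := by
      rw [act_gg_cc]; congr 1; ring
    rw [e] at h
    have h4 := act_A0 (gg ^ n)⁻¹ h
    rw [act_inv_act] at h4
    rw [hn] at hm1 hm2
    push_cast at hm1 hm2
    exact key (s - n * l) (by linarith) (by linarith) h4
  · have h4 := act_A0 (gg ^ n) h
    rw [act_gg_cc] at h4
    rw [hn] at hm1 hm2
    push_cast at hm1 hm2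
    exact key (s + n * l) (by linarith) (by linarith) h4

theorem cc_mem_Past : ∃ d0 : ℝ, 0 < d0 ∧ d0 < 1 ∧ ∀ q ∈ Xi, ∀ s τ : ℝ, 0 < τ → τ ≤ d0 →
    cc q.1 q.2 s τ ∈ Past Omg CC := by
  refine ⟨1 / 100, by norm_num, by norm_num, ?_⟩
  intro q hq s τ h0 h1
  have hpi : τ < Real.pi / 2 := by linarith [Real.pi_gt_three]
  refine ⟨cc_mem_Omg hq s h0 hpi.le, ?_, fun t => cc q.1 q.2 s t, τ, Real.pi / 2, hpi, ?_, rfl, ?_⟩
  · intro h
    exact cc_notMem_A0 q.1 q.2 s τ h0 h1 (CC_core.2 A0 A0_closedConvex h)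
  · refine ⟨?_, ?_⟩
    · unfold cc
      exact (Real.contDiff_cos.smul contDiff_const).add (Real.contDiff_sin.smul contDiff_const)
    · rintro t ⟨ht0, ht1⟩
      refine ⟨cc_mem_Omg hq s (by linarith) ht1, ?_⟩
      have hd : HasDerivAt (fun t => cc q.1 q.2 s t)
          ((-Real.sin t) • pp q.1 q.2 + Real.cos t • yl s) t := by
        unfold cc
        exact ((Real.hasDerivAt_cos t).smul_const _).add ((Real.hasDerivAt_sin t).smul_const _)
      rw [hd.deriv]
      have h1 : B (pp q.1 q.2) (pp q.1 q.2) = -1 := pp_mem_AdS q.1 q.2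
      have hsc := Real.sin_sq_add_cos_sq t
      refine ⟨?_, ?_, ?_⟩
      · unfold cc
        simp only [B_add_left, B_add_right, B_smul_left, B_smul_right, h1, B_yl, B_pp_yl,
          B_comm (yl s) (pp q.1 q.2)]
        ring
      · simp only [B_add_left, B_add_right, B_smul_left, B_smul_right, h1, B_yl, B_pp_yl,
          B_comm (yl s) (pp q.1 q.2)]
        nlinarith
      · unfold cc
        simp only [om_add_left, om_add_right, om_smul_left, om_smul_right, om_self]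
        rw [om_antisymm (yl s) (pp q.1 q.2)]
        have hpos : 0 < om (pp q.1 q.2) (yl s) := by
          have hr : 0 < √(1 + q.1 ^ 2 + q.2 ^ 2) := by positivity
          have hc := Real.cosh_pos s
          simp only [om, pp, yl, Matrix.cons_val]
          have := mul_pos hr hc
          linarith
        have : Real.cos t * ((-Real.sin t) * 0 + Real.cos t * om (pp q.1 q.2) (yl s))
            + Real.sin t * ((-Real.sin t) * -om (pp q.1 q.2) (yl s) + Real.cos t * 0)
            = (Real.sin t ^ 2 + Real.cos t ^ 2) * om (pp q.1 q.2) (yl s) := by ring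
        nlinarith
  · have e : cc q.1 q.2 s (Real.pi / 2) = yl s := by simp [cc]
    simp only [e]
    exact yl_mem_CC s

end Pool.Agent.H93.KT
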