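import Pool.Agent.H93.KT.Gam
import Pool.Agent.H93.KT.Curve
import Pool.Agent.H93.KT.Hf

set_option autoImplicit false

/-! MODULE Leaf1.  (F1)-(F3).
(F1) two distinct points `x, y` of a Cauchy hypersurface `L` of `Omg` with `|B x y| < 1` (say `om x y > 0`, else
exchange): the geodesic from `x` in direction `X = (y - cos d • x)/sin d` meets `L` at parameters `0` and `d`
(the segment is in `Omg` by `Omg_convex`/`mem_Omg_of_combo`), contradicting `cauchy_geod`.
(F3) closed in `Omg`: `x_n ∈ L → x ∈ Omg`; `cauchy_geod` at `x` in direction `J x` normalised gives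
`x' = cos τ x + sin τ X ∈ L`, `|τ| < π` (as `-x ∉ Cop`); if `τ ≠ 0`, `|B x x'| < 1` so `|B x_n x'| < 1` for large `n`,
`x_n ≠ x'`: contradiction with (F1).  So `x ∈ L`.
Closed in `V`: by `isClosed_of_cocompact` it is enough to cover `L` by translates of a compact set of `Omg`.
With `R` from `Gam_reps`, every `x ∈ L` has `γ ∈ Gam`, `r ∈ R` with `act r (γ x) ∈ Ch`.  For each `r ∈ R` the set
`L_r = act r '' L ∩ Ch` (`act r '' L` is again a Cauchy hypersurface of `Omg`) is relatively compact in `Omg`: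
otherwise (`isCompact_ChAdS`) a sequence of `L_r` tends to `p ∈ (Ch ∩ AdS) \ Cop`, i.e. `p ∈ Qm` or `p ∈ Qp`
(`mem_Cop_of_Ch`).  If `p ∈ Qm` take `q ∈ Qp`; `0 < B p q ≤ 9/10`, `om p q > 0`; the timelike geodesic from `p` to `q`
(inside `Omg` in the interior by `mem_Cop_of_Ch`; it is inextensible: `cauchy_geod` at its midpoint) meets
`act r '' L` at `x' ` with `|B p x'| < 1`; so `|B x_n x'| < 1` for large `n`: contradiction with (F1).  Same for `Qp`. -/

namespace Pool.Agent.H93.KT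

open Filter Topology

/-- A point of the geodesic through `x` with unit timelike direction `X`. -/
noncomputable def l1gd (x X : V) (σ : ℝ) : V := Real.cos σ • x + Real.sin σ • X

lemma l1gd_zero (x X : V) : l1gd x X 0 = x := by simp [l1gd]

lemma l1gd_B {x X : V} (hx : x ∈ AdS) (h0 : B x X = 0) (h1 : B X X = -1) (σ τ : ℝ) :
    B (l1gd x X σ) (l1gd x X τ) = - Real.cos (σ - τ) := by
  have hx' : B x x = -1 := hx
  have h0' : B X x = 0 := by rw [B_comm]; exact h0
  unfold l1gd
  simp only [B_add_left, B_add_right, B_smul_left, B_smul_right, hx', h0, h0', h1]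
  rw [Real.cos_sub]; ring

lemma l1gd_AdS {x X : V} (hx : x ∈ AdS) (h0 : B x X = 0) (h1 : B X X = -1) (σ : ℝ) :
    l1gd x X σ ∈ AdS := by
  have h := l1gd_B hx h0 h1 σ σ
  rw [sub_self, Real.cos_zero] at h
  exact h

lemma l1_cos_lt_one {σ : ℝ} (h0 : 0 < σ) (h1 : σ < Real.pi) : Real.cos σ < 1 ∧ -1 < Real.cos σ := by
  constructor
  · have := Real.cos_lt_cos_of_nonneg_of_le_pi (le_refl 0) h1.le h0
    rwa [Real.cos_zero] at this
  · have := Real.cos_lt_cos_of_nonneg_of_le_pi h0.le (le_refl Real.pi) h1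
    rwa [Real.cos_pi] at this

lemma l1_cos_lt_one' {σ : ℝ} (h0 : σ ≠ 0) (h1 : |σ| < Real.pi) :
    Real.cos σ < 1 ∧ -1 < Real.cos σ := by
  have h := l1_cos_lt_one (abs_pos.2 h0) h1
  rwa [Real.cos_abs] at h

/-- the geodesic between two timelike related points -/
lemma l1_dir {x y : V} (hx : x ∈ AdS) (hy : y ∈ AdS) (h1 : -1 < B x y) (h2 : B x y < 1) :
    ∃ (d : ℝ) (X : V), 0 < d ∧ d < Real.pi ∧ 0 < Real.sin d ∧ B x X = 0 ∧ B X X = -1 ∧
      om x X = om x y / Real.sin d ∧ l1gd x X d = y ∧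
      ∀ σ, l1gd x X σ = (Real.sin (d - σ) / Real.sin d) • x + (Real.sin σ / Real.sin d) • y := by
  have hx' : B x x = -1 := hx
  have hy' : B y y = -1 := hy
  have hyx : B y x = B x y := B_comm _ _
  have hc : Real.cos (Real.arccos (- B x y)) = - B x y :=
    Real.cos_arccos (by linarith) (by linarith)
  have hd0 : 0 < Real.arccos (- B x y) := Real.arccos_pos.2 (by linarith)
  have hd1 : Real.arccos (- B x y) < Real.pi := by
    rcases (Real.arccos_le_pi (- B x y)).lt_or_eq with h | h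
    · exact h
    · rw [h, Real.cos_pi] at hc; linarith
  generalize Real.arccos (- B x y) = d at hc hd0 hd1
  have hs : 0 < Real.sin d := Real.sin_pos_of_pos_of_lt_pi hd0 hd1
  have hs2 : Real.sin d ^ 2 = 1 - Real.cos d ^ 2 := by
    have := Real.sin_sq_add_cos_sq d; linarith
  have key : ∀ σ, l1gd x ((Real.sin d)⁻¹ • (y - Real.cos d • x)) σ
      = (Real.sin (d - σ) / Real.sin d) • x + (Real.sin σ / Real.sin d) • y := by
    intro σ
    unfold l1gd
    rw [Real.sin_sub]
    have h3 : (Real.sin d * Real.cos σ - Real.cos d * Real.sin σ) / Real.sin d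
        = Real.cos σ - Real.sin σ * ((Real.sin d)⁻¹ * Real.cos d) := by
      field_simp
    rw [h3, div_eq_mul_inv]
    module
  refine ⟨d, (Real.sin d)⁻¹ • (y - Real.cos d • x), hd0, hd1, hs, ?_, ?_, ?_, ?_, key⟩
  · simp only [B_smul_right, B_sub_right, hx']
    rw [hc]; ring
  · simp only [B_smul_right, B_sub_right, B_smul_left, B_sub_left, hx', hy', hyx]
    have h4 : B x y = - Real.cos d := by linarith
    rw [h4]
    field_simp
    rw [hs2]; ring
  · simp only [om_smul_right, om_sub_right, om_self]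
    field_simp
    ring
  · rw [key, sub_self, Real.sin_zero, zero_div, zero_smul, zero_add, div_self hs.ne', one_smul]

theorem leaf_achronal {L : Set V} (hL : IsCauchy Omg L) {x y : V} (hx : x ∈ L) (hy : y ∈ L)
    (h1 : -1 < B x y) (h2 : B x y < 1) : False := by
  have main : ∀ x y : V, x ∈ L → y ∈ L → -1 < B x y → B x y < 1 → 0 < om x y → False := by
    intro x y hx hy h1 h2 ho
    have hxO : x ∈ Omg := hL.1 hx
    have hyO : y ∈ Omg := hL.1 hy
    obtain ⟨d, X, hd0, hd1, hs, h3, h4, h5, h6, h7⟩ := l1_dir hxO.2 hyO.2 h1 h2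
    have ho' : 0 < om x X := by rw [h5]; exact div_pos ho hs
    obtain ⟨τ, -, huniq⟩ := cauchy_geod openInAdS_Omg hL hxO h3 h4 ho'
    have e0 : (0 : ℝ) = τ := by
      apply huniq
      constructor
      · simpa using hx
      · intro σ hσ
        have : σ = 0 := by simpa using hσ
        rw [this]; simpa using hxO
    have e1 : d = τ := by
      apply huniq
      constructor
      · have : l1gd x X d ∈ L := by rw [h6]; exact hy
        exact this
      · intro σ hσ
        rw [Set.uIcc_of_le hd0.le] at hσ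
        have h8 : l1gd x X σ ∈ Omg := by
          have h9 := l1gd_AdS hxO.2 h3 h4 σ
          rw [h7] at h9 ⊢
          refine Omg_convex x hxO y hyO _ _ ?_ ?_ h9
          · exact div_nonneg (Real.sin_nonneg_of_nonneg_of_le_pi (by linarith [hσ.2])
              (by linarith [hσ.1])) hs.le
          · exact div_nonneg (Real.sin_nonneg_of_nonneg_of_le_pi hσ.1 (by linarith [hσ.2])) hs.le
        exact h8
    linarith
  have hne := om_ne_zero_of_timelike (hL.1 hx).2 (hL.1 hy).2 h1 h2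
  rcases lt_or_gt_of_ne hne with h | h
  · refine main y x hy hx ?_ ?_ ?_
    · rw [B_comm]; exact h1
    · rw [B_comm]; exact h2
    · rw [om_antisymm]; linarith
  · exact main x y hx hy h1 h2 h

/-- the unit timelike vector in the direction of increasing angle -/
noncomputable def l1J (x : V) : V := (√(x 3 ^ 2 + x 4 ^ 2))⁻¹ • ![0, 0, 0, - x 4, x 3]

lemma l1_pos {x : V} (hx : x ∈ AdS) : 0 < x 3 ^ 2 + x 4 ^ 2 := by
  have h : B x x = -1 := hx
  unfold B at h
  nlinarith [sq_nonneg (x 0), sq_nonneg (x 1), sq_nonneg (x 2)]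

lemma l1J_orth (x : V) : B x (l1J x) = 0 := by
  unfold l1J
  rw [B_smul_right]
  have : B x ![0, 0, 0, - x 4, x 3] = 0 := by simp [B]; ring
  rw [this, mul_zero]

lemma l1J_unit {x : V} (hx : x ∈ AdS) : B (l1J x) (l1J x) = -1 := by
  have hp := l1_pos hx
  have hs : √(x 3 ^ 2 + x 4 ^ 2) ^ 2 = x 3 ^ 2 + x 4 ^ 2 := Real.sq_sqrt hp.le
  have hs0 : 0 < √(x 3 ^ 2 + x 4 ^ 2) := Real.sqrt_pos.2 hp
  unfold l1J
  rw [B_smul_right, B_smul_left]
  have : B ![0, 0, 0, - x 4, x 3] ![0, 0, 0, - x 4, x 3] = - (√(x 3 ^ 2 + x 4 ^ 2) ^ 2) := by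
    rw [hs]; simp [B]; ring
  rw [this]
  field_simp

lemma l1J_om {x : V} (hx : x ∈ AdS) : 0 < om x (l1J x) := by
  have hp := l1_pos hx
  have hs0 : 0 < √(x 3 ^ 2 + x 4 ^ 2) := Real.sqrt_pos.2 hp
  unfold l1J
  rw [om_smul_right]
  have : om x ![0, 0, 0, - x 4, x 3] = x 3 ^ 2 + x 4 ^ 2 := by simp [om]; ring
  rw [this]
  positivity

lemma l1_neg_notMem {x : V} (hx : x ∈ Omg) : -x ∉ Omg := fun h =>
  neg_notMem_Cbar hx.1 (Cop_subset_Cbar h.1)

/-- the parameter given by `cauchy_geod` in `Omg` is smaller than `π` -/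
lemma l1_abs_lt {x X : V} (hx : x ∈ Omg) {τ : ℝ}
    (h : ∀ σ ∈ Set.uIcc 0 τ, Real.cos σ • x + Real.sin σ • X ∈ Omg) : |τ| < Real.pi := by
  by_contra hcon
  push Not at hcon
  rcases le_abs.1 hcon with h1 | h1
  · have h2 := h Real.pi (by rw [Set.uIcc_of_le (by linarith [Real.pi_pos])]; exact ⟨Real.pi_pos.le, h1⟩)
    rw [Real.cos_pi, Real.sin_pi] at h2
    apply l1_neg_notMem hx
    convert h2 using 1; module
  · have h2 := h (-Real.pi) (by
      rw [Set.uIcc_of_ge (by linarith [Real.pi_pos])]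
      exact ⟨by linarith, by linarith [Real.pi_pos]⟩)
    rw [Real.cos_neg, Real.sin_neg, Real.cos_pi, Real.sin_pi] at h2
    apply l1_neg_notMem hx
    convert h2 using 1; module

/-- a point near which `L` accumulates cannot be timelike related to a point of `L` -/
lemma l1_closure {L : Set V} (hL : IsCauchy Omg L) {x y : V} (hx : x ∈ closure L) (hy : y ∈ L)
    (h1 : -1 < B x y) (h2 : B x y < 1) : False := by
  have hc : Continuous fun z : V => B z y := by fun_prop
  have ho : IsOpen {z : V | -1 < B z y ∧ B z y < 1} :=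
    (isOpen_lt continuous_const hc).inter (isOpen_lt hc continuous_const)
  obtain ⟨z, hz, hzL⟩ := mem_closure_iff.1 hx _ ho ⟨h1, h2⟩
  exact leaf_achronal hL hzL hy hz.1 hz.2

theorem leaf_closed_in {L : Set V} (hL : IsCauchy Omg L) {x : V} (hx : x ∈ Omg)
    (h : x ∈ closure L) : x ∈ L := by
  obtain ⟨τ, ⟨h1, h2⟩, -⟩ := cauchy_geod openInAdS_Omg hL hx (l1J_orth x) (l1J_unit hx.2) (l1J_om hx.2)
  have h3 := l1_abs_lt hx h2
  by_cases h0 : τ = 0
  · rw [h0] at h1; simpa using h1
  · exfalso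
    have h4 := l1_cos_lt_one' h0 h3
    have h5 : B x (Real.cos τ • x + Real.sin τ • l1J x) = - Real.cos τ := by
      have hxx : B x x = -1 := hx.2
      rw [B_add_right, B_smul_right, B_smul_right, l1J_orth, hxx]; ring
    exact l1_closure hL h h1 (by rw [h5]; linarith) (by rw [h5]; linarith)

lemma l1_act_cont (w : W) : Continuous fun x : V => act w x :=
  LinearMap.continuous_of_finiteDimensional (act w).toLinearMap

theorem cauchy_act {L : Set V} (hL : IsCauchy Omg L) (w : W) : IsCauchy Omg (act w '' L) := by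
  refine ⟨?_, ?_⟩
  · rintro _ ⟨x, hx, rfl⟩
    exact (act_mem_Omg w).2 (hL.1 hx)
  · intro c hc
    have hd : ∀ s, HasDerivAt (fun s => act w⁻¹ (c s)) (act w⁻¹ (deriv c s)) s := by
      intro s
      have h1 : HasDerivAt c (deriv c s) s :=
        ((hc.1.differentiable (by norm_num)) s).hasDerivAt
      have h2 : HasFDerivAt (fun x : V => act w⁻¹ x)
          (LinearMap.toContinuousLinearMap (act w⁻¹).toLinearMap) (c s) :=
        (LinearMap.toContinuousLinearMap (act w⁻¹).toLinearMap).hasFDerivAt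
      exact h2.comp_hasDerivAt s h1
    have hc' : InextCausal Omg (fun s => act w⁻¹ (c s)) := by
      refine ⟨?_, ?_, ?_⟩
      · have h2 : ContDiff ℝ 1 (fun x : V => act w⁻¹ x) :=
          (LinearMap.toContinuousLinearMap (act w⁻¹).toLinearMap).contDiff
        exact h2.comp hc.1
      · intro s
        refine ⟨(act_mem_Omg w⁻¹).2 (hc.2.1 s).1, ?_⟩
        rw [(hd s).deriv]
        exact act_future w⁻¹ (hc.2.1 s).1.2 (hc.2.1 s).2
      · intro x hx
        have hwx : act w x ∈ Omg := (act_mem_Omg w).2 hx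
        have key : ∀ l : Filter ℝ, Tendsto (fun s => act w⁻¹ (c s)) l (𝓝 x) →
            Tendsto c l (𝓝 (act w x)) := by
          intro l hl
          have h3 := ((l1_act_cont w).tendsto x).comp hl
          have h4 : ((fun x : V => act w x) ∘ fun s => act w⁻¹ (c s)) = c := by
            funext s; simp
          rwa [h4] at h3
        exact ⟨fun h => (hc.2.2 _ hwx).1 (key _ h), fun h => (hc.2.2 _ hwx).2 (key _ h)⟩
    obtain ⟨s, hs, hu⟩ := hL.2 _ hc'
    refine ⟨s, ⟨act w⁻¹ (c s), hs, by simp⟩, ?_⟩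
    rintro t ⟨z, hz, hzt⟩
    apply hu
    rw [← hzt]; simpa using hz

/-- the geodesic from the past cell to the future cell meets every Cauchy hypersurface -/
lemma l1_cells {L : Set V} (hL : IsCauchy Omg L) {p q : V} (hp : p ∈ Qm) (hq : q ∈ Qp) :
    ∃ y ∈ L, (-1 < B p y ∧ B p y < 1) ∧ (-1 < B q y ∧ B q y < 1) := by
  obtain ⟨hB0, hB1⟩ := B_Qm_Qp hp hq
  have hom : 0 < om p q := om_Qp hp.1 (Qm_pos hp) hq
  obtain ⟨d, X', hd0, hd1, hs, h3, h4, h5, h6, h7⟩ :=
    l1_dir hp.2.1 hq.2.1 (by linarith : -1 < B p q) (by linarith)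
  have hmem : ∀ σ, 0 < σ → σ < d → l1gd p X' σ ∈ Omg := by
    intro σ hσ0 hσ1
    refine ⟨?_, l1gd_AdS hp.2.1 h3 h4 σ⟩
    rw [h7]
    have ha : 0 < Real.sin (d - σ) / Real.sin d :=
      div_pos (Real.sin_pos_of_pos_of_lt_pi (by linarith) (by linarith)) hs
    have hb : 0 < Real.sin σ / Real.sin d :=
      div_pos (Real.sin_pos_of_pos_of_lt_pi hσ0 (by linarith)) hs
    generalize Real.sin (d - σ) / Real.sin d = a at ha
    generalize Real.sin σ / Real.sin d = b at hb
    apply mem_Cop_of_Ch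
    · intro i
      rw [X_add, X_smul, X_smul]
      have h8 := hp.1 i
      have h9 := hq.1 i
      positivity
    · simp only [X_add, X_smul]
      have h8 := Qp_pos hq
      rw [hp.2.2.1, hp.2.2.2]
      have := mul_pos hb h8
      linarith
    · simp only [X_add, X_smul]
      have h8 := Qm_pos hp
      rw [hq.2.2.1, hq.2.2.2.1, hq.2.2.2.2]
      have := mul_pos ha h8
      linarith
  -- the midpoint
  have hm : l1gd p X' (d / 2) ∈ Omg := hmem _ (by linarith) (by linarith)
  have hshift : ∀ τ : ℝ, Real.cos τ • l1gd p X' (d / 2) +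
      Real.sin τ • ((-Real.sin (d / 2)) • p + Real.cos (d / 2) • X') = l1gd p X' (d / 2 + τ) := by
    intro τ
    unfold l1gd
    rw [Real.cos_add, Real.sin_add]
    module
  have hpp : B p p = -1 := hp.2.1
  have hXp : B X' p = 0 := by rw [B_comm]; exact h3
  have hsc := Real.sin_sq_add_cos_sq (d / 2)
  have k0 : B (l1gd p X' (d / 2)) ((-Real.sin (d / 2)) • p + Real.cos (d / 2) • X') = 0 := by
    unfold l1gd
    simp only [B_add_left, B_add_right, B_smul_left, B_smul_right, hpp, h3, hXp, h4]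
    ring
  have k1 : B ((-Real.sin (d / 2)) • p + Real.cos (d / 2) • X')
      ((-Real.sin (d / 2)) • p + Real.cos (d / 2) • X') = -1 := by
    simp only [B_add_left, B_add_right, B_smul_left, B_smul_right, hpp, h3, hXp, h4]
    linear_combination -hsc
  have k2 : 0 < om (l1gd p X' (d / 2)) ((-Real.sin (d / 2)) • p + Real.cos (d / 2) • X') := by
    have e : om (l1gd p X' (d / 2)) ((-Real.sin (d / 2)) • p + Real.cos (d / 2) • X')
        = (Real.sin (d / 2) ^ 2 + Real.cos (d / 2) ^ 2) * om p X' := by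
      unfold l1gd
      simp only [om_add_left, om_add_right, om_smul_left, om_smul_right, om_self]
      rw [om_antisymm X' p]; ring
    rw [e, hsc, one_mul, h5]
    exact div_pos hom hs
  obtain ⟨τ, ⟨m1, m2⟩, -⟩ := cauchy_geod openInAdS_Omg hL hm k0 k1 k2
  rw [hshift] at m1
  have hτ1 : d / 2 + τ < d := by
    by_contra hcon
    have h8 := m2 (d / 2) (by
      rw [Set.uIcc_of_le (by linarith)]
      exact ⟨by linarith, by linarith⟩)
    rw [hshift] at h8
    have h9 : d / 2 + d / 2 = d := by ring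
    rw [h9, h6] at h8
    exact Qp_notMem_Cop hq h8.1
  have hτ0 : 0 < d / 2 + τ := by
    by_contra hcon
    have h8 := m2 (-(d / 2)) (by
      rw [Set.uIcc_of_ge (by linarith)]
      exact ⟨by linarith, by linarith⟩)
    rw [hshift] at h8
    have h9 : d / 2 + -(d / 2) = 0 := by ring
    rw [h9, l1gd_zero] at h8
    exact Qm_notMem_Cop hp h8.1
  refine ⟨_, m1, ?_, ?_⟩
  · have h8 := l1gd_B hp.2.1 h3 h4 0 (d / 2 + τ)
    rw [l1gd_zero, zero_sub, Real.cos_neg] at h8
    rw [h8]
    have h9 := l1_cos_lt_one hτ0 (by linarith)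
    constructor <;> linarith [h9.1, h9.2]
  · have h8 := l1gd_B hp.2.1 h3 h4 d (d / 2 + τ)
    rw [h6] at h8
    rw [h8]
    have h9 := l1_cos_lt_one (σ := d - (d / 2 + τ)) (by linarith) (by linarith)
    constructor <;> linarith [h9.1, h9.2]

/-- the part of a leaf in the chamber is relatively compact in `Omg` -/
lemma l1_closure_Omg {L : Set V} (hL : IsCauchy Omg L) : closure (L ∩ Ch) ⊆ Omg := by
  intro p hp
  have hsub : L ∩ Ch ⊆ Ch ∩ AdS := fun z hz => ⟨hz.2, (hL.1 hz.1).2⟩
  have hpc : p ∈ Ch ∩ AdS := closure_minimal hsub (isClosed_Ch.inter isClosed_AdS) hp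
  have hpL : p ∈ closure L := closure_mono Set.inter_subset_left hp
  refine ⟨?_, hpc.2⟩
  have hCh : ∀ i, 0 ≤ X i p := hpc.1
  by_contra hcon
  have h : X 0 p + X 1 p ≤ 0 ∨ X 2 p + X 3 p + X 4 p ≤ 0 := by
    by_contra h
    push Not at h
    exact hcon (mem_Cop_of_Ch hpc.1 h.1 h.2)
  have e0 := hCh 0
  have e1 := hCh 1
  have e2 := hCh 2
  have e3 := hCh 3
  have e4 := hCh 4
  rcases h with h | h
  · have hpm : p ∈ Qm := ⟨hpc.1, hpc.2, by linarith, by linarith⟩
    obtain ⟨q, hq⟩ := Qp_nonempty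
    obtain ⟨y, hy, ⟨h1, h2⟩, -⟩ := l1_cells hL hpm hq
    exact l1_closure hL hpL hy h1 h2
  · have hpp : p ∈ Qp := ⟨hpc.1, hpc.2, by linarith, by linarith, by linarith⟩
    obtain ⟨q, hq⟩ := Qm_nonempty
    obtain ⟨y, hy, -, ⟨h1, h2⟩⟩ := l1_cells hL hq hpp
    exact l1_closure hL hpL hy h1 h2

theorem leaf_closed {L : Set V} (hL : IsCauchy Omg L) (hinv : ∀ γ ∈ Gam, ∀ x ∈ L, γ x ∈ L) :
    IsClosed L := by
  obtain ⟨R, hR⟩ := Gam_reps
  have hcpt : ∀ r : W, IsCompact (closure ((act r '' L) ∩ Ch)) := by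
    intro r
    apply isCompact_ChAdS.of_isClosed_subset isClosed_closure
    apply closure_minimal _ (isClosed_Ch.inter isClosed_AdS)
    intro z hz
    exact ⟨hz.2, ((cauchy_act hL r).1 hz.1).2⟩
  refine isClosed_of_cocompact (K := ⋃ r ∈ R, (fun z => act r⁻¹ z) '' closure ((act r '' L) ∩ Ch))
    hL.1 ⟨closure L, isClosed_closure, ?_⟩ hinv ?_ ?_ ?_
  · apply Set.Subset.antisymm
    · exact fun x hx => ⟨subset_closure hx, hL.1 hx⟩
    · exact fun x hx => leaf_closed_in hL hx.2 hx.1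
  · exact R.isCompact_biUnion fun r _ => (hcpt r).image (l1_act_cont r⁻¹)
  · intro z hz
    simp only [Set.mem_iUnion] at hz
    obtain ⟨r, -, y, hy, rfl⟩ := hz
    exact (act_mem_Omg r⁻¹).2 (l1_closure_Omg (cauchy_act hL r) hy)
  · intro x hx
    obtain ⟨w, hw1, -, -, -⟩ := exists_Omg_Ch (hL.1 hx)
    obtain ⟨r, hr, hγ⟩ := hR w
    refine ⟨act (r⁻¹ * w), hγ, ?_⟩
    simp only [Set.mem_iUnion]
    refine ⟨r, hr, act w x, subset_closure ⟨⟨act (r⁻¹ * w) x, hinv _ hγ x hx, ?_⟩, hw1⟩, ?_⟩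
    · rw [act_mul, act_act_inv]
    · rw [act_mul]

end Pool.Agent.H93.KT
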