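import Pool.Agent.H93.KT.Leaf1

set_option autoImplicit false

/-! MODULE Leaf2.  (F4): `L` is connected.  For `x ∈ Omg` let `X x = (√(x3²+x4²))⁻¹ • J x`, and `τ x` the unique
parameter with `cos τ • x + sin τ • X x ∈ L` and segment in `Omg` (`cauchy_geod`); `|τ x| < π` (`-x ∉ Cop`).  The
retraction `π x = cos (τ x) • x + sin (τ x) • X x` is continuous on `Omg`: if `x_n → x`, `τ x_n → σ` (subsequence),
then `cos σ • x + sin σ • X x ∈ L` (`L` closed in `V`), `|σ| ≤ π`, `σ ≠ ±π` (`-x ∉ L`), and the segment is in `Omg`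
because it consists of positive combinations of two points of `Cop`; so `σ = τ x`.  `π x = x` for `x ∈ L`.
`L = π '' Omg` is connected (`isConnected_Omg`). -/

namespace Pool.Agent.H93.KT

open Filter Topology

/-- the geodesic segment between `x ∈ Omg` and a point of `Omg` at parameter `|σ| < π` is in `Omg` -/
lemma l2_segment {x Y : V} (hx : x ∈ Omg) (h0 : B x Y = 0) (h1 : B Y Y = -1) {σ : ℝ}
    (hσ : |σ| < Real.pi) (hy : Real.cos σ • x + Real.sin σ • Y ∈ Omg) :
    ∀ ρ ∈ Set.uIcc 0 σ, Real.cos ρ • x + Real.sin ρ • Y ∈ Omg := by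
  intro ρ hρ
  rcases lt_trichotomy σ 0 with hs | hs | hs
  · rw [Set.uIcc_of_ge hs.le] at hρ
    rw [abs_of_neg hs] at hσ
    have hsin : Real.sin σ < 0 := Real.sin_neg_of_neg_of_neg_pi_lt hs (by linarith)
    have hsin0 : Real.sin σ ≠ 0 := hsin.ne
    have key : Real.cos ρ • x + Real.sin ρ • Y = (Real.sin (σ - ρ) / Real.sin σ) • x
        + (Real.sin ρ / Real.sin σ) • (Real.cos σ • x + Real.sin σ • Y) := by
      rw [Real.sin_sub]
      have e1 : (Real.sin σ * Real.cos ρ - Real.cos σ * Real.sin ρ) / Real.sin σ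
          = Real.cos ρ - Real.sin ρ / Real.sin σ * Real.cos σ := by
        field_simp
      have e2 : Real.sin ρ = Real.sin ρ / Real.sin σ * Real.sin σ := by field_simp
      rw [e1]
      conv_lhs => rw [e2]
      module
    have h9 := l1gd_AdS hx.2 h0 h1 ρ
    unfold l1gd at h9
    rw [key] at h9 ⊢
    refine Omg_convex x hx _ hy _ _ ?_ ?_ h9
    · exact div_nonneg_of_nonpos (Real.sin_nonpos_of_nonpos_of_neg_pi_le (by linarith [hρ.1])
        (by linarith [hρ.2])) hsin.le
    · exact div_nonneg_of_nonpos (Real.sin_nonpos_of_nonpos_of_neg_pi_le hρ.2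
        (by linarith [hρ.1])) hsin.le
  · rw [hs] at hρ
    have : ρ = 0 := by simpa using hρ
    rw [this]; simpa using hx
  · rw [Set.uIcc_of_le hs.le] at hρ
    rw [abs_of_pos hs] at hσ
    have hsin : 0 < Real.sin σ := Real.sin_pos_of_pos_of_lt_pi hs hσ
    have key : Real.cos ρ • x + Real.sin ρ • Y = (Real.sin (σ - ρ) / Real.sin σ) • x
        + (Real.sin ρ / Real.sin σ) • (Real.cos σ • x + Real.sin σ • Y) := by
      rw [Real.sin_sub]
      have e1 : (Real.sin σ * Real.cos ρ - Real.cos σ * Real.sin ρ) / Real.sin σ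
          = Real.cos ρ - Real.sin ρ / Real.sin σ * Real.cos σ := by
        field_simp
      have e2 : Real.sin ρ = Real.sin ρ / Real.sin σ * Real.sin σ := by field_simp
      rw [e1]
      conv_lhs => rw [e2]
      module
    have h9 := l1gd_AdS hx.2 h0 h1 ρ
    unfold l1gd at h9
    rw [key] at h9 ⊢
    refine Omg_convex x hx _ hy _ _ ?_ ?_ h9
    · exact div_nonneg (Real.sin_nonneg_of_nonneg_of_le_pi (by linarith [hρ.2])
        (by linarith [hρ.1])) hsin.le
    · exact div_nonneg (Real.sin_nonneg_of_nonneg_of_le_pi hρ.1 (by linarith [hρ.2])) hsin.le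

lemma l2J_cont : ContinuousOn l1J AdS := by
  have h1 : ContinuousOn (fun x : V => (√(x 3 ^ 2 + x 4 ^ 2))⁻¹) AdS := by
    apply ContinuousOn.inv₀
    · fun_prop
    · intro x hx
      exact (Real.sqrt_pos.2 (l1_pos hx)).ne'
  have h2 : ContinuousOn (fun x : V => (![0, 0, 0, - x 4, x 3] : V)) AdS := by
    apply Continuous.continuousOn
    apply continuous_pi
    intro i
    fin_cases i <;> simp <;> fun_prop
  exact h1.smul h2

theorem leaf_connected {L : Set V} (hL : IsCauchy Omg L) (hcl : IsClosed L) : IsPreconnected L := by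
  classical
  have hex : ∀ x : Omg, ∃ τ : ℝ, |τ| < Real.pi ∧ (Real.cos τ • x.1 + Real.sin τ • l1J x.1 ∈ L) ∧
      ∀ σ : ℝ, |σ| < Real.pi → Real.cos σ • x.1 + Real.sin σ • l1J x.1 ∈ L → σ = τ := by
    intro x
    obtain ⟨τ, ⟨h1, h2⟩, h3⟩ :=
      cauchy_geod openInAdS_Omg hL x.2 (l1J_orth x.1) (l1J_unit x.2.2) (l1J_om x.2.2)
    exact ⟨τ, l1_abs_lt x.2 h2, h1, fun σ hσ hσL => h3 σ ⟨hσL,
      l2_segment x.2 (l1J_orth x.1) (l1J_unit x.2.2) hσ (hL.1 hσL)⟩⟩
  choose T hT1 hT2 hT3 using hex
  have hJ : Continuous fun x : Omg => l1J x.1 := by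
    rw [continuous_iff_continuousAt]
    intro x
    have h1 : ContinuousWithinAt l1J AdS x.1 := l2J_cont x.1 x.2.2
    exact h1.tendsto.comp (tendsto_nhdsWithin_iff.2
      ⟨continuous_subtype_val.continuousAt, Eventually.of_forall fun y => y.2.2⟩)
  have hTc : Continuous T := by
    rw [continuous_iff_continuousAt]
    intro x
    have hcomp : IsCompact (Set.Icc (-Real.pi) Real.pi) := isCompact_Icc
    refine hcomp.tendsto_nhds_of_unique_mapClusterPt ?_ ?_
    · exact Eventually.of_forall fun y => ⟨(abs_lt.1 (hT1 y)).1.le, (abs_lt.1 (hT1 y)).2.le⟩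
    · intro σ hσ hcl'
      -- along an ultrafilter
      obtain ⟨U, hU1, hU2⟩ := mapClusterPt_iff_ultrafilter.1 hcl'
      have hlim : Tendsto (fun y : Omg => Real.cos (T y) • y.1 + Real.sin (T y) • l1J y.1) U
          (𝓝 (Real.cos σ • x.1 + Real.sin σ • l1J x.1)) := by
        have a1 : Tendsto (fun y : Omg => y.1) U (𝓝 x.1) :=
          (continuous_subtype_val.tendsto x).comp hU1
        have a2 : Tendsto (fun y : Omg => l1J y.1) U (𝓝 (l1J x.1)) := (hJ.tendsto x).comp hU1
        have a3 : Tendsto (fun y : Omg => Real.cos (T y)) U (𝓝 (Real.cos σ)) :=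
          (Real.continuous_cos.tendsto σ).comp hU2
        have a4 : Tendsto (fun y : Omg => Real.sin (T y)) U (𝓝 (Real.sin σ)) :=
          (Real.continuous_sin.tendsto σ).comp hU2
        exact (a3.smul a1).add (a4.smul a2)
      have hmem : Real.cos σ • x.1 + Real.sin σ • l1J x.1 ∈ L :=
        hcl.mem_of_tendsto hlim (Eventually.of_forall fun y => hT2 y)
      have hlt : |σ| < Real.pi := by
        rcases (abs_le.2 ⟨hσ.1, hσ.2⟩ : |σ| ≤ Real.pi).lt_or_eq with h | h
        · exact h
        · exfalso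
          have hc : Real.cos σ = -1 := by rw [← Real.cos_abs, h, Real.cos_pi]
          have hs : Real.sin σ = 0 := by
            rcases abs_choice σ with h' | h'
            · rw [h'] at h; rw [h, Real.sin_pi]
            · rw [h'] at h
              have : σ = -Real.pi := by linarith
              rw [this, Real.sin_neg, Real.sin_pi, neg_zero]
          rw [hc, hs] at hmem
          apply l1_neg_notMem x.2
          have := hL.1 hmem
          convert this using 1; module
      exact hT3 x σ hlt hmem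
  have hP : Continuous fun y : Omg => Real.cos (T y) • y.1 + Real.sin (T y) • l1J y.1 :=
    ((Real.continuous_cos.comp hTc).smul continuous_subtype_val).add
      ((Real.continuous_sin.comp hTc).smul hJ)
  have himg : Set.range (fun y : Omg => Real.cos (T y) • y.1 + Real.sin (T y) • l1J y.1) = L := by
    apply Set.Subset.antisymm
    · rintro _ ⟨y, rfl⟩
      exact hT2 y
    · intro x hx
      refine ⟨⟨x, hL.1 hx⟩, ?_⟩
      have h0 : (0 : ℝ) = T ⟨x, hL.1 hx⟩ :=
        hT3 ⟨x, hL.1 hx⟩ 0 (by simpa using Real.pi_pos) (by simpa using hx)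
      change Real.cos (T ⟨x, hL.1 hx⟩) • x + Real.sin (T ⟨x, hL.1 hx⟩) • l1J x = x
      rw [← h0]; simp
  rw [← himg]
  have : PreconnectedSpace Omg :=
    isPreconnected_iff_preconnectedSpace.1 isConnected_Omg.isPreconnected
  exact isPreconnected_range hP

end Pool.Agent.H93.KT
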