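import Pool.Agent.H93.KT.Leaf1
import Pool.Agent.H93.KT.KCore

set_option autoImplicit false

/-! MODULE Leaf3.  (F5): existence of low leaves.
`vert_meets`: through every vertical geodesic: for `q ∈ Xi`, `s`, there is `τ ∈ (0,π)` with `cc q.1 q.2 s τ ∈ L` and
`cc q.1 q.2 s τ' ∈ Omg` between (apply `cauchy_geod` at `x = cc … (π/2) = yl s` with `X = - pp a b`: parameter
`τ - π/2`; `pp a b ∉ Cop` bounds below by `0`, `-pp` bounds above by `π`).
`exists_low_leaf`: fix `d ≤ d0` (`cc_mem_Past`).  `Xi × [0, N log(3+2√2)]` is compact and the continuous function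
`(q,s) ↦ t (cc q.1 q.2 s d)` has a minimum `m`; by `Γ`-invariance (`gg^N`, `act_gg_cc`) `m` is the minimum over
`Xi × ℝ`; attained at `(q1,s1)`.  Let `x = cc q1.1 q1.2 s1 (d/2)`: `t x < m` (`CausalSeg` in `Past`).  `L = level of x`.
`A = {(q,s) ∈ Xi × ℝ | ∃ τ ∈ (0,d), cc q.1 q.2 s τ ∈ L}` contains `(q1,s1)`; it is closed in `Xi × ℝ`: a limit `τ → σ ∈ [0,d]`,
point in `L` (`leaf_closed`), `σ ≠ 0` as `pp ∉ Omg`, `σ ≠ d` as `t (cc … d) ≥ m > t x`; it is open: if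
`(q_n,s_n) → (q,s) ∈ A` (with `τ₀`) and `vert_meets` gives `τ_n ∉ (0,d)`, `τ_n → σ ∈ [d,π]`, both `cc … τ₀` and `cc … σ` are
in `L` with `B = - cos (σ - τ₀) ∈ (-1,1)`: contradiction with `leaf_achronal`.  `Xi × ℝ` is connected. -/

namespace Pool.Agent.H93.KT

open Filter Topology

lemma Leaf3_B_pp_yl (a b s : ℝ) : B (pp a b) (yl s) = 0 := by
  simp [B, pp, yl]

lemma Leaf3_B_pp (a b : ℝ) : B (pp a b) (pp a b) = -1 := pp_mem_AdS a b

lemma Leaf3_B_yl (s : ℝ) : B (yl s) (yl s) = -1 := (yl_mem s).2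

lemma Leaf3_om_pos (a b s : ℝ) : 0 < om (pp a b) (yl s) := by
  have h1 : 0 < √(1 + a ^ 2 + b ^ 2) := Real.sqrt_pos.2 (by positivity)
  have h2 := Real.cosh_pos s
  simp only [om, pp, yl, Matrix.cons_val]
  nlinarith [mul_pos h1 h2]

lemma Leaf3_B_cc (a b s τ σ : ℝ) : B (cc a b s τ) (cc a b s σ) = - Real.cos (σ - τ) := by
  unfold cc
  rw [B_add_left, B_add_right, B_add_right, B_smul_left, B_smul_left, B_smul_right, B_smul_right,
    B_smul_left, B_smul_left, B_smul_right, B_smul_right, Leaf3_B_pp, Leaf3_B_yl,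
    Leaf3_B_pp_yl, B_comm (yl s), Leaf3_B_pp_yl, Real.cos_sub]
  ring

theorem vert_meets {L : Set V} (hL : IsCauchy Omg L) {q : ℝ × ℝ} (hq : q ∈ Xi) (s : ℝ) :
    ∃ τ : ℝ, 0 < τ ∧ τ < Real.pi ∧ cc q.1 q.2 s τ ∈ L := by
  have hπ := Real.pi_pos
  obtain ⟨τ, ⟨hτ, hseg⟩, -⟩ := cauchy_geod openInAdS_Omg hL (yl_mem s)
    (X := - pp q.1 q.2) (by rw [B_neg_right, B_comm, Leaf3_B_pp_yl, neg_zero])
    (by rw [B_neg_right, B_neg_left, Leaf3_B_pp, neg_neg])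
    (by rw [om_neg_right, om_antisymm, neg_neg]; exact Leaf3_om_pos _ _ _)
  have e : ∀ σ : ℝ, cc q.1 q.2 s (σ + Real.pi / 2) =
      Real.cos σ • yl s + Real.sin σ • (- pp q.1 q.2) := by
    intro σ
    unfold cc
    rw [Real.cos_add_pi_div_two, Real.sin_add_pi_div_two]
    module
  refine ⟨τ + Real.pi / 2, ?_, ?_, ?_⟩
  · by_contra h
    push Not at h
    have h1 : -(Real.pi / 2) ∈ Set.uIcc 0 τ := by
      rw [Set.uIcc_of_ge (by linarith)]
      exact ⟨by linarith, by linarith⟩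
    have h2 := hseg _ h1
    rw [Real.cos_neg, Real.sin_neg, Real.cos_pi_div_two, Real.sin_pi_div_two] at h2
    have h3 : (0 : ℝ) • yl s + -(1 : ℝ) • -pp q.1 q.2 = pp q.1 q.2 := by module
    rw [h3] at h2
    exact pp_notMem_Cop _ _ h2.1
  · by_contra h
    push Not at h
    have h1 : Real.pi / 2 ∈ Set.uIcc 0 τ := by
      rw [Set.uIcc_of_le (by linarith)]
      exact ⟨by linarith, by linarith⟩
    have h2 := hseg _ h1
    rw [Real.cos_pi_div_two, Real.sin_pi_div_two] at h2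
    have h3 : (0 : ℝ) • yl s + (1 : ℝ) • -pp q.1 q.2 = - pp q.1 q.2 := by module
    rw [h3] at h2
    apply neg_notMem_Cbar h2.1
    rw [neg_neg]
    exact pp_mem_Cbar hq
  · rw [e]; exact hτ

lemma Leaf3_isClosed_Xi : IsClosed Xi := by
  unfold Xi
  have h1 : IsClosed {q : ℝ × ℝ | q.1 ^ 2 + q.2 ^ 2 ≤ 1 / 100} :=
    isClosed_le (by fun_prop) continuous_const
  have h2 : IsClosed {q : ℝ × ℝ | q.1 = 0 ∧ -1 ≤ q.2 ∧ q.2 ≤ 0} := by
    have a1 : IsClosed {q : ℝ × ℝ | q.1 = 0} := isClosed_eq (by fun_prop) continuous_const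
    have a2 : IsClosed {q : ℝ × ℝ | -1 ≤ q.2} := isClosed_le continuous_const (by fun_prop)
    have a3 : IsClosed {q : ℝ × ℝ | q.2 ≤ 0} := isClosed_le (by fun_prop) continuous_const
    exact a1.inter (a2.inter a3)
  exact h1.union h2

lemma Leaf3_isCompact_Xi : IsCompact Xi := by
  have hK : IsCompact (Set.Icc (-1 : ℝ) 1 ×ˢ Set.Icc (-1 : ℝ) 1) :=
    isCompact_Icc.prod isCompact_Icc
  refine hK.of_isClosed_subset Leaf3_isClosed_Xi ?_
  rintro q (h | ⟨h1, h2, h3⟩)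
  · have e1 : q.1 ^ 2 ≤ 1 := by nlinarith [sq_nonneg q.2]
    have e2 : q.2 ^ 2 ≤ 1 := by nlinarith [sq_nonneg q.1]
    exact ⟨abs_le.1 ((sq_le_one_iff_abs_le_one _).1 e1), abs_le.1 ((sq_le_one_iff_abs_le_one _).1 e2)⟩
  · exact ⟨by rw [h1]; constructor <;> norm_num, ⟨h2, by linarith⟩⟩

lemma Leaf3_Xi_star {q : ℝ × ℝ} (hq : q ∈ Xi) {b : ℝ} (h0 : 0 ≤ b) (h1 : b ≤ 1) : b • q ∈ Xi := by
  rcases hq with h | ⟨h2, h3, h4⟩
  · left
    simp only [Prod.smul_fst, Prod.smul_snd, smul_eq_mul]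
    have hb : b ^ 2 ≤ 1 := by nlinarith
    have : (b * q.1) ^ 2 + (b * q.2) ^ 2 = b ^ 2 * (q.1 ^ 2 + q.2 ^ 2) := by ring
    rw [this]
    nlinarith [mul_nonneg (sub_nonneg.2 hb) (by positivity : 0 ≤ q.1 ^ 2 + q.2 ^ 2)]
  · right
    simp only [Prod.smul_fst, Prod.smul_snd, smul_eq_mul]
    refine ⟨by rw [h2, mul_zero], ?_, ?_⟩
    · nlinarith
    · nlinarith

/-- the parameter set of the vertical geodesics -/
def Leaf3_Z : Set ((ℝ × ℝ) × ℝ) := {z | z.1 ∈ Xi}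

lemma Leaf3_connected : PreconnectedSpace Leaf3_Z := by
  have hs : StarConvex ℝ (0 : (ℝ × ℝ) × ℝ) Leaf3_Z := by
    intro y hy a b ha hb hab
    show (a • (0 : (ℝ × ℝ) × ℝ) + b • y).1 ∈ Xi
    have e : (a • (0 : (ℝ × ℝ) × ℝ) + b • y).1 = b • y.1 := by simp
    rw [e]
    exact Leaf3_Xi_star hy hb (by linarith)
  have hne : (0 : (ℝ × ℝ) × ℝ) ∈ Leaf3_Z := by
    show (0 : ℝ × ℝ) ∈ Xi
    left; simp
  have h := hs.isPathConnected hne
  exact (isPreconnected_iff_preconnectedSpace.1 h.isConnected.isPreconnected)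

lemma Leaf3_continuous_cc : Continuous fun p : ((ℝ × ℝ) × ℝ) × ℝ =>
    cc p.1.1.1 p.1.1.2 p.1.2 p.2 := by
  unfold cc pp yl
  refine Continuous.add ?_ ?_
  · refine Continuous.smul (Real.continuous_cos.comp continuous_snd) ?_
    rw [continuous_pi_iff]
    intro i
    fin_cases i <;> simp <;> fun_prop
  · refine Continuous.smul (Real.continuous_sin.comp continuous_snd) ?_
    rw [continuous_pi_iff]
    intro i
    fin_cases i
    · exact continuous_const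
    · exact continuous_const
    · exact Real.continuous_sinh.comp (continuous_snd.comp continuous_fst)
    · exact continuous_const
    · exact Real.continuous_cosh.comp (continuous_snd.comp continuous_fst)

lemma Leaf3_hasDeriv (a b s τ : ℝ) : HasDerivAt (cc a b s)
    (-Real.sin τ • pp a b + Real.cos τ • yl s) τ := by
  unfold cc
  exact ((Real.hasDerivAt_cos τ).smul_const _).add ((Real.hasDerivAt_sin τ).smul_const _)

lemma Leaf3_contDiff (a b s : ℝ) : ContDiff ℝ 1 (cc a b s) := by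
  unfold cc
  exact (Real.contDiff_cos.smul contDiff_const).add (Real.contDiff_sin.smul contDiff_const)

lemma Leaf3_future (a b s τ : ℝ) : FutureCausal (cc a b s τ) (deriv (cc a b s) τ) := by
  rw [(Leaf3_hasDeriv a b s τ).deriv]
  have h1 := Leaf3_B_pp a b
  have h2 := Leaf3_B_yl s
  have h3 := Leaf3_B_pp_yl a b s
  have h4 : B (yl s) (pp a b) = 0 := by rw [B_comm, h3]
  have h5 := Leaf3_om_pos a b s
  have h6 : om (yl s) (pp a b) = - om (pp a b) (yl s) := om_antisymm _ _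
  have h7 := Real.sin_sq_add_cos_sq τ
  refine ⟨?_, ?_, ?_⟩
  · unfold cc
    simp only [B_add_left, B_add_right, B_smul_left, B_smul_right, h1, h2, h3, h4]
    ring
  · simp only [B_add_left, B_add_right, B_smul_left, B_smul_right, h1, h2, h3, h4]
    nlinarith
  · unfold cc
    simp only [om_add_left, om_add_right, om_smul_left, om_smul_right, om_self, h6]
    have e : Real.cos τ * (-Real.sin τ * 0) + Real.sin τ * (-Real.sin τ * -om (pp a b) (yl s)) +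
        (Real.cos τ * (Real.cos τ * om (pp a b) (yl s)) + Real.sin τ * (Real.cos τ * 0)) =
        (Real.sin τ ^ 2 + Real.cos τ ^ 2) * om (pp a b) (yl s) := by ring
    nlinarith

lemma Leaf3_causal {U : Set V} {a b s τ₁ τ₂ : ℝ}
    (h : ∀ τ ∈ Set.Icc τ₁ τ₂, cc a b s τ ∈ U) : CausalSeg U (cc a b s) τ₁ τ₂ :=
  ⟨Leaf3_contDiff a b s, fun τ hτ => ⟨h τ hτ, Leaf3_future a b s τ⟩⟩

lemma Leaf3_Past_inv {γ : V ≃ₗ[ℝ] V} (hγ : γ ∈ Gam) {x : V} (hx : x ∈ Past Omg CC) :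
    γ x ∈ Past Omg CC := by
  obtain ⟨w, rfl, -⟩ := id hγ
  obtain ⟨h1, h2, c, a, b, hab, hc, hca, hcb⟩ := hx
  have hinv : ∀ γ ∈ Gam, ∀ x ∈ CC, γ x ∈ CC := CC_core.1.2.2.2.1
  refine ⟨(act_mem_Omg w).2 h1, ?_, ?_⟩
  · intro h
    have h3 := hinv _ (Gam.inv_mem hγ) _ h
    rw [← map_inv, act_inv_act] at h3
    exact h2 h3
  · refine ⟨fun s => act w (c s), a, b, hab, ?_, ?_, ?_⟩
    · have h4 := CausalSeg_act w (fun x hx => hx.2) hc
      refine CausalSeg_mono h4 ?_ le_rfl le_rfl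
      rintro _ ⟨y, hy, rfl⟩
      exact (act_mem_Omg w).2 hy
    · show act w (c a) = act w x
      rw [hca]
    · exact hinv _ hγ _ hcb

lemma Leaf3_closed_proj {L : Set V} (hL : IsClosed L) (a b : ℝ) :
    IsClosed {z : Leaf3_Z | ∃ τ ∈ Set.Icc a b, cc z.1.1.1 z.1.1.2 z.1.2 τ ∈ L} := by
  have h1 : IsClosed {p : Leaf3_Z × Set.Icc a b | cc p.1.1.1.1 p.1.1.1.2 p.1.1.2 p.2.1 ∈ L} := by
    apply hL.preimage
    exact Leaf3_continuous_cc.comp (f := fun p : Leaf3_Z × Set.Icc a b =>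
      ((p.1.1, p.2.1) : ((ℝ × ℝ) × ℝ) × ℝ)) (by fun_prop)
  have h2 := isClosedMap_fst_of_compactSpace (X := Leaf3_Z) (Y := Set.Icc a b) _ h1
  convert h2 using 1
  ext z
  constructor
  · rintro ⟨τ, hτ, h⟩
    exact ⟨(z, ⟨τ, hτ⟩), h, rfl⟩
  · rintro ⟨⟨z', τ⟩, h, rfl⟩
    exact ⟨τ.1, τ.2, h⟩

theorem exists_low_leaf {t : V → ℝ} (ht : IsKTimeLike Gam Omg (Past Omg CC) t) {d : ℝ}
    (hd : 0 < d) : ∃ x ∈ Past Omg CC, ∀ q ∈ Xi, ∀ s : ℝ, ∃ τ : ℝ, 0 < τ ∧ τ < d ∧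
      cc q.1 q.2 s τ ∈ {z | z ∈ Past Omg CC ∧ t z = t x} := by
  obtain ⟨d0, hd0, hd01, hpast⟩ := cc_mem_Past
  obtain ⟨htc, hti, htm, k, htk⟩ := ht
  have hπ := Real.pi_gt_three
  set e := min d d0 with he
  have he0 : 0 < e := lt_min hd hd0
  have hed : e ≤ d := min_le_left _ _
  have hed0 : e ≤ d0 := min_le_right _ _
  -- the minimum
  set F : (ℝ × ℝ) × ℝ → ℝ := fun z => t (cc z.1.1 z.1.2 z.2 e) with hF
  have hFc : ContinuousOn F Leaf3_Z := by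
    refine htc.comp ?_ ?_
    · exact (Leaf3_continuous_cc.comp (f := fun z : (ℝ × ℝ) × ℝ =>
        ((z, e) : ((ℝ × ℝ) × ℝ) × ℝ)) (by fun_prop)).continuousOn
    · intro z hz
      exact hpast z.1 hz z.2 e he0 hed0
  obtain ⟨N, hN, hgg⟩ := gg_pow_mem
  set P : ℝ := N * Real.log (3 + 2 * √2) with hP
  have hP0 : 0 < P := by
    apply mul_pos (by exact_mod_cast hN)
    apply Real.log_pos
    have : 0 < √2 := by positivity
    linarith
  have hper : ∀ q ∈ Xi, Function.Periodic (fun s => F (q, s)) P := by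
    intro q hq s
    show t (cc q.1 q.2 (s + P) e) = t (cc q.1 q.2 s e)
    rw [hP, ← act_gg_cc]
    exact hti _ hgg _ (hpast q hq s e he0 hed0)
  have hK : IsCompact (Xi ×ˢ Set.Icc 0 P) := Leaf3_isCompact_Xi.prod isCompact_Icc
  have hKne : (Xi ×ˢ Set.Icc 0 P).Nonempty :=
    ⟨((0, 0), 0), by left; norm_num, ⟨le_rfl, hP0.le⟩⟩
  obtain ⟨z1, hz1, hmin⟩ := hK.exists_isMinOn hKne (hFc.mono fun z hz => hz.1)
  have hmin' : ∀ q ∈ Xi, ∀ s, F z1 ≤ F (q, s) := by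
    intro q hq s
    obtain ⟨y, hy, hy'⟩ := (hper q hq).exists_mem_Ico₀ hP0 s
    rw [show F (q, s) = F (q, y) from hy']
    exact hmin (show (q, y) ∈ Xi ×ˢ Set.Icc 0 P from ⟨hq, Set.Ico_subset_Icc_self hy⟩)
  -- the leaf
  set x := cc z1.1.1 z1.1.2 z1.2 (e / 2) with hx
  have hxP : x ∈ Past Omg CC := hpast z1.1 hz1.1 z1.2 (e / 2) (by linarith) (by linarith)
  have hxm : t x < F z1 := by
    refine htm (cc z1.1.1 z1.1.2 z1.2) (e / 2) e (by linarith) (Leaf3_causal fun τ hτ => ?_)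
    exact hpast z1.1 hz1.1 z1.2 τ (by linarith [hτ.1]) (by linarith [hτ.2])
  set L : Set V := {z | z ∈ Past Omg CC ∧ t z = t x} with hLdef
  have hL : IsCauchy Omg L := (htk x hxP).1
  have hLinv : ∀ γ ∈ Gam, ∀ y ∈ L, γ y ∈ L := fun γ hγ y hy =>
    ⟨Leaf3_Past_inv hγ hy.1, by rw [hti γ hγ y hy.1]; exact hy.2⟩
  have hLcl : IsClosed L := leaf_closed hL hLinv
  have hLO : L ⊆ Omg := hL.1
  -- the two closed sets
  set S1 := {z : Leaf3_Z | ∃ τ ∈ Set.Icc 0 e, cc z.1.1.1 z.1.1.2 z.1.2 τ ∈ L} with hS1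
  set S2 := {z : Leaf3_Z | ∃ τ ∈ Set.Icc e Real.pi, cc z.1.1.1 z.1.1.2 z.1.2 τ ∈ L} with hS2
  have hc1 : IsClosed S1 := Leaf3_closed_proj hLcl _ _
  have hc2 : IsClosed S2 := Leaf3_closed_proj hLcl _ _
  have hpos : ∀ z : Leaf3_Z, ∀ τ ∈ Set.Icc 0 e, cc z.1.1.1 z.1.1.2 z.1.2 τ ∈ L → 0 < τ := by
    intro z τ hτ h
    rcases hτ.1.eq_or_lt with h0 | h0
    · exfalso
      rw [← h0] at h
      have h1 := (hLO h).1
      have h2 : cc z.1.1.1 z.1.1.2 z.1.2 0 = pp z.1.1.1 z.1.1.2 := by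
        unfold cc; simp
      rw [h2] at h1
      exact pp_notMem_Cop _ _ h1
    · exact h0
  have hnee : ∀ z : Leaf3_Z, cc z.1.1.1 z.1.1.2 z.1.2 e ∉ L := by
    intro z h
    have h1 := hmin' z.1.1 z.2 z.1.2
    have h2 : F (z.1.1, z.1.2) = t x := h.2
    linarith
  have hdisj : ∀ z : Leaf3_Z, z ∈ S1 → z ∈ S2 → False := by
    rintro z ⟨τ1, h1, h1L⟩ ⟨τ2, h2, h2L⟩
    have hp := hpos z τ1 h1 h1L
    have hlt : τ1 < τ2 := by
      rcases (h1.2.trans h2.1).eq_or_lt with h | h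
      · exfalso
        have : τ1 = e := le_antisymm h1.2 (by rw [h]; exact h2.1)
        rw [this] at h1L
        exact hnee z h1L
      · exact h
    have hB := Leaf3_B_cc z.1.1.1 z.1.1.2 z.1.2 τ1 τ2
    have hd1 : 0 < τ2 - τ1 := by linarith
    have hd2 : τ2 - τ1 < Real.pi := by linarith [h2.2]
    have hcos1 : Real.cos (τ2 - τ1) < 1 := by
      rw [← Real.cos_zero]
      exact Real.cos_lt_cos_of_nonneg_of_le_pi le_rfl hd2.le hd1
    have hcos2 : -1 < Real.cos (τ2 - τ1) := by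
      rw [← Real.cos_pi]
      exact Real.cos_lt_cos_of_nonneg_of_le_pi hd1.le le_rfl hd2
    exact leaf_achronal hL h1L h2L (by rw [hB]; linarith) (by rw [hB]; linarith)
  have hcov : ∀ z : Leaf3_Z, z ∈ S1 ∨ z ∈ S2 := by
    intro z
    obtain ⟨τ, h0, h1, h⟩ := vert_meets hL z.2 z.1.2
    rcases le_total τ e with h2 | h2
    · exact Or.inl ⟨τ, ⟨h0.le, h2⟩, h⟩
    · exact Or.inr ⟨τ, ⟨h2, h1.le⟩, h⟩
  have hcompl : S1ᶜ = S2 := by
    ext z
    constructor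
    · intro h
      exact (hcov z).resolve_left h
    · intro h h'
      exact hdisj z h' h
  have := Leaf3_connected
  have hclopen : IsClopen S1 := ⟨hc1, by
    rw [← isClosed_compl_iff, hcompl]; exact hc2⟩
  have huniv : S1 = Set.univ := by
    apply hclopen.eq_univ
    refine ⟨⟨z1, hz1.1⟩, e / 2, ⟨by linarith, by linarith⟩, ?_⟩
    exact ⟨hxP, rfl⟩
  refine ⟨x, hxP, fun q hq s => ?_⟩
  have h1 : (⟨(q, s), hq⟩ : Leaf3_Z) ∈ S1 := by rw [huniv]; trivial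
  obtain ⟨τ, hτ, h⟩ := h1
  refine ⟨τ, hpos _ τ hτ h, ?_, h⟩
  have h2 : τ ≠ e := by
    rintro rfl
    exact hnee _ h
  exact (lt_of_le_of_ne hτ.2 h2).trans_le hed

end Pool.Agent.H93.KT
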