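import Pool.Agent.H93.KT.Ob

set_option autoImplicit false

/-! MODULE Lor1.  Lorentzian geometry of a tangent space `x^⊥`, `x ∈ AdS`.
`J x = ![0,0,0,-x 4,x 3]` satisfies `B x (J x) = 0`, `B (J x) (J x) = -(x 3² + x 4²) < 0`, `om x Y = - B Y (J x)`.
`B_neg_of_same`: with `r² = x3²+x4² = 1+x0²+x1²+x2²`, decompose a tangent vector `X = a • J x + X'`,
`B X' (J x) = 0`, `B X' X' ≥ 0` and Cauchy–Schwarz on `{x, J x}^⊥` (positive definite: such a vector is
determined by its first three coordinates `y`, `B = |y|² - ⟨y,x'⟩²/r²`).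
`act_future`: enough for `act (simple i)`, i.e. for a reflection `s` in a spacelike vector `α`.  For a timelike
`Y` in `x^⊥`: choose `φ` with `B (cos φ • x + sin φ • Y') α = 0` (`Y'` = normalised `Y`), put
`u = cos φ • x + sin φ • Y'`, `u' = -sin φ • x + cos φ • Y'`; `s u = u`, `om u u' = om x Y'`,
`B u' (s u') = -1 - 2 (B u' α)²/B α α < 0` so `om u (s u') > 0` and `om (s x) (s Y') = om (s u) (s u') = om u (s u')`.
Apply it to `Y = J x`; for causal future `X`, `B (s X) (s (J x)) = B X (J x) < 0` gives `om (s x) (s X) > 0`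
(`om_pos_of_B_neg`). -/

namespace Pool.Agent.H93.KT

/-- On the orthogonal of `x` (`B x x < 0`), the form is positive on vectors with `om x W = 0`. -/
lemma lor_key {x W : V} (hx : B x x < 0) (hW : B x W = 0) (ho : om x W = 0) :
    -(B x x) * (W 0 ^ 2 + W 1 ^ 2 + W 2 ^ 2) ≤ (x 3 ^ 2 + x 4 ^ 2) * B W W := by
  have e1 : x 3 * W 3 + x 4 * W 4 = x 0 * W 0 + x 1 * W 1 + x 2 * W 2 := by
    unfold B at hW; linarith
  have e2 : x 3 * W 4 - x 4 * W 3 = 0 := by unfold om at ho; exact ho
  have e3 : (x 3 ^ 2 + x 4 ^ 2) * (W 3 ^ 2 + W 4 ^ 2) = (x 0 * W 0 + x 1 * W 1 + x 2 * W 2) ^ 2 := by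
    have : (x 3 ^ 2 + x 4 ^ 2) * (W 3 ^ 2 + W 4 ^ 2)
        = (x 3 * W 3 + x 4 * W 4) ^ 2 + (x 3 * W 4 - x 4 * W 3) ^ 2 := by ring
    rw [this, e1, e2]; ring
  have e4 : (x 0 * W 0 + x 1 * W 1 + x 2 * W 2) ^ 2
      ≤ (x 0 ^ 2 + x 1 ^ 2 + x 2 ^ 2) * (W 0 ^ 2 + W 1 ^ 2 + W 2 ^ 2) := by
    nlinarith [sq_nonneg (x 0 * W 1 - x 1 * W 0), sq_nonneg (x 0 * W 2 - x 2 * W 0),
      sq_nonneg (x 1 * W 2 - x 2 * W 1)]
  have e5 : (x 3 ^ 2 + x 4 ^ 2) * B W W
      = (x 3 ^ 2 + x 4 ^ 2) * (W 0 ^ 2 + W 1 ^ 2 + W 2 ^ 2)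
        - (x 3 ^ 2 + x 4 ^ 2) * (W 3 ^ 2 + W 4 ^ 2) := by
    unfold B; ring
  rw [e5, e3]
  have e6 : -(B x x) * (W 0 ^ 2 + W 1 ^ 2 + W 2 ^ 2)
      = (x 3 ^ 2 + x 4 ^ 2) * (W 0 ^ 2 + W 1 ^ 2 + W 2 ^ 2)
        - (x 0 ^ 2 + x 1 ^ 2 + x 2 ^ 2) * (W 0 ^ 2 + W 1 ^ 2 + W 2 ^ 2) := by
    unfold B; ring
  rw [e6]; linarith

lemma r_pos {x : V} (hx : B x x < 0) : 0 < x 3 ^ 2 + x 4 ^ 2 := by
  unfold B at hx
  nlinarith [sq_nonneg (x 0), sq_nonneg (x 1), sq_nonneg (x 2)]

lemma lor_nonneg {x W : V} (hx : B x x < 0) (hW : B x W = 0) (ho : om x W = 0) : 0 ≤ B W W := by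
  have h := lor_key hx hW ho
  have h1 : 0 ≤ -(B x x) * (W 0 ^ 2 + W 1 ^ 2 + W 2 ^ 2) :=
    mul_nonneg (by linarith) (by positivity)
  exact nonneg_of_mul_nonneg_right (h1.trans h) (r_pos hx)

lemma lor_eq_zero {x W : V} (hx : B x x < 0) (hW : B x W = 0) (ho : om x W = 0)
    (hWW : B W W ≤ 0) : W = 0 := by
  have h := lor_key hx hW ho
  have hr := r_pos hx
  have h2 : (x 3 ^ 2 + x 4 ^ 2) * B W W ≤ 0 := mul_nonpos_of_nonneg_of_nonpos hr.le hWW
  have h3 : W 0 ^ 2 + W 1 ^ 2 + W 2 ^ 2 ≤ 0 := by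
    by_contra hc
    push Not at hc
    have := mul_pos (neg_pos.2 hx) hc
    linarith
  have w0 : W 0 = 0 := by nlinarith [sq_nonneg (W 0), sq_nonneg (W 1), sq_nonneg (W 2)]
  have w1 : W 1 = 0 := by nlinarith [sq_nonneg (W 0), sq_nonneg (W 1), sq_nonneg (W 2)]
  have w2 : W 2 = 0 := by nlinarith [sq_nonneg (W 0), sq_nonneg (W 1), sq_nonneg (W 2)]
  have e1 : x 3 * W 3 + x 4 * W 4 = 0 := by
    unfold B at hW; rw [w0, w1, w2] at hW; linarith
  have e2 : x 3 * W 4 - x 4 * W 3 = 0 := by unfold om at ho; exact ho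
  have e3 : (x 3 ^ 2 + x 4 ^ 2) * (W 3 ^ 2 + W 4 ^ 2) = 0 := by
    have : (x 3 ^ 2 + x 4 ^ 2) * (W 3 ^ 2 + W 4 ^ 2)
        = (x 3 * W 3 + x 4 * W 4) ^ 2 + (x 3 * W 4 - x 4 * W 3) ^ 2 := by ring
    rw [this, e1, e2]; ring
  have e4 : W 3 ^ 2 + W 4 ^ 2 = 0 := (mul_eq_zero.1 e3).resolve_left hr.ne'
  have w3 : W 3 = 0 := by nlinarith [sq_nonneg (W 3), sq_nonneg (W 4)]
  have w4 : W 4 = 0 := by nlinarith [sq_nonneg (W 3), sq_nonneg (W 4)]
  ext i
  fin_cases i <;> simp [w0, w1, w2, w3, w4]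

lemma B_neg_of_same' {x X Y : V} (hx : B x x < 0) (hX : B x X = 0) (hY : B x Y = 0)
    (hXc : B X X ≤ 0) (hYt : B Y Y < 0) (h : 0 < om x X) (h' : 0 < om x Y) : B X Y < 0 := by
  have h1 : 0 ≤ B (om x Y • X - om x X • Y) (om x Y • X - om x X • Y) := by
    apply lor_nonneg hx
    · simp [hX, hY]
    · simp; ring
  have h2 : B (om x Y • X - om x X • Y) (om x Y • X - om x X • Y)
      = (om x Y) ^ 2 * B X X - 2 * (om x X * om x Y) * B X Y + (om x X) ^ 2 * B Y Y := by
    simp only [B_sub_left, B_sub_right, B_smul_left, B_smul_right]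
    rw [B_comm Y X]; ring
  rw [h2] at h1
  have h3 : (om x Y) ^ 2 * B X X ≤ 0 := mul_nonpos_of_nonneg_of_nonpos (by positivity) hXc
  have h4 : (om x X) ^ 2 * B Y Y < 0 := mul_neg_of_pos_of_neg (by positivity) hYt
  have h5 : 2 * (om x X * om x Y) * B X Y < 0 := by linarith
  exact (pos_iff_neg_of_mul_neg h5).1 (by positivity)

lemma om_ne_zero' {x X : V} (hx : B x x < 0) (hX : B x X = 0) (hXc : B X X ≤ 0) (hX0 : X ≠ 0) :
    om x X ≠ 0 := fun h => hX0 (lor_eq_zero hx hX h hXc)

lemma om_pos_of_B_neg' {x X Y : V} (hx : B x x < 0) (hX : B x X = 0) (hY : B x Y = 0)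
    (hXc : B X X ≤ 0) (hYt : B Y Y < 0) (h : B X Y < 0) (h' : 0 < om x Y) : 0 < om x X := by
  have hX0 : X ≠ 0 := by
    rintro rfl; simp at h
  rcases lt_or_gt_of_ne (om_ne_zero' hx hX hXc hX0) with h1 | h1
  · exfalso
    have := B_neg_of_same' (X := -X) hx (by simp [hX]) hY (by simpa using hXc) hYt (by simpa using h1) h'
    simp only [B_neg_left] at this
    linarith
  · exact h1

lemma AdS_neg {x : V} (hx : x ∈ AdS) : B x x < 0 := by
  have : B x x = -1 := hx
  rw [this]; norm_num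

/-- two causal tangent vectors, one of them timelike, in the same time cone -/
theorem B_neg_of_same {x X Y : V} (hx : x ∈ AdS) (hX : B x X = 0) (hY : B x Y = 0)
    (hXc : B X X ≤ 0) (hYt : B Y Y < 0) (h : 0 < om x X) (h' : 0 < om x Y) : B X Y < 0 :=
  B_neg_of_same' (AdS_neg hx) hX hY hXc hYt h h'

theorem om_ne_zero {x X : V} (hx : x ∈ AdS) (hX : B x X = 0) (hXc : B X X ≤ 0) (hX0 : X ≠ 0) :
    om x X ≠ 0 := om_ne_zero' (AdS_neg hx) hX hXc hX0

theorem om_pos_of_B_neg {x X Y : V} (hx : x ∈ AdS) (hX : B x X = 0) (hY : B x Y = 0)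
    (hXc : B X X ≤ 0) (hYt : B Y Y < 0) (h : B X Y < 0) (h' : 0 < om x Y) : 0 < om x X :=
  om_pos_of_B_neg' (AdS_neg hx) hX hY hXc hYt h h'

/-- the tangential part of `p` at `x` -/
lemma tang_props {x p : V} (hx : x ∈ AdS) (hp : p ∈ AdS) (h1 : -1 < B x p) (h2 : B x p < 1) :
    B x (p + B x p • x) = 0 ∧ B (p + B x p • x) (p + B x p • x) < 0 := by
  have ex : B x x = -1 := hx
  have ep : B p p = -1 := hp
  constructor
  · simp [ex]
  · simp only [B_add_left, B_add_right, B_smul_left, B_smul_right, ex, ep]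
    rw [B_comm p x]
    nlinarith

/-- (L2), `p` in the past of `x` -/
theorem B_pos_of_past {x X p : V} (hx : x ∈ AdS) (hp : p ∈ AdS) (hX : FutureCausal x X)
    (h1 : -1 < B x p) (h2 : B x p < 1) (ho : om x p < 0) : 0 < B X p := by
  obtain ⟨hX1, hX2, hX3⟩ := hX
  obtain ⟨t1, t2⟩ := tang_props hx hp h1 h2
  have h := B_neg_of_same (Y := -(p + B x p • x)) hx hX1 (by simp only [B_neg_right, t1, neg_zero]) hX2
    (by simp only [B_neg_right, B_neg_left, neg_neg]; exact t2) hX3
    (by simp only [om_neg_right, om_add_right, om_smul_right, om_self]; linarith)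
  simp only [B_neg_right, B_add_right, B_smul_right] at h
  rw [B_comm X x, hX1] at h
  linarith

/-- (L2), `p` in the future of `x` -/
theorem B_neg_of_future {x X p : V} (hx : x ∈ AdS) (hp : p ∈ AdS) (hX : FutureCausal x X)
    (h1 : -1 < B x p) (h2 : B x p < 1) (ho : 0 < om x p) : B X p < 0 := by
  obtain ⟨hX1, hX2, hX3⟩ := hX
  obtain ⟨t1, t2⟩ := tang_props hx hp h1 h2
  have h := B_neg_of_same (Y := p + B x p • x) hx hX1 t1 hX2 t2 hX3
    (by simp only [om_add_right, om_smul_right, om_self]; linarith)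
  simp only [B_add_right, B_smul_right] at h
  rw [B_comm X x, hX1] at h
  linarith

/-- if `-1 < B x y < 1` then `x, y` are joined by a timelike geodesic and `om x y ≠ 0` -/
theorem om_ne_zero_of_timelike {x y : V} (hx : x ∈ AdS) (hy : y ∈ AdS)
    (h1 : -1 < B x y) (h2 : B x y < 1) : om x y ≠ 0 := by
  obtain ⟨t1, t2⟩ := tang_props hx hy h1 h2
  have h := om_ne_zero hx t1 t2.le (by intro h0; rw [h0] at t2; simp at t2)
  simpa using h

/-- the reflection in a spacelike vector preserves the time orientation (timelike vectors) -/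
lemma refl_timelike {x Y α : V} {c : ℝ} (hc : 0 < c) (hα : B α α = c) (hx : B x x < 0)
    (hY : B x Y = 0) (hYt : B Y Y < 0) (ho : 0 < om x Y) :
    0 < om (x - (2 * B x α / c) • α) (Y - (2 * B Y α / c) • α) := by
  set s : V → V := fun z => z - (2 * B z α / c) • α with hs
  have sadd : ∀ z z', s (z + z') = s z + s z' := by
    intro z z'; simp only [hs, B_add_left]; module
  have ssmul : ∀ (t : ℝ) z, s (t • z) = t • s z := by
    intro t z; simp only [hs, B_smul_left]; module
  have sB : ∀ z z', B (s z) (s z') = B z z' := by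
    intro z z'
    simp only [hs, B_sub_left, B_sub_right, B_smul_left, B_smul_right, hα]
    rw [B_comm α z']
    field_simp
    ring
  set a := B x α with ha
  set b := B Y α with hb
  set n := - B x x with hn
  set m := - B Y Y with hm
  have hn0 : 0 < n := by simp only [hn]; linarith
  have hm0 : 0 < m := by simp only [hm]; linarith
  have exx : B x x = -n := by simp [hn]
  have eYY : B Y Y = -m := by simp [hm]
  have eYx : B Y x = 0 := by rw [B_comm]; exact hY
  change 0 < om (s x) (s Y)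
  by_cases hab : a = 0 ∧ b = 0
  · have h1 : s x = x := by simp [hs, ← ha, hab.1]
    have h2 : s Y = Y := by simp [hs, ← hb, hab.2]
    rw [h1, h2]; exact ho
  · have hD : 0 < b ^ 2 * n + a ^ 2 * m := by
      rcases not_and_or.1 hab with h | h
      · have := mul_pos (show 0 < a ^ 2 by positivity) hm0
        nlinarith [sq_nonneg b]
      · have := mul_pos (show 0 < b ^ 2 by positivity) hn0
        nlinarith [sq_nonneg a]
    set u := b • x - a • Y with hu
    set u' := (a * m) • x + (b * n) • Y with hu'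
    have u_al : B u α = 0 := by simp only [hu, B_sub_left, B_smul_left, ← ha, ← hb]; ring
    have su : s u = u := by simp [hs, u_al]
    have uu : B u u < 0 := by
      have : B u u = -(b ^ 2 * n + a ^ 2 * m) := by
        simp only [hu, B_sub_left, B_sub_right, B_smul_left, B_smul_right, hY, eYx, exx, eYY]; ring
      rw [this]; linarith
    have uu' : B u u' = 0 := by
      simp only [hu, hu', B_sub_left, B_add_right, B_smul_left, B_smul_right, hY, eYx, exx, eYY]; ring
    have u'u' : B u' u' < 0 := by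
      have : B u' u' = -(m * n * (b ^ 2 * n + a ^ 2 * m)) := by
        simp only [hu', B_add_left, B_add_right, B_smul_left, B_smul_right, hY, eYx, exx, eYY]; ring
      rw [this]
      have := mul_pos (mul_pos hm0 hn0) hD
      linarith
    have ouu' : om u u' = (b ^ 2 * n + a ^ 2 * m) * om x Y := by
      simp only [hu, hu', om_sub_right, om_add_right, om_smul_right]
      rw [show om (b • x - a • Y) x = b * om x x - a * om Y x by
        rw [om_antisymm, om_sub_right, om_smul_right, om_smul_right, om_antisymm Y x]; simp,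
        show om (b • x - a • Y) Y = b * om x Y - a * om Y Y by
        rw [om_antisymm, om_sub_right, om_smul_right, om_smul_right, om_antisymm Y x]; simp]
      rw [om_antisymm Y x, om_self, om_self]
      ring
    have usu' : B u (s u') = 0 := by
      rw [← uu']
      conv_lhs => rw [← su]
      exact sB u u'
    have su'su' : B (s u') (s u') < 0 := by rw [sB]; exact u'u'
    have su'u' : B (s u') u' < 0 := by
      have : B (s u') u' = B u' u' - 2 * (B u' α) ^ 2 / c := by
        simp only [hs, B_sub_left, B_smul_left]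
        rw [B_comm α u']; ring
      rw [this]
      have : 0 ≤ 2 * (B u' α) ^ 2 / c := by positivity
      linarith
    have h := om_pos_of_B_neg' uu usu' uu' su'su'.le u'u' su'u' (by rw [ouu']; positivity)
    have e : om u (s u') = (b ^ 2 * n + a ^ 2 * m) * om (s x) (s Y) := by
      conv_lhs => rw [← su]
      have e1 : s u = b • s x + (-a) • s Y := by
        rw [← ssmul, ← ssmul, ← sadd]; congr 1; simp only [hu]; module
      have e2 : s u' = (a * m) • s x + (b * n) • s Y := by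
        rw [← ssmul, ← ssmul, ← sadd]
      rw [e1, e2]
      simp only [om_add_right, om_smul_right, om_add_left, om_smul_left, om_self]
      rw [om_antisymm (s Y) (s x)]
      ring
    rw [e] at h
    exact (pos_iff_pos_of_mul_pos h).1 hD

/-- the rotated vector -/
def Jr (x : V) : V := ![0, 0, 0, -x 4, x 3]

lemma B_Jr (x : V) : B x (Jr x) = 0 := by simp [B, Jr]; ring

lemma B_Jr_Jr {x : V} (hx : B x x < 0) : B (Jr x) (Jr x) < 0 := by
  have := r_pos hx
  simp only [B, Jr, Matrix.cons_val_zero, Matrix.cons_val_one, Matrix.cons_val]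
  nlinarith

lemma om_Jr {x : V} (hx : B x x < 0) : 0 < om x (Jr x) := by
  have := r_pos hx
  simp only [om, Jr, Matrix.cons_val_zero, Matrix.cons_val_one, Matrix.cons_val]
  nlinarith

lemma Gr_diag_pos (i : Fin 5) : (0 : ℝ) < (Gr i i : ℝ) := by
  have e : ∀ i : Fin 5, 0 < Gr i i := by decide +kernel
  exact_mod_cast e i

lemma act_simple_sub (i : Fin 5) (x : V) :
    act (cs.simple i) x = x - (2 * B x (al i) / (Gr i i : ℝ)) • al i := by
  rw [act_simple]
  unfold X
  module

lemma simple_future {x X : V} (i : Fin 5) (hx : x ∈ AdS) (h : FutureCausal x X) :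
    FutureCausal (act (cs.simple i) x) (act (cs.simple i) X) := by
  have hxn := AdS_neg hx
  obtain ⟨h1, h2, h3⟩ := h
  refine ⟨by rw [B_act]; exact h1, by rw [B_act]; exact h2, ?_⟩
  have hJ : 0 < om (act (cs.simple i) x) (act (cs.simple i) (Jr x)) := by
    rw [act_simple_sub, act_simple_sub]
    exact refl_timelike (Gr_diag_pos i) (B_al i i) hxn (B_Jr x) (B_Jr_Jr hxn) (om_Jr hxn)
  have hXJ : B X (Jr x) < 0 := B_neg_of_same' hxn h1 (B_Jr x) h2 (B_Jr_Jr hxn) h3 (om_Jr hxn)
  exact om_pos_of_B_neg' (Y := act (cs.simple i) (Jr x)) (by rw [B_act]; exact hxn)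
    (by rw [B_act]; exact h1) (by rw [B_act]; exact B_Jr x) (by rw [B_act]; exact h2)
    (by rw [B_act]; exact B_Jr_Jr hxn) (by rw [B_act]; exact hXJ) hJ

/-- `W` preserves the time orientation -/
theorem act_future {x X : V} (w : W) (hx : x ∈ AdS) (h : FutureCausal x X) :
    FutureCausal (act w x) (act w X) := by
  revert x X
  induction w using cs.simple_induction_left with
  | one => intro x X hx h; simpa using h
  | mul_simple_left w i ih =>
    intro x X hx h
    rw [act_mul, act_mul]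
    exact simple_future i (act_AdS w hx) (ih hx h)

theorem act_om_pos {x y : V} (w : W) (hx : x ∈ AdS) (hy : y ∈ AdS) (h1 : -1 < B x y)
    (h2 : B x y < 1) (ho : 0 < om x y) : 0 < om (act w x) (act w y) := by
  obtain ⟨t1, t2⟩ := tang_props hx hy h1 h2
  have h : FutureCausal x (y + B x y • x) := ⟨t1, t2.le, by
    simp only [om_add_right, om_smul_right, om_self]; linarith⟩
  have := (act_future w hx h).2.2
  rw [map_add, map_smul] at this
  simp only [om_add_right, om_smul_right, om_self] at this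
  linarith

/-- a null vector orthogonal to `x ∈ AdS`, non zero, is future or past -/
theorem null_future {x k : V} (hx : x ∈ AdS) (hk : k ≠ 0) (h0 : B k k = 0) (h : B x k = 0) :
    FutureCausal x k ∨ FutureCausal x (-k) := by
  rcases lt_or_gt_of_ne (om_ne_zero hx h h0.le hk) with h1 | h1
  · right
    exact ⟨by simp [h], by simp [h0], by simpa using h1⟩
  · left
    exact ⟨h, h0.le, h1⟩

end Pool.Agent.H93.KT
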