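import Pool.Agent.H93.KT.NearQ
import Pool.Agent.H93.KT.Leaf3

set_option autoImplicit false

/-! MODULE NearQ2.  (G4), second half: a leaf that is low over the disc has a point where `Fb` has a local maximum.
`Fb (cc a b s τ) = sin² τ - c (cos τ)^8 (a²+b²)^4`.  Let `ρ = 1/10`, `d` tiny (`sin² d < c (cos d)^8 ρ^8 / 2`, `d ≤ 1/10`).
`K = {x ∈ L | x = cc a b s τ, a²+b² ≤ ρ², 0 ≤ s ≤ N log (3+2√2), 0 ≤ τ ≤ d}` is compact (L closed) and nonempty; let `x*` maximise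
`Fb` on `K`; by invariance (`gg ^ N`, `act_gg_cc`; `Fb (act gg x) = Fb x`) it is the maximum over all `s ∈ ℝ`.
`Fb x* > 0` (compare with the point over `(0,0)`), so `a*²+b*² < ρ²`.  `x*` is a local maximum on `L`: points `x` of `Omg` near
`x*` have `x 4 > |x 2|`, `x 3 > 0`, `x4² - x2² < 1`, so are of the form `cc a b s τ` with `sin τ = √(x4²-x2²)`,
`(a,b) = (x0,x1)/cos τ`, `a²+b² < ρ²`, and (if in `L`) `τ < d`: by hypothesis some `τ' < d` has `cc a b s τ' ∈ L`, and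
`leaf_achronal` forces `τ = τ'`.  Then `barrier_bound` gives `-κ < 1`. -/

namespace Pool.Agent.H93.KT

open Filter Topology

lemma nq_0 (a b s τ : ℝ) : cc a b s τ 0 = Real.cos τ * a := by simp [cc, pp, yl]
lemma nq_1 (a b s τ : ℝ) : cc a b s τ 1 = Real.cos τ * b := by simp [cc, pp, yl]
lemma nq_2 (a b s τ : ℝ) : cc a b s τ 2 = Real.sin τ * Real.sinh s := by simp [cc, pp, yl]
lemma nq_3 (a b s τ : ℝ) : cc a b s τ 3 = Real.cos τ * √(1 + a ^ 2 + b ^ 2) := by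
  simp [cc, pp, yl]
lemma nq_4 (a b s τ : ℝ) : cc a b s τ 4 = Real.sin τ * Real.cosh s := by simp [cc, pp, yl]

lemma nq_cc_eq (a b s τ : ℝ) : cc a b s τ = ![Real.cos τ * a, Real.cos τ * b,
    Real.sin τ * Real.sinh s, Real.cos τ * √(1 + a ^ 2 + b ^ 2), Real.sin τ * Real.cosh s] := by
  ext i
  fin_cases i
  · exact nq_0 a b s τ
  · exact nq_1 a b s τ
  · exact nq_2 a b s τ
  · exact nq_3 a b s τ
  · exact nq_4 a b s τ

lemma nq_cont : Continuous fun p : ℝ × ℝ × ℝ × ℝ => cc p.1 p.2.1 p.2.2.1 p.2.2.2 := by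
  have h : (fun p : ℝ × ℝ × ℝ × ℝ => cc p.1 p.2.1 p.2.2.1 p.2.2.2) = fun p =>
      ![Real.cos p.2.2.2 * p.1, Real.cos p.2.2.2 * p.2.1, Real.sin p.2.2.2 * Real.sinh p.2.2.1,
        Real.cos p.2.2.2 * √(1 + p.1 ^ 2 + p.2.1 ^ 2), Real.sin p.2.2.2 * Real.cosh p.2.2.1] := by
    funext p
    exact nq_cc_eq _ _ _ _
  rw [h]
  refine continuous_pi fun i => ?_
  fin_cases i <;> simp <;> fun_prop

lemma nq_sq (a b s τ : ℝ) : cc a b s τ 4 ^ 2 - cc a b s τ 2 ^ 2 = Real.sin τ ^ 2 := by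
  rw [nq_4, nq_2]
  have := Real.cosh_sq s
  rw [mul_pow, this]
  ring

lemma nq_sq' (a b s τ : ℝ) :
    cc a b s τ 0 ^ 2 + cc a b s τ 1 ^ 2 = Real.cos τ ^ 2 * (a ^ 2 + b ^ 2) := by
  rw [nq_0, nq_1]; ring

lemma nq_Fb (a b s τ : ℝ) : Fb (cc a b s τ) =
    Real.sin τ ^ 2 - (1 / 10 ^ 8) * (Real.cos τ ^ 2 * (a ^ 2 + b ^ 2)) ^ 4 := by
  unfold Fb
  rw [nq_sq, nq_sq']

lemma nq_B (a b s τ τ' : ℝ) : B (cc a b s τ) (cc a b s τ') = - Real.cos (τ - τ') := by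
  unfold B
  rw [nq_0, nq_1, nq_2, nq_3, nq_4, nq_0, nq_1, nq_2, nq_3, nq_4, Real.cos_sub]
  have h1 := Real.cosh_sq s
  have h2 : √(1 + a ^ 2 + b ^ 2) ^ 2 = 1 + a ^ 2 + b ^ 2 := Real.sq_sqrt (by positivity)
  have h3 : Real.cos τ * √(1 + a ^ 2 + b ^ 2) * (Real.cos τ' * √(1 + a ^ 2 + b ^ 2)) =
      Real.cos τ * Real.cos τ' * (1 + a ^ 2 + b ^ 2) := by
    calc _ = Real.cos τ * Real.cos τ' * √(1 + a ^ 2 + b ^ 2) ^ 2 := by ring
      _ = _ := by rw [h2]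
  have h4 : Real.sin τ * Real.cosh s * (Real.sin τ' * Real.cosh s) =
      Real.sin τ * Real.sin τ' * (Real.sinh s ^ 2 + 1) := by
    rw [← h1]; ring
  rw [h3, h4]
  ring

/-- two points of a leaf on the same vertical geodesic coincide -/
lemma nq_uniq {L : Set V} (hL : IsCauchy Omg L) {a b s τ τ' : ℝ} (h : cc a b s τ ∈ L)
    (h' : cc a b s τ' ∈ L) (h1 : 0 ≤ τ) (h2 : τ ≤ Real.pi / 2) (h3 : 0 < τ')
    (h4 : τ' < Real.pi / 2) : τ = τ' := by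
  by_contra hne
  have hpi := Real.pi_pos
  have hlt : Real.cos (τ - τ') < 1 := by
    refine lt_of_le_of_ne (Real.cos_le_one _) ?_
    intro h5
    rw [Real.cos_eq_one_iff_of_lt_of_lt (by linarith) (by linarith)] at h5
    exact hne (by linarith)
  have hgt : -1 < Real.cos (τ - τ') := by
    rcases lt_or_ge 0 (τ - τ') with h5 | h5
    · have := Real.cos_lt_cos_of_nonneg_of_le_pi h5.le (le_refl Real.pi) (by linarith)
      rwa [Real.cos_pi] at this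
    · have := Real.cos_lt_cos_of_nonneg_of_le_pi (x := -(τ - τ')) (by linarith) (le_refl Real.pi)
        (by linarith)
      rwa [Real.cos_pi, Real.cos_neg] at this
  refine leaf_achronal hL h h' ?_ ?_
  · rw [nq_B]; linarith
  · rw [nq_B]; linarith

lemma nq_exists {z : V} (hz : z ∈ AdS) (h3 : 0 < z 3) (h4 : |z 2| < z 4)
    (h1 : z 4 ^ 2 - z 2 ^ 2 < 1) :
    ∃ a b s τ : ℝ, 0 < τ ∧ τ < Real.pi / 2 ∧ z = cc a b s τ := by
  have hz' : z 0 * z 0 + z 1 * z 1 + z 2 * z 2 - z 3 * z 3 - z 4 * z 4 = -1 := hz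
  have hz4 : 0 < z 4 := (abs_nonneg _).trans_lt h4
  have hpos : 0 < z 4 ^ 2 - z 2 ^ 2 := by
    have := sq_lt_sq' (by linarith [abs_nonneg (z 2)] : - z 4 < |z 2|) h4
    rw [sq_abs] at this
    linarith
  set S : ℝ := √(z 4 ^ 2 - z 2 ^ 2) with hS
  have hS2 : S ^ 2 = z 4 ^ 2 - z 2 ^ 2 := Real.sq_sqrt hpos.le
  have hS0 : 0 < S := Real.sqrt_pos.2 hpos
  have hS1 : S < 1 := by
    by_contra h
    have : 1 ≤ S ^ 2 := one_le_pow₀ (not_lt.1 h)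
    linarith
  set τ : ℝ := Real.arcsin S with hτ
  have hsin : Real.sin τ = S := Real.sin_arcsin (by linarith) hS1.le
  have hτ0 : 0 < τ := Real.arcsin_pos.2 hS0
  have hτ1 : τ < Real.pi / 2 := Real.arcsin_lt_pi_div_two.2 hS1
  have hcos : 0 < Real.cos τ := Real.cos_pos_of_mem_Ioo ⟨by linarith, hτ1⟩
  have hcos2 : Real.cos τ ^ 2 = 1 - S ^ 2 := by
    rw [Real.cos_sq', hsin]
  set s : ℝ := Real.arsinh (z 2 / S) with hs
  have hsinh : Real.sinh s = z 2 / S := Real.sinh_arsinh _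
  have hcosh : Real.cosh s = z 4 / S := by
    have e1 : Real.cosh s ^ 2 = (z 4 / S) ^ 2 := by
      rw [Real.cosh_sq, hsinh, div_pow, div_pow]
      field_simp
      linarith
    exact (pow_left_inj₀ (Real.cosh_pos s).le (by positivity) two_ne_zero).1 e1
  refine ⟨z 0 / Real.cos τ, z 1 / Real.cos τ, s, τ, hτ0, hτ1, ?_⟩
  have e3 : Real.cos τ * √(1 + (z 0 / Real.cos τ) ^ 2 + (z 1 / Real.cos τ) ^ 2) = z 3 := by
    have e4 : (Real.cos τ * √(1 + (z 0 / Real.cos τ) ^ 2 + (z 1 / Real.cos τ) ^ 2)) ^ 2 =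
        z 3 ^ 2 := by
      rw [mul_pow, Real.sq_sqrt (by positivity)]
      have : Real.cos τ ^ 2 * (1 + (z 0 / Real.cos τ) ^ 2 + (z 1 / Real.cos τ) ^ 2) =
          Real.cos τ ^ 2 + z 0 ^ 2 + z 1 ^ 2 := by
        field_simp
      rw [this, hcos2, hS2]
      nlinarith
    exact (pow_left_inj₀ (by positivity) h3.le two_ne_zero).1 e4
  ext i
  fin_cases i
  · change z 0 = cc _ _ _ _ 0
    rw [nq_0]; field_simp
  · change z 1 = cc _ _ _ _ 1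
    rw [nq_1]; field_simp
  · change z 2 = cc _ _ _ _ 2
    rw [nq_2, hsin, hsinh]; field_simp
  · change z 3 = cc _ _ _ _ 3
    rw [nq_3, e3]
  · change z 4 = cc _ _ _ _ 4
    rw [nq_4, hsin, hcosh]; field_simp

/-- membership in `L` does not change under `s ↦ s + m ℓ` -/
lemma nq_shift {L : Set V} (hinv : ∀ γ ∈ Gam, ∀ x ∈ L, γ x ∈ L) {N : ℕ}
    (hN : act (gg ^ N) ∈ Gam) {a b s τ : ℝ} (h : cc a b s τ ∈ L) (m : ℤ) :
    cc a b (s + m * (N * Real.log (3 + 2 * √2))) τ ∈ L := by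
  have key : ∀ n : ℕ, act (gg ^ (N * n)) ∈ Gam := by
    intro n
    rw [pow_mul, map_pow]
    exact Gam.pow_mem hN n
  rcases Int.eq_nat_or_neg m with ⟨n, rfl | rfl⟩
  · have h1 := hinv _ (key n) _ h
    rw [act_gg_cc] at h1
    convert h1 using 2
    push_cast
    ring
  · have h1 := act_gg_cc a b (s + ((-(n : ℤ) : ℤ) : ℝ) * (N * Real.log (3 + 2 * √2))) τ (N * n)
    have h2 : s + ((-(n : ℤ) : ℤ) : ℝ) * (N * Real.log (3 + 2 * √2)) +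
        ((N * n : ℕ) : ℝ) * Real.log (3 + 2 * √2) = s := by
      push_cast
      ring
    rw [h2] at h1
    have h3 := hinv _ (Gam.inv_mem (key n)) _ h
    rw [← h1] at h3
    have h4 : (act (gg ^ (N * n)))⁻¹ (act (gg ^ (N * n))
        (cc a b (s + ((-(n : ℤ) : ℤ) : ℝ) * (N * Real.log (3 + 2 * √2))) τ)) =
        cc a b (s + ((-(n : ℤ) : ℤ) : ℝ) * (N * Real.log (3 + 2 * √2))) τ := by
      have : ((act (gg ^ (N * n)))⁻¹ * act (gg ^ (N * n)))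
          (cc a b (s + ((-(n : ℤ) : ℤ) : ℝ) * (N * Real.log (3 + 2 * √2))) τ) =
        cc a b (s + ((-(n : ℤ) : ℤ) : ℝ) * (N * Real.log (3 + 2 * √2))) τ := by
        rw [inv_mul_cancel]; rfl
      exact this
    rwa [h4] at h3

theorem near_q : ∃ d : ℝ, 0 < d ∧ ∀ (L : Set V) (κ : ℝ), IsCauchy Omg L → IsClosed L →
    (∀ γ ∈ Gam, ∀ x ∈ L, γ x ∈ L) → (∀ x ∈ L, HasKCurv L x κ) →
    (∀ x ∈ L, ∀ θ ν, KData L x κ θ ν → (hMat (graphMap θ) (pr x) ν).PosDef) →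
    (∀ q ∈ Xi, ∀ s : ℝ, ∃ τ : ℝ, 0 < τ ∧ τ < d ∧ cc q.1 q.2 s τ ∈ L) → -1 < κ := by
  refine ⟨1 / 10 ^ 9, by positivity, ?_⟩
  intro L κ hL hcl hinv hK hpd hlow
  set d : ℝ := 1 / 10 ^ 9 with hd
  have hd0 : 0 < d := by positivity
  have hpi : (3 : ℝ) < Real.pi := Real.pi_gt_three
  have hdpi : d < Real.pi / 2 := by rw [hd]; norm_num; linarith
  have hdpi' : d < Real.pi := hdpi.trans (by linarith only [hpi])
  have hd1 : 9 / 10 ≤ 1 - d ^ 2 := by rw [hd]; norm_num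
  have hd2 : d ^ 2 < 1 / 10 ^ 8 * (9 / 1000 : ℝ) ^ 4 := by rw [hd]; norm_num
  have hd3 : d ^ 2 ≤ 1 / 100 := by rw [hd]; norm_num
  clear_value d
  obtain ⟨N, hN0, hN⟩ := gg_pow_mem
  set ℓ : ℝ := N * Real.log (3 + 2 * √2) with hℓ
  have hℓ0 : 0 < ℓ := by
    have h1 : 0 < Real.log (3 + 2 * √2) := Real.log_pos (by
      have := Real.sqrt_nonneg 2; linarith)
    have h2 : (0 : ℝ) < N := by exact_mod_cast hN0
    positivity
  -- the compact set of parameters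
  set C : Set (ℝ × ℝ × ℝ × ℝ) :=
    Set.Icc (-1) 1 ×ˢ Set.Icc (-1) 1 ×ˢ Set.Icc 0 ℓ ×ˢ Set.Icc 0 d with hC
  have hCc : IsCompact C := isCompact_Icc.prod (isCompact_Icc.prod (isCompact_Icc.prod isCompact_Icc))
  set K : Set (ℝ × ℝ × ℝ × ℝ) := C ∩ ({p | p.1 ^ 2 + p.2.1 ^ 2 ≤ 1 / 100} ∩
    (fun p : ℝ × ℝ × ℝ × ℝ => cc p.1 p.2.1 p.2.2.1 p.2.2.2) ⁻¹' L) with hKdef
  have hKc : IsCompact K := by
    refine hCc.inter_right (IsClosed.inter ?_ (hcl.preimage nq_cont))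
    exact isClosed_le (by fun_prop) continuous_const
  have hmem : ∀ a b s τ : ℝ, a ^ 2 + b ^ 2 ≤ 1 / 100 → 0 ≤ s → s ≤ ℓ → 0 ≤ τ → τ ≤ d →
      cc a b s τ ∈ L → (a, b, s, τ) ∈ K := by
    intro a b s τ h1 h2 h3 h4 h5 h6
    refine ⟨⟨⟨?_, ?_⟩, ⟨?_, ?_⟩, ⟨h2, h3⟩, ⟨h4, h5⟩⟩, h1, h6⟩
    · nlinarith [sq_nonneg b]
    · nlinarith [sq_nonneg b]
    · nlinarith [sq_nonneg a]
    · nlinarith [sq_nonneg a]
  have h00 : ((0 : ℝ), (0 : ℝ)) ∈ Xi := Or.inl (by norm_num)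
  obtain ⟨τ0, hτ0, hτ0', hτ0L⟩ := hlow _ h00 0
  have hp0 : ((0 : ℝ), (0 : ℝ), (0 : ℝ), τ0) ∈ K :=
    hmem 0 0 0 τ0 (by norm_num) le_rfl hℓ0.le hτ0.le hτ0'.le hτ0L
  have hFc : Continuous fun p : ℝ × ℝ × ℝ × ℝ => Fb (cc p.1 p.2.1 p.2.2.1 p.2.2.2) := by
    have h : Continuous Fb := by
      unfold Fb
      fun_prop
    exact h.comp nq_cont
  obtain ⟨⟨a, b, s, τ⟩, hp, hmax⟩ := hKc.exists_isMaxOn ⟨_, hp0⟩ hFc.continuousOn
  have hmax' : ∀ a' b' s' τ' : ℝ, a' ^ 2 + b' ^ 2 ≤ 1 / 100 → 0 ≤ τ' → τ' ≤ d →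
      cc a' b' s' τ' ∈ L → Fb (cc a' b' s' τ') ≤ Fb (cc a b s τ) := by
    intro a' b' s' τ' h1 h2 h3 h4
    obtain ⟨m, hm, -⟩ := existsUnique_add_zsmul_mem_Ico hℓ0 s' 0
    rw [zero_add] at hm
    have h5 := nq_shift hinv hN h4 m
    have h6 := hmax (hmem a' b' (s' + m • ℓ) τ' h1 hm.1 hm.2.le h2 h3 (by
      rw [zsmul_eq_mul]; exact h5))
    have h7 : Fb (cc a' b' (s' + m • ℓ) τ') = Fb (cc a' b' s' τ') := by
      rw [nq_Fb, nq_Fb]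
    have h8 : Fb (cc a' b' (s' + m • ℓ) τ') ≤ Fb (cc a b s τ) := h6
    rwa [h7] at h8
  obtain ⟨⟨-, -, ⟨hs0, hs1⟩, ⟨hτ1, hτ2⟩⟩, hab, hxL⟩ := hp
  simp only at hs0 hs1 hτ1 hτ2
  have hab' : a ^ 2 + b ^ 2 ≤ 1 / 100 := hab
  have hxL' : cc a b s τ ∈ L := hxL
  -- positivity of `Fb`
  have hsin0 : 0 < Real.sin τ0 := Real.sin_pos_of_pos_of_lt_pi hτ0 (hτ0'.trans hdpi')
  have hF0 : 0 < Fb (cc a b s τ) := by
    have h1 := hmax' 0 0 0 τ0 (by norm_num) hτ0.le hτ0'.le hτ0L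
    rw [nq_Fb 0 0 0 τ0] at h1
    have h2 : Real.sin τ0 ^ 2 - 1 / 10 ^ 8 * (Real.cos τ0 ^ 2 * ((0 : ℝ) ^ 2 + 0 ^ 2)) ^ 4 =
        Real.sin τ0 ^ 2 := by ring
    rw [h2] at h1
    exact lt_of_lt_of_le (by positivity) h1
  have hτpos : 0 < τ := by
    refine lt_of_le_of_ne hτ1 ?_
    rintro rfl
    rw [nq_Fb, Real.sin_zero] at hF0
    have : 0 ≤ (Real.cos 0 ^ 2 * (a ^ 2 + b ^ 2)) ^ 4 := by positivity
    nlinarith
  have hsinle : Real.sin τ ≤ d := (Real.sin_lt hτpos).le.trans hτ2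
  have hsinpos : 0 < Real.sin τ := Real.sin_pos_of_pos_of_lt_pi hτpos (hτ2.trans_lt hdpi')
  have hcos2 : 1 - d ^ 2 ≤ Real.cos τ ^ 2 := by
    rw [Real.cos_sq']
    nlinarith
  have hcospos : 0 < Real.cos τ := Real.cos_pos_of_mem_Ioo ⟨by linarith, hτ2.trans_lt hdpi⟩
  have hlt : a ^ 2 + b ^ 2 < 1 / 100 := by
    refine lt_of_le_of_ne hab' ?_
    intro h
    rw [nq_Fb, h] at hF0
    have h1 : (9 / 10 : ℝ) ≤ Real.cos τ ^ 2 := hd1.trans hcos2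
    have h2 : (9 / 1000 : ℝ) ^ 4 ≤ (Real.cos τ ^ 2 * (1 / 100)) ^ 4 := by
      apply pow_le_pow_left₀ (by norm_num)
      linarith
    have h3 : Real.sin τ ^ 2 ≤ d ^ 2 := by
      apply pow_le_pow_left₀ hsinpos.le hsinle
    have h5 : 1 / 10 ^ 8 * (9 / 1000 : ℝ) ^ 4 ≤
        1 / 10 ^ 8 * (Real.cos τ ^ 2 * (1 / 100)) ^ 4 :=
      mul_le_mul_of_nonneg_left h2 (by positivity)
    exact absurd hF0 (not_lt.2 (sub_nonpos.2 (h3.trans (hd2.le.trans h5))))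
  -- the data at the point
  set x : V := cc a b s τ with hx
  obtain ⟨θ, hθ, hxθ, hgraph, hg, ν, hν, hκ⟩ := hK x hxL'
  have hdata : KData L x κ θ ν := ⟨hθ, hxθ, hgraph, hg, hν, hκ⟩
  have hh := hpd x hxL' θ ν hdata
  have hx4 : x 4 ^ 2 - x 2 ^ 2 = Real.sin τ ^ 2 := nq_sq a b s τ
  have hx01 : x 0 ^ 2 + x 1 ^ 2 = Real.cos τ ^ 2 * (a ^ 2 + b ^ 2) := nq_sq' a b s τ
  have hx3 : 0 < x 3 := by
    rw [hx, nq_3]; positivity
  have hx4' : 0 < x 4 := by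
    rw [hx, nq_4]
    have := Real.cosh_pos s
    positivity
  have hx24 : |x 2| < x 4 := by
    have h1 : |x 2| ^ 2 < x 4 ^ 2 := by
      rw [sq_abs]
      have : 0 < Real.sin τ ^ 2 := by positivity
      linarith
    exact lt_of_pow_lt_pow_left₀ 2 hx4'.le h1
  have hcont : ContinuousAt (graphMap θ) (pr x) := by
    have hθc : ContinuousAt θ (pr x) := hθ.continuousAt
    have h : graphMap θ = fun u => ![u 0, u 1, u 2,
      √(1 + u 0 ^ 2 + u 1 ^ 2 + u 2 ^ 2) * Real.cos (θ u),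
      √(1 + u 0 ^ 2 + u 1 ^ 2 + u 2 ^ 2) * Real.sin (θ u)] := rfl
    rw [h]
    refine continuousAt_pi.2 fun i => ?_
    have hsq : ContinuousAt (fun u : R3 => √(1 + u 0 ^ 2 + u 1 ^ 2 + u 2 ^ 2)) (pr x) :=
      Continuous.continuousAt (by fun_prop)
    fin_cases i
    · exact (continuous_apply 0).continuousAt
    · exact (continuous_apply 1).continuousAt
    · exact (continuous_apply 2).continuousAt
    · exact hsq.mul (Real.continuous_cos.continuousAt.comp hθc)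
    · exact hsq.mul (Real.continuous_sin.continuousAt.comp hθc)
  have hcont' : Tendsto (graphMap θ) (𝓝 (pr x)) (𝓝 x) := by
    have := hcont.tendsto
    rwa [← hxθ] at this
  -- the open conditions
  have hopen : ∀ᶠ z in 𝓝 x, 0 < z 3 ∧ |z 2| < z 4 ∧ z 4 ^ 2 - z 2 ^ 2 < 1 ∧
      z 0 ^ 2 + z 1 ^ 2 < 1 / 100 * (1 - (z 4 ^ 2 - z 2 ^ 2)) := by
    have o1 : ∀ᶠ z : V in 𝓝 x, 0 < z 3 :=
      (isOpen_lt continuous_const (continuous_apply 3)).mem_nhds hx3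
    have o2 : ∀ᶠ z : V in 𝓝 x, |z 2| < z 4 :=
      (isOpen_lt (by fun_prop) (continuous_apply 4)).mem_nhds hx24
    have o3 : ∀ᶠ z : V in 𝓝 x, z 4 ^ 2 - z 2 ^ 2 < 1 := by
      refine (isOpen_lt (f := fun z : V => z 4 ^ 2 - z 2 ^ 2) (by fun_prop)
        continuous_const).mem_nhds ?_
      change x 4 ^ 2 - x 2 ^ 2 < 1
      rw [hx4]
      have := Real.sin_sq_add_cos_sq τ
      nlinarith [sq_pos_of_pos hcospos]
    have o4 : ∀ᶠ z : V in 𝓝 x, z 0 ^ 2 + z 1 ^ 2 < 1 / 100 * (1 - (z 4 ^ 2 - z 2 ^ 2)) := by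
      refine (isOpen_lt (f := fun z : V => z 0 ^ 2 + z 1 ^ 2)
        (g := fun z : V => 1 / 100 * (1 - (z 4 ^ 2 - z 2 ^ 2))) (by fun_prop)
        (by fun_prop)).mem_nhds ?_
      change x 0 ^ 2 + x 1 ^ 2 < 1 / 100 * (1 - (x 4 ^ 2 - x 2 ^ 2))
      rw [hx4, hx01]
      have h1 := Real.sin_sq_add_cos_sq τ
      have h2 : 1 - Real.sin τ ^ 2 = Real.cos τ ^ 2 := by linarith
      rw [h2, mul_comm (1 / 100 : ℝ)]
      exact mul_lt_mul_of_pos_left hlt (by positivity)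
    filter_upwards [o1, o2, o3, o4] with z h1 h2 h3 h4
    exact ⟨h1, h2, h3, h4⟩
  have hlocmax : ∀ᶠ w in 𝓝 (pr x), Fb (graphMap θ w) ≤ Fb (graphMap θ (pr x)) := by
    filter_upwards [hcont'.eventually hopen, hcont'.eventually hgraph] with w h1 h2
    obtain ⟨h3, h4, h5, h6⟩ := h1
    rw [pr_graphMap] at h2
    have hzL : graphMap θ w ∈ L := h2.2 rfl
    obtain ⟨a', b', s', τ', hp1, hp2, hp3⟩ := nq_exists (graphMap_AdS θ w) h3 h4 h5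
    rw [← hxθ]
    rw [hp3] at h6 hzL ⊢
    rw [nq_sq, nq_sq'] at h6
    have h7 := Real.sin_sq_add_cos_sq τ'
    have h8 : 1 - Real.sin τ' ^ 2 = Real.cos τ' ^ 2 := by linarith
    have h9 : 0 < Real.cos τ' := Real.cos_pos_of_mem_Ioo ⟨by linarith, hp2⟩
    rw [h8, mul_comm (1 / 100 : ℝ)] at h6
    have h10 : a' ^ 2 + b' ^ 2 < 1 / 100 := lt_of_mul_lt_mul_left h6 (by positivity)
    obtain ⟨τ'', h11, h12, h13⟩ := hlow (a', b') (Or.inl (by simpa using h10.le)) s'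
    have h14 : τ' = τ'' := nq_uniq hL hzL h13 hp1.le hp2.le h11 (h12.trans hdpi)
    exact hmax' a' b' s' τ' h10.le hp1.le (by rw [h14]; exact h12.le) hzL
  have hfin := barrier_bound hθ hν hg hh hlocmax (by rw [← hxθ]; exact hF0) (by
      change x 0 ^ 2 + x 1 ^ 2 ≤ 1 / 100
      rw [hx01]
      have h1 : Real.cos τ ^ 2 ≤ 1 := Real.cos_sq_le_one τ
      nlinarith [sq_nonneg a, sq_nonneg b]) (by
      rw [← hxθ, hx4]
      have h3 : Real.sin τ ^ 2 ≤ d ^ 2 := pow_le_pow_left₀ hsinpos.le hsinle 2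
      exact h3.trans hd3) (by rw [← hxθ]; exact hx3) (by rw [← hxθ]; exact hx4')
  rw [hκ]
  linarith

end Pool.Agent.H93.KT
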