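import Mathlib

set_option autoImplicit false

/-! MODULE Mat3.  Two inequalities for symmetric real `3 × 3` matrices. -/

namespace Pool.Agent.H93.KT

open Matrix

theorem mat3_quad {n : ℕ} (g : Matrix (Fin n) (Fin n) ℝ) (v w : Fin n → ℝ) :
    ∑ i, ∑ j, v i * w j * g i j = v ⬝ᵥ (g *ᵥ w) := by
  simp only [dotProduct, Matrix.mulVec, Finset.mul_sum]
  apply Finset.sum_congr rfl; intro i _
  apply Finset.sum_congr rfl; intro j _
  ring

open scoped MatrixOrder in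
theorem mat3_sqrt {n : ℕ} {g : Matrix (Fin n) (Fin n) ℝ} (hg : g.PosDef) :
    ∃ B : Matrix (Fin n) (Fin n) ℝ, g = Bᵀ * B := by
  obtain ⟨B, hB⟩ := CStarAlgebra.nonneg_iff_eq_star_mul_self.mp hg.posSemidef.nonneg
  refine ⟨B, ?_⟩
  rw [hB, Matrix.star_eq_conjTranspose, Matrix.conjTranspose_eq_transpose_of_trivial]

theorem mat3_det_ge_of {n : ℕ} {M : Matrix (Fin n) (Fin n) ℝ} (hM : M.IsHermitian) {c : ℝ} (hc : 0 < c)
    (H : ∀ w : Fin n → ℝ, c * (w ⬝ᵥ w) ≤ w ⬝ᵥ (M *ᵥ w)) : c ^ n ≤ M.det := by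
  have h1 : ∀ i, c ≤ hM.eigenvalues i := by
    intro i
    rw [hM.eigenvalues_eq i]
    have h2 := H (⇑(hM.eigenvectorBasis i))
    have h3 : (⇑(hM.eigenvectorBasis i) : Fin n → ℝ) ⬝ᵥ (⇑(hM.eigenvectorBasis i)) = 1 := by
      have h4 := hM.eigenvectorBasis.orthonormal.1 i
      have h5 := EuclideanSpace.real_norm_sq_eq (hM.eigenvectorBasis i)
      rw [h4] at h5
      simp only [dotProduct]
      rw [← Finset.sum_congr rfl (fun i _ => (sq _).trans rfl), ← h5]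
      norm_num
    rw [h3, mul_one] at h2
    simpa using h2
  have h2 := hM.det_eq_prod_eigenvalues
  rw [h2]
  simp only [RCLike.ofReal_real_eq_id, id]
  calc c ^ n = ∏ i : Fin n, c := by simp
    _ ≤ ∏ i, hM.eigenvalues i := Finset.prod_le_prod (fun _ _ => hc.le) (fun i _ => h1 i)

/-- If `h - c g ≥ 0` with `g > 0`, `c > 0` then `h > 0` and `det h ≥ c³ det g`.
(Take a basis orthonormal for `g`, or use the Schur complement / 3×3 formulas.) -/
theorem det_ge {g h : Matrix (Fin 3) (Fin 3) ℝ} (hg : g.PosDef) (hs : h.IsSymm) {c : ℝ} (hc : 0 < c)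
    (H : ∀ v : Fin 3 → ℝ, c * (∑ i, ∑ j, v i * v j * g i j) ≤ ∑ i, ∑ j, v i * v j * h i j) :
    h.PosDef ∧ c ^ 3 * g.det ≤ h.det := by
  have H' : ∀ v : Fin 3 → ℝ, c * (v ⬝ᵥ (g *ᵥ v)) ≤ v ⬝ᵥ (h *ᵥ v) := by
    intro v
    rw [← mat3_quad, ← mat3_quad]; exact H v
  have hH : h.IsHermitian := by
    rw [Matrix.IsHermitian, Matrix.conjTranspose_eq_transpose_of_trivial]; exact hs
  refine ⟨Matrix.PosDef.of_dotProduct_mulVec_pos hH ?_, ?_⟩
  · intro v hv
    have h1 := hg.dotProduct_mulVec_pos hv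
    simp only [star_trivial] at h1 ⊢
    exact lt_of_lt_of_le (mul_pos hc h1) (H' v)
  · obtain ⟨B, hB⟩ := mat3_sqrt hg
    have hdet : g.det = B.det ^ 2 := by
      rw [hB, Matrix.det_mul, Matrix.det_transpose, sq]
    have hgd := hg.det_pos
    have hBd : B.det ≠ 0 := by
      intro h0
      rw [hdet, h0] at hgd
      norm_num at hgd
    have hBu : IsUnit B.det := isUnit_iff_ne_zero.2 hBd
    have hMH : (B⁻¹ᵀ * h * B⁻¹).IsHermitian := by
      rw [Matrix.IsHermitian, Matrix.conjTranspose_eq_transpose_of_trivial, Matrix.transpose_mul,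
        Matrix.transpose_mul, Matrix.transpose_transpose, hs.eq, Matrix.mul_assoc]
    have hM := mat3_det_ge_of hMH hc (by
      intro w
      have h1 := H' (B⁻¹ *ᵥ w)
      have h2 : (B⁻¹ *ᵥ w) ⬝ᵥ (g *ᵥ (B⁻¹ *ᵥ w)) = w ⬝ᵥ w := by
        have hb : B *ᵥ (B⁻¹ *ᵥ w) = w := by
          rw [Matrix.mulVec_mulVec, Matrix.mul_nonsing_inv _ hBu, Matrix.one_mulVec]
        rw [hB, ← Matrix.mulVec_mulVec, hb, Matrix.dotProduct_mulVec, Matrix.vecMul_transpose, hb]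
      have h3 : (B⁻¹ *ᵥ w) ⬝ᵥ (h *ᵥ (B⁻¹ *ᵥ w)) = w ⬝ᵥ ((B⁻¹ᵀ * h * B⁻¹) *ᵥ w) := by
        rw [← Matrix.mulVec_mulVec, ← Matrix.mulVec_mulVec, Matrix.dotProduct_mulVec w,
          Matrix.vecMul_transpose]
      rw [h2, h3] at h1
      exact h1)
    rw [Matrix.det_mul, Matrix.det_mul, Matrix.det_transpose, Matrix.det_nonsing_inv,
      Ring.inverse_eq_inv'] at hM
    have h5 : (B.det)⁻¹ * h.det * (B.det)⁻¹ = h.det / g.det := by
      rw [hdet]; field_simp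
    rw [h5, le_div_iff₀ hgd] at hM
    exact hM

theorem mat3_hadamard {H : Matrix (Fin 3) (Fin 3) ℝ} (hH : H.PosSemidef) :
    H.det ≤ H 0 0 * H 1 1 * H 2 2 := by
  have hs : ∀ i j, H i j = H j i := by
    intro i j
    have := hH.isHermitian.apply i j
    simpa using this.symm
  have ha : 0 ≤ H 0 0 := hH.diag_nonneg
  have hb : 0 ≤ H 1 1 := hH.diag_nonneg
  have hc : 0 ≤ H 2 2 := hH.diag_nonneg
  have h2 := (hH.submatrix ![0, 1]).det_nonneg
  rw [Matrix.det_fin_two] at h2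
  simp only [Matrix.submatrix_apply, Matrix.cons_val_zero, Matrix.cons_val_one] at h2
  rw [hs 1 0] at h2
  rw [Matrix.det_fin_three, hs 1 0, hs 2 0, hs 2 1]
  have h3 : 2 * H 0 1 * H 0 2 * H 1 2 ≤ H 0 0 * H 1 2 ^ 2 + H 1 1 * H 0 2 ^ 2 := by
    have h4 : (2 * H 0 1 * H 0 2 * H 1 2) ^ 2 ≤ (H 0 0 * H 1 2 ^ 2 + H 1 1 * H 0 2 ^ 2) ^ 2 := by
      have h5 := mul_nonneg h2 (mul_nonneg (sq_nonneg (H 0 2)) (sq_nonneg (H 1 2)))
      nlinarith [sq_nonneg (H 0 0 * H 1 2 ^ 2 - H 1 1 * H 0 2 ^ 2), h5]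
    have h6 : 0 ≤ H 0 0 * H 1 2 ^ 2 + H 1 1 * H 0 2 ^ 2 := by positivity
    exact (le_abs_self _).trans (abs_le_of_sq_le_sq h4 h6)
  nlinarith [mul_nonneg hc (sq_nonneg (H 0 1))]

/-- Hadamard's inequality: if `v 0, v 1, v 2` is a `g`-orthonormal basis then
`det h / det g ≤ h(v 0) h(v 1) h(v 2)`. -/
theorem det_le {g h : Matrix (Fin 3) (Fin 3) ℝ} (hg : g.PosDef) (hh : h.PosDef)
    (v : Fin 3 → Fin 3 → ℝ)
    (hv : ∀ a b, ∑ i, ∑ j, v a i * v b j * g i j = if a = b then 1 else 0) :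
    h.det / g.det ≤ (∑ i, ∑ j, v 0 i * v 0 j * h i j) * (∑ i, ∑ j, v 1 i * v 1 j * h i j) *
      (∑ i, ∑ j, v 2 i * v 2 j * h i j) := by
  have key : ∀ (M : Matrix (Fin 3) (Fin 3) ℝ) (a b : Fin 3),
      (Matrix.of v * M * (Matrix.of v)ᵀ) a b = ∑ i, ∑ j, v a i * v b j * M i j := by
    intro M a b
    rw [mat3_quad, Matrix.mul_assoc]
    rfl
  have h1 : Matrix.of v * g * (Matrix.of v)ᵀ = 1 := by
    ext a b
    rw [key, hv, Matrix.one_apply]
  have h2 : (Matrix.of v).det ^ 2 * g.det = 1 := by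
    have := congrArg Matrix.det h1
    rw [Matrix.det_mul, Matrix.det_mul, Matrix.det_transpose, Matrix.det_one] at this
    linarith
  have h3 : (Matrix.of v * h * (Matrix.of v)ᵀ).det = h.det / g.det := by
    rw [Matrix.det_mul, Matrix.det_mul, Matrix.det_transpose, eq_div_iff hg.det_pos.ne']
    linear_combination h.det * h2
  rw [← h3, ← key, ← key, ← key]
  apply mat3_hadamard
  have := hh.posSemidef.mul_mul_conjTranspose_same (Matrix.of v)
  rwa [Matrix.conjTranspose_eq_transpose_of_trivial] at this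

end Pool.Agent.H93.KT
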