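import Pool.Agent.H93.KT.Posi
import Pool.Agent.H93.KT.Mat3
import Pool.Agent.H93.KT.Leaf1

set_option autoImplicit false

/-! MODULE NearV.  (G2).  `v = pp 0 (-1) = ![0,-1,0,√2,0] = √3 • Vd 4`, `yv = cmb ![8,7,5,2,0]`, `X i yv = 6,7,1,2,12`,
`B v yv = 0`, `B yv yv = -106`; for `i ≤ 3` `yv ± (1/4) al i ∈ Ch ∩ PosCone`, so for `x ∈ Omg` (use `exists_Omg_Ch` and
`dom_nonpos`) `B x yv ≤ -(1/4) m x`, `m x = max_{i≤3} |X i x|`.  `z = cos (1/2) • v - (sin (1/2)/√106) • yv ∈ AdS`.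
For `x ∈ AdS` with `B x v < 0`: `x = α v + e`, `e ∈ v^⊥` determined linearly by `X 0..X 3`, so `α = -B x v ≤ 1 + C m²` and
`B x z ≥ - cos(1/2) (1 + C m²) + sin(1/2) m/(4√106)`.  Choose `m0` small: on `m x = m0` this is `> -cos (1/2) + η`, and
on `m x ≤ m0`, `om x z < 0`.  `N = {x ∈ AdS | B x v ≤ 0, m x ≤ m0}` is compact; for `d` small the point
`cc 0 (-1) 0 τ ∈ L` is in `N` with `B · z < -cos (1/2) + η`.  So `B · z` has on `L ∩ N` a minimum `x0` with `m x0 < m0`: a local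
minimum on `L`, `B x0 z ≤ -0.8`.  `second_order_min` with `G = B · z` (`G'' = 0`): `z ∈ span(x0, ν)`,
`B ν z = √(1 - (B x0 z)²) > 0` (sign from `om x0 z < 0`), `hq ≥ c gq` with `c = -B x0 z / B ν z ≥ 4/3`; `det_ge`: `-κ ≥ (4/3)³`. -/

namespace Pool.Agent.H93.KT

open Filter Topology

/-! ### coordinates -/

lemma nv_X0 (x : V) : X 0 x = - x 2 := by simp [X, B, al]

lemma nv_X1 (x : V) : X 1 x = 2 * x 2 + √2 * x 4 := by simp [X, B, al]; ring

lemma nv_X2 (x : V) : X 2 x = x 0 + √3 * x 1 + √6 / 2 * x 3 + √2 / 2 * x 4 := by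
  simp [X, B, al]; ring

lemma nv_X3 (x : V) : X 3 x = - (2 * x 0) := by simp [X, B, al]; ring

lemma nv_sq6 : √6 = √2 * √3 := by
  rw [← Real.sqrt_mul (by norm_num)]; norm_num

/-- the vertex `v` -/
noncomputable def nvV : V := ![0, -1, 0, √2, 0]

lemma nv_pp : pp 0 (-1) = nvV := by
  unfold pp nvV
  norm_num

/-- the vector `y_v` -/
noncomputable def nvY : V := cmb ![8, 7, 5, 2, 0]

lemma nvY_eq : nvY = ![-1, -(5 * √3), -6, 5 * √6 / 2, 19 * √2 / 2] := by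
  unfold nvY cmb
  ext i
  fin_cases i <;> simp [Fin.sum_univ_five, al] <;> ring

/-- `S x = - B x y_v` -/
noncomputable def nvS (x : V) : ℝ := 8 * X 0 x + 7 * X 1 x + 5 * X 2 x + 2 * X 3 x

lemma B_nvY (x : V) : B x nvY = - nvS x := by
  unfold nvY nvS
  rw [B_cmb]
  simp [Fin.sum_univ_five]

lemma B_nvV (x : V) : B x nvV = - (x 1 + √2 * x 3) := by
  simp [B, nvV]; ring

/-- the point `z` -/
noncomputable def nvZ : V := (829 / 935 : ℝ) • nvV - (42 / 935 : ℝ) • nvY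

lemma B_nvZ (x : V) : B x nvZ = - (829 / 935) * (x 1 + √2 * x 3) + 42 / 935 * nvS x := by
  unfold nvZ
  rw [B_sub_right, B_smul_right, B_smul_right, B_nvY, B_nvV]
  ring

lemma nvZ_self : B nvZ nvZ = -1 := by
  have h2 := sq2
  have h3 := sq3
  have h6 := sq6
  have e1 : B nvV nvV = -1 := by
    simp [B, nvV]
    nlinarith
  have e2 : B nvY nvY = -106 := by
    rw [nvY_eq]
    simp [B]
    nlinarith
  have e3 : B nvV nvY = 0 := by
    rw [nvY_eq]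
    simp [B, nvV]
    rw [nv_sq6]
    have e : √2 * (5 * (√2 * √3) / 2) = (√2 * √2) * (5 * √3 / 2) := by ring
    rw [e, h2]
    ring
  have e4 : B nvY nvV = 0 := by rw [B_comm, e3]
  unfold nvZ
  rw [B_sub_left, B_sub_right, B_sub_right]
  simp only [B_smul_left, B_smul_right]
  rw [e1, e2, e3, e4]
  norm_num

/-! ### positivity on `Omg` -/

lemma nv_pos {x : V} (hx : x ∈ Omg) {r : Fin 5 → ℝ} (hr : ∀ i, 0 ≤ r i)
    (hX : ∀ j, 0 ≤ X j (cmb r)) : 0 ≤ ∑ i, r i * X i x := by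
  obtain ⟨w, hw, -, -, -⟩ := exists_Omg_Ch hx
  have h1 := dom_nonpos hw (y := cmb r) hX (fun i => by rw [rt_cmb]; exact hr i) w⁻¹ 1
  rw [act_inv_act, act_one, B_cmb] at h1
  linarith

lemma nvS_ge {x : V} (hx : x ∈ Omg) :
    |X 0 x| / 4 ≤ nvS x ∧ |X 1 x| / 4 ≤ nvS x ∧ |X 2 x| / 4 ≤ nvS x ∧ |X 3 x| / 4 ≤ nvS x := by
  have key : ∀ r : Fin 5 → ℝ, (∀ i, 0 ≤ r i) → (∀ j, 0 ≤ - ∑ i, r i * (Gr i j : ℝ)) →
      0 ≤ ∑ i, r i * X i x := fun r h1 h2 => nv_pos hx h1 (fun j => by rw [X_cmb]; exact h2 j)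
  have a0 := key ![8 + 1 / 4, 7, 5, 2, 0] (by intro i; fin_cases i <;> norm_num)
    (by intro j; fin_cases j <;> simp [Fin.sum_univ_five, Gr] <;> norm_num)
  have b0 := key ![8 - 1 / 4, 7, 5, 2, 0] (by intro i; fin_cases i <;> norm_num)
    (by intro j; fin_cases j <;> simp [Fin.sum_univ_five, Gr] <;> norm_num)
  have a1 := key ![8, 7 + 1 / 4, 5, 2, 0] (by intro i; fin_cases i <;> norm_num)
    (by intro j; fin_cases j <;> simp [Fin.sum_univ_five, Gr] <;> norm_num)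
  have b1 := key ![8, 7 - 1 / 4, 5, 2, 0] (by intro i; fin_cases i <;> norm_num)
    (by intro j; fin_cases j <;> simp [Fin.sum_univ_five, Gr] <;> norm_num)
  have a2 := key ![8, 7, 5 + 1 / 4, 2, 0] (by intro i; fin_cases i <;> norm_num)
    (by intro j; fin_cases j <;> simp [Fin.sum_univ_five, Gr] <;> norm_num)
  have b2 := key ![8, 7, 5 - 1 / 4, 2, 0] (by intro i; fin_cases i <;> norm_num)
    (by intro j; fin_cases j <;> simp [Fin.sum_univ_five, Gr] <;> norm_num)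
  have a3 := key ![8, 7, 5, 2 + 1 / 4, 0] (by intro i; fin_cases i <;> norm_num)
    (by intro j; fin_cases j <;> simp [Fin.sum_univ_five, Gr] <;> norm_num)
  have b3 := key ![8, 7, 5, 2 - 1 / 4, 0] (by intro i; fin_cases i <;> norm_num)
    (by intro j; fin_cases j <;> simp [Fin.sum_univ_five, Gr] <;> norm_num)
  simp only [Fin.sum_univ_five, Matrix.cons_val] at a0 b0 a1 b1 a2 b2 a3 b3
  unfold nvS
  refine ⟨?_, ?_, ?_, ?_⟩
  · rcases abs_cases (X 0 x) with ⟨h, -⟩ | ⟨h, -⟩ <;> rw [h] <;> linarith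
  · rcases abs_cases (X 1 x) with ⟨h, -⟩ | ⟨h, -⟩ <;> rw [h] <;> linarith
  · rcases abs_cases (X 2 x) with ⟨h, -⟩ | ⟨h, -⟩ <;> rw [h] <;> linarith
  · rcases abs_cases (X 3 x) with ⟨h, -⟩ | ⟨h, -⟩ <;> rw [h] <;> linarith

/-! ### the neighbourhood `N` of the vertex -/

/-- the neighbourhood -/
def nvN (m : ℝ) : Set V := {x | x ∈ AdS ∧ 0 ≤ x 1 + √2 * x 3 ∧ |X 0 x| ≤ m ∧ |X 1 x| ≤ m ∧
  |X 2 x| ≤ m ∧ |X 3 x| ≤ m}

lemma nv_coord {m : ℝ} (hm0 : 0 ≤ m) {x : V} (hx : x ∈ nvN m) :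
    |x 0| ≤ m ∧ |x 2| ≤ m ∧ x 4 ^ 2 ≤ 9 * m ^ 2 / 2 ∧ (x 1 + √2 / 2 * x 3) ^ 2 ≤ 3 * m ^ 2 ∧
    (x 1 + √2 * x 3) ^ 2 = 1 + x 0 ^ 2 + x 2 ^ 2 + 2 * (x 1 + √2 / 2 * x 3) ^ 2 - x 4 ^ 2 := by
  obtain ⟨hA, h0, k0, k1, k2, k3⟩ := hx
  have h2 := sq2
  have h3 := sq3
  rw [abs_le] at k0 k1 k2 k3
  rw [nv_X0] at k0
  rw [nv_X1] at k1
  rw [nv_X2, nv_sq6] at k2
  rw [nv_X3] at k3
  have s2 : (0 : ℝ) < √2 := by positivity
  have s3 : (0 : ℝ) < √3 := by positivity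
  have j4 : |√2 * x 4| ≤ 3 * m := by rw [abs_le]; constructor <;> linarith [k0.1, k0.2, k1.1, k1.2]
  have jt : |√3 * (x 1 + √2 / 2 * x 3)| ≤ 3 * m := by
    have e : √3 * (x 1 + √2 / 2 * x 3) = √3 * x 1 + √2 * √3 / 2 * x 3 := by ring
    rw [e, abs_le]
    constructor <;> linarith [k0.1, k0.2, k1.1, k1.2, k2.1, k2.2, k3.1, k3.2]
  refine ⟨?_, ?_, ?_, ?_, ?_⟩
  · rw [abs_le]; constructor <;> linarith [k3.1, k3.2]
  · rw [abs_le]; constructor <;> linarith [k0.1, k0.2]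
  · have h := sq_le_sq' (abs_le.1 j4).1 (abs_le.1 j4).2
    have e : (√2 * x 4) ^ 2 = 2 * x 4 ^ 2 := by rw [mul_pow, sq, h2]
    rw [e] at h
    nlinarith
  · have h := sq_le_sq' (abs_le.1 jt).1 (abs_le.1 jt).2
    have e : (√3 * (x 1 + √2 / 2 * x 3)) ^ 2 = 3 * (x 1 + √2 / 2 * x 3) ^ 2 := by
      rw [mul_pow, sq (√3), h3]
    rw [e] at h
    nlinarith
  · have hB : B x x = -1 := hA
    unfold B at hB
    have e1 : (x 1 + √2 * x 3) ^ 2 = x 1 ^ 2 + 2 * √2 * x 1 * x 3 + (√2 * √2) * x 3 ^ 2 := by ring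
    have e2 : (x 1 + √2 / 2 * x 3) ^ 2 = x 1 ^ 2 + √2 * x 1 * x 3 + (√2 * √2) / 4 * x 3 ^ 2 := by
      ring
    rw [e1, e2, h2]
    linarith

lemma nv_alpha {m : ℝ} (hm0 : 0 ≤ m) (hm1 : m ≤ 1 / 1000) {x : V} (hx : x ∈ nvN m) :
    x 1 + √2 * x 3 ≤ 1 + 4 * m ^ 2 ∧ 9 / 10 ≤ x 1 + √2 * x 3 := by
  obtain ⟨h0, h2, h4, ht, he⟩ := nv_coord hm0 hx
  have hpos : 0 ≤ x 1 + √2 * x 3 := hx.2.1
  have q0 := sq_le_sq' (abs_le.1 h0).1 (abs_le.1 h0).2
  have q2 := sq_le_sq' (abs_le.1 h2).1 (abs_le.1 h2).2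
  have hmm : m ^ 2 ≤ 1 / 1000000 := by nlinarith
  constructor
  · apply le_of_sq_le_sq _ (by positivity)
    rw [he]
    nlinarith [sq_nonneg (x 4), sq_nonneg (m ^ 2)]
  · apply le_of_sq_le_sq _ hpos
    rw [he]
    nlinarith [sq_nonneg (x 0), sq_nonneg (x 2), sq_nonneg (x 1 + √2 / 2 * x 3)]


lemma nvN_closed (m : ℝ) : IsClosed (nvN m) := by
  have h1 : IsClosed {x : V | 0 ≤ x 1 + √2 * x 3} := isClosed_le continuous_const (by fun_prop)
  have h2 : ∀ i, IsClosed {x : V | |X i x| ≤ m} := fun i =>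
    isClosed_le (continuous_abs.comp (continuous_X i)) continuous_const
  have e : nvN m = AdS ∩ ({x : V | 0 ≤ x 1 + √2 * x 3} ∩ ({x : V | |X 0 x| ≤ m} ∩
      ({x : V | |X 1 x| ≤ m} ∩ ({x : V | |X 2 x| ≤ m} ∩ {x : V | |X 3 x| ≤ m})))) := rfl
  rw [e]
  exact isClosed_AdS.inter (h1.inter ((h2 0).inter ((h2 1).inter ((h2 2).inter (h2 3)))))

lemma nvN_compact {m : ℝ} (hm0 : 0 ≤ m) (hm1 : m ≤ 1 / 1000) : IsCompact (nvN m) := by
  refine Metric.isCompact_of_isClosed_isBounded (nvN_closed m) ?_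
  refine (Metric.isBounded_closedBall (x := (0 : V)) (r := 10)).subset ?_
  intro x hx
  obtain ⟨h0, h2, h4, ht, he⟩ := nv_coord hm0 hx
  obtain ⟨hα, hα'⟩ := nv_alpha hm0 hm1 hx
  have hmm : m ^ 2 ≤ 1 / 1000000 := by nlinarith
  have s2 : (0 : ℝ) < √2 := by positivity
  have s2' : √2 ≤ 3 / 2 := by
    rw [Real.sqrt_le_left (by norm_num)]; norm_num
  have ht1 : |x 1 + √2 / 2 * x 3| ≤ 1 := by
    apply abs_le_of_sq_le_sq _ (by norm_num)
    nlinarith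
  rw [abs_le] at ht1 h0 h2
  have h42 : |x 4| ≤ 1 := by
    apply abs_le_of_sq_le_sq _ (by norm_num)
    nlinarith
  have e3 : x 3 = √2 * ((x 1 + √2 * x 3) - (x 1 + √2 / 2 * x 3)) := by
    have := sq2
    have e : √2 * ((x 1 + √2 * x 3) - (x 1 + √2 / 2 * x 3)) = (√2 * √2) / 2 * x 3 := by ring
    rw [e, this]
    ring
  have b3 : |x 3| ≤ 5 := by
    rw [e3, abs_mul, abs_of_pos s2]
    have : |(x 1 + √2 * x 3) - (x 1 + √2 / 2 * x 3)| ≤ 3 := by
      rw [abs_le]; constructor <;> nlinarith [ht1.1, ht1.2]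
    calc √2 * |(x 1 + √2 * x 3) - (x 1 + √2 / 2 * x 3)| ≤ 3 / 2 * 3 :=
          mul_le_mul s2' this (abs_nonneg _) (by norm_num)
      _ ≤ 5 := by norm_num
  have e1 : x 1 = 2 * (x 1 + √2 / 2 * x 3) - (x 1 + √2 * x 3) := by ring
  have b1 : |x 1| ≤ 5 := by
    rw [e1, abs_le]; constructor <;> nlinarith [ht1.1, ht1.2]
  rw [mem_closedBall_zero_iff, pi_norm_le_iff_of_nonneg (by norm_num)]
  intro i
  rw [Real.norm_eq_abs]
  fin_cases i
  · show |x 0| ≤ 10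
    rw [abs_le]; constructor <;> linarith [h0.1, h0.2]
  · show |x 1| ≤ 10
    linarith
  · show |x 2| ≤ 10
    rw [abs_le]; constructor <;> linarith [h2.1, h2.2]
  · show |x 3| ≤ 10
    linarith
  · show |x 4| ≤ 10
    linarith

/-- on the boundary of `N` the function `B · z` is large -/
lemma nv_boundary {x : V} (hx : x ∈ nvN (1 / 1000)) (hO : x ∈ Omg)
    (h : |X 0 x| = 1 / 1000 ∨ |X 1 x| = 1 / 1000 ∨ |X 2 x| = 1 / 1000 ∨ |X 3 x| = 1 / 1000) :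
    -(829 / 935) + 7 / 1000000 ≤ B x nvZ := by
  obtain ⟨hα, hα'⟩ := nv_alpha (by norm_num) le_rfl hx
  obtain ⟨g0, g1, g2, g3⟩ := nvS_ge hO
  have hS : 1 / 4000 ≤ nvS x := by
    rcases h with h | h | h | h
    · rw [h] at g0; linarith
    · rw [h] at g1; linarith
    · rw [h] at g2; linarith
    · rw [h] at g3; linarith
  rw [B_nvZ]
  norm_num at hα ⊢
  linarith

lemma nv_cc (τ : ℝ) : cc 0 (-1) 0 τ = ![0, - Real.cos τ, 0, √2 * Real.cos τ, Real.sin τ] := by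
  unfold cc
  rw [nv_pp]
  ext i
  fin_cases i <;> simp [nvV, yl] <;> ring

lemma nv_cc_mem {τ : ℝ} (h0 : 0 < τ) (h1 : τ < 1 / 1000000) :
    cc 0 (-1) 0 τ ∈ nvN (1 / 1000) ∧ B (cc 0 (-1) 0 τ) nvZ < -(829 / 935) + 7 / 1000000 := by
  have h2 := sq2
  have h3 := sq3
  have hs0 : 0 ≤ Real.sin τ := Real.sin_nonneg_of_nonneg_of_le_pi h0.le (by linarith [Real.pi_gt_three])
  have hs1 : Real.sin τ ≤ τ := (Real.sin_lt h0).le
  have hc : 1 - τ ^ 2 / 2 ≤ Real.cos τ := Real.one_sub_sq_div_two_le_cos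
  have hc1 : Real.cos τ ≤ 1 := Real.cos_le_one τ
  have hcs := Real.sin_sq_add_cos_sq τ
  have s2 : (0 : ℝ) < √2 := by positivity
  have s2' : √2 ≤ 3 / 2 := by
    rw [Real.sqrt_le_left (by norm_num)]; norm_num
  have hττ : τ ^ 2 ≤ 1 / 1000000 := by nlinarith
  have hcp : 0 ≤ Real.cos τ := by linarith
  have hb : √2 * Real.sin τ ≤ 3 / 2 * (1 / 1000000) :=
    mul_le_mul s2' (hs1.trans h1.le) hs0 (by norm_num)
  have hb0 : 0 ≤ √2 * Real.sin τ := mul_nonneg s2.le hs0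
  set x := cc 0 (-1) 0 τ with hx
  have e0 : x 0 = 0 := by rw [hx, nv_cc]; rfl
  have e1 : x 1 = - Real.cos τ := by rw [hx, nv_cc]; rfl
  have e2 : x 2 = 0 := by rw [hx, nv_cc]; rfl
  have e3 : x 3 = √2 * Real.cos τ := by rw [hx, nv_cc]; rfl
  have e4 : x 4 = Real.sin τ := by rw [hx, nv_cc]; rfl
  have k0 : X 0 x = 0 := by rw [nv_X0, e2, neg_zero]
  have k1 : X 1 x = √2 * Real.sin τ := by rw [nv_X1, e2, e4]; ring
  have k2 : X 2 x = √2 / 2 * Real.sin τ := by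
    rw [nv_X2, e0, e1, e3, e4, nv_sq6]
    have e : √2 * √3 / 2 * (√2 * Real.cos τ) = (√2 * √2) / 2 * (√3 * Real.cos τ) := by ring
    rw [e, h2]
    ring
  have k3 : X 3 x = 0 := by rw [nv_X3, e0]; ring
  have hα : x 1 + √2 * x 3 = Real.cos τ := by
    rw [e1, e3]
    have e : √2 * (√2 * Real.cos τ) = (√2 * √2) * Real.cos τ := by ring
    rw [e, h2]
    ring
  refine ⟨⟨?_, ?_, ?_, ?_, ?_, ?_⟩, ?_⟩
  · show B x x = -1
    unfold B
    rw [e0, e1, e2, e3, e4]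
    have e : √2 * Real.cos τ * (√2 * Real.cos τ) = (√2 * √2) * Real.cos τ ^ 2 := by ring
    rw [e, h2]
    nlinarith
  · rw [hα]; exact hcp
  · rw [k0, abs_zero]; norm_num
  · rw [k1, abs_of_nonneg hb0]; linarith
  · rw [k2, abs_of_nonneg (by linarith)]; linarith
  · rw [k3, abs_zero]; norm_num
  · rw [B_nvZ, hα]
    unfold nvS
    rw [k0, k1, k2, k3]
    nlinarith

theorem near_v : ∃ d : ℝ, 0 < d ∧ ∀ (L : Set V) (κ : ℝ), L ⊆ Omg → IsClosed L →
    (∀ x ∈ L, HasKCurv L x κ) → (∃ τ : ℝ, 0 < τ ∧ τ < d ∧ cc 0 (-1) 0 τ ∈ L) →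
    κ ≤ -2 ∧ ∃ x0 ∈ L, ∃ θ0 ν0, KData L x0 κ θ0 ν0 ∧ (hMat (graphMap θ0) (pr x0) ν0).PosDef := by
  refine ⟨1 / 1000000, by norm_num, ?_⟩
  rintro L κ hLO hLc hK ⟨τ, hτ0, hτ1, hτL⟩
  obtain ⟨hcN, hcz⟩ := nv_cc_mem hτ0 hτ1
  have hcomp : IsCompact (nvN (1 / 1000) ∩ L) :=
    (nvN_compact (by norm_num) le_rfl).inter_right hLc
  obtain ⟨x0, ⟨hx0N, hx0L⟩, hmin⟩ := hcomp.exists_isMinOn ⟨_, hcN, hτL⟩
    (f := fun x => B x nvZ) (by fun_prop : Continuous fun x : V => B x nvZ).continuousOn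
  have ha : B x0 nvZ < -(829 / 935) + 7 / 1000000 :=
    lt_of_le_of_lt (hmin ⟨hcN, hτL⟩) hcz
  -- interior
  have hnb : ¬ (|X 0 x0| = 1 / 1000 ∨ |X 1 x0| = 1 / 1000 ∨ |X 2 x0| = 1 / 1000 ∨
      |X 3 x0| = 1 / 1000) := fun h => absurd (nv_boundary hx0N (hLO hx0L) h) (not_le.2 ha)
  push Not at hnb
  obtain ⟨hα, hα'⟩ := nv_alpha (by norm_num) le_rfl hx0N
  have hev : ∀ᶠ y in 𝓝 x0, y ∈ AdS → y ∈ nvN (1 / 1000) := by
    have c1 : ∀ᶠ y : V in 𝓝 x0, 0 < y 1 + √2 * y 3 :=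
      (by fun_prop : Continuous fun y : V => y 1 + √2 * y 3).continuousAt.eventually_const_lt
        (by linarith)
    have c2 : ∀ i, |X i x0| < 1 / 1000 → ∀ᶠ y : V in 𝓝 x0, |X i y| < 1 / 1000 := fun i hi =>
      (continuous_abs.comp (continuous_X i)).continuousAt.eventually_lt_const hi
    filter_upwards [c1, c2 0 (lt_of_le_of_ne hx0N.2.2.1 hnb.1),
      c2 1 (lt_of_le_of_ne hx0N.2.2.2.1 hnb.2.1), c2 2 (lt_of_le_of_ne hx0N.2.2.2.2.1 hnb.2.2.1),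
      c2 3 (lt_of_le_of_ne hx0N.2.2.2.2.2 hnb.2.2.2)] with y g1 g2 g3 g4 g5 hy
    exact ⟨hy, g1.le, g2.le, g3.le, g4.le, g5.le⟩
  obtain ⟨θ, hθ, hxθ, hLθ, hg, ν, hν, hκ⟩ := hK x0 hx0L
  have hcont : ContinuousAt (graphMap θ) (pr x0) := by
    have hθc := hθ.continuousAt
    unfold graphMap
    rw [continuousAt_pi]
    intro i
    fin_cases i
    · exact (continuous_apply (0 : Fin 3)).continuousAt
    · exact (continuous_apply (1 : Fin 3)).continuousAt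
    · exact (continuous_apply (2 : Fin 3)).continuousAt
    · exact ContinuousAt.mul (by fun_prop) (Real.continuous_cos.continuousAt.comp hθc)
    · exact ContinuousAt.mul (by fun_prop) (Real.continuous_sin.continuousAt.comp hθc)
  have hto : Tendsto (graphMap θ) (𝓝 (pr x0)) (𝓝 x0) := by
    have := hcont.tendsto
    rwa [← hxθ] at this
  have hloc : ∀ᶠ w in 𝓝 (pr x0), B (graphMap θ (pr x0)) nvZ ≤ B (graphMap θ w) nvZ := by
    filter_upwards [hto.eventually hev, hto.eventually hLθ] with w h1 h2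
    rw [← hxθ]
    refine hmin ⟨h1 (graphMap_AdS θ w), h2.2 ?_⟩
    rw [pr_graphMap]
  obtain ⟨k1, k2⟩ := second_order_min hθ hν hg (G := fun y => B y nvZ)
    (G' := fun _ => BL.flip nvZ) (G'' := 0) (fun y => (BL.flip nvZ).hasFDerivAt)
    (hasFDerivAt_const _ _) hloc
  simp only [ContinuousLinearMap.flip_apply, BL_apply, zero_apply,
    zero_add] at k1 k2
  rw [← hxθ] at k2
  obtain ⟨n1, n2, n3, n4⟩ := hν
  rw [← hxθ] at n2 n4
  have hxx : B x0 x0 = -1 := (hLO hx0L).2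
  set a := B x0 nvZ with hadef
  set b := B ν nvZ with hbdef
  -- `z = - a x0 - b ν`
  set Y := nvZ + a • x0 + b • ν with hY
  have y0 : B x0 Y = 0 := by
    rw [hY, B_add_right, B_add_right, B_smul_right, B_smul_right, hxx, n2]
    ring
  have y1 : B ν Y = 0 := by
    rw [hY, B_add_right, B_add_right, B_smul_right, B_smul_right, n1, B_comm ν x0, n2]
    ring
  obtain ⟨v, hv⟩ := exists_tv hθ ⟨n1, by rw [← hxθ]; exact n2, n3, by rw [← hxθ]; exact n4⟩ hg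
    (Y := Y) (by rw [← hxθ]; exact y0) y1
  have yz : B Y nvZ = 0 := by rw [hv]; exact k1 v
  have yy : B Y Y = 0 := by
    conv_lhs => rw [hY]
    rw [B_add_left, B_add_left, B_smul_left, B_smul_left, y0, y1, B_comm nvZ Y, yz]
    ring
  have hv0 : v = 0 := by
    by_contra hne
    have h1 := hg.dotProduct_mulVec_pos hne
    have h2 : gq (graphMap θ) (pr x0) v = 0 := by
      unfold gq
      rw [← hv]
      exact yy
    rw [gq_eq] at h2
    have h3 : star v ⬝ᵥ (gMat (graphMap θ) (pr x0)).mulVec v =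
        ∑ i, ∑ j, v i * v j * gMat (graphMap θ) (pr x0) i j := by
      simp only [dotProduct, Matrix.mulVec, Finset.mul_sum]
      refine Finset.sum_congr rfl fun i _ => Finset.sum_congr rfl fun j _ => ?_
      simp
      ring
    rw [h3, h2] at h1
    exact lt_irrefl _ h1
  have hYz : Y = 0 := by
    rw [hv, hv0]
    simp [tv]
  have hzeq : nvZ = -(a • x0) - b • ν := by
    rw [hY] at hYz
    linear_combination (exp := 1) hYz
  have hab : a ^ 2 + b ^ 2 = 1 := by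
    have h1 := nvZ_self
    rw [hzeq] at h1
    simp only [B_sub_left, B_sub_right, B_neg_left, B_neg_right, B_smul_left, B_smul_right] at h1
    rw [hxx, n1, n2, B_comm ν x0, n2] at h1
    linarith
  have hom : om x0 nvZ = - (b * om x0 ν) := by
    have h1 := congrArg (om x0) hzeq
    rw [om_sub_right, om_neg_right, om_smul_right, om_smul_right, om_self] at h1
    linarith
  have homneg : om x0 nvZ < 0 := by
    obtain ⟨h0, h2, h4, ht, he⟩ := nv_coord (by norm_num) hx0N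
    have s2 : (0 : ℝ) < √2 := by positivity
    have q2 := sq2
    have q3 := sq3
    have s2' : √2 ≤ 3 / 2 := by
      rw [Real.sqrt_le_left (by norm_num)]; norm_num
    have s2'' : 7 / 5 ≤ √2 := Real.le_sqrt_of_sq_le (by norm_num)
    have s6 : √6 ≤ 5 / 2 := by
      rw [Real.sqrt_le_left (by norm_num)]; norm_num
    have s6' : 0 ≤ √6 := Real.sqrt_nonneg _
    have ht1 : |x0 1 + √2 / 2 * x0 3| ≤ 1 / 100 := by
      apply abs_le_of_sq_le_sq _ (by norm_num)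
      norm_num at ht ⊢
      linarith
    rw [abs_le] at ht1
    have h42 : |x0 4| ≤ 1 / 100 := by
      apply abs_le_of_sq_le_sq _ (by norm_num)
      norm_num at h4 ⊢
      linarith
    rw [abs_le] at h42
    have e3 : √2 / 2 * x0 3 = (x0 1 + √2 * x0 3) - (x0 1 + √2 / 2 * x0 3) := by ring
    have b3 : 1 ≤ x0 3 := by
      by_contra hn
      push Not at hn
      have : √2 / 2 * x0 3 < √2 / 2 * 1 := mul_lt_mul_of_pos_left hn (by positivity)
      rw [e3] at this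
      linarith [ht1.1, ht1.2]
    have z3 : nvZ 3 = 829 / 935 * √2 - 42 / 935 * (5 * √6 / 2) := by
      unfold nvZ
      rw [nvY_eq]
      simp [nvV]
    have z4 : nvZ 4 = - (42 / 935 * (19 * √2 / 2)) := by
      unfold nvZ
      rw [nvY_eq]
      simp [nvV]
    unfold om
    rw [z3, z4]
    have c1 : |829 / 935 * √2 - 42 / 935 * (5 * √6 / 2)| ≤ 2 := by
      rw [abs_le]; constructor <;> linarith
    have c2 : |x0 4 * (829 / 935 * √2 - 42 / 935 * (5 * √6 / 2))| ≤ 1 / 100 * 2 := by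
      rw [abs_mul]
      exact mul_le_mul (abs_le.2 h42) c1 (abs_nonneg _) (by norm_num)
    have c3 := abs_le.1 c2
    have c4 : 1 * (42 / 935 * (19 * (7 / 5) / 2)) ≤ x0 3 * (42 / 935 * (19 * √2 / 2)) :=
      mul_le_mul b3 (by linarith) (by norm_num) (by linarith)
    norm_num at c4
    linarith [c3.1, c3.2]
  have hb : 0 < b := by
    rw [hom] at homneg
    have : 0 < b * om x0 ν := by linarith
    exact (pos_iff_pos_of_mul_pos this).2 n4
  have hcoef : 4 / 3 * b ≤ -a := by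
    have h1 : a ≤ -(4 / 5) := by linarith
    have h2 : b ≤ 3 / 5 := by
      by_contra hn
      push Not at hn
      nlinarith
    linarith
  have hH : ∀ v : Fin 3 → ℝ, 4 / 3 * (∑ i, ∑ j, v i * v j * gMat (graphMap θ) (pr x0) i j) ≤
      ∑ i, ∑ j, v i * v j * hMat (graphMap θ) (pr x0) ν i j := by
    intro v
    have h1 := k2 v
    have hg0 : 0 ≤ gq (graphMap θ) (pr x0) v := by
      rw [gq_eq]
      have h3 := hg.posSemidef.dotProduct_mulVec_nonneg v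
      have h4 : star v ⬝ᵥ (gMat (graphMap θ) (pr x0)).mulVec v =
          ∑ i, ∑ j, v i * v j * gMat (graphMap θ) (pr x0) i j := by
        simp only [dotProduct, Matrix.mulVec, Finset.mul_sum]
        refine Finset.sum_congr rfl fun i _ => Finset.sum_congr rfl fun j _ => ?_
        simp
        ring
      rw [h4] at h3
      exact h3
    rw [← gq_eq]
    change 4 / 3 * gq (graphMap θ) (pr x0) v ≤ hq (graphMap θ) (pr x0) ν v
    have h5 : gq (graphMap θ) (pr x0) v * (4 / 3 * b) ≤ gq (graphMap θ) (pr x0) v * (-a) :=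
      mul_le_mul_of_nonneg_left hcoef hg0
    have h6 : (4 / 3 * gq (graphMap θ) (pr x0) v) * b ≤ hq (graphMap θ) (pr x0) ν v * b := by
      linarith
    exact le_of_mul_le_mul_right h6 hb
  obtain ⟨hpd, hdet⟩ := det_ge hg (hMat_symm hθ ν) (by norm_num : (0 : ℝ) < 4 / 3) hH
  have hgd : 0 < (gMat (graphMap θ) (pr x0)).det := hg.det_pos
  refine ⟨?_, x0, hx0L, θ, ν, ⟨hθ, hxθ, hLθ, hg, ⟨n1, by rw [← hxθ]; exact n2, n3,
    by rw [← hxθ]; exact n4⟩, hκ⟩, hpd⟩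
  rw [hκ]
  have h7 : (4 / 3 : ℝ) ^ 3 ≤ (hMat (graphMap θ) (pr x0) ν).det / (gMat (graphMap θ) (pr x0)).det := by
    rw [le_div_iff₀ hgd]
    exact hdet
  norm_num at h7
  linarith

end Pool.Agent.H93.KT
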