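import Pool.Agent.H93.KT.MaxiN
import Pool.Agent.H93.KT.Leaf2
import Pool.Agent.H93.KT.NearV
import Pool.Agent.H93.KT.NearQ2

set_option autoImplicit false

namespace Pool.Agent.H93.KT

theorem Past_inv {γ : V ≃ₗ[ℝ] V} (h : γ ∈ Gam) {x : V} (hx : x ∈ Past Omg CC) :
    γ x ∈ Past Omg CC := by
  obtain ⟨h1, h2, c, a, b, hab, hc, hca, hcb⟩ := hx
  have hcore := CC_core
  have hG := isGHMC
  refine ⟨hG.invΩ γ h x h1, ?_, fun s => γ (c s), a, b, hab, ?_, by simp only [hca], ?_⟩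
  · intro h3
    have h4 := hcore.1.2.2.2.1 γ⁻¹ (Gam.inv_mem h) _ h3
    apply h2
    have h5 : γ⁻¹ (γ x) = x := by
      have : (γ⁻¹ * γ) x = x := by rw [inv_mul_cancel]; rfl
      exact this
    rwa [h5] at h4
  · obtain ⟨w, rfl, hw⟩ := h
    refine ⟨?_, ?_⟩
    · exact (LinearMap.toContinuousLinearMap (act w).toLinearMap).contDiff.comp hc.1
    · intro s hs
      obtain ⟨h6, h7⟩ := hc.2 s hs
      refine ⟨(act_mem_Omg w).2 h6, ?_⟩
      have h8 : deriv (fun s => act w (c s)) s = act w (deriv c s) := by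
        have h9 : HasDerivAt c (deriv c s) s :=
          ((hc.1.differentiable (by norm_num)) s).hasDerivAt
        exact ((LinearMap.toContinuousLinearMap (act w).toLinearMap).hasFDerivAt.comp_hasDerivAt
          s h9).deriv
      rw [h8]
      exact act_future w h6.2 h7
  · exact hcore.1.2.2.2.1 γ h _ hcb

theorem no_K_time : ¬ ∃ t : V → ℝ, IsKTimeLike Gam Omg (Past Omg CC) t := by
  rintro ⟨t, ht⟩
  obtain ⟨d1, hd1, H1⟩ := near_v
  obtain ⟨d2, hd2, H2⟩ := near_q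
  obtain ⟨x, hx, hlow⟩ := exists_low_leaf ht (lt_min hd1 hd2)
  obtain ⟨k, hk⟩ := ht.2.2.2
  set L : Set V := {z | z ∈ Past Omg CC ∧ t z = t x} with hLdef
  have hC : IsCauchy Omg L := (hk x hx).1
  have hK : ∀ y ∈ L, HasKCurv L y (k (t x)) := by
    intro y hy
    have h1 := (hk y hy.1).2
    rw [hy.2] at h1
    exact h1
  have hinv : ∀ γ ∈ Gam, ∀ y ∈ L, γ y ∈ L := by
    intro γ hγ y hy
    exact ⟨Past_inv hγ hy.1, by rw [ht.2.1 γ hγ y hy.1]; exact hy.2⟩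
  have hcl : IsClosed L := leaf_closed hC hinv
  have hsub : L ⊆ Omg := hC.1
  have hv : ((0 : ℝ), (-1 : ℝ)) ∈ Xi := Or.inr ⟨rfl, by norm_num, by norm_num⟩
  obtain ⟨τ, hτ0, hτ1, hτ2⟩ := hlow _ hv 0
  obtain ⟨hκ, x0, hx0, θ0, ν0, hD, hP⟩ := H1 L (k (t x)) hsub hcl hK
    ⟨τ, hτ0, hτ1.trans_le (min_le_left _ _), hτ2⟩
  have hne : k (t x) ≠ 0 := by intro h; rw [h] at hκ; norm_num at hκ
  have hpos : ∀ y ∈ L, ∀ θ ν, KData L y (k (t x)) θ ν → (hMat (graphMap θ) (pr y) ν).PosDef :=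
    fun y hy θ ν h => posdef_everywhere (leaf_connected hC hcl) hne hK hx0 hD hP hy h
  have h3 := H2 L (k (t x)) hC hcl hinv hK hpos (fun q hq s => by
    obtain ⟨τ, h1, h2, h3⟩ := hlow q hq s
    exact ⟨τ, h1, h2.trans_le (min_le_right _ _), h3⟩)
  linarith

/-- There is a GHMC AdS manifold of dimension `3+1` whose past of the convex core has no K-time. -/
theorem main : ∃ (Γ : Subgroup G5) (Ω S C : Set V), IsGHMC Γ Ω S ∧ IsConvexCore Γ Ω C ∧
    ¬ ∃ t : V → ℝ, IsKTimeLike Γ Ω (Past Ω C) t :=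
  ⟨Gam, Omg, SS, CC, isGHMC, CC_core, no_K_time⟩

end Pool.Agent.H93.KT
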