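import Pool.Agent.H93.KT.SCauchy
import Pool.Agent.H93.KT.Curve

set_option autoImplicit false

/-! MODULE Maxi.  (H5).  Let `x ∈ Ω'`.  The timelike geodesic of `Ω'` through `x` in direction
`J x/√(x3²+x4²)` meets `SS ⊆ Omg` (`cauchy_geod`) at parameter `τ₁`.  If `x ∉ Omg`, let `z` be the first point, going
from `τ₁` towards `0`, that is not in `Omg` (`Omg` is open in `AdS`): `z ∈ Ω'`, `z ∈ AdS`, `z ∉ Cop`, `z ∈ Cbar`
(closure).  `exists_null` gives `k`; the null line `z + s k` meets `SS` (`cauchy_null`) at `u ∈ Cop`, but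
`B u k = 0`.  Contradiction. -/

namespace Pool.Agent.H93.KT

open Filter Topology

/-- last exit: a continuous curve on `[0,1]` that ends in an open set `U` and does not start in it
has a last point outside `U`, which is in the closure of `U` -/
theorem maxi_last {U : Set V} (hU : IsOpen U) {c : ℝ → V} (hc : Continuous c) (h0 : c 0 ∉ U)
    (h1 : c 1 ∈ U) : ∃ s ∈ Set.Icc (0 : ℝ) 1, c s ∉ U ∧ c s ∈ closure U := by
  set A : Set ℝ := {s | s ∈ Set.Icc (0 : ℝ) 1 ∧ c s ∉ U} with hA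
  have hAc : IsClosed A := by
    have : A = Set.Icc (0 : ℝ) 1 ∩ c ⁻¹' Uᶜ := by
      ext s; rfl
    rw [this]
    exact isClosed_Icc.inter (hU.isClosed_compl.preimage hc)
  have hAne : A.Nonempty := ⟨0, ⟨le_rfl, zero_le_one⟩, h0⟩
  have hAb : BddAbove A := ⟨1, fun s hs => hs.1.2⟩
  have hs := hAc.csSup_mem hAne hAb
  set s := sSup A with hs'
  refine ⟨s, hs.1, hs.2, ?_⟩
  have hlt : s < 1 := by
    refine lt_of_le_of_ne hs.1.2 ?_
    intro h
    exact hs.2 (h ▸ h1)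
  have hev : ∀ᶠ t in 𝓝[>] s, c t ∈ U := by
    filter_upwards [Ioo_mem_nhdsGT hlt] with t ht
    by_contra h
    exact absurd (le_csSup hAb (⟨⟨hs.1.1.trans ht.1.le, ht.2.le⟩, h⟩ : t ∈ A)) (not_le.2 ht.1)
  exact mem_closure_of_tendsto ((hc.tendsto s).mono_left nhdsWithin_le_nhds) hev

theorem Omg_maximal {Ω' : Set V} (h : OpenInAdS Ω') (hS : IsCauchy Ω' SS) : Ω' ⊆ Omg := by
  intro x hx
  have hxA : x ∈ AdS := by
    obtain ⟨O, -, rfl⟩ := h
    exact hx.2
  have hxA' : x 0 * x 0 + x 1 * x 1 + x 2 * x 2 - x 3 * x 3 - x 4 * x 4 = -1 := hxA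
  set r : ℝ := √(x 3 ^ 2 + x 4 ^ 2) with hr
  have hr2 : r * r = x 3 ^ 2 + x 4 ^ 2 := Real.mul_self_sqrt (by positivity)
  have hrpos : 0 < r := by
    rw [hr]
    apply Real.sqrt_pos.2
    nlinarith [mul_self_nonneg (x 0), mul_self_nonneg (x 1), mul_self_nonneg (x 2)]
  set X0 : V := (r⁻¹ : ℝ) • (![0, 0, 0, - x 4, x 3] : V) with hX0
  have e1 : B x X0 = 0 := by
    rw [hX0, B_smul_right]
    have : B x ![0, 0, 0, - x 4, x 3] = 0 := by
      simp [B]; ring
    rw [this, mul_zero]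
  have e2 : B X0 X0 = -1 := by
    rw [hX0, B_smul_right, B_smul_left]
    have : B (![0, 0, 0, - x 4, x 3] : V) ![0, 0, 0, - x 4, x 3] = - (r * r) := by
      rw [hr2]
      simp [B]; ring
    rw [this]
    field_simp
  have e3 : 0 < om x X0 := by
    rw [hX0, om_smul_right]
    have : om x ![0, 0, 0, - x 4, x 3] = r * r := by
      rw [hr2]
      simp [om]; ring
    rw [this]
    positivity
  obtain ⟨τ, ⟨hτ1, hτ2⟩, -⟩ := cauchy_geod h hS hx e1 e2 e3
  by_contra hno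
  have hnoC : x ∉ Cop := fun hC => hno ⟨hC, hxA⟩
  have hSO : SS ⊆ Cop := fun y hy => hy.1.1
  set c : ℝ → V := fun s => Real.cos (s * τ) • x + Real.sin (s * τ) • X0 with hc
  have hcc : Continuous c := by
    rw [hc]
    fun_prop
  obtain ⟨s, hs, hs1, hs2⟩ := maxi_last isOpen_Cop hcc (by simpa [hc] using hnoC)
    (by simpa [hc] using hSO hτ1)
  have hz : c s ∈ Ω' := by
    refine hτ2 (s * τ) ?_
    rw [Set.mem_uIcc]
    rcases le_total 0 τ with h1 | h1
    · left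
      exact ⟨mul_nonneg hs.1 h1, by nlinarith [hs.2]⟩
    · right
      exact ⟨by nlinarith [hs.2], mul_nonpos_of_nonneg_of_nonpos hs.1 h1⟩
  have hzC : c s ∈ Cbar := closure_minimal Cop_subset_Cbar isClosed_Cbar hs2
  obtain ⟨k, hk0, hk1, hk2, hk3⟩ := exists_null hzC hs1
  obtain ⟨t, ht⟩ := cauchy_null h hS hz hk2 hk1 hk0
  have h5 := hk3 _ (hSO ht)
  rw [B_add_left, B_smul_left, hk1, hk2] at h5
  simp at h5

end Pool.Agent.H93.KT
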