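import Pool.Agent.H93.KT.Maxi
import Pool.Agent.H93.KT.CurveN

set_option autoImplicit false

/-! MODULE MaxiN.  (H5), abstract version.  Let `p : N` with `p ∉ j '' Omg`.  The lift through `p` of the timelike
geodesic through `dev p` in direction `J (dev p)` normalised meets `j '' SS ⊆ j '' Omg` (`lift_curve`) at some
parameter.  `j '' Omg` is open in `N` (`j` is a continuous local inverse of the local homeomorphism `dev`).
Let `z = c τ` be the last point of the lifted curve on the way to `j '' SS` that is not in `j '' Omg` (as in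
`maxi_last`, for curves in `N`).  Then `z` is a limit of points `j x_n`, `x_n = dev (j x_n) → dev z`, so
`dev z ∈ AdS ∩ closure Omg ⊆ Cbar`.  `dev z ∉ Omg`: otherwise `j x_n → j (dev z)`, so `z = j (dev z)` (Hausdorff).
So `dev z ∈ Cbar`, `∉ Cop`; `exists_null` gives `k`, `null_future`; the lift through `z` of the null line
`dev z + s k` (or `- s k`) meets `j '' SS` at `j u`, `u = dev (j u) = dev z + s k ∈ Cop`, but `B u k = 0`.
Contradiction. -/

namespace Pool.Agent.H93.KT

open Filter Topology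

/-- last exit, for curves in a topological space -/
theorem maxi_lastN {N : Type} [TopologicalSpace N] {U : Set N} (hU : IsOpen U) {c : ℝ → N}
    (hc : Continuous c) (h0 : c 0 ∉ U) (h1 : c 1 ∈ U) :
    ∃ s ∈ Set.Icc (0 : ℝ) 1, c s ∉ U ∧ c s ∈ closure U := by
  set A : Set ℝ := {s | s ∈ Set.Icc (0 : ℝ) 1 ∧ c s ∉ U} with hA
  have hAc : IsClosed A := by
    have : A = Set.Icc (0 : ℝ) 1 ∩ c ⁻¹' Uᶜ := by
      ext s; rfl
    rw [this]
    exact isClosed_Icc.inter (hU.isClosed_compl.preimage hc)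
  have hAne : A.Nonempty := ⟨0, ⟨le_rfl, zero_le_one⟩, h0⟩
  have hAb : BddAbove A := ⟨1, fun s hs => hs.1.2⟩
  have hs := hAc.csSup_mem hAne hAb
  set s := sSup A with hs'
  refine ⟨s, hs.1, hs.2, ?_⟩
  have hlt : s < 1 := by
    refine lt_of_le_of_ne hs.1.2 ?_
    intro h
    exact hs.2 (h ▸ h1)
  have hev : ∀ᶠ t in 𝓝[>] s, c t ∈ U := by
    filter_upwards [Ioo_mem_nhdsGT hlt] with t ht
    by_contra h
    exact absurd (le_csSup hAb (⟨⟨hs.1.1.trans ht.1.le, ht.2.le⟩, h⟩ : t ∈ A)) (not_le.2 ht.1)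
  exact mem_closure_of_tendsto ((hc.tendsto s).mono_left nhdsWithin_le_nhds) hev

section Ext

variable {N : Type} [TopologicalSpace N] [T2Space N] {dev : N → V} {j : V → N}

omit [T2Space N] in
theorem ext_dev_AdS (hE : IsExtension Omg dev j) (p : N) : dev p ∈ AdS := by
  obtain ⟨O, -, h⟩ := hE.open_dev Set.univ isOpen_univ
  have h1 : dev p ∈ dev '' Set.univ := ⟨p, trivial, rfl⟩
  rw [h] at h1
  exact h1.2

omit [T2Space N] in
theorem ext_isOpen (hE : IsExtension Omg dev j) : IsOpen (j '' Omg) := by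
  rw [isOpen_iff_mem_nhds]
  rintro _ ⟨y, hy, rfl⟩
  obtain ⟨W, hW, hjy, hinj⟩ := hE.locInj (j y)
  have h1 : ∀ᶠ x in 𝓝[Omg] y, j x ∈ W := (hE.continuous_j y hy) (hW.mem_nhds hjy)
  rw [eventually_nhdsWithin_iff] at h1
  obtain ⟨O, hO, hOm⟩ := openInAdS_Omg
  have h2 : O ∈ 𝓝 y := hO.mem_nhds (by rw [hOm] at hy; exact hy.1)
  have h3 : Tendsto dev (𝓝 (j y)) (𝓝 y) := by
    have := hE.continuous_dev.tendsto (j y)
    rwa [hE.dev_j y hy] at this
  filter_upwards [h3 h1, h3 h2, hW.mem_nhds hjy] with q hq1 hq2 hq3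
  have hqO : dev q ∈ Omg := by
    rw [hOm]
    exact ⟨hq2, ext_dev_AdS hE q⟩
  exact ⟨dev q, hqO, hinj (hq1 hqO) hq3 (hE.dev_j _ hqO)⟩

theorem ext_boundary (hE : IsExtension Omg dev j) {z : N} (hz : z ∉ j '' Omg)
    (hz' : z ∈ closure (j '' Omg)) : dev z ∈ Cbar ∧ dev z ∉ Cop := by
  constructor
  · have h1 : dev z ∈ closure (dev '' (j '' Omg)) :=
      image_closure_subset_closure_image hE.continuous_dev ⟨z, hz', rfl⟩
    have h2 : dev '' (j '' Omg) ⊆ Cop := by
      rintro _ ⟨_, ⟨x, hx, rfl⟩, rfl⟩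
      rw [hE.dev_j x hx]
      exact hx.1
    exact closure_minimal (h2.trans Cop_subset_Cbar) isClosed_Cbar h1
  · intro h
    have hO : dev z ∈ Omg := ⟨h, ext_dev_AdS hE z⟩
    have hne : (𝓝[j '' Omg] z).NeBot := mem_closure_iff_nhdsWithin_neBot.1 hz'
    have h1 : Tendsto (fun q => q) (𝓝[j '' Omg] z) (𝓝 z) := nhdsWithin_le_nhds
    have h2 : Tendsto dev (𝓝[j '' Omg] z) (𝓝[Omg] (dev z)) := by
      rw [tendsto_nhdsWithin_iff]
      refine ⟨(hE.continuous_dev.tendsto z).mono_left nhdsWithin_le_nhds, ?_⟩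
      filter_upwards [self_mem_nhdsWithin] with q hq
      obtain ⟨x, hx, rfl⟩ := hq
      rw [hE.dev_j x hx]
      exact hx
    have h3 : Tendsto (fun q => j (dev q)) (𝓝[j '' Omg] z) (𝓝 (j (dev z))) :=
      (hE.continuous_j (dev z) hO).tendsto.comp h2
    have h4 : (fun q => j (dev q)) =ᶠ[𝓝[j '' Omg] z] fun q => q := by
      filter_upwards [self_mem_nhdsWithin] with q hq
      obtain ⟨x, hx, rfl⟩ := hq
      rw [hE.dev_j x hx]
    have h5 : z = j (dev z) := tendsto_nhds_unique (h1.congr' h4.symm) h3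
    exact hz ⟨dev z, hO, h5.symm⟩

/-- future directed null geodesics in `N` -/
theorem ext_null (hE : IsExtension Omg dev j)
    (hS : ∀ c : ℝ → N, InextCausalIn dev c → ∃! s, c s ∈ j '' SS) {z : N} {k : V}
    (hk : k ≠ 0) (h1 : B k k = 0) (hf : FutureCausal (dev z) k) :
    ∃ s : ℝ, dev z + s • k ∈ Cop := by
  have hxA : B (dev z) (dev z) = -1 := ext_dev_AdS hE z
  set x := dev z with hx
  obtain ⟨h0, _, ho⟩ := hf
  have h0' : B k x = 0 := by rw [B_comm]; exact h0
  have hd : ∀ s, HasDerivAt (fun τ : ℝ => x + τ • k) k s := by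
    intro s
    have h2 := ((hasDerivAt_id s).smul_const k).const_add x
    rw [one_smul] at h2
    exact h2
  obtain ⟨i, hi⟩ : ∃ i, k i ≠ 0 := by
    by_contra h
    push Not at h
    exact hk (funext h)
  have hno : ∀ (l : Filter ℝ) [NeBot l] (y : V), Tendsto (fun τ : ℝ => |τ|) l atTop →
      ¬ Tendsto (fun τ : ℝ => x + τ • k) l (𝓝 y) := by
    intro l _ y hl ht
    have h2 : Tendsto (fun τ : ℝ => (x + τ • k) i) l (𝓝 (y i)) :=
      ((continuous_apply i).tendsto y).comp ht
    have h3 : Tendsto (fun τ : ℝ => |((x + τ • k) i - x i) / k i|) l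
        (𝓝 |(y i - x i) / k i|) := ((h2.sub_const (x i)).div_const (k i)).abs
    have h4 : (fun τ : ℝ => |((x + τ • k) i - x i) / k i|) = fun τ : ℝ => |τ| := by
      funext τ
      rw [Pi.add_apply, Pi.smul_apply, smul_eq_mul, add_sub_cancel_left, mul_div_cancel_right₀ _ hi]
    rw [h4] at h3
    exact not_tendsto_nhds_of_tendsto_atTop hl _ h3
  obtain ⟨c, s, -, hcd, -, hcs⟩ := lift_curve hE.continuous_dev hE.open_dev hE.locInj hS
    (n := fun τ : ℝ => x + τ • k) (by fun_prop) (by
    intro s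
    rw [(hd s).deriv]
    refine ⟨?_, ?_, ?_, ?_⟩
    · change B (x + s • k) (x + s • k) = -1
      simp only [B_add_left, B_add_right, B_smul_left, B_smul_right, hxA, h0, h0', h1]
      ring
    · simp only [B_add_left, B_smul_left, h0, h1]
      ring
    · rw [h1]
    · simp only [om_add_left, om_smul_left, om_self, mul_zero, add_zero]
      exact ho)
    (fun y => ⟨hno atTop y tendsto_abs_atTop_atTop, hno atBot y tendsto_abs_atBot_atTop⟩)
    (p := z) (by simp [hx])
  obtain ⟨u, hu, huc⟩ := hcs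
  have h5 := hcd s Set.right_mem_uIcc
  rw [← huc, hE.dev_j u hu.1] at h5
  exact ⟨s, h5 ▸ hu.1.1⟩

/-- the unit timelike vector in the direction of the rotation of the `(x₄,x₅)`-plane -/
theorem exists_unit {x : V} (hxA : x ∈ AdS) : ∃ X : V, B x X = 0 ∧ B X X = -1 ∧ 0 < om x X := by
  have hxA' : x 0 * x 0 + x 1 * x 1 + x 2 * x 2 - x 3 * x 3 - x 4 * x 4 = -1 := hxA
  set r : ℝ := √(x 3 ^ 2 + x 4 ^ 2) with hr
  have hr2 : r * r = x 3 ^ 2 + x 4 ^ 2 := Real.mul_self_sqrt (by positivity)
  have hrpos : 0 < r := by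
    rw [hr]
    apply Real.sqrt_pos.2
    nlinarith [mul_self_nonneg (x 0), mul_self_nonneg (x 1), mul_self_nonneg (x 2)]
  refine ⟨(r⁻¹ : ℝ) • (![0, 0, 0, - x 4, x 3] : V), ?_, ?_, ?_⟩
  · rw [B_smul_right]
    have : B x ![0, 0, 0, - x 4, x 3] = 0 := by
      simp [B]; ring
    rw [this, mul_zero]
  · rw [B_smul_right, B_smul_left]
    have : B (![0, 0, 0, - x 4, x 3] : V) ![0, 0, 0, - x 4, x 3] = - (r * r) := by
      rw [hr2]
      simp [B]; ring
    rw [this]
    field_simp
  · rw [om_smul_right]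
    have : om x ![0, 0, 0, - x 4, x 3] = r * r := by
      rw [hr2]
      simp [om]; ring
    rw [this]
    positivity

/-- a timelike geodesic in `N` through any point reaches `j '' SS` -/
theorem ext_geod (hE : IsExtension Omg dev j)
    (hS : ∀ c : ℝ → N, InextCausalIn dev c → ∃! s, c s ∈ j '' SS) (p : N) :
    ∃ (c : ℝ → N) (s : ℝ), ContinuousOn c (Set.uIcc 0 s) ∧ c 0 = p ∧ c s ∈ j '' SS := by
  have hxA : B (dev p) (dev p) = -1 := ext_dev_AdS hE p
  obtain ⟨X, h0, h1, ho⟩ := exists_unit (ext_dev_AdS hE p)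
  set x := dev p with hx
  have h0' : B X x = 0 := by rw [B_comm]; exact h0
  have hd : ∀ s, HasDerivAt (fun τ : ℝ => Real.cos τ • x + Real.sin τ • X)
      ((-Real.sin s) • x + Real.cos s • X) s := by
    intro s
    exact ((Real.hasDerivAt_cos s).smul_const x).add ((Real.hasDerivAt_sin s).smul_const X)
  have hperiod : ∀ (σ : ℝ) (k : ℕ), (fun τ : ℝ => Real.cos τ • x + Real.sin τ • X)
      (σ + k * (2 * Real.pi)) = Real.cos σ • x + Real.sin σ • X := by
    intro σ k
    simp only
    rw [Real.cos_add_nat_mul_two_pi, Real.sin_add_nat_mul_two_pi]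
  have hperiod' : ∀ (σ : ℝ) (k : ℕ), (fun τ : ℝ => Real.cos τ • x + Real.sin τ • X)
      (σ - k * (2 * Real.pi)) = Real.cos σ • x + Real.sin σ • X := by
    intro σ k
    simp only
    rw [Real.cos_sub_nat_mul_two_pi, Real.sin_sub_nat_mul_two_pi]
  have hcontra : ∀ y : V, (∀ σ : ℝ, Real.cos σ • x + Real.sin σ • X = y) → False := by
    intro y hy
    have h2 := hy 0
    have h3 := hy Real.pi
    rw [Real.cos_zero, Real.sin_zero, one_smul, zero_smul, add_zero] at h2
    rw [Real.cos_pi, Real.sin_pi, zero_smul, add_zero, ← h2] at h3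
    have h4 : B ((-1 : ℝ) • x) x = B x x := by rw [h3]
    rw [B_smul_left, hxA] at h4
    norm_num at h4
  have h2pi : (0 : ℝ) < 2 * Real.pi := by positivity
  have htk : Tendsto (fun k : ℕ => (k : ℝ) * (2 * Real.pi)) atTop atTop :=
    tendsto_natCast_atTop_atTop.atTop_mul_const h2pi
  obtain ⟨c, s, hcc, -, hc0, hcs⟩ := lift_curve hE.continuous_dev hE.open_dev hE.locInj hS
    (n := fun τ : ℝ => Real.cos τ • x + Real.sin τ • X) (p := p)
    ((Real.contDiff_cos.smul contDiff_const).add (Real.contDiff_sin.smul contDiff_const))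
    (by
      intro s
      rw [(hd s).deriv]
      have hcs := Real.sin_sq_add_cos_sq s
      refine ⟨?_, ?_, ?_, ?_⟩
      · change B (Real.cos s • x + Real.sin s • X) (Real.cos s • x + Real.sin s • X) = -1
        simp only [B_add_left, B_add_right, B_smul_left, B_smul_right, hxA, h0, h0', h1]
        linear_combination -hcs
      · simp only [B_add_left, B_add_right, B_smul_left, B_smul_right, hxA, h0, h0', h1]
        ring
      · simp only [B_add_left, B_add_right, B_smul_left, B_smul_right, hxA, h0, h0', h1]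
        nlinarith
      · simp only [om_add_left, om_add_right, om_smul_left, om_smul_right, om_self]
        have h5 : om X x = - om x X := om_antisymm X x
        rw [h5]
        nlinarith)
    (by
      intro y
      constructor
      · intro ht
        apply hcontra y
        intro σ
        have h2 : Tendsto (fun k : ℕ => σ + (k : ℝ) * (2 * Real.pi)) atTop atTop :=
          tendsto_atTop_add_const_left _ _ htk
        have h3 := ht.comp h2
        have h4 : (fun τ : ℝ => Real.cos τ • x + Real.sin τ • X) ∘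
            (fun k : ℕ => σ + (k : ℝ) * (2 * Real.pi)) =
            fun _ => Real.cos σ • x + Real.sin σ • X := by
          funext k
          exact hperiod σ k
        rw [h4] at h3
        exact tendsto_nhds_unique tendsto_const_nhds h3
      · intro ht
        apply hcontra y
        intro σ
        have h2 : Tendsto (fun k : ℕ => σ - (k : ℝ) * (2 * Real.pi)) atTop atBot := by
          have h5 : (fun k : ℕ => σ - (k : ℝ) * (2 * Real.pi)) =
              fun k : ℕ => σ + -((k : ℝ) * (2 * Real.pi)) := by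
            funext k
            ring
          rw [h5]
          exact tendsto_atBot_add_const_left _ _ (tendsto_neg_atTop_atBot.comp htk)
        have h3 := ht.comp h2
        have h4 : (fun τ : ℝ => Real.cos τ • x + Real.sin τ • X) ∘
            (fun k : ℕ => σ - (k : ℝ) * (2 * Real.pi)) =
            fun _ => Real.cos σ • x + Real.sin σ • X := by
          funext k
          exact hperiod' σ k
        rw [h4] at h3
        exact tendsto_nhds_unique tendsto_const_nhds h3)
    (by simp [hx])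
  exact ⟨c, s, hcc, hc0, hcs⟩

end Ext

theorem Omg_maximalN (N : Type) [TopologicalSpace N] [T2Space N] (dev : N → V) (j : V → N)
    (hE : IsExtension Omg dev j)
    (hS : ∀ c : ℝ → N, InextCausalIn dev c → ∃! s, c s ∈ j '' SS) : j '' Omg = Set.univ := by
  rw [Set.eq_univ_iff_forall]
  intro p
  by_contra hp
  obtain ⟨c, s, hcc, hc0, hcs⟩ := ext_geod hE hS p
  have hmap : ∀ t : ℝ, ((Set.projIcc (0 : ℝ) 1 zero_le_one t : ℝ)) * s ∈ Set.uIcc 0 s := by
    intro t
    have h1 := (Set.projIcc (0 : ℝ) 1 zero_le_one t).2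
    rw [Set.mem_uIcc]
    rcases le_total 0 s with h | h
    · left
      exact ⟨mul_nonneg h1.1 h, by nlinarith [h1.2]⟩
    · right
      exact ⟨by nlinarith [h1.2], mul_nonpos_of_nonneg_of_nonpos h1.1 h⟩
  have hcont : Continuous (fun t : ℝ => c ((Set.projIcc (0 : ℝ) 1 zero_le_one t : ℝ) * s)) := by
    refine hcc.comp_continuous ?_ hmap
    exact (continuous_subtype_val.comp continuous_projIcc).mul continuous_const
  obtain ⟨t, -, ht1, ht2⟩ := maxi_lastN (ext_isOpen hE) hcont
    (by
      rw [Set.projIcc_left]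
      simp only [zero_mul, hc0]
      exact hp)
    (by
      rw [Set.projIcc_right]
      simp only [one_mul]
      obtain ⟨u, hu, huc⟩ := hcs
      rw [← huc]
      exact ⟨u, hu.1, rfl⟩)
  obtain ⟨hzC, hzO⟩ := ext_boundary hE ht1 ht2
  obtain ⟨k, hk0, hk1, hk2, hk3⟩ := exists_null hzC hzO
  rcases null_future (ext_dev_AdS hE _) hk0 hk1 hk2 with h | h
  · obtain ⟨σ, hσ⟩ := ext_null hE hS hk0 hk1 h
    have h5 := hk3 _ hσ
    rw [B_add_left, B_smul_left, hk1, hk2] at h5
    simp at h5
  · obtain ⟨σ, hσ⟩ := ext_null hE hS (neg_ne_zero.2 hk0) (by simp [hk1]) h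
    have h5 := hk3 _ hσ
    rw [B_add_left, B_smul_left, B_neg_left, hk1, hk2] at h5
    simp at h5

/-- `M = Omg / Gam` is a GHMC AdS manifold -/
theorem isGHMC : IsGHMC Gam Omg SS where
  isometry := by
    rintro γ ⟨w, rfl, -⟩
    exact ⟨fun x y => B_act w x y, fun x hx X hX => act_future w hx hX⟩
  openInAdS := openInAdS_Omg
  connected := isConnected_Omg
  invΩ := by
    rintro γ ⟨w, rfl, -⟩ x hx
    exact (act_mem_Omg w).2 hx
  invS := fun γ hγ x hx => SS_inv hγ hx
  freeProper := ⟨fun γ hγ x hx h => Gam_free hγ hx h, fun K hK hKc => Gam_proper hK hKc⟩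
  cauchy := SS_cauchy
  compact := SS_compact
  maximal := fun N _ _ dev j hE hS => Omg_maximalN N dev j hE hS

end Pool.Agent.H93.KT
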