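import Pool.Agent.H93.KT.Hf
import Pool.Agent.H93.KT.Lor2

set_option autoImplicit false

/-! MODULE Mono.  (H2).  At `x = c s` choose `w` with `act w x ∈ Ch` (`exists_Omg_Ch`) and `p ∈ Qm` with
`hf Qm x = hf Qm (act w x) = B (act w x) p = B x (act w⁻¹ p)` (`hf_Ch`).  `-1 < B < 1` (`hf_Qm_bounds`),
`om (act w x) p < 0` (`om_Qm`), so the derivative of `B (c s) (act w⁻¹ p)`, which is
`B (act w X) p` with `X = deriv c s` and `FutureCausal (act w x) (act w X)` (`act_future`), is positive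
(`B_pos_of_past`): for `s' > s` close to `s`, `hf Qm (c s') ≥ B (c s') (act w⁻¹ p) > hf Qm (c s)` (`le_hf`).
A continuous function (`hf_continuousOn`) such that every point has a right neighbourhood on which it is
larger is strictly increasing.  `Qp`: same with `s' < s`. -/

namespace Pool.Agent.H93.KT

open Filter Topology

/-- a continuous function on `[a,b]` such that every point of `[a,b)` has a right neighbourhood on which
the function is larger satisfies `f a < f b` -/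
theorem mono_of_right {f : ℝ → ℝ} {a b : ℝ} (hab : a < b) (hf : ContinuousOn f (Set.Icc a b))
    (h : ∀ s ∈ Set.Ico a b, ∀ᶠ t in 𝓝[>] s, f s < f t) : f a < f b := by
  obtain ⟨t0, ⟨ht0, ht0'⟩, hft0⟩ : ∃ t, (a < t ∧ t < b) ∧ f a < f t := by
    have h1 := h a ⟨le_rfl, hab⟩
    obtain ⟨t, h2, h3⟩ := (h1.and (Ioo_mem_nhdsGT hab)).exists
    exact ⟨t, h3, h2⟩
  have hf' : ContinuousOn f (Set.Icc t0 b) := hf.mono (Set.Icc_subset_Icc_left ht0.le)
  obtain ⟨m, hm, hmax⟩ := isCompact_Icc.exists_isMaxOn (Set.nonempty_Icc.2 ht0'.le) hf'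
  -- a maximum point must be `b`
  rcases eq_or_lt_of_le hm.2 with h4 | h4
  · have h5 : f t0 ≤ f m := hmax ⟨le_rfl, ht0'.le⟩
    rw [h4] at h5
    exact hft0.trans_le h5
  · have h6 := h m ⟨ht0.le.trans hm.1, h4⟩
    obtain ⟨t, h7, h8⟩ := (h6.and (Ioo_mem_nhdsGT h4)).exists
    have h9 : f t ≤ f m := hmax ⟨hm.1.trans h8.1.le, h8.2.le⟩
    exact absurd h9 (not_le.2 h7)

/-- growth near a point of positive derivative -/
theorem mono_deriv_right {g : ℝ → ℝ} {g' s : ℝ} (h : HasDerivAt g g' s) (h0 : 0 < g') :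
    ∀ᶠ t in 𝓝[>] s, g s < g t := by
  have h1 : Tendsto (slope g s) (𝓝[>] s) (𝓝 g') :=
    (hasDerivAt_iff_tendsto_slope.1 h).mono_left
      (nhdsWithin_mono _ fun t ht => ne_of_gt ht)
  have h2 := h1.eventually (lt_mem_nhds h0)
  filter_upwards [h2, self_mem_nhdsWithin] with t h3 h4
  rw [slope_def_field] at h3
  have h5 : 0 < t - s := sub_pos.2 h4
  have h6 := (div_pos_iff_of_pos_right h5).1 h3
  linarith

/-- growth to the left of a point of negative derivative -/
theorem mono_deriv_left {g : ℝ → ℝ} {g' s : ℝ} (h : HasDerivAt g g' s) (h0 : g' < 0) :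
    ∀ᶠ t in 𝓝[<] s, g s < g t := by
  have h1 : Tendsto (slope g s) (𝓝[<] s) (𝓝 g') :=
    (hasDerivAt_iff_tendsto_slope.1 h).mono_left
      (nhdsWithin_mono _ fun t ht => ne_of_lt ht)
  have h2 := h1.eventually (gt_mem_nhds h0)
  filter_upwards [h2, self_mem_nhdsWithin] with t h3 h4
  rw [slope_def_field] at h3
  have h5 : t - s < 0 := sub_neg.2 h4
  have h6 : 0 < g t - g s := by
    by_contra h7
    have := div_nonneg_of_nonpos (not_lt.1 h7) h5.le
    linarith
  linarith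

theorem anti_of_left {f : ℝ → ℝ} {a b : ℝ} (hab : a < b) (hf : ContinuousOn f (Set.Icc a b))
    (h : ∀ s ∈ Set.Ioc a b, ∀ᶠ t in 𝓝[<] s, f s < f t) : f b < f a := by
  have key := mono_of_right (f := fun t => f (-t)) (a := -b) (b := -a) (by linarith) (by
    refine hf.comp continuous_neg.continuousOn ?_
    intro t ht
    exact ⟨by linarith [ht.2], by linarith [ht.1]⟩) (by
    intro s hs
    have h1 := h (-s) ⟨by linarith [hs.2], by linarith [hs.1]⟩
    have h2 : Tendsto (fun t : ℝ => -t) (𝓝[>] s) (𝓝[<] (-s)) := by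
      refine tendsto_nhdsWithin_of_tendsto_nhds_of_eventually_within _
        (((continuous_neg).tendsto s).mono_left nhdsWithin_le_nhds) ?_
      filter_upwards [self_mem_nhdsWithin] with t ht
      exact neg_lt_neg (Set.mem_Ioi.1 ht)
    exact h2.eventually h1)
  simpa using key

theorem hf_Qm_mono {c : ℝ → V} {a b : ℝ} (hab : a < b) (hc : CausalSeg Omg c a b) :
    hf Qm (c a) < hf Qm (c b) := by
  refine mono_of_right (f := fun s => hf Qm (c s)) hab ?_ ?_
  · exact (hf_continuousOn isCell_Qm).comp hc.1.continuous.continuousOn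
      (fun s hs => (hc.2 s hs).1.1)
  · intro s hs
    obtain ⟨hx, hX⟩ := hc.2 s ⟨hs.1, hs.2.le⟩
    obtain ⟨w, hw1, hw2, hw3, hw4⟩ := exists_Omg_Ch hx
    obtain ⟨⟨p, hp, hpe⟩, -⟩ := hf_Ch isCell_Qm hw1
    have hb := hf_Qm_bounds hx
    rw [hf_act] at hpe
    have hom := om_Qm hw1 hw3 hp
    have hpos : 0 < B (act w (deriv c s)) p :=
      B_pos_of_past hw2.2 (isCell_Qm.2.2 hp).2 (act_future w hx.2 hX) (by rw [← hpe]; exact hb.1)
        (by rw [← hpe]; exact hb.2) hom
    rw [B_act_left] at hpos hpe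
    have hd : HasDerivAt c (deriv c s) s :=
      ((hc.1.differentiable (by norm_num)) s).hasDerivAt
    have h1 := mono_deriv_right (hasDerivAt_B_left hd (act w⁻¹ p)) hpos
    filter_upwards [h1, Ioo_mem_nhdsGT hs.2] with t h2 h3
    have h4 := (hc.2 t ⟨hs.1.trans h3.1.le, h3.2.le⟩).1
    have h5 := le_hf isCell_Qm h4.1 w⁻¹ hp
    calc hf Qm (c s) = B (c s) (act w⁻¹ p) := hpe
      _ < B (c t) (act w⁻¹ p) := h2
      _ ≤ hf Qm (c t) := h5

theorem hf_Qp_anti {c : ℝ → V} {a b : ℝ} (hab : a < b) (hc : CausalSeg Omg c a b) :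
    hf Qp (c b) < hf Qp (c a) := by
  refine anti_of_left (f := fun s => hf Qp (c s)) hab ?_ ?_
  · exact (hf_continuousOn isCell_Qp).comp hc.1.continuous.continuousOn
      (fun s hs => (hc.2 s hs).1.1)
  · intro s hs
    obtain ⟨hx, hX⟩ := hc.2 s ⟨hs.1.le, hs.2⟩
    obtain ⟨w, hw1, hw2, hw3, hw4⟩ := exists_Omg_Ch hx
    obtain ⟨⟨p, hp, hpe⟩, -⟩ := hf_Ch isCell_Qp hw1
    have hb := hf_Qp_bounds hx
    rw [hf_act] at hpe
    have hom := om_Qp hw1 hw4 hp
    have hneg : B (act w (deriv c s)) p < 0 :=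
      B_neg_of_future hw2.2 (isCell_Qp.2.2 hp).2 (act_future w hx.2 hX)
        (by rw [← hpe]; exact hb.1) (by rw [← hpe]; exact hb.2) hom
    rw [B_act_left] at hneg hpe
    have hd : HasDerivAt c (deriv c s) s :=
      ((hc.1.differentiable (by norm_num)) s).hasDerivAt
    have h1 := mono_deriv_left (hasDerivAt_B_left hd (act w⁻¹ p)) hneg
    filter_upwards [h1, Ioo_mem_nhdsLT hs.1] with t h2 h3
    have h4 := (hc.2 t ⟨h3.1.le, h3.2.le.trans hs.2⟩).1
    have h5 := le_hf isCell_Qp h4.1 w⁻¹ hp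
    calc hf Qp (c s) = B (c s) (act w⁻¹ p) := hpe
      _ < B (c t) (act w⁻¹ p) := h2
      _ ≤ hf Qp (c t) := h5

end Pool.Agent.H93.KT
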