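import Pool.Agent.H93.KT.Posi
import Pool.Agent.H93.KT.Mat3
import Pool.Agent.H93.KT.KCore

set_option autoImplicit false

/-! MODULE NearQ.  (G4).  `F x = x4² - x2² - c (x0²+x1²)^4` (Lean indices `0..4`), `c = 10⁻⁸`, `ρ = 1/10`. -/

namespace Pool.Agent.H93.KT

open Filter Topology

/-- the barrier function -/
noncomputable def Fb (x : V) : ℝ := x 4 ^ 2 - x 2 ^ 2 - (1 / 10 ^ 8) * (x 0 ^ 2 + x 1 ^ 2) ^ 4

namespace NearQ

/-- coordinate functionals -/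
noncomputable def P (i : Fin 5) : V →L[ℝ] ℝ := ContinuousLinearMap.proj i

@[simp] lemma P_apply (i : Fin 5) (x : V) : P i x = x i := rfl

lemma hasFDerivAt_P (i : Fin 5) (x : V) : HasFDerivAt (fun z : V => z i) (P i) x :=
  (P i).hasFDerivAt

/-- the constant `8c` -/
noncomputable def c8 : ℝ := 8 / 10 ^ 8

noncomputable def q (z : V) : ℝ := z 0 ^ 2 + z 1 ^ 2

noncomputable def q' (z : V) : V →L[ℝ] ℝ := (2 * z 0) • P 0 + (2 * z 1) • P 1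

lemma hasFDerivAt_q (z : V) : HasFDerivAt q (q' z) z := by
  have h := ((hasFDerivAt_P 0 z).pow 2).add ((hasFDerivAt_P 1 z).pow 2)
  refine HasFDerivAt.congr_fderiv (f' := _) (h.congr_of_eventuallyEq ?_) ?_
  · exact Filter.Eventually.of_forall fun y => by simp [q]
  · ext y
    simp [q']

/-- minus the derivative of `Fb` -/
noncomputable def G1 (z : V) : V →L[ℝ] ℝ :=
  (c8 * q z ^ 3 * z 0) • P 0 + (c8 * q z ^ 3 * z 1) • P 1 + (2 * z 2) • P 2 + (-2 * z 4) • P 4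

lemma G1_apply (z y : V) : G1 z y =
    c8 * q z ^ 3 * z 0 * y 0 + c8 * q z ^ 3 * z 1 * y 1 + 2 * z 2 * y 2 - 2 * z 4 * y 4 := by
  simp [G1]; ring

lemma hasFDerivAt_G (z : V) : HasFDerivAt (fun z => - Fb z) (G1 z) z := by
  have h := (((((hasFDerivAt_P 4 z).pow 2).sub ((hasFDerivAt_P 2 z).pow 2)).sub
    (((hasFDerivAt_q z).pow 4).const_mul (1 / 10 ^ 8)))).neg
  refine HasFDerivAt.congr_fderiv (f' := _) (h.congr_of_eventuallyEq ?_) ?_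
  · exact Filter.Eventually.of_forall fun y => by simp [Fb, q]
  · ext y
    rw [G1_apply]
    simp [q', c8]
    ring

noncomputable def f0' (z : V) (i : Fin 5) : V →L[ℝ] ℝ :=
  (c8 * (3 * q z ^ 2) * z i) • q' z + (c8 * q z ^ 3) • P i

lemma hasFDerivAt_f0 (z : V) (i : Fin 5) :
    HasFDerivAt (fun z : V => c8 * q z ^ 3 * z i) (f0' z i) z := by
  have h := (((hasFDerivAt_q z).pow 3).const_mul c8).mul (hasFDerivAt_P i z)
  refine HasFDerivAt.congr_fderiv (f' := _) (h.congr_of_eventuallyEq ?_) ?_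
  · exact Filter.Eventually.of_forall fun y => by simp
  · ext y
    simp [f0']
    ring

noncomputable def G2 (z : V) : V →L[ℝ] V →L[ℝ] ℝ :=
  (f0' z 0).smulRight (P 0) + (f0' z 1).smulRight (P 1) + ((2 : ℝ) • P 2).smulRight (P 2) +
    ((-2 : ℝ) • P 4).smulRight (P 4)

lemma hasFDerivAt_G1 (z : V) : HasFDerivAt G1 (G2 z) z := by
  have h0 := (hasFDerivAt_f0 z 0).smul_const (P 0)
  have h1 := (hasFDerivAt_f0 z 1).smul_const (P 1)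
  have h2 := ((hasFDerivAt_P 2 z).const_mul 2).smul_const (P 2)
  have h4 := ((hasFDerivAt_P 4 z).const_mul (-2)).smul_const (P 4)
  exact ((h0.add h1).add h2).add h4

lemma G2_apply (z y : V) : G2 z y y =
    6 * c8 * q z ^ 2 * (z 0 * y 0 + z 1 * y 1) ^ 2 + c8 * q z ^ 3 * (y 0 ^ 2 + y 1 ^ 2)
      + 2 * (y 2 ^ 2 - y 4 ^ 2) := by
  simp [G2, f0', q']
  ring

lemma B_tv (φ : R3 → V) (u v w : R3) :
    B (tv φ u v) (tv φ u w) = ∑ i, ∑ j, v i * w j * gMat φ u i j := by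
  unfold tv
  rw [B_sum_left]
  refine Finset.sum_congr rfl fun i _ => ?_
  rw [B_sum_right]
  refine Finset.sum_congr rfl fun j _ => ?_
  rw [B_smul_left, B_smul_right]
  simp [gMat]
  ring


/-- the `B`-gradient of `Fb` -/
noncomputable def grad (x : V) : V :=
  ![-(c8 * q x ^ 3 * x 0), -(c8 * q x ^ 3 * x 1), -2 * x 2, 0, -2 * x 4]

lemma B_grad (x y : V) : B (grad x) y = - G1 x y := by
  rw [G1_apply]
  simp [B, grad]
  ring

lemma tv_eq_zero {θ : R3 → ℝ} {u v : R3} (hg : (gMat (graphMap θ) u).PosDef)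
    (h : B (tv (graphMap θ) u v) (tv (graphMap θ) u v) = 0) : tv (graphMap θ) u v = 0 := by
  have hv : v = 0 := by
    by_contra hne
    have h1 := hg.dotProduct_mulVec_pos hne
    rw [B_tv] at h
    have h2 : star v ⬝ᵥ (gMat (graphMap θ) u).mulVec v
        = ∑ i, ∑ j, v i * v j * gMat (graphMap θ) u i j := by
      simp only [dotProduct, Matrix.mulVec, Finset.mul_sum]
      refine Finset.sum_congr rfl fun i _ => Finset.sum_congr rfl fun j _ => ?_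
      simp
      ring
    rw [h2, h] at h1
    exact lt_irrefl _ h1
  subst hv
  simp [tv]

lemma hq_pos {θ : R3 → ℝ} {u v : R3} {ν : V} (hh : (hMat (graphMap θ) u ν).PosDef)
    (hv : v ≠ 0) : 0 < hq (graphMap θ) u ν v := by
  have h1 := hh.dotProduct_mulVec_pos hv
  have h2 : star v ⬝ᵥ (hMat (graphMap θ) u ν).mulVec v = hq (graphMap θ) u ν v := by
    unfold hq
    simp only [dotProduct, Matrix.mulVec, Finset.mul_sum]
    refine Finset.sum_congr rfl fun i _ => Finset.sum_congr rfl fun j _ => ?_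
    simp
    ring
  rwa [h2] at h1

/-- the consequences of the second order condition at a local maximum of `Fb` -/
lemma core {θ : R3 → ℝ} {u : R3} (hθ : ContDiffAt ℝ 2 θ u) {ν : V}
    (hν : IsNormal (graphMap θ) u ν) (hg : (gMat (graphMap θ) u).PosDef)
    (hmax : ∀ᶠ w in 𝓝 u, Fb (graphMap θ w) ≤ Fb (graphMap θ u))
    {x : V} (hx : x = graphMap θ u)
    (h3 : 0 < x 3) (h4 : 0 < x 4) :
    0 < - G1 x ν ∧ (G1 x ν) ^ 2 + (G1 x x) ^ 2 = - B (grad x) (grad x) ∧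
    ∀ Y, B x Y = 0 → G1 x Y = 0 → ∃ v, Y = tv (graphMap θ) u v ∧
      hq (graphMap θ) u ν v * (- G1 x ν) ≤ G2 x Y Y + B Y Y * G1 x x := by
  subst hx
  set x := graphMap θ u with hx
  obtain ⟨H1, H2⟩ := second_order_min hθ hν hg (G := fun z => - Fb z) (G' := G1) (G'' := G2 x)
    hasFDerivAt_G (hasFDerivAt_G1 x) (hmax.mono fun w hw => by simpa using hw)
  rw [← hx] at H1 H2
  have hxx : B x x = -1 := graphMap_AdS θ u
  obtain ⟨n1, n2, -, n4⟩ := id hν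
  rw [← hx] at n2 n4
  have hw : grad x = (G1 x ν) • ν + (G1 x x) • x := by
    obtain ⟨v, hv⟩ := exists_tv hθ hν hg (Y := grad x - (G1 x ν) • ν - (G1 x x) • x) (by
      rw [← hx, B_sub_right, B_sub_right, B_smul_right, B_smul_right, n2, hxx, B_comm, B_grad]
      ring) (by
      rw [B_sub_right, B_sub_right, B_smul_right, B_smul_right, n1, B_comm, B_grad, B_comm ν x, n2]
      ring)
    have h0 : B (tv (graphMap θ) u v) (tv (graphMap θ) u v) = 0 := by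
      nth_rewrite 1 [← hv]
      rw [B_sub_left, B_sub_left, B_smul_left, B_smul_left, B_grad, H1 v, hx, B_tv_self hθ]
      have : B ν (tv (graphMap θ) u v) = 0 := by
        rw [← hv, B_sub_right, B_sub_right, B_smul_right, B_smul_right, n1, B_comm, B_grad,
          B_comm ν x, n2]
        ring
      rw [this]; ring
    have h1 := tv_eq_zero hg h0
    rw [h1] at hv
    have : grad x = (grad x - (G1 x ν) • ν - (G1 x x) • x) + ((G1 x ν) • ν + (G1 x x) • x) := by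
      abel
    rw [this, hv, zero_add]
  have hpos : 0 < - G1 x ν := by
    have h5 : om x (grad x) = - 2 * x 3 * x 4 := by
      simp [om, grad]; ring
    rw [hw, om_add_right, om_smul_right, om_smul_right, om_self] at h5
    have h6 : 0 < x 3 * x 4 := mul_pos h3 h4
    by_contra hcon
    push Not at hcon
    have : 0 ≤ G1 x ν := by linarith
    nlinarith [mul_nonneg this n4.le]
  refine ⟨hpos, ?_, fun Y hY1 hY2 => ?_⟩
  · conv_rhs => rw [hw]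
    simp only [B_add_left, B_add_right, B_smul_left, B_smul_right, n1, n2, hxx, B_comm ν x]
    ring
  · have hνY : B ν Y = 0 := by
      have h7 : B (grad x) Y = 0 := by rw [B_grad, hY2]; simp
      rw [hw, B_add_left, B_smul_left, B_smul_left, hY1] at h7
      have : G1 x ν * B ν Y = 0 := by linarith
      rcases mul_eq_zero.1 this with h | h
      · exact absurd h (by linarith)
      · exact h
    obtain ⟨v, hv⟩ := exists_tv hθ hν hg hY1 hνY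
    refine ⟨v, hv, ?_⟩
    have := H2 v
    rw [← hv] at this
    have hgq : gq (graphMap θ) u v = B Y Y := by unfold gq; rw [← hv]
    rw [hgq] at this
    nlinarith


/-- the final inequality: `D³ h₁ h₂ h₃ ≤ A₁ A₂ A₃` and the bounds on the `Aᵢ`. -/
lemma final_ineq {D q s h1 h2 h3 A1 A2 A3 : ℝ} (hD : 0 < D) (hq : 0 < q) (hs : 0 < s)
    (hDs : s ^ 2 ≤ D ^ 2) (hsq : (1 / 10 ^ 8) * q ^ 4 < s ^ 2)
    (_p1 : 0 < h1) (p2 : 0 < h2) (p3 : 0 < h3)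
    (e1 : h1 * D ≤ A1) (e2 : h2 * D ≤ A2) (e3 : h3 * D ≤ A3)
    (b1 : A1 ≤ 3) (b2 : A2 ≤ 10 / 10 ^ 8 * q ^ 3) (b3 : A3 ≤ 60 / 10 ^ 8 * q ^ 3) :
    h1 * h2 * h3 < 1 := by
  have hsD : s ≤ D := abs_le_of_sq_le_sq' hDs hD.le |>.2
  have hsq' : 1 / 10 ^ 4 * q ^ 2 < s := by
    apply lt_of_pow_lt_pow_left₀ 2 hs.le
    calc (1 / 10 ^ 4 * q ^ 2) ^ 2 = (1 / 10 ^ 8) * q ^ 4 := by ring
      _ < s ^ 2 := hsq
  have hqD : 1 / 10 ^ 4 * q ^ 2 < D := lt_of_lt_of_le hsq' hsD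
  have k1 : h1 * D ≤ 3 := e1.trans b1
  have k2 : h2 * D ≤ 10 / 10 ^ 8 * q ^ 3 := e2.trans b2
  have k3 : h3 * D ≤ 60 / 10 ^ 8 * q ^ 3 := e3.trans b3
  have k12 : (h1 * D) * (h2 * D) ≤ 3 * (10 / 10 ^ 8 * q ^ 3) :=
    mul_le_mul k1 k2 (by positivity) (by norm_num)
  have k123 : (h1 * D) * (h2 * D) * (h3 * D) ≤ 3 * (10 / 10 ^ 8 * q ^ 3) * (60 / 10 ^ 8 * q ^ 3) :=
    mul_le_mul k12 k3 (by positivity) (by positivity)
  have k4 : (1 / 10 ^ 4 * q ^ 2) ^ 3 < D ^ 3 := by gcongr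
  have k5 : 3 * (10 / 10 ^ 8 * q ^ 3) * (60 / 10 ^ 8 * q ^ 3) < (1 / 10 ^ 4 * q ^ 2) ^ 3 := by
    have : 0 < q ^ 6 := by positivity
    nlinarith
  have k6 : (h1 * h2 * h3) * D ^ 3 < 1 * D ^ 3 := by
    calc (h1 * h2 * h3) * D ^ 3 = (h1 * D) * (h2 * D) * (h3 * D) := by ring
      _ ≤ _ := k123
      _ < _ := k5
      _ < D ^ 3 := k4
      _ = 1 * D ^ 3 := by ring
  exact lt_of_mul_lt_mul_right k6 (by positivity)

end NearQ

open NearQ in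
/-- MODULE NearQ1.  At a local maximum `x` of `Fb` on a hypersurface with `h > 0`, close to the centre of the 2-cell,
`det h / det g < 1`.
PROOF: `second_order_min` for `-Fb`: for tangent `Y`, `DF Y = 0` and `h(Y,Y) DF ν ≤ A(Y,Y) := -D²F(Y,Y) - B(Y,Y) DF x`
with `s = √(x4²-x2²) > 0`, `R = √(x0²+x1²)`, `DF Y = 2(x4 Y4 - x2 Y2) - 8c R⁶ (x0 Y0 + x1 Y1)`, `DF x = 2s² - 8cR⁸`,
`D²F(Y,Y) = 2(Y4²-Y2²) - 8cR⁶(Y0²+Y1²) - 48cR⁴(x0 Y0+x1 Y1)²`; `DF ν > 0` and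
`(DF ν)² = 4s² - 64c²R¹⁴ - (2s²-8cR⁸)² ≥ s²` (`ν` is the normalised tangential gradient; the sign: `Fb` increases in
the direction `![0,0,x 2,0,x 4]`, tangential part, which is future since `x 3, x 4 > 0`).
`R > 0`: otherwise `Y = e₀` is tangent with `A = -2s² < 0`.  Orthonormal tangent basis (all `B`-orthogonal to `x`, and
`DF = 0`, hence `B`-orthogonal to `ν`): `e_y = (1/s)![0,0,x4,0,x2]`: `A = 2-2s²+8cR⁸`; `e_θ = (1/R)![-x1,x0,0,0,0]`: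
`A = 8cR⁶+8cR⁸-2s²`; `e_r = ρ ![x0/R, x1/R, σ x2/s, α, σ x4/s]`, `σ = 4cR⁷/s`, `α = (R-4cR⁷)/x3`,
`ρ² = 1/(1 - α² - σ²)`: `A = 56cR⁶ρ² - 2σ²ρ² - 2s² + 8cR⁸`.  Then `det_le`:
`det h/det g ≤ A_y A_θ A_r / s³ < 1` (`s² ≥ cR⁸`, `R ≤ 1/10`, `s ≤ 1/10`). -/
theorem barrier_bound {θ : R3 → ℝ} {u : R3} (hθ : ContDiffAt ℝ 2 θ u) {ν : V}
    (hν : IsNormal (graphMap θ) u ν) (hg : (gMat (graphMap θ) u).PosDef)
    (hh : (hMat (graphMap θ) u ν).PosDef)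
    (hmax : ∀ᶠ w in 𝓝 u, Fb (graphMap θ w) ≤ Fb (graphMap θ u))
    (hpos : 0 < Fb (graphMap θ u)) (hR : u 0 ^ 2 + u 1 ^ 2 ≤ 1 / 100)
    (hs : graphMap θ u 4 ^ 2 - graphMap θ u 2 ^ 2 ≤ 1 / 100)
    (h3 : 0 < graphMap θ u 3) (h4 : 0 < graphMap θ u 4) :
    (hMat (graphMap θ) u ν).det / (gMat (graphMap θ) u).det < 1 := by
  obtain ⟨x, hx⟩ : ∃ x, x = graphMap θ u := ⟨_, rfl⟩
  rw [← hx] at hpos hs h3 h4
  obtain ⟨hD, hD2, H⟩ := core hθ hν hg hmax hx h3 h4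
  have hxx : B x x = -1 := by rw [hx]; exact graphMap_AdS θ u
  have hx0 : x 0 = u 0 := by rw [hx]; simp [graphMap]
  have hx1 : x 1 = u 1 := by rw [hx]; simp [graphMap]
  rw [← hx0, ← hx1] at hR
  obtain ⟨Q, hQ⟩ : ∃ Q, Q = x 0 ^ 2 + x 1 ^ 2 := ⟨_, rfl⟩
  have hqQ : q x = Q := by rw [hQ]; rfl
  obtain ⟨S, hS⟩ : ∃ S, S = x 4 ^ 2 - x 2 ^ 2 := ⟨_, rfl⟩
  rw [← hQ] at hR
  rw [← hS] at hs
  have hQ0 : 0 ≤ Q := by rw [hQ]; positivity
  have hF : 0 < S - 1 / 10 ^ 8 * Q ^ 4 := by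
    rw [hS, hQ]; exact hpos
  have hS0 : 0 < S := by
    have : 0 ≤ Q ^ 4 := by positivity
    linarith
  obtain ⟨D, hDd⟩ : ∃ D, D = - G1 x ν := ⟨_, rfl⟩
  have hG1x : G1 x x = c8 * Q ^ 4 - 2 * S := by
    rw [G1_apply, hqQ, hS]
    have : c8 * Q ^ 3 * x 0 * x 0 + c8 * Q ^ 3 * x 1 * x 1 = c8 * Q ^ 3 * (x 0 ^ 2 + x 1 ^ 2) := by
      ring
    rw [this, ← hQ]; ring
  have hgg : - B (grad x) (grad x) = 4 * S - c8 ^ 2 * Q ^ 7 := by
    rw [B_grad, neg_neg, G1_apply, hqQ]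
    simp only [grad, hqQ]
    simp
    rw [hS]
    have : c8 ^ 2 * Q ^ 7 = c8 ^ 2 * Q ^ 6 * (x 0 ^ 2 + x 1 ^ 2) := by rw [← hQ]; ring
    rw [this]; ring
  rw [← hDd] at hD
  have hD2' : D ^ 2 = 4 * S - c8 ^ 2 * Q ^ 7 - (c8 * Q ^ 4 - 2 * S) ^ 2 := by
    rw [hgg, hG1x] at hD2
    have : G1 x ν ^ 2 = D ^ 2 := by rw [hDd]; ring
    rw [this] at hD2; linarith
  have hQ4 : 0 ≤ Q ^ 4 := by positivity
  have hQ3 : 0 ≤ Q ^ 3 := by positivity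
  have hQ3' : Q ^ 3 ≤ 1 / 10 ^ 6 := by
    calc Q ^ 3 ≤ (1 / 100) ^ 3 := by gcongr
      _ = _ := by norm_num
  have hQ4' : Q ^ 4 ≤ 1 / 100 * Q ^ 3 := by
    calc Q ^ 4 = Q * Q ^ 3 := by ring
      _ ≤ 1 / 100 * Q ^ 3 := by gcongr
  have hDS : S ≤ D ^ 2 := by
    have e1 : c8 ^ 2 * Q ^ 7 ≤ S / 10 := by
      have : c8 ^ 2 * Q ^ 7 = (64 / 10 ^ 8 * Q ^ 3) * (1 / 10 ^ 8 * Q ^ 4) := by
        unfold c8; ring
      rw [this]
      have f1 : 64 / 10 ^ 8 * Q ^ 3 ≤ 1 / 10 := by linarith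
      have f2 : 1 / 10 ^ 8 * Q ^ 4 ≤ S := by linarith
      calc (64 / 10 ^ 8 * Q ^ 3) * (1 / 10 ^ 8 * Q ^ 4) ≤ 1 / 10 * S :=
            mul_le_mul f1 f2 (by positivity) (by norm_num)
        _ = S / 10 := by ring
    have e2 : (c8 * Q ^ 4 - 2 * S) ^ 2 ≤ S := by
      have f1 : c8 * Q ^ 4 ≤ 8 * S := by unfold c8; linarith
      have f2 : 0 ≤ c8 * Q ^ 4 := by unfold c8; positivity
      have f3 : |c8 * Q ^ 4 - 2 * S| ≤ 6 * S := by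
        rw [abs_le]; constructor <;> linarith
      have f4 : (c8 * Q ^ 4 - 2 * S) ^ 2 ≤ (6 * S) ^ 2 := by
        rw [← sq_abs]; gcongr
      nlinarith
    rw [hD2']; linarith
  -- the coordinate `x 3`
  have hx3 : x 3 ^ 2 = 1 + Q - S := by
    have : B x x = x 0 ^ 2 + x 1 ^ 2 + x 2 ^ 2 - x 3 ^ 2 - x 4 ^ 2 := by unfold B; ring
    rw [this] at hxx
    rw [hQ, hS]; linarith
  -- Q > 0
  have hQpos : 0 < Q := by
    rcases hQ0.lt_or_eq with h | h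
    · exact h
    · exfalso
      have z0 : x 0 = 0 := by
        have a1 := sq_nonneg (x 0)
        have a2 := sq_nonneg (x 1)
        have a3 : x 0 ^ 2 = 0 := by linarith only [hQ, h, a1, a2]
        exact pow_eq_zero_iff (two_ne_zero) |>.1 a3
      obtain ⟨v, hv1, hv2⟩ := H ![1, 0, 0, 0, 0] (by simp [B, z0])
        (by rw [G1_apply]; simp [z0])
      have hv0 : v ≠ 0 := by
        rintro rfl
        have := congrFun hv1 0
        simp [tv] at this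
      have hp := hq_pos hh hv0
      rw [← hDd] at hv2
      have hp2 := mul_pos hp hD
      rw [G2_apply, hG1x, hqQ, ← h] at hv2
      simp [B, z0] at hv2
      linarith
  obtain ⟨R, hRd⟩ : ∃ R, R = √Q := ⟨_, rfl⟩
  have hRpos : 0 < R := by rw [hRd]; exact Real.sqrt_pos.2 hQpos
  have hR2 : R ^ 2 = Q := by rw [hRd]; exact Real.sq_sqrt hQ0
  obtain ⟨s, hsd⟩ : ∃ s, s = √S := ⟨_, rfl⟩
  have hspos : 0 < s := by rw [hsd]; exact Real.sqrt_pos.2 hS0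
  have hs2 : s ^ 2 = S := by rw [hsd]; exact Real.sq_sqrt hS0.le
  have hx22 : x 4 ^ 2 - x 2 ^ 2 = s ^ 2 := by rw [hs2, hS]
  have hx01 : x 0 ^ 2 + x 1 ^ 2 = R ^ 2 := by rw [hR2, hQ]
  have hsne : s ≠ 0 := hspos.ne'
  have hRne : R ≠ 0 := hRpos.ne'
  have h3ne : x 3 ≠ 0 := h3.ne'
  -- the third vector
  obtain ⟨σ, hσ⟩ : ∃ σ, σ = c8 / 2 * R ^ 7 / s := ⟨_, rfl⟩
  obtain ⟨α, hα⟩ : ∃ α, α = (R - σ * s) / x 3 := ⟨_, rfl⟩
  have hσs : σ * s = c8 / 2 * R ^ 7 := by rw [hσ]; field_simp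
  have hαx : x 3 * α = R - σ * s := by rw [hα]; field_simp
  have hc8 : c8 = 8 / 10 ^ 8 := rfl
  have hσ2 : σ ^ 2 ≤ 1 / 1000 := by
    have e1 : σ ^ 2 * S = c8 ^ 2 / 4 * Q ^ 7 := by
      calc σ ^ 2 * S = (σ * s) ^ 2 := by rw [← hs2]; ring
        _ = c8 ^ 2 / 4 * (R ^ 2) ^ 7 := by rw [hσs]; ring
        _ = _ := by rw [hR2]
    have e2 : c8 ^ 2 / 4 * Q ^ 7 = (16 / 10 ^ 8 * Q ^ 3) * (1 / 10 ^ 8 * Q ^ 4) := by
      rw [hc8]; ring
    have e3 : (16 / 10 ^ 8 * Q ^ 3) * (1 / 10 ^ 8 * Q ^ 4) ≤ 1 / 1000 * S := by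
      apply mul_le_mul _ _ (by positivity) (by norm_num)
      · linarith
      · linarith
    rw [← e2, ← e1] at e3
    exact le_of_mul_le_mul_right e3 hS0
  have hα2 : α ^ 2 ≤ 2 / 100 := by
    have e0 : 0 ≤ σ * s := by rw [hσs, hc8]; positivity
    have e1 : σ * s ≤ R := by
      rw [hσs, hc8]
      have : R ^ 7 = R * Q ^ 3 := by rw [← hR2]; ring
      rw [this]
      have : R * Q ^ 3 ≤ R * (1 / 10 ^ 6) := by gcongr
      linarith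
    have e2 : (x 3 * α) ^ 2 ≤ Q := by
      rw [hαx, ← hR2]
      apply pow_le_pow_left₀ <;> linarith
    have e3 : (x 3 * α) ^ 2 = (1 + Q - S) * α ^ 2 := by rw [mul_pow, hx3]
    rw [e3] at e2
    have e4 : (99 / 100) * α ^ 2 ≤ (1 + Q - S) * α ^ 2 := by
      apply mul_le_mul_of_nonneg_right _ (sq_nonneg α)
      linarith
    linarith
  obtain ⟨T, hT⟩ : ∃ T, T = 1 - σ ^ 2 - α ^ 2 := ⟨_, rfl⟩
  have hT1 : 97 / 100 ≤ T := by rw [hT]; linarith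
  obtain ⟨ρ, hρ⟩ : ∃ ρ, ρ = (√T)⁻¹ := ⟨_, rfl⟩
  have hρ2 : ρ ^ 2 * T = 1 := by
    rw [hρ, inv_pow, Real.sq_sqrt (by linarith)]
    exact inv_mul_cancel₀ (by linarith)
  have hρ3 : ρ ^ 2 ≤ 104 / 100 := by
    have := sq_nonneg ρ
    nlinarith
  -- the orthonormal basis
  obtain ⟨Y1, hY1⟩ : ∃ Y : V, Y = ![0, 0, x 4 / s, 0, x 2 / s] := ⟨_, rfl⟩
  obtain ⟨Y2, hY2⟩ : ∃ Y : V, Y = ![- x 1 / R, x 0 / R, 0, 0, 0] := ⟨_, rfl⟩
  obtain ⟨Y3, hY3⟩ : ∃ Y : V, Y = ![ρ * (x 0 / R), ρ * (x 1 / R), ρ * (σ * (x 2 / s)), ρ * α,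
    ρ * (σ * (x 4 / s))] := ⟨_, rfl⟩
  obtain ⟨v1, t1, i1⟩ := H Y1 (by rw [hY1]; simp [B]; ring) (by
    rw [G1_apply, hY1]; simp; ring)
  obtain ⟨v2, t2, i2⟩ := H Y2 (by rw [hY2]; simp [B]; ring) (by
    rw [G1_apply, hY2]; simp; ring)
  obtain ⟨v3, t3, i3⟩ := H Y3 (by
    rw [hY3]; simp [B]
    have : x 0 * (ρ * (x 0 / R)) + x 1 * (ρ * (x 1 / R)) + x 2 * (ρ * (σ * (x 2 / s)))
        - x 3 * (ρ * α) - x 4 * (ρ * (σ * (x 4 / s))) =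
        ρ * ((x 0 ^ 2 + x 1 ^ 2) / R - σ * ((x 4 ^ 2 - x 2 ^ 2) / s) - x 3 * α) := by ring
    rw [this, hx22, hx01, hαx]
    field_simp
    ring) (by
    rw [G1_apply, hY3, hqQ]; simp
    have : c8 * Q ^ 3 * x 0 * (ρ * (x 0 / R)) + c8 * Q ^ 3 * x 1 * (ρ * (x 1 / R))
        + 2 * x 2 * (ρ * (σ * (x 2 / s))) - 2 * x 4 * (ρ * (σ * (x 4 / s))) =
        ρ * (c8 * Q ^ 3 * ((x 0 ^ 2 + x 1 ^ 2) / R) - 2 * σ * ((x 4 ^ 2 - x 2 ^ 2) / s)) := by ring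
    rw [this, hx22, hx01]
    have e1 : R ^ 2 / R = R := by field_simp
    have e2 : s ^ 2 / s = s := by field_simp
    rw [e1, e2, mul_assoc 2 σ s, hσs, ← hR2]
    ring)
  have b11 : B Y1 Y1 = 1 := by
    rw [hY1]; simp [B]
    have : x 4 / s * (x 4 / s) - x 2 / s * (x 2 / s) = (x 4 ^ 2 - x 2 ^ 2) / s ^ 2 := by ring
    rw [this, hx22]; field_simp
  have b22 : B Y2 Y2 = 1 := by
    rw [hY2]; simp [B]
    have : - x 1 / R * (- x 1 / R) + x 0 / R * (x 0 / R) = (x 0 ^ 2 + x 1 ^ 2) / R ^ 2 := by ring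
    rw [this, hx01]; field_simp
  have b33 : B Y3 Y3 = 1 := by
    rw [hY3]; simp [B]
    have : ρ * (x 0 / R) * (ρ * (x 0 / R)) + ρ * (x 1 / R) * (ρ * (x 1 / R)) +
        ρ * (σ * (x 2 / s)) * (ρ * (σ * (x 2 / s))) - ρ * α * (ρ * α) -
        ρ * (σ * (x 4 / s)) * (ρ * (σ * (x 4 / s))) =
        ρ ^ 2 * ((x 0 ^ 2 + x 1 ^ 2) / R ^ 2 - σ ^ 2 * ((x 4 ^ 2 - x 2 ^ 2) / s ^ 2) - α ^ 2) := by
      ring
    rw [this, hx22, hx01]
    have e1 : R ^ 2 / R ^ 2 = 1 := by field_simp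
    have e2 : s ^ 2 / s ^ 2 = 1 := by field_simp
    rw [e1, e2, mul_one, ← hT, hρ2]
  have b12 : B Y1 Y2 = 0 := by rw [hY1, hY2]; simp [B]
  have b13 : B Y1 Y3 = 0 := by rw [hY1, hY3]; simp [B]; ring
  have b23 : B Y2 Y3 = 0 := by rw [hY2, hY3]; simp [B]; ring
  -- the second derivatives
  have g1 : G2 x Y1 Y1 = 2 := by
    rw [G2_apply, hY1, hqQ]; simp
    have : (x 4 / s) ^ 2 - (x 2 / s) ^ 2 = (x 4 ^ 2 - x 2 ^ 2) / s ^ 2 := by ring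
    rw [this, hx22]; field_simp
  have g2 : G2 x Y2 Y2 = c8 * Q ^ 3 := by
    rw [G2_apply, hY2, hqQ]; simp
    have e1 : x 0 * (- x 1 / R) + x 1 * (x 0 / R) = 0 := by ring
    rw [e1]
    have e2 : (- x 1 / R) ^ 2 + (x 0 / R) ^ 2 = (x 0 ^ 2 + x 1 ^ 2) / R ^ 2 := by ring
    rw [e2, hx01]; field_simp; ring
  have g3 : G2 x Y3 Y3 = 7 * c8 * Q ^ 3 * ρ ^ 2 - 2 * σ ^ 2 * ρ ^ 2 := by
    rw [G2_apply, hY3, hqQ]; simp
    have e1 : x 0 * (ρ * (x 0 / R)) + x 1 * (ρ * (x 1 / R)) = ρ * ((x 0 ^ 2 + x 1 ^ 2) / R) := by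
      ring
    have e2 : (ρ * (x 0 / R)) ^ 2 + (ρ * (x 1 / R)) ^ 2 = ρ ^ 2 * ((x 0 ^ 2 + x 1 ^ 2) / R ^ 2) := by
      ring
    have e3 : (ρ * (σ * (x 2 / s))) ^ 2 - (ρ * (σ * (x 4 / s))) ^ 2 =
        - (ρ ^ 2 * σ ^ 2 * ((x 4 ^ 2 - x 2 ^ 2) / s ^ 2)) := by ring
    rw [e1, e2, e3, hx22, hx01]
    have f1 : R ^ 2 / R ^ 2 = 1 := by field_simp
    have f2 : s ^ 2 / s ^ 2 = 1 := by field_simp
    have f3 : R ^ 2 / R = R := by field_simp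
    rw [f1, f2, f3, mul_pow, hR2]; ring
  rw [← hDd, g1, b11, hG1x] at i1
  rw [← hDd, g2, b22, hG1x] at i2
  rw [← hDd, g3, b33, hG1x] at i3
  have hv0 : ∀ (v : R3) (Y : V), Y = tv (graphMap θ) u v → B Y Y = 1 → v ≠ 0 := by
    rintro v Y h1 h2 rfl
    rw [h1] at h2
    simp [tv] at h2
  have hdet := det_le hg hh ![v1, v2, v3] (by
    intro a b
    rw [← B_tv]
    fin_cases a <;> fin_cases b <;> simp [← t1, ← t2, ← t3, b11, b22, b33, b12, b13, b23,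
      B_comm Y2 Y1, B_comm Y3 Y1, B_comm Y3 Y2])
  refine lt_of_le_of_lt hdet ?_
  have p1 := hq_pos hh (hv0 v1 Y1 t1 b11)
  have p2 := hq_pos hh (hv0 v2 Y2 t2 b22)
  have p3 := hq_pos hh (hv0 v3 Y3 t3 b33)
  refine final_ineq hD hQpos hspos (by rw [hs2]; exact hDS) (by rw [hs2]; linarith) p1 p2 p3 i1 i2
    i3 ?_ ?_ ?_
  · rw [hc8]; linarith
  · rw [hc8]; linarith
  · rw [hc8]
    have e1 : 0 ≤ σ ^ 2 * ρ ^ 2 := by positivity
    have e2 : Q ^ 3 * ρ ^ 2 ≤ Q ^ 3 * (104 / 100) := by gcongr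
    linarith

end Pool.Agent.H93.KT
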