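import Pool.Agent.H93.KT.Act

set_option autoImplicit false

/-! # The objects: chamber, singular cells, the domain `Ω` (definitions + elementary lemmas, no sorry) -/

namespace Pool.Agent.H93.KT

open Filter Topology

/-- Dual basis: `X i (Vd j) = δ i j`; `Vd 0, Vd 1` future vertices, `Vd 2, Vd 3, Vd 4` past vertices. -/
noncomputable def Vd (i : Fin 5) : V :=
  ![![0, 0, -1, -(√6 / 3), √2], ![0, 0, 0, -(√6 / 6), √2 / 2], ![0, 0, 0, √6 / 3, 0],
    ![-1 / 2, -(√3 / 2), 0, 2 * √6 / 3, 0], ![0, -(√3 / 3), 0, √6 / 3, 0]] i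

/-- The fundamental chamber (a closed simplicial cone). -/
def Ch : Set V := {x | ∀ i, 0 ≤ X i x}

/-- The cone of nonnegative combinations of simple roots. -/
def PosCone : Set V := {y | ∀ i, 0 ≤ rt y i}

/-- Past singular cell of the chamber (a triangle). -/
def Qm : Set V := {x | x ∈ Ch ∧ x ∈ AdS ∧ X 0 x = 0 ∧ X 1 x = 0}

/-- Future singular cell of the chamber (a segment). -/
def Qp : Set V := {x | x ∈ Ch ∧ x ∈ AdS ∧ X 2 x = 0 ∧ X 3 x = 0 ∧ X 4 x = 0}

/-- The null vector `λ₊`. -/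
def lamp : V := ![0, 0, -1, 0, 1]

/-- The null vector `λ₋`. -/
def lamm : V := ![0, 0, 1, 0, 1]

/-- The closed cone dual to the orbit of `λ₊`. -/
def Cbar : Set V := {z | ∀ w : W, B z (act w lamp) ≤ 0}

/-- The open cone dual to the orbit of `λ₊`. -/
def Cop : Set V := {x | ∃ ε : ℝ, 0 < ε ∧ ∀ w : W, B x (act w lamp) ≤ - ε * ‖act w lamp‖}

/-- The domain `Ω`. -/
def Omg : Set V := Cop ∩ AdS

/-- A size for elements of `W`. -/
noncomputable def nrm (w : W) : ℝ := ∑ i, ‖act w (al i)‖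

/-- The vector `ρ₀ = 10α₀+12α₁+11α₂+10α₃+4α₄`. -/
noncomputable def rho0 : V := cmb ![10, 12, 11, 10, 4]

/-- Sup over the orbit of a cell `Q`. -/
noncomputable def hf (Q : Set V) (x : V) : ℝ := sSup {r | ∃ (w : W) (p : V), p ∈ Q ∧ r = B x (act w p)}

/-- The past and future parts of a vector. -/
noncomputable def pst (x : V) : V := X 2 x • Vd 2 + X 3 x • Vd 3 + X 4 x • Vd 4
noncomputable def fut (x : V) : V := X 0 x • Vd 0 + X 1 x • Vd 1

lemma X_add (i : Fin 5) (x y : V) : X i (x + y) = X i x + X i y := by unfold X; simp; ring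
lemma X_sub (i : Fin 5) (x y : V) : X i (x - y) = X i x - X i y := by unfold X; simp; ring
lemma X_smul (i : Fin 5) (a : ℝ) (x : V) : X i (a • x) = a * X i x := by unfold X; simp
lemma X_zero (i : Fin 5) : X i 0 = 0 := by unfold X; simp

@[fun_prop] lemma continuous_X (i : Fin 5) : Continuous (X i) := by unfold X; fun_prop

lemma X_Vd (i j : Fin 5) : X i (Vd j) = if i = j then 1 else 0 := by
  have h2 := sq2
  have h3 := sq3
  have h6 := sq6
  fin_cases i <;> fin_cases j <;> simp [X, B, al, Vd] <;> nlinarith [h2, h3, h6]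

lemma B_Vd (i j : Fin 5) : B (Vd i) (Vd j) = (Gi i j : ℝ) / 6 := by
  have h2 := sq2
  have h3 := sq3
  have h6 := sq6
  fin_cases i <;> fin_cases j <;> simp [B, Vd, Gi] <;> nlinarith [h2, h3, h6]

lemma expand (x : V) : x = X 0 x • Vd 0 + X 1 x • Vd 1 + X 2 x • Vd 2 + X 3 x • Vd 3 + X 4 x • Vd 4 := by
  rw [← sub_eq_zero]
  apply eq_zero_of_X
  intro i
  rw [X_sub, X_add, X_add, X_add, X_add, X_smul, X_smul, X_smul, X_smul, X_smul, X_Vd, X_Vd, X_Vd,
    X_Vd, X_Vd]
  fin_cases i <;> simp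

lemma pst_add_fut (x : V) : pst x + fut x = x := by
  conv_rhs => rw [expand x]
  unfold pst fut; module

lemma B_eq_neg_sum (x y : V) : B x y = - ∑ i, rt y i * X i x := by
  conv_lhs => rw [← cmb_rt y]
  exact B_cmb x _

lemma isClosed_Ch : IsClosed Ch := by
  have : Ch = ⋂ i, {x | 0 ≤ X i x} := by ext x; simp [Ch]
  rw [this]
  exact isClosed_iInter fun i => isClosed_le continuous_const (continuous_X i)

lemma act_simple0_lamp : act (cs.simple 0) lamp = lamm := by
  rw [act_simple]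
  ext i
  fin_cases i <;> simp [lamp, lamm, al, X, B, Gr] <;> norm_num

lemma act_simple0_lamm : act (cs.simple 0) lamm = lamp := by
  rw [act_simple]
  ext i
  fin_cases i <;> simp [lamp, lamm, al, X, B, Gr] <;> norm_num

lemma act_simple1_lamp : act (cs.simple 1) lamp = (3 - 2 * √2) • lamm := by
  have h2 := sq2
  rw [act_simple]
  ext i
  fin_cases i <;> simp [lamp, lamm, al, X, B, Gr] <;> nlinarith [h2]

lemma act_simple1_lamm : act (cs.simple 1) lamm = (3 + 2 * √2) • lamp := by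
  have h2 := sq2
  rw [act_simple]
  ext i
  fin_cases i <;> simp [lamp, lamm, al, X, B, Gr] <;> nlinarith [h2]

/-- The hyperbolic translation `g = s₀ s₁` along the line spanned by `λ₊, λ₋`. -/
def gg : W := cs.simple 0 * cs.simple 1

lemma gg_lamp : act gg lamp = (3 - 2 * √2) • lamp := by
  unfold gg; rw [act_mul, act_simple1_lamp, map_smul, act_simple0_lamm]

lemma gg_lamm : act gg lamm = (3 + 2 * √2) • lamm := by
  unfold gg; rw [act_mul, act_simple1_lamm, map_smul, act_simple0_lamp]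

/-- `g` fixes the vectors with `x 2 = x 4 = 0`. -/
lemma gg_fix {x : V} (h2 : x 2 = 0) (h4 : x 4 = 0) : act gg x = x := by
  have h1 : act (cs.simple 1) x = x := by
    rw [act_simple]
    have : X 1 x = 0 := by simp [X, B, al, h2, h4]
    rw [this]; simp
  have h0 : act (cs.simple 0) x = x := by
    rw [act_simple]
    have : X 0 x = 0 := by simp [X, B, al, h2]
    rw [this]; simp
  unfold gg; rw [act_mul, h1, h0]

/-- Points of the hyperbola `ℓ`. -/
noncomputable def yl (s : ℝ) : V := ![0, 0, Real.sinh s, 0, Real.cosh s]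

lemma yl_eq (s : ℝ) : yl s = (Real.exp (-s) / 2) • lamp + (Real.exp s / 2) • lamm := by
  ext i
  fin_cases i <;> simp [yl, lamp, lamm, Real.sinh_eq, Real.cosh_eq] <;> ring

/-- Points `p(ξ)` of the totally geodesic plane `x₃ = x₅ = 0`. -/
noncomputable def pp (a b : ℝ) : V := ![a, b, 0, √(1 + a ^ 2 + b ^ 2), 0]

/-- The vertical geodesics `c(ξ,s,τ) = cos τ p(ξ) + sin τ y(s)`. -/
noncomputable def cc (a b s τ : ℝ) : V := Real.cos τ • pp a b + Real.sin τ • yl s

/-- The parameter set: a small disc around `0` and the segment to the vertex `v = pp 0 (-1)`. -/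
def Xi : Set (ℝ × ℝ) := {q | q.1 ^ 2 + q.2 ^ 2 ≤ 1 / 100 ∨ (q.1 = 0 ∧ -1 ≤ q.2 ∧ q.2 ≤ 0)}

end Pool.Agent.H93.KT
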