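import Pool.Agent.H93.KT.Curv

set_option autoImplicit false

/-! MODULE Posi.  (G3): definiteness propagates along a connected hypersurface of non zero K-curvature.
`KData L x θ ν κ`: the data in `HasKCurv`.  Let `U = {x ∈ L | for some (equivalently all) data, hMat is PosDef}`.
Two graph functions `θ, θ'` representing `L` near `x` satisfy `graphMap θ = graphMap θ'` near `pr x` (so `d1`, `d2`,
`gMat`, `hMat` agree at all points near `pr x`), and the normal `ν` is unique (it is `B`-orthogonal to `x, T 0, T 1, T 2`,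
`B ν ν = -1`, `om x ν > 0`).  If `θ` is data at `x`, it is data at all points `z ∈ L` near `x`, with `pr z` in place of
`pr x` (`ContDiffAt ℝ 2` is an open condition; the third condition of `HasKCurv` is open).  The normal `ν z` is a
positive multiple of the explicit vector `Posi_n`, which depends continuously on `z`; so `hMat` at `z` is a positive
multiple of a matrix `Posi_H` that is continuous at `pr x`.
Open: `PosDef` is an open condition on symmetric matrices.  Closed in `L`: a limit of `PosDef` is `PosSemidef`, and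
`det hMat = -κ det gMat ≠ 0`, so `PosDef`. -/

namespace Pool.Agent.H93.KT

open Filter Topology

/-- the data of `HasKCurv` -/
def KData (L : Set V) (x : V) (κ : ℝ) (θ : R3 → ℝ) (ν : V) : Prop :=
  ContDiffAt ℝ 2 θ (pr x) ∧ x = graphMap θ (pr x) ∧ (∀ᶠ z in 𝓝 x, z ∈ L ↔ z = graphMap θ (pr z)) ∧
    (gMat (graphMap θ) (pr x)).PosDef ∧ IsNormal (graphMap θ) (pr x) ν ∧
      κ = - ((hMat (graphMap θ) (pr x) ν).det / (gMat (graphMap θ) (pr x)).det)

/-! ### Matrices -/

/-- the quadratic form of a matrix -/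
def Posi_q (M : Matrix (Fin 3) (Fin 3) ℝ) (v : R3) : ℝ := ∑ i, ∑ j, v i * v j * M i j

theorem Posi_q_eq (M : Matrix (Fin 3) (Fin 3) ℝ) (v : R3) :
    star v ⬝ᵥ M.mulVec v = Posi_q M v := by
  simp only [dotProduct, Matrix.mulVec, Pi.star_apply, star_trivial, Posi_q]
  refine Finset.sum_congr rfl fun i _ => ?_
  rw [Finset.mul_sum]
  exact Finset.sum_congr rfl fun j _ => by ring

theorem Posi_isHermitian {M : Matrix (Fin 3) (Fin 3) ℝ} (h : M.IsSymm) : M.IsHermitian := by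
  rw [Matrix.IsHermitian, Matrix.conjTranspose_eq_transpose_of_trivial]
  exact h

theorem Posi_posDef {M : Matrix (Fin 3) (Fin 3) ℝ} (h : M.IsSymm)
    (hq : ∀ v : R3, v ≠ 0 → 0 < Posi_q M v) : M.PosDef :=
  Matrix.PosDef.of_dotProduct_mulVec_pos (Posi_isHermitian h) fun v hv => by
    rw [Posi_q_eq]; exact hq v hv

theorem Posi_q_pos {M : Matrix (Fin 3) (Fin 3) ℝ} (h : M.PosDef) {v : R3} (hv : v ≠ 0) :
    0 < Posi_q M v := by
  rw [← Posi_q_eq]; exact h.dotProduct_mulVec_pos hv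

theorem Posi_q_smul (M : Matrix (Fin 3) (Fin 3) ℝ) (a : ℝ) (v : R3) :
    Posi_q M (a • v) = a ^ 2 * Posi_q M v := by
  simp only [Posi_q, Pi.smul_apply, smul_eq_mul, Finset.mul_sum]
  exact Finset.sum_congr rfl fun i _ => Finset.sum_congr rfl fun j _ => by ring

/-- a positive definite matrix is bounded below -/
theorem Posi_lower {M : Matrix (Fin 3) (Fin 3) ℝ} (h : M.PosDef) :
    ∃ m : ℝ, 0 < m ∧ ∀ v : R3, m * ‖v‖ ^ 2 ≤ Posi_q M v := by
  have hc : Continuous (Posi_q M) := by unfold Posi_q; fun_prop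
  have hcomp : IsCompact (Metric.sphere (0 : R3) 1) := isCompact_sphere 0 1
  have hne : (Metric.sphere (0 : R3) 1).Nonempty := NormedSpace.sphere_nonempty.2 zero_le_one
  obtain ⟨w, hw, hmin⟩ := hcomp.exists_isMinOn hne hc.continuousOn
  have hw1 : ‖w‖ = 1 := by simpa using hw
  have hw0 : w ≠ 0 := by
    intro h0
    rw [h0, norm_zero] at hw1
    exact zero_ne_one hw1
  refine ⟨Posi_q M w, Posi_q_pos h hw0, fun v => ?_⟩
  by_cases hv : v = 0
  · simp [hv, Posi_q]
  · have hn : 0 < ‖v‖ := norm_pos_iff.2 hv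
    have h1 : v = ‖v‖ • (‖v‖⁻¹ • v) := by
      rw [smul_smul, mul_inv_cancel₀ hn.ne', one_smul]
    have h2 : ‖v‖⁻¹ • v ∈ Metric.sphere (0 : R3) 1 := by
      rw [mem_sphere_zero_iff_norm, norm_smul, norm_inv, norm_norm, inv_mul_cancel₀ hn.ne']
    have h3 : Posi_q M w ≤ Posi_q M (‖v‖⁻¹ • v) := hmin h2
    calc Posi_q M w * ‖v‖ ^ 2 ≤ Posi_q M (‖v‖⁻¹ • v) * ‖v‖ ^ 2 := by gcongr
      _ = Posi_q M (‖v‖ • (‖v‖⁻¹ • v)) := by rw [Posi_q_smul M ‖v‖]; ring
      _ = Posi_q M v := by rw [← h1]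

/-- positive definiteness is an open condition -/
theorem Posi_eventually {α : Type*} {l : Filter α} {M : α → Matrix (Fin 3) (Fin 3) ℝ}
    {M0 : Matrix (Fin 3) (Fin 3) ℝ} (hM : ∀ i j, Tendsto (fun a => M a i j) l (𝓝 (M0 i j)))
    (h0 : M0.PosDef) (hs : ∀ᶠ a in l, (M a).IsSymm) : ∀ᶠ a in l, (M a).PosDef := by
  obtain ⟨m, hm, hlow⟩ := Posi_lower h0
  have h1 : ∀ᶠ a in l, ∀ i j, |M a i j - M0 i j| < m / 10 := by
    rw [eventually_all]
    intro i
    rw [eventually_all]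
    intro j
    have h2 : Tendsto (fun a => |M a i j - M0 i j|) l (𝓝 |M0 i j - M0 i j|) :=
      ((hM i j).sub_const _).abs
    rw [sub_self, abs_zero] at h2
    exact h2.eventually (gt_mem_nhds (by positivity))
  filter_upwards [h1, hs] with a ha has
  refine Posi_posDef has fun v hv => ?_
  have hn : 0 < ‖v‖ := norm_pos_iff.2 hv
  have h3 : |Posi_q (M a) v - Posi_q M0 v| ≤ 9 * (m / 10 * ‖v‖ ^ 2) := by
    have e : Posi_q (M a) v - Posi_q M0 v = ∑ i, ∑ j, v i * v j * (M a i j - M0 i j) := by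
      simp only [Posi_q, ← Finset.sum_sub_distrib]
      exact Finset.sum_congr rfl fun i _ => Finset.sum_congr rfl fun j _ => by ring
    have hb : ∀ i j, |v i * v j * (M a i j - M0 i j)| ≤ m / 10 * ‖v‖ ^ 2 := by
      intro i j
      rw [abs_mul, abs_mul]
      have b1 : |v i| ≤ ‖v‖ := by simpa using norm_le_pi_norm v i
      have b2 : |v j| ≤ ‖v‖ := by simpa using norm_le_pi_norm v j
      calc |v i| * |v j| * |M a i j - M0 i j| ≤ ‖v‖ * ‖v‖ * (m / 10) := by
            gcongr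
            exact (ha i j).le
        _ = m / 10 * ‖v‖ ^ 2 := by ring
    rw [e]
    calc |∑ i, ∑ j, v i * v j * (M a i j - M0 i j)|
        ≤ ∑ i, |∑ j, v i * v j * (M a i j - M0 i j)| := Finset.abs_sum_le_sum_abs _ _
      _ ≤ ∑ i : Fin 3, ∑ j : Fin 3, |v i * v j * (M a i j - M0 i j)| :=
          Finset.sum_le_sum fun i _ => Finset.abs_sum_le_sum_abs _ _
      _ ≤ ∑ i : Fin 3, ∑ j : Fin 3, m / 10 * ‖v‖ ^ 2 :=
          Finset.sum_le_sum fun i _ => Finset.sum_le_sum fun j _ => hb i j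
      _ = 9 * (m / 10 * ‖v‖ ^ 2) := by simp; ring
  have h4 := hlow v
  have h5 := (abs_le.1 h3).1
  have h6 : 0 < m * ‖v‖ ^ 2 := by positivity
  linarith

/-- near a symmetric matrix with non zero determinant positive definiteness does not change -/
theorem Posi_eventually_iff {α : Type*} {l : Filter α} {M : α → Matrix (Fin 3) (Fin 3) ℝ}
    {M0 : Matrix (Fin 3) (Fin 3) ℝ} (hM : ∀ i j, Tendsto (fun a => M a i j) l (𝓝 (M0 i j)))
    (h0 : M0.IsSymm) (hdet : M0.det ≠ 0) (hs : ∀ᶠ a in l, (M a).IsSymm) :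
    ∀ᶠ a in l, ((M a).PosDef ↔ M0.PosDef) := by
  by_cases hpd : M0.PosDef
  · filter_upwards [Posi_eventually hM hpd hs] with a ha
    exact ⟨fun _ => hpd, fun _ => ha⟩
  · have h1 : ∃ v : R3, Posi_q M0 v < 0 := by
      by_contra hcon
      push Not at hcon
      have hps : M0.PosSemidef :=
        Matrix.PosSemidef.of_dotProduct_mulVec_nonneg (Posi_isHermitian h0) fun v => by
          rw [Posi_q_eq]; exact hcon v
      exact hpd (hps.posDef_iff_det_ne_zero.2 hdet)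
    obtain ⟨v, hv⟩ := h1
    have h2 : Tendsto (fun a => Posi_q (M a) v) l (𝓝 (Posi_q M0 v)) := by
      unfold Posi_q
      exact tendsto_finsetSum _ fun i _ => tendsto_finsetSum _ fun j _ =>
        (hM i j).const_mul _
    filter_upwards [h2.eventually (gt_mem_nhds hv)] with a ha
    refine ⟨fun hpa => ?_, fun h => absurd h hpd⟩
    have hv0 : v ≠ 0 := by
      intro h0
      rw [h0] at hv
      simp [Posi_q] at hv
    exact absurd (Posi_q_pos hpa hv0) (not_lt.2 ha.le)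

/-! ### The hypersurface -/

theorem continuous_pr : Continuous pr := by
  unfold pr
  refine continuous_pi fun i => ?_
  fin_cases i <;> simp <;> fun_prop

/-- two graph functions representing the same hypersurface agree -/
theorem Posi_graph_eq {L : Set V} {x : V} {θ θ' : R3 → ℝ}
    (hc : ContinuousAt (graphMap θ) (pr x)) (hx : x = graphMap θ (pr x))
    (h : ∀ᶠ z in 𝓝 x, z ∈ L ↔ z = graphMap θ (pr z))
    (h' : ∀ᶠ z in 𝓝 x, z ∈ L ↔ z = graphMap θ' (pr z)) :
    graphMap θ =ᶠ[𝓝 (pr x)] graphMap θ' := by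
  have ht : Tendsto (graphMap θ) (𝓝 (pr x)) (𝓝 x) := by
    have : Tendsto (graphMap θ) (𝓝 (pr x)) (𝓝 (graphMap θ (pr x))) := hc
    rwa [← hx] at this
  filter_upwards [ht.eventually h, ht.eventually h'] with w h1 h2
  rw [pr_graphMap] at h1 h2
  exact h2.1 (h1.2 rfl)

theorem Posi_gMat_eq {φ φ' : R3 → V} {u : R3} (h : φ =ᶠ[𝓝 u] φ') : gMat φ u = gMat φ' u := by
  have h1 : fderiv ℝ φ u = fderiv ℝ φ' u := h.fderiv_eq
  simp only [gMat, d1, h1]

theorem Posi_hMat_eq {φ φ' : R3 → V} {u : R3} (h : φ =ᶠ[𝓝 u] φ') (ν : V) :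
    hMat φ u ν = hMat φ' u ν := by
  have h1 : ∀ i, d1 φ i =ᶠ[𝓝 u] d1 φ' i := by
    intro i
    filter_upwards [h.fderiv (𝕜 := ℝ)] with w hw
    simp only [d1, hw]
  have h2 : ∀ i, fderiv ℝ (d1 φ i) u = fderiv ℝ (d1 φ' i) u := fun i => (h1 i).fderiv_eq
  simp only [hMat, d2, h2]

theorem Posi_normal_eq {φ φ' : R3 → V} {u : R3} (h : φ =ᶠ[𝓝 u] φ') {ν : V}
    (hν : IsNormal φ' u ν) : IsNormal φ u ν := by
  have h1 : fderiv ℝ φ u = fderiv ℝ φ' u := h.fderiv_eq
  have h2 : φ u = φ' u := h.eq_of_nhds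
  obtain ⟨a, b, c, d⟩ := hν
  refine ⟨a, by rw [h2]; exact b, fun i => ?_, by rw [h2]; exact d⟩
  have := c i
  simp only [d1] at this ⊢
  rw [h1]
  exact this

/-- a future vector orthogonal to the hypersurface is a positive multiple of the normal -/
theorem Posi_normal_dir {θ : R3 → ℝ} {u : R3} (hθ : ContDiffAt ℝ 2 θ u) {ν : V}
    (hν : IsNormal (graphMap θ) u ν) (hg : (gMat (graphMap θ) u).PosDef) {n : V}
    (h0 : B (graphMap θ u) n = 0) (h1 : ∀ i, B (d1 (graphMap θ) i u) n = 0)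
    (h2 : 0 < om (graphMap θ u) n) : ∃ a : ℝ, 0 < a ∧ n = a • ν := by
  have hz : n + B ν n • ν = 0 := by
    refine Curv_eq_zero hθ hν hg ?_ ?_ fun i => ?_
    · rw [B_add_right, B_smul_right, h0, hν.2.1]; ring
    · rw [B_add_right, B_smul_right, hν.1]; ring
    · rw [B_add_right, B_smul_right, h1, hν.2.2.1]; ring
  have hn : n = (- B ν n) • ν := by
    rw [neg_smul]
    exact eq_neg_of_add_eq_zero_left hz
  refine ⟨- B ν n, ?_, hn⟩
  rw [hn, om_smul_right] at h2
  by_contra hcon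
  push Not at hcon
  have := mul_nonneg (neg_nonneg.2 hcon) hν.2.2.2.le
  linarith

/-- the projection of `ν0` to the normal space, times the determinant of `gMat` -/
noncomputable def Posi_n (θ : R3 → ℝ) (ν0 : V) (u : R3) : V :=
  (gMat (graphMap θ) u).det • (ν0 + B (graphMap θ u) ν0 • graphMap θ u) -
    ∑ i, ∑ j, ((gMat (graphMap θ) u).adjugate i j * B (d1 (graphMap θ) i u) ν0) •
      d1 (graphMap θ) j u

theorem Posi_n_orth {θ : R3 → ℝ} {u : R3} (hθ : ContDiffAt ℝ 2 θ u) (ν0 : V) :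
    B (graphMap θ u) (Posi_n θ ν0 u) = 0 := by
  have hx : B (graphMap θ u) (graphMap θ u) = -1 := graphMap_AdS θ u
  unfold Posi_n
  rw [B_sub_right, B_smul_right, B_add_right, B_smul_right, hx, B_sum_right]
  have : ∀ i, B (graphMap θ u) (∑ j, ((gMat (graphMap θ) u).adjugate i j *
      B (d1 (graphMap θ) i u) ν0) • d1 (graphMap θ) j u) = 0 := by
    intro i
    rw [B_sum_right]
    exact Finset.sum_eq_zero fun j _ => by rw [B_smul_right, Curv_B_d1 hθ, mul_zero]
  simp only [this, Finset.sum_const_zero]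
  ring

theorem Posi_n_orth' {θ : R3 → ℝ} {u : R3} (hθ : ContDiffAt ℝ 2 θ u) (ν0 : V) (k : Fin 3) :
    B (d1 (graphMap θ) k u) (Posi_n θ ν0 u) = 0 := by
  have hgjk : ∀ j, B (d1 (graphMap θ) k u) (d1 (graphMap θ) j u) = gMat (graphMap θ) u j k := by
    intro j
    rw [B_comm]
    rfl
  have hx : B (d1 (graphMap θ) k u) (graphMap θ u) = 0 := by
    rw [B_comm]; exact Curv_B_d1 hθ k
  have hadj : ∀ i, ∑ j, (gMat (graphMap θ) u).adjugate i j * gMat (graphMap θ) u j k = if i = k then (gMat (graphMap θ) u).det else 0 := by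
    intro i
    have h := congrFun (congrFun (Matrix.adjugate_mul (gMat (graphMap θ) u)) i) k
    rw [Matrix.mul_apply] at h
    rw [h]
    simp [Matrix.smul_apply, Matrix.one_apply]
  unfold Posi_n
  rw [B_sub_right, B_smul_right, B_add_right, B_smul_right, hx, B_sum_right]
  have : ∀ i, B (d1 (graphMap θ) k u) (∑ j, ((gMat (graphMap θ) u).adjugate i j *
      B (d1 (graphMap θ) i u) ν0) • d1 (graphMap θ) j u) =
      if i = k then (gMat (graphMap θ) u).det * B (d1 (graphMap θ) i u) ν0 else 0 := by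
    intro i
    rw [B_sum_right]
    have h2 : ∀ j, B (d1 (graphMap θ) k u) (((gMat (graphMap θ) u).adjugate i j *
        B (d1 (graphMap θ) i u) ν0) • d1 (graphMap θ) j u) =
        ((gMat (graphMap θ) u).adjugate i j * gMat (graphMap θ) u j k) * B (d1 (graphMap θ) i u) ν0 := by
      intro j
      rw [B_smul_right, hgjk]; ring
    simp only [h2]
    rw [← Finset.sum_mul, hadj]
    split_ifs <;> simp
  simp only [this, Finset.sum_ite_eq', Finset.mem_univ, if_true]
  ring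

theorem Posi_n_at {θ : R3 → ℝ} {u : R3} {ν : V} (hν : IsNormal (graphMap θ) u ν) :
    Posi_n θ ν u = (gMat (graphMap θ) u).det • ν := by
  unfold Posi_n
  simp [hν.2.1, hν.2.2.1]

theorem Posi_hMat_smul (φ : R3 → V) (u : R3) (a : ℝ) (ν : V) :
    hMat φ u (a • ν) = a • hMat φ u ν := by
  ext i j
  simp [hMat]

theorem Posi_posDef_smul {M : Matrix (Fin 3) (Fin 3) ℝ} {a : ℝ} (ha : 0 < a) :
    (a • M).PosDef ↔ M.PosDef := by
  constructor
  · intro h
    have := h.smul (inv_pos.2 ha)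
    rwa [smul_smul, inv_mul_cancel₀ ha.ne', one_smul] at this
  · intro h
    exact h.smul ha

theorem Posi_cont {θ : R3 → ℝ} {u : R3} (hθ : ContDiffAt ℝ 2 θ u) :
    ContinuousAt (graphMap θ) u ∧ (∀ i, ContinuousAt (d1 (graphMap θ) i) u) ∧
      ∀ i j, ContinuousAt (d2 (graphMap θ) i j) u := by
  have h2 : ContDiffAt ℝ 2 (graphMap θ) u := Curv_contDiffAt hθ
  have h1 : ∀ i, ContDiffAt ℝ 1 (d1 (graphMap θ) i) u := by
    intro i
    have h : ContDiffAt ℝ 1 (fderiv ℝ (graphMap θ)) u := h2.fderiv_right (by norm_num)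
    exact h.clm_apply contDiffAt_const
  refine ⟨h2.continuousAt, fun i => (h1 i).continuousAt, fun i j => ?_⟩
  have h : ContDiffAt ℝ 0 (fderiv ℝ (d1 (graphMap θ) i)) u := (h1 i).fderiv_right (by norm_num)
  exact (h.clm_apply (contDiffAt_const (c := (Pi.single j 1 : R3)))).continuousAt

theorem Posi_cont_g {θ : R3 → ℝ} {u : R3} (hθ : ContDiffAt ℝ 2 θ u) :
    ContinuousAt (gMat (graphMap θ)) u := by
  obtain ⟨-, h1, -⟩ := Posi_cont hθ
  refine continuousAt_pi.2 fun i => continuousAt_pi.2 fun j => ?_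
  exact tendsto_B (h1 i) (h1 j)

theorem Posi_cont_n {θ : R3 → ℝ} {u : R3} (hθ : ContDiffAt ℝ 2 θ u) (ν0 : V) :
    ContinuousAt (Posi_n θ ν0) u := by
  obtain ⟨h0, h1, -⟩ := Posi_cont hθ
  have hg := Posi_cont_g hθ
  have hdet : ContinuousAt (fun w => (gMat (graphMap θ) w).det) u := by
    have : Continuous fun M : Matrix (Fin 3) (Fin 3) ℝ => M.det := by fun_prop
    exact this.continuousAt.comp hg
  have hadj : ∀ i j, ContinuousAt (fun w => (gMat (graphMap θ) w).adjugate i j) u := by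
    intro i j
    have : Continuous fun M : Matrix (Fin 3) (Fin 3) ℝ => M.adjugate i j := by fun_prop
    exact this.continuousAt.comp hg
  have hB0 : ContinuousAt (fun w => B (graphMap θ w) ν0) u := tendsto_B h0 tendsto_const_nhds
  have hB1 : ∀ i, ContinuousAt (fun w => B (d1 (graphMap θ) i w) ν0) u := fun i =>
    tendsto_B (h1 i) tendsto_const_nhds
  unfold Posi_n
  refine (hdet.smul (continuousAt_const.add (hB0.smul h0))).sub ?_
  refine tendsto_finsetSum _ fun i _ => tendsto_finsetSum _ fun j _ => ?_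
  exact ((hadj i j).mul (hB1 i)).smul (h1 j)

/-- the definiteness of all data near `x` is governed by one continuous family of matrices -/
theorem Posi_near {L : Set V} {κ : ℝ} {x : V} {θ : R3 → ℝ} {ν : V}
    (h : KData L x κ θ ν) :
    ∀ᶠ z in 𝓝 x, z ∈ L → ∀ θ' ν', KData L z κ θ' ν' →
      ((hMat (graphMap θ') (pr z) ν').PosDef ↔
        (hMat (graphMap θ) (pr z) (Posi_n θ ν (pr z))).PosDef) := by
  obtain ⟨hθ, hx, hL, hg, hν, -⟩ := h
  have hpr : Tendsto pr (𝓝 x) (𝓝 (pr x)) := continuous_pr.tendsto x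
  have e1 : ∀ᶠ z in 𝓝 x, ContDiffAt ℝ 2 θ (pr z) := hpr.eventually (hθ.eventually (by simp))
  have e2 : ∀ᶠ z in 𝓝 x, ∀ᶠ z' in 𝓝 z, z' ∈ L ↔ z' = graphMap θ (pr z') :=
    eventually_eventually_nhds.2 hL
  have e3 : ∀ᶠ z in 𝓝 x, 0 < om (graphMap θ (pr z)) (Posi_n θ ν (pr z)) := by
    have ht : Tendsto (fun w => om (graphMap θ w) (Posi_n θ ν w)) (𝓝 (pr x))
        (𝓝 (om (graphMap θ (pr x)) (Posi_n θ ν (pr x)))) :=
      tendsto_om (Posi_cont hθ).1 (Posi_cont_n hθ ν)
    have hpos : 0 < om (graphMap θ (pr x)) (Posi_n θ ν (pr x)) := by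
      rw [Posi_n_at hν, om_smul_right]
      exact mul_pos hg.det_pos hν.2.2.2
    exact hpr.eventually (ht.eventually (lt_mem_nhds hpos))
  filter_upwards [e1, e2, e3, hL] with z h1 h2 h3 h4 hz θ' ν' h'
  obtain ⟨hθ', hz', hL', hg', hν', -⟩ := h'
  have hzθ : z = graphMap θ (pr z) := h4.1 hz
  have heq : graphMap θ =ᶠ[𝓝 (pr z)] graphMap θ' :=
    Posi_graph_eq (Posi_cont h1).1 hzθ h2 hL'
  rw [← Posi_gMat_eq heq] at hg'
  have hν'' := Posi_normal_eq heq hν'
  obtain ⟨a, ha, hn⟩ := Posi_normal_dir h1 hν'' hg' (Posi_n_orth h1 ν) (Posi_n_orth' h1 ν) h3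
  rw [hn, Posi_hMat_smul, Posi_posDef_smul ha, Posi_hMat_eq heq]

theorem Posi_local {L : Set V} {κ : ℝ} (hκ : κ ≠ 0) {x : V} (hx : x ∈ L) {θ : R3 → ℝ} {ν : V}
    (h : KData L x κ θ ν) :
    ∀ᶠ z in 𝓝 x, z ∈ L → ∀ θ' ν', KData L z κ θ' ν' →
      ((hMat (graphMap θ') (pr z) ν').PosDef ↔ (hMat (graphMap θ) (pr x) ν).PosDef) := by
  have hnear := Posi_near h
  have hself := hnear.self_of_nhds hx θ ν h
  obtain ⟨hθ, hxθ, hL, hg, hν, hκd⟩ := h
  have hpr : Tendsto pr (𝓝 x) (𝓝 (pr x)) := continuous_pr.tendsto x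
  have hM : ∀ i j, Tendsto (fun w => hMat (graphMap θ) w (Posi_n θ ν w) i j) (𝓝 (pr x))
      (𝓝 (hMat (graphMap θ) (pr x) (Posi_n θ ν (pr x)) i j)) := by
    intro i j
    exact (tendsto_B ((Posi_cont hθ).2.2 i j) (Posi_cont_n hθ ν)).neg
  have hdet : (hMat (graphMap θ) (pr x) (Posi_n θ ν (pr x))).det ≠ 0 := by
    rw [Posi_n_at hν, Posi_hMat_smul, Matrix.det_smul]
    refine mul_ne_zero (pow_ne_zero _ hg.det_pos.ne') ?_
    intro h0
    rw [h0, zero_div, neg_zero] at hκd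
    exact hκ hκd
  have hs : ∀ᶠ w in 𝓝 (pr x), (hMat (graphMap θ) w (Posi_n θ ν w)).IsSymm := by
    filter_upwards [hθ.eventually (by simp)] with w hw
    exact hMat_symm hw _
  have hiff := Posi_eventually_iff hM (hMat_symm hθ _) hdet hs
  filter_upwards [hnear, hpr.eventually hiff] with z h1 h2 hz θ' ν' h'
  rw [h1 hz θ' ν' h', h2, hself]

theorem posdef_everywhere {L : Set V} (hconn : IsPreconnected L) {κ : ℝ} (hκ : κ ≠ 0)
    (hK : ∀ x ∈ L, HasKCurv L x κ) {x0 : V} (hx0 : x0 ∈ L) {θ0 : R3 → ℝ} {ν0 : V}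
    (h0 : KData L x0 κ θ0 ν0) (hp : (hMat (graphMap θ0) (pr x0) ν0).PosDef)
    {x : V} (hx : x ∈ L) {θ : R3 → ℝ} {ν : V} (h : KData L x κ θ ν) :
    (hMat (graphMap θ) (pr x) ν).PosDef := by
  have hdata : ∀ z ∈ L, ∃ θ ν, KData L z κ θ ν := by
    intro z hz
    obtain ⟨θ, a, b, c, d, ν, e, f⟩ := hK z hz
    exact ⟨θ, ν, a, b, c, d, e, f⟩
  set P : V → Prop := fun z => ∀ θ ν, KData L z κ θ ν → (hMat (graphMap θ) (pr z) ν).PosDef
    with hP
  have key : P x0 → P x := by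
    refine hconn.induction₂' (fun a b => P a → P b) (fun z hz => ?_)
      (fun a b c _ _ _ h1 h2 h3 => h2 (h1 h3)) hx0 hx
    obtain ⟨θz, νz, hzd⟩ := hdata z hz
    have hloc := Posi_local hκ hz hzd
    have hself := hloc.self_of_nhds hz
    filter_upwards [nhdsWithin_le_nhds hloc, self_mem_nhdsWithin] with y hy hyL
    refine ⟨fun hPz θ' ν' h' => (hy hyL θ' ν' h').2 (hPz θz νz hzd), fun hPy θ' ν' h' => ?_⟩
    obtain ⟨θy, νy, hyd⟩ := hdata y hyL
    exact (hself θ' ν' h').2 ((hy hyL θy νy hyd).1 (hPy θy νy hyd))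
  refine key (fun θ' ν' h' => ?_) θ ν h
  exact ((Posi_local hκ hx0 h0).self_of_nhds hx0 θ' ν' h').2 hp

end Pool.Agent.H93.KT
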