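import Pool.Agent.H93.KT.Mono
import Pool.Agent.H93.KT.Gam

set_option autoImplicit false

/-! MODULE SCauchy.  (H3), (H4): the Cauchy hypersurface `SS = {hf Qm = hf Qp}`. -/

namespace Pool.Agent.H93.KT

open Filter Topology

/-- the time function `(1 + hf Qm)/(1 + hf Qp)` of `Ω`, with values in `(0,∞)` -/
noncomputable def ff (x : V) : ℝ := (1 + hf Qm x) / (1 + hf Qp x)

/-- the Cauchy hypersurface -/
def SS : Set V := {x | x ∈ Omg ∧ hf Qm x = hf Qp x}

theorem ff_pos {x : V} (hx : x ∈ Omg) : 0 < ff x := by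
  unfold ff
  have h1 := (hf_Qm_bounds hx).1
  have h2 := (hf_Qp_bounds hx).1
  exact div_pos (by linarith) (by linarith)

theorem ff_act (w : W) (x : V) : ff (act w x) = ff x := by
  unfold ff; rw [hf_act, hf_act]

theorem ff_continuousOn : ContinuousOn ff Omg := by
  have h1 := (hf_continuousOn isCell_Qm).mono (Set.inter_subset_left : Omg ⊆ Cop)
  have h2 := (hf_continuousOn isCell_Qp).mono (Set.inter_subset_left : Omg ⊆ Cop)
  exact (continuousOn_const.add h1).div (continuousOn_const.add h2) (fun x hx => by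
    have := (hf_Qp_bounds hx).1
    intro h
    linarith)

theorem ff_mono {c : ℝ → V} {a b : ℝ} (hab : a < b) (hc : CausalSeg Omg c a b) :
    ff (c a) < ff (c b) := by
  have hA : c a ∈ Omg := (hc.2 a ⟨le_rfl, hab.le⟩).1
  have hB : c b ∈ Omg := (hc.2 b ⟨hab.le, le_rfl⟩).1
  have m1 := hf_Qm_mono hab hc
  have m2 := hf_Qp_anti hab hc
  have b1 := hf_Qm_bounds hA
  have b2 := hf_Qp_bounds hB
  have b3 := hf_Qp_bounds hA
  unfold ff
  rw [div_lt_div_iff₀ (by linarith [b3.1]) (by linarith [b2.1])]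
  have e1 : 0 < (hf Qm (c b) - hf Qm (c a)) * (1 + hf Qp (c a)) :=
    mul_pos (by linarith) (by linarith [b3.1])
  have e2 : 0 < (1 + hf Qm (c a)) * (hf Qp (c a) - hf Qp (c b)) :=
    mul_pos (by linarith [b1.1]) (by linarith)
  nlinarith

/-- slabs of the chamber are compact subsets of `Omg` -/
theorem slab_compact {a b : ℝ} (ha : 0 < a) :
    IsCompact {x | x ∈ Ch ∧ x ∈ Omg ∧ a ≤ ff x ∧ ff x ≤ b} := by
  have h1 := hf_continuousOn_ChAdS isCell_Qm
  have h2 := hf_continuousOn_ChAdS isCell_Qp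
  have key : {x | x ∈ Ch ∧ x ∈ Omg ∧ a ≤ ff x ∧ ff x ≤ b} =
      (Ch ∩ AdS) ∩ (fun x => ((1 + hf Qm x) - a * (1 + hf Qp x),
        b * (1 + hf Qp x) - (1 + hf Qm x))) ⁻¹' (Set.Ici 0 ×ˢ Set.Ici 0) := by
    ext x
    simp only [Set.mem_ofPred_eq, Set.mem_inter_iff, Set.mem_preimage, Set.mem_prod, Set.mem_Ici]
    constructor
    · rintro ⟨hC, hO, ha1, hb1⟩
      have b2 := (hf_Qp_bounds hO).1
      have hpos : 0 < 1 + hf Qp x := by linarith
      unfold ff at ha1 hb1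
      rw [le_div_iff₀ hpos] at ha1
      rw [div_le_iff₀ hpos] at hb1
      exact ⟨⟨hC, hO.2⟩, by linarith, by linarith⟩
    · rintro ⟨⟨hC, hA⟩, ha1, hb1⟩
      have hX := hC
      have hc0 := hC 0
      have hc1 := hC 1
      have hc2 := hC 2
      have hc3 := hC 3
      have hc4 := hC 4
      have e0 : 0 < X 0 x + X 1 x := by
        by_contra hcon
        have e1 : X 0 x = 0 := by linarith
        have e2 : X 1 x = 0 := by linarith
        have hq : x ∈ Qm := ⟨hC, hA, e1, e2⟩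
        obtain ⟨f1, f2⟩ := hf_Qm_on_Qm hq
        rw [f1] at ha1
        have : 0 < a * (1 + hf Qp x) := mul_pos ha (by linarith)
        linarith
      have e1 : 0 < X 2 x + X 3 x + X 4 x := by
        by_contra hcon
        have e1 : X 2 x = 0 := by linarith
        have e2 : X 3 x = 0 := by linarith
        have e3 : X 4 x = 0 := by linarith
        have hq : x ∈ Qp := ⟨hC, hA, e1, e2, e3⟩
        obtain ⟨f1, f2⟩ := hf_Qp_on_Qp hq
        rw [f1] at hb1
        linarith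
      have hO : x ∈ Omg := ⟨mem_Cop_of_Ch hC e0 e1, hA⟩
      have b2 := (hf_Qp_bounds hO).1
      have hpos : 0 < 1 + hf Qp x := by linarith
      refine ⟨hC, hO, ?_, ?_⟩
      · unfold ff; rw [le_div_iff₀ hpos]; linarith
      · unfold ff; rw [div_le_iff₀ hpos]; linarith
  rw [key]
  have hcont : ContinuousOn (fun x => ((1 + hf Qm x) - a * (1 + hf Qp x),
        b * (1 + hf Qp x) - (1 + hf Qm x))) (Ch ∩ AdS) := by
    apply ContinuousOn.prodMk
    · exact (continuousOn_const.add h1).sub (continuousOn_const.mul (continuousOn_const.add h2))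
    · exact (continuousOn_const.mul (continuousOn_const.add h2)).sub (continuousOn_const.add h1)
  obtain ⟨F, hF, hF2⟩ := (continuousOn_iff_isClosed.1 hcont) (Set.Ici 0 ×ˢ Set.Ici 0)
    (isClosed_Ici.prod isClosed_Ici)
  have e : (Ch ∩ AdS) ∩ (fun x => ((1 + hf Qm x) - a * (1 + hf Qp x),
        b * (1 + hf Qp x) - (1 + hf Qm x))) ⁻¹' (Set.Ici 0 ×ˢ Set.Ici 0) = (Ch ∩ AdS) ∩ F := by
    rw [Set.inter_comm, hF2, Set.inter_comm]
  rw [e]
  exact isCompact_ChAdS.inter_right hF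

/-- a future causal vector is bounded by its `om` -/
lemma norm_le_om {z Y : V} (hz : z ∈ AdS) (h : FutureCausal z Y) : ‖Y‖ ≤ om z Y := by
  obtain ⟨h1, h2, h3⟩ := h
  have hz' : B z z = -1 := hz
  set r2 : ℝ := z 3 ^ 2 + z 4 ^ 2 with hr2
  set P : ℝ := Y 0 ^ 2 + Y 1 ^ 2 + Y 2 ^ 2 with hP
  set q : ℝ := z 0 * Y 0 + z 1 * Y 1 + z 2 * Y 2 with hq
  have e1 : r2 = 1 + (z 0 ^ 2 + z 1 ^ 2 + z 2 ^ 2) := by
    unfold B at hz'; rw [hr2]; nlinarith
  have e2 : z 3 * Y 3 + z 4 * Y 4 = q := by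
    unfold B at h1; rw [hq]; linarith
  have e3 : P ≤ Y 3 ^ 2 + Y 4 ^ 2 := by
    unfold B at h2; rw [hP]; nlinarith
  -- Lagrange identity
  have e4 : r2 * (Y 3 ^ 2 + Y 4 ^ 2) = q ^ 2 + om z Y ^ 2 := by
    rw [← e2, hr2]; unfold om; ring
  have e5 : q ^ 2 ≤ (r2 - 1) * P := by
    rw [e1, hq, hP]
    nlinarith [sq_nonneg (z 0 * Y 1 - z 1 * Y 0), sq_nonneg (z 0 * Y 2 - z 2 * Y 0),
      sq_nonneg (z 1 * Y 2 - z 2 * Y 1)]
  have e6 : 1 ≤ r2 := by rw [e1]; nlinarith [sq_nonneg (z 0), sq_nonneg (z 1), sq_nonneg (z 2)]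
  have hP0 : 0 ≤ P := by rw [hP]; positivity
  have e7 : Y 3 ^ 2 + Y 4 ^ 2 ≤ om z Y ^ 2 := by
    nlinarith [mul_le_mul_of_nonneg_left e3 (by linarith : (0:ℝ) ≤ r2 - 1)]
  have e8 : P ≤ om z Y ^ 2 := e3.trans e7
  rw [pi_norm_le_iff_of_nonneg h3.le]
  intro i
  rw [Real.norm_eq_abs]
  apply abs_le_of_sq_le_sq _ h3.le
  fin_cases i
  · show Y 0 ^ 2 ≤ _
    nlinarith [sq_nonneg (Y 1), sq_nonneg (Y 2)]
  · show Y 1 ^ 2 ≤ _
    nlinarith [sq_nonneg (Y 0), sq_nonneg (Y 2)]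
  · show Y 2 ^ 2 ≤ _
    nlinarith [sq_nonneg (Y 1), sq_nonneg (Y 0)]
  · show Y 3 ^ 2 ≤ _
    nlinarith [sq_nonneg (Y 4)]
  · show Y 4 ^ 2 ≤ _
    nlinarith [sq_nonneg (Y 3)]

lemma abs_om_le (x y : V) : |om x y| ≤ 2 * ‖x‖ * ‖y‖ := by
  have h : ∀ i j, |x i * y j| ≤ ‖x‖ * ‖y‖ := by
    intro i j
    rw [abs_mul]
    exact mul_le_mul (by simpa using norm_le_pi_norm x i) (by simpa using norm_le_pi_norm y j)
      (abs_nonneg _) (norm_nonneg _)
  have h0 := abs_le.1 (h 3 4)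
  have h1 := abs_le.1 (h 4 3)
  unfold om
  rw [abs_le]
  constructor <;> linarith [h0.1, h0.2, h1.1, h1.2]

/-- near `y` the linear form `om y` dominates the norm of future causal vectors -/
lemma norm_le_om_near {y z Y : V} (hz : z ∈ AdS) (hyz : ‖z - y‖ ≤ 1 / 4)
    (h : FutureCausal z Y) : ‖Y‖ ≤ 2 * om y Y := by
  have h1 := norm_le_om hz h
  have h2 := (abs_le.1 (abs_om_le (z - y) Y)).2
  have h3 : om (z - y) Y = om z Y - om y Y := by
    rw [om_antisymm, om_sub_right, om_antisymm Y z, om_antisymm Y y]; ring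
  rw [h3] at h2
  have h4 : 2 * ‖z - y‖ * ‖Y‖ ≤ 1 / 2 * ‖Y‖ := by
    apply mul_le_mul_of_nonneg_right _ (norm_nonneg _)
    linarith
  linarith

lemma continuous_act' (w : W) : Continuous (act w) := continuous_act w

lemma causalSeg_of_inext {c : ℝ → V} (hc : InextCausal Omg c) (a b : ℝ) :
    CausalSeg Omg c a b := ⟨hc.1, fun s _ => hc.2.1 s⟩

lemma causalSeg_act_AdS {c : ℝ → V} {a b : ℝ} (w : W) (h : CausalSeg Omg c a b) :
    CausalSeg AdS (fun s => act w (c s)) a b := by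
  have h1 := CausalSeg_act w (Set.inter_subset_right : Omg ⊆ AdS) h
  refine CausalSeg_mono h1 ?_ le_rfl le_rfl
  rintro _ ⟨x, hx, rfl⟩
  exact act_AdS w hx.2

/-- the finite length estimate -/
lemma length_le {c : ℝ → V} {a b : ℝ} (hab : a ≤ b) (hc : CausalSeg AdS c a b) {y : V}
    (hy : ∀ s ∈ Set.Icc a b, ‖c s - y‖ ≤ 1 / 4) :
    ‖c b - c a‖ ≤ 2 * om y (c b - c a) := by
  have hd : ∀ s, HasDerivAt c (deriv c s) s := fun s =>
    ((hc.1.differentiable (by norm_num)) s).hasDerivAt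
  have hf : ContinuousOn (fun s => c s - c a) (Set.Icc a b) :=
    (hc.1.continuous.sub continuous_const).continuousOn
  have hom : ∀ s, HasDerivAt (fun s => 2 * om y (c s - c a)) (2 * om y (deriv c s)) s := by
    intro s
    have h3 := (hasDerivAt_pi.1 (hd s)) 3
    have h4 := (hasDerivAt_pi.1 (hd s)) 4
    have h5 : HasDerivAt (fun s => 2 * (y 3 * (c s 4 - c a 4) - y 4 * (c s 3 - c a 3)))
        (2 * (y 3 * (deriv c s 4) - y 4 * (deriv c s 3))) s :=
      (((h4.sub_const _).const_mul _).sub ((h3.sub_const _).const_mul _)).const_mul _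
    exact h5
  have key := image_norm_le_of_norm_deriv_right_le_deriv_boundary (f := fun s => c s - c a)
    (f' := fun s => deriv c s) (a := a) (b := b) hf
    (fun s _ => ((hd s).sub_const _).hasDerivWithinAt)
    (B := fun s => 2 * om y (c s - c a)) (B' := fun s => 2 * om y (deriv c s))
    (by simp [om]) hom
    (fun s hs => by
      have hs' : s ∈ Set.Icc a b := ⟨hs.1, hs.2.le⟩
      exact norm_le_om_near (hc.2 s hs').1 (hy s hs') (hc.2 s hs').2)
  exact key ⟨hab, le_rfl⟩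

/-- first exit time -/
lemma exit_time {g : ℝ → ℝ} (hg : Continuous g) {a r : ℝ} (h0 : g a < r)
    (h1 : ∃ s, a ≤ s ∧ r ≤ g s) : ∃ t, a ≤ t ∧ g t = r ∧ ∀ τ ∈ Set.Icc a t, g τ ≤ r := by
  set T : Set ℝ := Set.Ici a ∩ g ⁻¹' Set.Ici r with hT
  have hTc : IsClosed T := isClosed_Ici.inter (isClosed_Ici.preimage hg)
  have hTn : T.Nonempty := by obtain ⟨s, hs1, hs2⟩ := h1; exact ⟨s, hs1, hs2⟩
  have hTb : BddBelow T := ⟨a, fun s hs => hs.1⟩
  have hmem : sInf T ∈ T := hTc.csInf_mem hTn hTb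
  have hlt : ∀ τ, a ≤ τ → τ < sInf T → g τ < r := by
    intro τ h2 h3
    by_contra hcon
    have : τ ∈ T := ⟨h2, not_lt.1 hcon⟩
    exact absurd (csInf_le hTb this) (not_le.2 h3)
  have hle : g (sInf T) ≤ r := by
    by_contra hcon
    push Not at hcon
    obtain ⟨τ, hτ, hτ2⟩ := intermediate_value_Icc hmem.1 hg.continuousOn ⟨h0.le, hcon.le⟩
    have hτ3 : τ ≠ sInf T := by rintro rfl; rw [hτ2] at hcon; exact lt_irrefl _ hcon
    have := hlt τ hτ.1 (lt_of_le_of_ne hτ.2 hτ3)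
    rw [hτ2] at this
    exact lt_irrefl _ this
  refine ⟨sInf T, hmem.1, le_antisymm hle hmem.2, fun τ hτ => ?_⟩
  rcases eq_or_lt_of_le hτ.2 with h | h
  · rw [h]; exact hle
  · exact (hlt τ hτ.1 h).le

/-- a curve of finite length staying in a small ball converges in `Omg` -/
lemma no_stay {e : ℝ → V} (hO : ∀ s, e s ∈ Omg) {σ : ℝ} (hσ : σ = 1 ∨ σ = -1) {w : W} {y : V}
    {r : ℝ} (hr1 : r ≤ 1 / 4) (hr2 : ∀ z, ‖z - y‖ ≤ r → z ∈ Cop)
    (hloc : ∀ (s s' : ℝ), s ≤ s' →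
      (∀ τ ∈ Set.Icc s s', ‖act w (e τ) - y‖ ≤ 1 / 4) →
      ‖act w (e s') - act w (e s)‖ ≤ 2 * (σ * om y (act w (e s') - act w (e s))))
    (hlim : ∀ x ∈ Omg, ¬ Tendsto e atTop (𝓝 x)) {s0 : ℝ}
    (h : ∀ s, s0 ≤ s → ‖act w (e s) - y‖ ≤ r) : False := by
  set E : ℝ → V := fun s => act w (e s) with hE
  have hstep : ∀ s s', s0 ≤ s → s ≤ s' → ‖E s' - E s‖ ≤ 2 * (σ * om y (E s') - σ * om y (E s)) := by
    intro s s' h1 h2
    have h3 := hloc s s' h2 (fun τ hτ => (h τ (h1.trans hτ.1)).trans hr1)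
    rw [om_sub_right, mul_sub] at h3
    exact h3
  set g : ℝ → ℝ := fun s => σ * om y (E (max s s0)) with hg
  have hgm : Monotone g := by
    intro s s' hs
    have h3 := hstep (max s s0) (max s' s0) (le_max_right _ _) (max_le_max_right _ hs)
    have h4 := norm_nonneg (E (max s' s0) - E (max s s0))
    simp only [hg]
    linarith
  have hgb : BddAbove (Set.range g) := by
    refine ⟨2 * ‖y‖ * (‖y‖ + r), ?_⟩
    rintro _ ⟨s, rfl⟩
    have h1 := h (max s s0) (le_max_right _ _)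
    have h2 : ‖E (max s s0)‖ ≤ ‖y‖ + r := by
      have h3 := norm_add_le (E (max s s0) - y) y
      rw [sub_add_cancel] at h3
      linarith
    have h3 := abs_om_le y (E (max s s0))
    have h4 : |σ * om y (E (max s s0))| ≤ 2 * ‖y‖ * (‖y‖ + r) := by
      rw [abs_mul]
      have h5 : |σ| = 1 := by rcases hσ with rfl | rfl <;> simp
      rw [h5, one_mul]
      exact h3.trans (mul_le_mul_of_nonneg_left h2 (by positivity))
    exact (le_abs_self _).trans h4
  have hgt := tendsto_atTop_ciSup hgm hgb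
  have hgc : CauchySeq g := hgt.cauchySeq
  have hEc : CauchySeq E := by
    rw [Metric.cauchySeq_iff] at hgc ⊢
    intro ε hε
    obtain ⟨N, hN⟩ := hgc (ε / 2) (by linarith)
    refine ⟨max N s0, fun m hm n hn => ?_⟩
    have hm0 : max m s0 = m := max_eq_left ((le_max_right _ _).trans hm)
    have hn0 : max n s0 = n := max_eq_left ((le_max_right _ _).trans hn)
    have h1 := hN m ((le_max_left _ _).trans hm) n ((le_max_left _ _).trans hn)
    simp only [hg, hm0, hn0, Real.dist_eq] at h1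
    have h2 := abs_lt.1 h1
    rcases le_total m n with hmn | hmn
    · have h3 := hstep m n ((le_max_right _ _).trans hm) hmn
      rw [dist_eq_norm, norm_sub_rev]
      linarith [h2.1, h2.2]
    · have h3 := hstep n m ((le_max_right _ _).trans hn) hmn
      rw [dist_eq_norm]
      linarith [h2.1, h2.2]
  obtain ⟨x, hx⟩ := cauchySeq_tendsto_of_complete hEc
  have hxr : ‖x - y‖ ≤ r := by
    have h1 : Tendsto (fun s => ‖E s - y‖) atTop (𝓝 ‖x - y‖) := (hx.sub_const y).norm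
    exact le_of_tendsto h1 ((eventually_ge_atTop s0).mono fun s hs => h s hs)
  have hxA : x ∈ AdS := isClosed_AdS.mem_of_tendsto hx
    (Eventually.of_forall fun s => act_AdS w (hO s).2)
  have hxO : x ∈ Omg := ⟨hr2 x hxr, hxA⟩
  apply hlim (act w⁻¹ x) ((act_mem_Omg _).2 hxO)
  have h1 := ((continuous_act w⁻¹).tendsto x).comp hx
  refine h1.congr fun s => ?_
  simp [hE]

lemma seg_subset {x y : V} (hx : x ∈ Omg) (hy : y ∈ Omg) : seg x y ⊆ Omg := by
  rintro z ⟨hz, s, t, hs, ht, rfl⟩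
  exact Omg_convex x hx y hy s t hs ht hz

lemma ff_lt_of_om {x y : V} (hx : x ∈ Omg) (hy : y ∈ Omg) (h1 : -1 ≤ B x y) (h2 : B x y < 1)
    (ho : 0 < om x y) : ff x < ff y := by
  obtain ⟨c, a, b, hab, hc, rfl, rfl⟩ := geod_seg hx.2 hy.2 h1 h2 ho
  exact ff_mono hab (CausalSeg_mono hc (seg_subset hx hy) le_rfl le_rfl)

/-- the core of the no imprisonment argument, for both time directions `σ = ± 1` -/
lemma no_imprisonment {e : ℝ → V} (he : Continuous e) (hO : ∀ s, e s ∈ Omg) {σ : ℝ}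
    (hσ : σ = 1 ∨ σ = -1)
    (hloc : ∀ (w : W) (y : V) (s s' : ℝ), s ≤ s' →
      (∀ τ ∈ Set.Icc s s', ‖act w (e τ) - y‖ ≤ 1 / 4) →
      ‖act w (e s') - act w (e s)‖ ≤ 2 * (σ * om y (act w (e s') - act w (e s))))
    (hrel : ∀ (w : W) (s s' : ℝ), s ≤ s' →
      (∀ τ ∈ Set.Icc s s', ∀ τ' ∈ Set.Icc s s', B (act w (e τ)) (act w (e τ')) < 1) →
      -1 ≤ B (act w (e s')) (act w (e s)))
    {β : ℝ} (hlimf : Tendsto (fun s => ff (e s)) atTop (𝓝 β))
    {a b : ℝ} (ha : 0 < a) (hab : ∀ s, 0 ≤ s → a ≤ ff (e s) ∧ ff (e s) ≤ b)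
    (hlim : ∀ x ∈ Omg, ¬ Tendsto e atTop (𝓝 x)) : False := by
  have hch : ∀ n : ℕ, ∃ w : W, act w (e n) ∈ Ch ∧ act w (e n) ∈ Omg := fun n => by
    obtain ⟨w, h1, h2, -, -⟩ := exists_Omg_Ch (hO n)
    exact ⟨w, h1, h2⟩
  choose w hwC hwO using hch
  have hK := slab_compact (a := a) (b := b) ha
  have hyK : ∀ n : ℕ, act (w n) (e n) ∈ {x | x ∈ Ch ∧ x ∈ Omg ∧ a ≤ ff x ∧ ff x ≤ b} := fun n =>
    ⟨hwC n, hwO n, by rw [ff_act]; exact (hab n n.cast_nonneg).1,
      by rw [ff_act]; exact (hab n n.cast_nonneg).2⟩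
  obtain ⟨y, hy, φ, hφ, hlimy⟩ := hK.tendsto_subseq hyK
  have hyO : y ∈ Omg := hy.2.1
  have hφt : Tendsto (fun n => (φ n : ℝ)) atTop atTop :=
    tendsto_natCast_atTop_atTop.comp hφ.tendsto_atTop
  have hffy : ff y = β := by
    have h1 : Tendsto (fun n => ff (act (w (φ n)) (e (φ n)))) atTop (𝓝 (ff y)) :=
      (ff_continuousOn y hyO).tendsto.comp
        (tendsto_nhdsWithin_iff.2 ⟨hlimy, Eventually.of_forall fun n => hwO _⟩)
    have h2 : Tendsto (fun n => ff (act (w (φ n)) (e (φ n)))) atTop (𝓝 β) := by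
      simp_rw [ff_act]
      exact hlimf.comp hφt
    exact tendsto_nhds_unique h1 h2
  obtain ⟨r, hr0, hr1, hr2, hr3⟩ : ∃ r : ℝ, 0 < r ∧ r ≤ 1 / 4 ∧ (∀ z, ‖z - y‖ ≤ r → z ∈ Cop) ∧
      (∀ z z', ‖z - y‖ ≤ r → ‖z' - y‖ ≤ r → B z z' < 1) := by
    have h1 : ∀ᶠ z in 𝓝 y, z ∈ Cop := isOpen_Cop.mem_nhds hyO.1
    have h2 : ∀ᶠ p : V × V in 𝓝 (y, y), B p.1 p.2 < 1 := by
      have hcont : Continuous fun p : V × V => B p.1 p.2 := by fun_prop
      have hB : B y y = -1 := hyO.2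
      have : {p : V × V | B p.1 p.2 < 1} ∈ 𝓝 (y, y) :=
        (isOpen_lt hcont continuous_const).mem_nhds (by simp only [Set.mem_ofPred_eq, hB]; norm_num)
      exact this
    rw [Metric.eventually_nhds_iff] at h1 h2
    obtain ⟨r1, hr1, H1⟩ := h1
    obtain ⟨r2, hr2, H2⟩ := h2
    refine ⟨min (1 / 4) (min (r1 / 2) (r2 / 2)), by positivity, min_le_left _ _, ?_, ?_⟩
    · intro z hz
      apply H1
      rw [dist_eq_norm]
      have := hz.trans ((min_le_right _ _).trans (min_le_left _ _))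
      linarith
    · intro z z' hz hz'
      have g1 := hz.trans ((min_le_right _ _).trans (min_le_right _ _))
      have g2 := hz'.trans ((min_le_right _ _).trans (min_le_right _ _))
      have : dist ((z, z') : V × V) (y, y) < r2 := by
        rw [Prod.dist_eq, dist_eq_norm, dist_eq_norm]
        apply max_lt <;> linarith
      exact H2 this
  obtain ⟨N, hN⟩ : ∃ N, ∀ n ≥ N, ‖act (w (φ n)) (e (φ n)) - y‖ < r := by
    rw [Metric.tendsto_atTop] at hlimy
    obtain ⟨N, hN⟩ := hlimy r hr0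
    exact ⟨N, fun n hn => by have := hN n hn; rwa [dist_eq_norm] at this⟩
  have hex : ∀ n : ℕ, ∃ t : ℝ, (φ (n + N) : ℝ) ≤ t ∧ ‖act (w (φ (n + N))) (e t) - y‖ = r ∧
      ∀ τ ∈ Set.Icc (φ (n + N) : ℝ) t, ‖act (w (φ (n + N))) (e τ) - y‖ ≤ r := by
    intro n
    apply exit_time (g := fun t => ‖act (w (φ (n + N))) (e t) - y‖)
    · exact (((continuous_act _).comp he).sub continuous_const).norm
    · exact hN _ (Nat.le_add_left _ _)
    · by_contra hcon
      push Not at hcon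
      exact no_stay hO hσ hr1 hr2 (hloc _ y) hlim (fun s hs => (hcon s hs).le)
  choose t ht1 ht2 ht3 using hex
  have hzS : ∀ n, act (w (φ (n + N))) (e (t n)) ∈ Metric.sphere y r := fun n => by
    rw [mem_sphere_iff_norm]; exact ht2 n
  obtain ⟨z, hz, ψ, hψ, hlimz⟩ := (isCompact_sphere y r).tendsto_subseq hzS
  rw [mem_sphere_iff_norm] at hz
  have hlimy' : Tendsto (fun n => act (w (φ (ψ n + N))) (e (φ (ψ n + N)))) atTop (𝓝 y) :=
    hlimy.comp ((tendsto_add_atTop_nat N).comp hψ.tendsto_atTop)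
  have htt : Tendsto (fun n => t (ψ n)) atTop atTop := by
    apply tendsto_atTop_mono (fun n => ht1 (ψ n))
    exact hφt.comp ((tendsto_add_atTop_nat N).comp hψ.tendsto_atTop)
  have hzA : z ∈ AdS := isClosed_AdS.mem_of_tendsto hlimz
    (Eventually.of_forall fun n => act_AdS _ (hO _).2)
  have hzO : z ∈ Omg := ⟨hr2 z hz.le, hzA⟩
  have hffz : ff z = β := by
    have h1 : Tendsto (fun n => ff (act (w (φ (ψ n + N))) (e (t (ψ n))))) atTop (𝓝 (ff z)) :=
      (ff_continuousOn z hzO).tendsto.comp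
        (tendsto_nhdsWithin_iff.2 ⟨hlimz, Eventually.of_forall fun n => (act_mem_Omg _).2 (hO _)⟩)
    have h2 : Tendsto (fun n => ff (act (w (φ (ψ n + N))) (e (t (ψ n))))) atTop (𝓝 β) := by
      simp_rw [ff_act]
      exact hlimf.comp htt
    exact tendsto_nhds_unique h1 h2
  have hlen : ‖z - y‖ ≤ 2 * (σ * om y (z - y)) := by
    have h1 : Tendsto (fun n => ‖act (w (φ (ψ n + N))) (e (t (ψ n))) -
        act (w (φ (ψ n + N))) (e (φ (ψ n + N)))‖) atTop (𝓝 ‖z - y‖) := (hlimz.sub hlimy').norm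
    have h2 : Tendsto (fun n => 2 * (σ * om y (act (w (φ (ψ n + N))) (e (t (ψ n))) -
        act (w (φ (ψ n + N))) (e (φ (ψ n + N)))))) atTop (𝓝 (2 * (σ * om y (z - y)))) :=
      ((tendsto_om tendsto_const_nhds (hlimz.sub hlimy')).const_mul σ).const_mul 2
    exact le_of_tendsto_of_tendsto' h1 h2 fun n =>
      hloc _ y _ _ (ht1 _) (fun τ hτ => (ht3 _ τ hτ).trans hr1)
  have hB1 : -1 ≤ B z y := by
    have h1 := tendsto_B hlimz hlimy'
    exact ge_of_tendsto' h1 fun n => hrel _ _ _ (ht1 _)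
      (fun τ hτ τ' hτ' => hr3 _ _ (ht3 _ τ hτ) (ht3 _ τ' hτ'))
  have hB2 : B z y < 1 := hr3 _ _ hz.le (by simpa using hr0.le)
  have hom : 0 < σ * om y z := by
    rw [om_sub_right, om_self, sub_zero, hz] at hlen
    linarith
  rcases hσ with rfl | rfl
  · have := ff_lt_of_om hyO hzO (by rwa [B_comm]) (by rwa [B_comm]) (by linarith)
    rw [hffy, hffz] at this
    exact lt_irrefl _ this
  · have := ff_lt_of_om hzO hyO hB1 hB2 (by rw [om_antisymm]; linarith)
    rw [hffy, hffz] at this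
    exact lt_irrefl _ this

theorem ff_unbounded {c : ℝ → V} (hc : InextCausal Omg c) (b : ℝ) : ∃ s, b < ff (c s) := by
  by_contra hcon
  push Not at hcon
  have hmono : StrictMono (fun s => ff (c s)) := fun s s' hs =>
    ff_mono hs (causalSeg_of_inext hc s s')
  have hbdd : BddAbove (Set.range fun s => ff (c s)) := ⟨b, by rintro _ ⟨s, rfl⟩; exact hcon s⟩
  have hlimf := tendsto_atTop_ciSup hmono.monotone hbdd
  refine no_imprisonment (e := c) hc.1.continuous (fun s => (hc.2.1 s).1) (σ := 1) (Or.inl rfl)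
    ?_ ?_ hlimf (a := ff (c 0)) (b := b) (ff_pos (hc.2.1 0).1)
    (fun s hs => ⟨hmono.monotone hs, hcon s⟩) (fun x hx => (hc.2.2 x hx).1)
  · intro w y s s' hs h
    rw [one_mul]
    exact length_le hs (causalSeg_act_AdS w (causalSeg_of_inext hc s s')) h
  · intro w s s' hs h
    exact causal_relation hs (causalSeg_act_AdS w (causalSeg_of_inext hc s s'))
      (fun τ hτ => h τ hτ s ⟨le_rfl, hs⟩)

theorem ff_small {c : ℝ → V} (hc : InextCausal Omg c) {b : ℝ} (hb : 0 < b) : ∃ s, ff (c s) < b := by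
  by_contra hcon
  push Not at hcon
  have hmono : StrictMono (fun s => ff (c s)) := fun s s' hs =>
    ff_mono hs (causalSeg_of_inext hc s s')
  have hbdd : BddBelow (Set.range fun s => ff (c s)) := ⟨b, by rintro _ ⟨s, rfl⟩; exact hcon s⟩
  have hlimf := (tendsto_atBot_ciInf hmono.monotone hbdd).comp tendsto_neg_atTop_atBot
  refine no_imprisonment (e := fun s => c (-s)) (hc.1.continuous.comp continuous_neg)
    (fun s => (hc.2.1 (-s)).1) (σ := -1) (Or.inr rfl)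
    ?_ ?_ hlimf (a := b) (b := ff (c 0)) hb
    (fun s hs => ⟨hcon (-s), hmono.monotone (by linarith)⟩) ?_
  · intro w y s s' hs h
    have h1 := length_le (c := fun s => act w (c s)) (a := -s') (b := -s) (by linarith)
      (causalSeg_act_AdS w (causalSeg_of_inext hc (-s') (-s))) (y := y)
      (fun τ hτ => by
        have := h (-τ) ⟨by linarith [hτ.2], by linarith [hτ.1]⟩
        rwa [neg_neg] at this)
    rw [norm_sub_rev]
    refine h1.trans (le_of_eq ?_)
    rw [om_sub_right, om_sub_right]; ring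
  · intro w s s' hs h
    have h1 := causal_relation (c := fun s => act w (c s)) (a := -s') (b := -s) (by linarith)
      (causalSeg_act_AdS w (causalSeg_of_inext hc (-s') (-s)))
      (fun τ hτ => by
        have := h (-τ) ⟨by linarith [hτ.2], by linarith [hτ.1]⟩ s' ⟨hs, le_rfl⟩
        rwa [neg_neg] at this)
    rw [B_comm]; exact h1
  · intro x hx ht
    apply (hc.2.2 x hx).2
    have := ht.comp tendsto_neg_atBot_atTop
    refine this.congr fun s => ?_
    simp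

lemma SS_eq {x : V} (hx : x ∈ Omg) : x ∈ SS ↔ ff x = 1 := by
  have b2 := (hf_Qp_bounds hx).1
  have hpos : 0 < 1 + hf Qp x := by linarith
  unfold SS ff
  simp only [Set.mem_ofPred_eq, hx, true_and]
  rw [div_eq_one_iff_eq hpos.ne']
  constructor
  · intro h; rw [h]
  · intro h; linarith

theorem SS_cauchy : IsCauchy Omg SS := by
  refine ⟨fun x hx => hx.1, fun c hc => ?_⟩
  have hmono : StrictMono (fun s => ff (c s)) := fun s s' hs =>
    ff_mono hs (causalSeg_of_inext hc s s')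
  have hcont : Continuous (fun s => ff (c s)) := by
    rw [← continuousOn_univ]
    exact ff_continuousOn.comp hc.1.continuous.continuousOn (fun s _ => (hc.2.1 s).1)
  obtain ⟨s1, h1⟩ := ff_unbounded hc 1
  obtain ⟨s0, h0⟩ := ff_small hc one_pos
  obtain ⟨s, hs⟩ := mem_range_of_exists_le_of_exists_ge hcont ⟨s0, h0.le⟩ ⟨s1, h1.le⟩
  refine ⟨s, (SS_eq (hc.2.1 s).1).2 hs, ?_⟩
  intro s' hs'
  apply hmono.injective
  show ff (c s') = ff (c s)
  rw [(SS_eq (hc.2.1 s').1).1 hs']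
  exact hs.symm

lemma act_SS (w : W) {x : V} (hx : x ∈ SS) : act w x ∈ SS :=
  ⟨(act_mem_Omg w).2 hx.1, by rw [hf_act, hf_act]; exact hx.2⟩

theorem SS_compact : ∃ K ⊆ SS, IsCompact K ∧ ∀ x ∈ SS, ∃ γ ∈ Gam, γ x ∈ K := by
  obtain ⟨R, hR⟩ := Gam_reps
  set K0 : Set V := {x | x ∈ Ch ∧ x ∈ Omg ∧ 1 ≤ ff x ∧ ff x ≤ 1} with hK0
  have hc : IsCompact K0 := slab_compact one_pos
  refine ⟨⋃ r ∈ R, (act r⁻¹) '' K0, ?_, ?_, ?_⟩
  · intro x hx
    simp only [Set.mem_iUnion] at hx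
    obtain ⟨r, _, z, hz, rfl⟩ := hx
    exact act_SS _ ((SS_eq hz.2.1).2 (le_antisymm hz.2.2.2 hz.2.2.1))
  · exact R.isCompact_biUnion fun r _ => hc.image (continuous_act _)
  · intro x hx
    obtain ⟨w, hw1, hw2, -, -⟩ := exists_Omg_Ch hx.1
    obtain ⟨r, hr, hr2⟩ := hR w
    refine ⟨_, hr2, ?_⟩
    simp only [Set.mem_iUnion]
    refine ⟨r, hr, act w x, ?_, ?_⟩
    · have h1 : ff (act w x) = 1 := (SS_eq hw2).1 (act_SS w hx)
      exact ⟨hw1, hw2, h1.ge, h1.le⟩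
    · rw [← act_mul]

theorem SS_inv {γ : V ≃ₗ[ℝ] V} (h : γ ∈ Gam) {x : V} (hx : x ∈ SS) : γ x ∈ SS := by
  obtain ⟨w, rfl, -⟩ := h
  exact act_SS w hx

end Pool.Agent.H93.KT
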